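import Pool.Agent.Lib.MP_10e784_agBS.Defs
import Mathlib.RingTheory.Polynomial.Resultant.Basic

/-!
# Hyperelliptic curves `y² = q₁ q₂ q₃ F`: definitions and the interfaces of the blocks K, R, G, O
-/

namespace HY

open Finset Polynomial MWS

section
variable {R : Type*} [CommRing R]

/-- the value of the binary quadratic form `v₀ z² + v₁ x z + v₂ x²` -/
def qe (v : Fin 3 → R) (x z : R) : R := v 0 * z ^ 2 + v 1 * (x * z) + v 2 * x ^ 2

/-- the discriminant -/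
def dq (v : Fin 3 → R) : R := v 1 ^ 2 - 4 * (v 0 * v 2)

/-- the mixed discriminant: `dq (v + t w) = dq v + t bq v w + t² dq w` -/
def bq (v w : Fin 3 → R) : R := 2 * (v 1 * w 1) - 4 * (v 0 * w 2) - 4 * (v 2 * w 0)

/-- the resultant: `bq v w ^ 2 - 4 dq v dq w = 16 rq v w` -/
def rq (v w : Fin 3 → R) : R :=
  (v 0 * w 2 - v 2 * w 0) ^ 2 - (v 2 * w 1 - v 1 * w 2) * (v 1 * w 0 - v 0 * w 1)

/-- half of the Jacobian -/
def jq (v w : Fin 3 → R) (x z : R) : R :=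
  (v 2 * w 1 - v 1 * w 2) * x ^ 2 + 2 * (v 2 * w 0 - v 0 * w 2) * (x * z) + (v 1 * w 0 - v 0 * w 1) * z ^ 2

/-- `E : Y² = X (X² - bq v w X + dq v dq w)` in the form `y² = x³ + A x + B` (`x = 9 X - 3 bq v w`): the coefficient `A` -/
def Aq (v w : Fin 3 → R) : R := 81 * (dq v * dq w) - 27 * bq v w ^ 2

/-- the coefficient `B` -/
def Bq (v w : Fin 3 → R) : R := 243 * (bq v w * (dq v * dq w)) - 54 * bq v w ^ 3

/-- the value of the binary form with coefficients `f` -/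
def fe {m : ℕ} (f : Fin (m + 1) → R) (x z : R) : R := ∑ i : Fin (m + 1), f i * x ^ (i : ℕ) * z ^ (m - (i : ℕ))

/-- the polynomial with coefficients `f` -/
noncomputable def pol {k : ℕ} (f : Fin k → R) : R[X] := ∑ i : Fin k, monomial (i : ℕ) (f i)

/-- the coefficients of the product `q₁ q₂ q₃ Q` -/
noncomputable def mulF {n : ℕ} (q : Fin 3 → Fin 3 → R) (Q : Fin (n + 1) → R) : Fin (n + 6 + 1) → R :=
  fun i => (pol (q 0) * pol (q 1) * pol (q 2) * pol Q).coeff i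

/-- the resultant of a quadratic form and `f` -/
noncomputable def rf {m : ℕ} (v : Fin 3 → R) (f : Fin (m + 1) → R) : R := resultant (pol v) (pol f) 2 m

/-- the product of all the discriminants and resultants -/
noncomputable def RR {m : ℕ} (q : Fin 3 → Fin 3 → R) (f : Fin (m + 1) → R) : R :=
  (∏ i, dq (q i)) * (rq (q 0) (q 1) * rq (q 0) (q 2) * rq (q 1) (q 2)) * ∏ i, rf (q i) f

end

/-- a point over the ring of integers, coprime coordinates -/
def Sol {m : ℕ} (q : Fin 3 → Fin 3 → ℤ) (f : Fin (m + 1) → ℤ) : Prop :=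
  ∃ x z y : ℤ, IsCoprime x z ∧ y ^ 2 = qe (q 0) x z * qe (q 1) x z * qe (q 2) x z * fe f x z

/-- the triples of quadratic forms modulo `p` for which all three elliptic curves have a number of points divisible by a
prime in `(U, 4 U]`, and without zeros over `ZMod p` -/
def good (p U : ℕ) (v : Fin 3 → Fin 3 → ZMod p) : Prop :=
  (∀ i, ¬ IsSquare (dq (v i))) ∧ ∀ i j : Fin 3, i < j → Gk p U 1 (Aq (v i) (v j), Bq (v i) (v j))

/-- the `b` such that the number of points of `Y² = X (X² - b X + 1)` is divisible by a prime in `(U, 4 U]` -/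
def GB (p U : ℕ) : Set (ZMod p) := {b | Gk p U 1 (81 - 27 * b ^ 2, 243 * b - 54 * b ^ 3)}

/-- the interface of block K -/
def FactK : Prop := ∃ c : ℝ, 0 < c ∧ ∃ K : ℕ, ∀ U : ℕ, K ≤ U → ∀ p : ℕ, p.Prime → p % 4 = 3 → U ^ K ≤ p →
  (K : ℝ) * Real.log p ≤ U → c * p / Real.log p ≤ (Nat.card (GB p U) : ℝ)

/-- the interface of block G -/
def FactG : Prop := ∃ c : ℝ, 0 < c ∧ ∃ K : ℕ, ∀ U : ℕ, K ≤ U → ∀ p : ℕ, p.Prime → p % 4 = 3 → U ^ K ≤ p →
  (K : ℝ) * Real.log p ≤ U → c * (p : ℝ) ^ 9 / Real.log p ^ 3 ≤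
    (Nat.card {v : Fin 3 × Fin 3 → ZMod p // good p U (fun i j => v (i, j))} : ℝ)

/-- the interface of block R: descent by 2-isogeny for `y² = x³ + a x² + b x` -/
def FactR2 : Prop := ∃ C0 : ℕ, ∀ a b : ℤ, b ≠ 0 → a ^ 2 - 4 * b ≠ 0 →
  Few (81 * b - 27 * a ^ 2) (54 * a ^ 3 - 243 * (a * b))
    (b.natAbs.primeFactors.card + (a ^ 2 - 4 * b).natAbs.primeFactors.card + C0)

/-- the interface of block O: almost always `RR` is not `0` and has few prime factors -/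
def FactO : Prop := ∀ c : ℝ, 0 < c → c < 1 / 4 → ∀ m : ℕ, ∃ C : ℝ, ∀ H : ℕ, 1 ≤ H →
  (Nat.card {z : (Fin 3 × Fin 3 → ℤ) × (Fin (m + 1) → ℤ) // (∀ i, |z.1 i| ≤ (H : ℤ)) ∧ (∀ i, |z.2 i| ≤ (H : ℤ) ^ 4) ∧
    (RR (fun i j => z.1 (i, j)) z.2 = 0 ∨
      Real.log H ^ (3 * c) < ((RR (fun i j => z.1 (i, j)) z.2).natAbs.primeFactors.card : ℝ))} : ℝ) ≤
    C * (H : ℝ) ^ (9 + 4 * (m + 1)) * Real.exp (-(Real.log H) ^ c)

end HY
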