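import Pool.Agent.Lib.LW.Curve

/-!
# LEAF EA: polynomials over large prime fields which are not a constant times a square take square values

PROOF.  `f ≠ 0`.  `f = s² h` with `h` squarefree (strong induction on the degree: if `f` is not squarefree then `g * g ∣ f` for a non-unit `g`); `h` is not constant (otherwise `f = C c * s²`).  `R` = the set of the roots of `s h` in `ZMod p`, at most `n` elements.
Let `p` be odd, `u` in `{1, ν}`, `ν` a nonsquare, `N u = #{(x, y) : y² = u h(x)}`.  `N 1 + N ν = 2 p`: for every `x` with `h(x) ≠ 0` exactly one of `h(x)`, `ν h(x)` is a square, which gives two `y`, and for `h(x) = 0` both have one `y`.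
`F = Y² - ν h(X)` (outer variable `Y`) is irreducible over the algebraic closure `L`: `ν h` is not a square in `L[X]`: `ZMod p` is perfect, so the squarefree `h` is separable, so its image in `L[X]` is squarefree and not a unit (a monic quadratic polynomial over the integrally closed domain `L[X]` without a root in `L[X]` is irreducible; `X ^ 2 - C a` irreducible iff `a` is not a square).  `LW.curve_le` with the degree `n + 2`: `100 N ν ≤ 105 p`, so `N 1 ≥ (95/100) p`, so at least `(95/100) p / 2` of the `x` have `h(x)` a square (or `0`), for large `p` one of them is not in `R`: then `f(x) = s(x)² h(x) ≠ 0` is a square.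
-/

set_option autoImplicit false

namespace HY

open Polynomial

private theorem EA_decomp {K : Type} [Field K] : ∀ (m : ℕ) (f : K[X]), f.natDegree ≤ m → f ≠ 0 →
    ∃ s h : K[X], f = s ^ 2 * h ∧ Squarefree h := by
  intro m
  induction m with
  | zero =>
    intro f hf hf0
    refine ⟨1, f, by rw [one_pow, one_mul], ?_⟩
    have h1 : f = C (f.coeff 0) := eq_C_of_natDegree_le_zero hf
    have h2 : IsUnit f := by
      rw [h1]
      refine isUnit_C.2 (isUnit_iff_ne_zero.2 fun h3 => hf0 ?_)
      rw [h1, h3, map_zero]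
    exact h2.squarefree
  | succ m ih =>
    intro f hf hf0
    by_cases hsq : Squarefree f
    · exact ⟨1, f, by rw [one_pow, one_mul], hsq⟩
    · unfold Squarefree at hsq
      push Not at hsq
      obtain ⟨g, ⟨f', hf'⟩, hg⟩ := hsq
      have hg0 : g ≠ 0 := by
        rintro rfl
        apply hf0
        rw [hf', zero_mul, zero_mul]
      have hf'0 : f' ≠ 0 := by
        rintro rfl
        apply hf0
        rw [hf', mul_zero]
      have hgd : 0 < g.natDegree := by
        rcases Nat.eq_zero_or_pos g.natDegree with h0 | h0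
        · exfalso
          apply hg
          have h1 : g = C (g.coeff 0) := eq_C_of_natDegree_eq_zero h0
          rw [h1]
          refine isUnit_C.2 (isUnit_iff_ne_zero.2 fun h3 => hg0 ?_)
          rw [h1, h3, map_zero]
        · exact h0
      have hd : f.natDegree = g.natDegree + g.natDegree + f'.natDegree := by
        rw [hf', natDegree_mul (mul_ne_zero hg0 hg0) hf'0, natDegree_mul hg0 hg0]
      obtain ⟨s, h, hs, hh⟩ := ih f' (by omega) hf'0
      refine ⟨g * s, h, ?_, hh⟩
      rw [hf', hs]
      ring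

private theorem EA_irr {p : ℕ} [Fact p.Prime] (h : (ZMod p)[X]) (hsq : Squarefree h) (hd : h.natDegree ≠ 0)
    (ν : ZMod p) (hν : ν ≠ 0) :
    Irreducible ((X ^ 2 - C (C ν * h) : (ZMod p)[X][X]).map
      (mapRingHom (algebraMap (ZMod p) (AlgebraicClosure (ZMod p))))) := by
  set L := AlgebraicClosure (ZMod p) with hL
  set φ := algebraMap (ZMod p) L with hφ
  have h1 : (X ^ 2 - C (C ν * h) : (ZMod p)[X][X]).map (mapRingHom φ) =
      X ^ 2 - C ((C ν * h).map φ) := by
    rw [Polynomial.map_sub, Polynomial.map_pow, map_X, map_C]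
    rfl
  rw [h1]
  have hmon : (X ^ 2 - C ((C ν * h).map φ) : L[X][X]).Monic := monic_X_pow_sub_C _ (by norm_num)
  have hnd : (X ^ 2 - C ((C ν * h).map φ) : L[X][X]).natDegree = 2 := natDegree_X_pow_sub_C
  rw [hmon.irreducible_iff_roots_eq_zero_of_degree_le_three (by omega) (by omega)]
  rw [Multiset.eq_zero_iff_forall_notMem]
  intro g hg
  rw [mem_roots hmon.ne_zero, IsRoot.def, eval_sub, eval_pow, eval_X, eval_C, sub_eq_zero] at hg
  have hu : IsUnit (C ν : (ZMod p)[X]) := isUnit_C.2 (isUnit_iff_ne_zero.2 hν)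
  have hsq' : Squarefree (C ν * h) := by
    intro x hx
    refine hsq x ?_
    exact (IsUnit.dvd_mul_left hu).1 hx
  have hsep : (C ν * h).Separable := PerfectField.separable_iff_squarefree.2 hsq'
  have hsep' : ((C ν * h).map φ).Separable := hsep.map
  have hgu : IsUnit g := by
    refine hsep'.squarefree g ?_
    rw [← hg, pow_two]
  have h2 : IsUnit ((C ν * h).map φ) := by
    rw [← hg]
    exact hgu.pow 2
  have h3 : ((C ν * h).map φ).natDegree = 0 := natDegree_eq_zero_of_isUnit h2
  rw [natDegree_map_eq_of_injective φ.injective, natDegree_C_mul hν] at h3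
  exact hd h3

private theorem EA_sq_mul {p : ℕ} [Fact p.Prime] (a b : ZMod p) (ha : ¬ IsSquare a) (hb : ¬ IsSquare b) :
    IsSquare (a * b) := by
  have ha0 : a ≠ 0 := by
    rintro rfl
    exact ha ⟨0, by rw [mul_zero]⟩
  have hb0 : b ≠ 0 := by
    rintro rfl
    exact hb ⟨0, by rw [mul_zero]⟩
  have h1 := quadraticChar_neg_one_iff_not_isSquare.2 ha
  have h2 := quadraticChar_neg_one_iff_not_isSquare.2 hb
  refine (quadraticChar_one_iff_isSquare (mul_ne_zero ha0 hb0)).1 ?_
  rw [map_mul, h1, h2]
  norm_num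

theorem many_x (n : ℕ) : ∃ P1 : ℕ, ∀ (p : ℕ) [Fact p.Prime], P1 ≤ p → ∀ f : (ZMod p)[X], f.natDegree ≤ n →
    (¬ ∃ (c : ZMod p) (s : (ZMod p)[X]), f = C c * s ^ 2) → ∃ x, f.eval x ≠ 0 ∧ IsSquare (f.eval x) := by
  classical
  obtain ⟨C0, c0, hcur⟩ := LW.curve_le
  refine ⟨C0 * (n + 2) ^ c0 + 3 * n + 3, fun p _ hP f hfn hf => ?_⟩
  by_contra hcon
  push Not at hcon
  have hf0 : f ≠ 0 := by
    rintro rfl
    exact hf ⟨0, 0, by simp⟩
  obtain ⟨s, h, hfs, hsq⟩ := EA_decomp _ f le_rfl hf0
  have hs0 : s ≠ 0 := by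
    rintro rfl
    apply hf0
    rw [hfs]
    simp
  have hh0 : h ≠ 0 := hsq.ne_zero
  have hdeg : h.natDegree ≠ 0 := by
    intro h0
    refine hf ⟨h.coeff 0, s, ?_⟩
    rw [← eq_C_of_natDegree_eq_zero h0, hfs, mul_comm]
  have hp2 : p ≠ 2 := by omega
  obtain ⟨ν, hν⟩ := FiniteField.exists_nonsquare (F := ZMod p) (by rw [ZMod.ringChar_zmod_n]; exact hp2)
  have hν0 : ν ≠ 0 := by
    rintro rfl
    exact hν ⟨0, by rw [mul_zero]⟩
  have hhn : h.natDegree ≤ n := by
    have h1 : f.natDegree = (s ^ 2).natDegree + h.natDegree := by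
      rw [hfs, natDegree_mul (pow_ne_zero 2 hs0) hh0]
    omega
  have hirr := EA_irr h hsq hdeg ν hν0
  have hdegs : ∀ i, (X ^ 2 - C (C ν * h) : (ZMod p)[X][X]).coeff i ≠ 0 →
      ((X ^ 2 - C (C ν * h) : (ZMod p)[X][X]).coeff i).natDegree + i ≤ n + 2 := by
    intro i hi
    have hi2 : i ≤ 2 := by
      have h1 := le_natDegree_of_ne_zero hi
      rwa [natDegree_X_pow_sub_C] at h1
    have h2 : ((X ^ 2 - C (C ν * h) : (ZMod p)[X][X]).coeff i).natDegree ≤ if i = 0 then n else 0 := by
      rw [coeff_sub, coeff_X_pow, coeff_C]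
      by_cases h0 : i = 0
      · subst h0
        rw [if_pos rfl, if_pos rfl, if_neg (by norm_num), zero_sub, natDegree_neg, natDegree_C_mul hν0]
        exact hhn
      · rw [if_neg h0, if_neg h0, sub_zero]
        split_ifs
        · rw [natDegree_one]
        · rw [natDegree_zero]
    split_ifs at h2 with h0
    · omega
    · omega
  have hc := hcur p (n + 2) (by omega) (by omega) (X ^ 2 - C (C ν * h)) hdegs hirr
  set S := Finset.univ.filter fun q : ZMod p × ZMod p =>
    (X ^ 2 - C (C ν * h) : (ZMod p)[X][X]).evalEval q.1 q.2 = 0 with hS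
  set T := Finset.univ.filter fun x : ZMod p => f.eval x ≠ 0 with hT
  have hTc : p ≤ T.card + n := by
    have h1 : (Finset.univ.filter fun x : ZMod p => ¬ (f.eval x ≠ 0)).card ≤ n := by
      refine le_trans (Finset.card_le_card (t := f.roots.toFinset) ?_) ?_
      · intro x hx
        rw [Finset.mem_filter, not_not] at hx
        rw [Multiset.mem_toFinset, mem_roots hf0]
        exact hx.2
      · exact le_trans (Multiset.toFinset_card_le _) (le_trans (card_roots' f) hfn)
    have h2 := Finset.card_filter_add_card_filter_not (s := (Finset.univ : Finset (ZMod p)))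
      (fun x => f.eval x ≠ 0)
    rw [Finset.card_univ, ZMod.card] at h2
    rw [hT]
    omega
  have hfib : ∀ x ∈ T, 2 ≤ (S.filter fun q => q.1 = x).card := by
    intro x hx
    rw [hT, Finset.mem_filter] at hx
    have hfx := hx.2
    have hns := hcon x hfx
    have hev : f.eval x = s.eval x ^ 2 * h.eval x := by rw [hfs, eval_mul, eval_pow]
    have hhx : ¬ IsSquare (h.eval x) := by
      rintro ⟨r, hr⟩
      apply hns
      refine ⟨s.eval x * r, ?_⟩
      rw [hev, hr]
      ring
    obtain ⟨y, hy⟩ := EA_sq_mul ν (h.eval x) hν hhx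
    have hhx0 : h.eval x ≠ 0 := by
      intro h0
      apply hfx
      rw [hev, h0, mul_zero]
    have hy0 : y ≠ 0 := by
      rintro rfl
      rw [mul_zero] at hy
      exact mul_ne_zero hν0 hhx0 hy
    have h20 : (2 : ZMod p) ≠ 0 := by
      intro h2
      have h3 : ((2 : ℕ) : ZMod p) = 0 := by exact_mod_cast h2
      rw [ZMod.natCast_eq_zero_iff] at h3
      have h4 := Nat.le_of_dvd (by norm_num) h3
      have h5 := (Fact.out : p.Prime).two_le
      omega
    have hyn : y ≠ -y := by
      intro h1
      have h2 : 2 * y = 0 := by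
        calc 2 * y = y + y := by ring
          _ = y + -y := by rw [← h1]
          _ = 0 := by ring
      rcases mul_eq_zero.1 h2 with h3 | h3
      · exact h20 h3
      · exact hy0 h3
    have hpair : (x, y) ≠ (x, -y) := fun h1 => hyn (Prod.ext_iff.1 h1).2
    rw [← Finset.card_pair hpair]
    refine Finset.card_le_card ?_
    intro q hq
    rw [Finset.mem_insert, Finset.mem_singleton] at hq
    rw [Finset.mem_filter, hS, Finset.mem_filter]
    have hq1 : q.1 = x := by
      rcases hq with rfl | rfl <;> rfl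
    have hq2 : q.2 ^ 2 = ν * h.eval x := by
      rcases hq with rfl | rfl
      · show y ^ 2 = _
        rw [hy]
        ring
      · show (-y) ^ 2 = _
        rw [hy]
        ring
    refine ⟨⟨Finset.mem_univ _, ?_⟩, hq1⟩
    unfold evalEval
    rw [eval_sub, eval_pow, eval_X, eval_C, eval_sub, eval_pow, eval_C, eval_mul, eval_C, hq1, hq2, sub_self]
  have hSc : 2 * T.card ≤ S.card := by
    have h1 : S.card = ∑ x : ZMod p, (S.filter fun q => q.1 = x).card :=
      Finset.card_eq_sum_card_fiberwise fun q _ => Finset.mem_univ _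
    rw [h1]
    calc 2 * T.card = ∑ x ∈ T, 2 := by rw [Finset.sum_const, smul_eq_mul, mul_comm]
      _ ≤ ∑ x ∈ T, (S.filter fun q => q.1 = x).card := Finset.sum_le_sum hfib
      _ ≤ ∑ x : ZMod p, (S.filter fun q => q.1 = x).card :=
        Finset.sum_le_sum_of_subset (Finset.subset_univ _)
  omega

end HY
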