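import Pool.Agent.Lib.MP_10e784_agH.SDefs

/-!
# LEAF PB: the product `q₁ q₂ q₃ Q`

PROOF.  `pol_coeff`: `Polynomial.finset_sum_coeff`, `coeff_monomial`.  `pol_mulF`: the product has degree `≤ n + 6`, so it is determined by its first `n + 7` coefficients.
`fe_mulF`: homogenisation: for polynomials `P`, `P'` with `natDegree P ≤ a`, `natDegree P' ≤ b` put `hev a P x z = ∑ i ∈ range (a + 1), P.coeff i * x ^ i * z ^ (a - i)`; `hev (a + b) (P P') = hev a P · hev b P'` (`coeff_mul`, `Finset.sum_sigma'`; or: linearity in both arguments reduces to monomials; or a ring homomorphism).  `hev 2 (pol v) = qe v`, `hev n (pol Q) = fe Q`.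
`mulF_map`: `map_mul`, `coeff_map`, `pol` commutes with ring homomorphisms.
-/

set_option autoImplicit false

namespace HY

open Finset Polynomial MWS

variable {R S : Type*} [CommRing R] [CommRing S]

theorem pol_coeff {k : ℕ} (f : Fin k → R) (i : ℕ) : (pol f).coeff i = if h : i < k then f ⟨i, h⟩ else 0 := by
  unfold pol
  rw [Polynomial.finsetSum_coeff]
  simp only [coeff_monomial]
  by_cases h : i < k
  · rw [dif_pos h, Finset.sum_eq_single (⟨i, h⟩ : Fin k)]
    · simp
    · intro b _ hb
      rw [if_neg]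
      intro e
      exact hb (Fin.ext e)
    · intro h'
      exact absurd (Finset.mem_univ _) h'
  · rw [dif_neg h]
    refine Finset.sum_eq_zero fun b _ => ?_
    rw [if_neg]
    intro e
    exact h (e ▸ b.2)

theorem pol_deg {m : ℕ} (f : Fin (m + 1) → R) : (pol f).natDegree ≤ m := by
  rw [Polynomial.natDegree_le_iff_coeff_eq_zero]
  intro N hN
  rw [pol_coeff, dif_neg]
  omega

theorem pol_mulF {n : ℕ} (q : Fin 3 → Fin 3 → R) (Q : Fin (n + 1) → R) :
    pol (mulF q Q) = pol (q 0) * pol (q 1) * pol (q 2) * pol Q := by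
  ext i
  rw [pol_coeff]
  by_cases h : i < n + 6 + 1
  · rw [dif_pos h]
    rfl
  · rw [dif_neg h]
    symm
    refine Polynomial.coeff_eq_zero_of_natDegree_lt ?_
    have h0 := pol_deg (q 0)
    have h1 := pol_deg (q 1)
    have h2 := pol_deg (q 2)
    have h3 := pol_deg Q
    have a1 : (pol (q 0) * pol (q 1)).natDegree ≤ (pol (q 0)).natDegree + (pol (q 1)).natDegree :=
      Polynomial.natDegree_mul_le
    have a2 : (pol (q 0) * pol (q 1) * pol (q 2)).natDegree ≤
        (pol (q 0) * pol (q 1)).natDegree + (pol (q 2)).natDegree :=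
      Polynomial.natDegree_mul_le
    have a3 : (pol (q 0) * pol (q 1) * pol (q 2) * pol Q).natDegree ≤
        (pol (q 0) * pol (q 1) * pol (q 2)).natDegree + (pol Q).natDegree :=
      Polynomial.natDegree_mul_le
    omega

/-- `pol` commutes with ring homomorphisms -/
private theorem pb_map (φ : R →+* S) {k : ℕ} (f : Fin k → R) :
    pol (fun i => φ (f i)) = (pol f).map φ := by
  unfold pol
  rw [Polynomial.map_sum]
  refine Finset.sum_congr rfl fun i _ => ?_
  rw [Polynomial.map_monomial]

/-- the value of the homogenisation of `pol f` -/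
private theorem pb_hev {m : ℕ} (f : Fin (m + 1) → R) (x z : R) :
    MvPolynomial.eval ![x, z] ((pol f).homogenize m) = fe f x z := by
  unfold pol fe
  rw [Polynomial.homogenize_finsetSum, map_sum]
  refine Finset.sum_congr rfl fun i _ => ?_
  rw [Polynomial.homogenize_monomial (Nat.lt_succ_iff.1 i.2), MvPolynomial.eval_monomial,
    Finsupp.update_eq_add_single (by simp), Finsupp.prod_add_index', Finsupp.prod_single_index,
    Finsupp.prod_single_index]
  · simp [mul_assoc]
  · simp
  · simp
  · intro a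
    exact pow_zero _
  · intro a b c
    exact pow_add _ _ _

private theorem pb_fe_two (v : Fin 3 → R) (x z : R) : fe (m := 2) v x z = qe v x z := by
  unfold fe qe
  rw [Fin.sum_univ_three]
  simp only [Fin.val_zero, Fin.val_one, Fin.val_two, pow_zero, pow_one, Nat.sub_zero, Nat.sub_self]
  norm_num
  ring

theorem fe_mulF {n : ℕ} (q : Fin 3 → Fin 3 → R) (Q : Fin (n + 1) → R) (x z : R) :
    fe (mulF q Q) x z = qe (q 0) x z * qe (q 1) x z * qe (q 2) x z * fe Q x z := by
  rw [← pb_hev, pol_mulF]
  have e : n + 6 = 2 + 2 + 2 + n := by omega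
  have h0 := pol_deg (q 0)
  have h1 := pol_deg (q 1)
  have h2 := pol_deg (q 2)
  have h3 := pol_deg Q
  have a1 : (pol (q 0) * pol (q 1)).natDegree ≤ 2 + 2 :=
    Polynomial.natDegree_mul_le.trans (add_le_add h0 h1)
  have a2 : (pol (q 0) * pol (q 1) * pol (q 2)).natDegree ≤ 2 + 2 + 2 :=
    Polynomial.natDegree_mul_le.trans (add_le_add a1 h2)
  rw [e, Polynomial.homogenize_mul _ _ a2 h3, Polynomial.homogenize_mul _ _ a1 h2,
    Polynomial.homogenize_mul _ _ h0 h1, map_mul, map_mul, map_mul, pb_hev, pb_hev, pb_hev, pb_hev,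
    pb_fe_two, pb_fe_two, pb_fe_two]

theorem mulF_map (φ : R →+* S) {n : ℕ} (q : Fin 3 → Fin 3 → R) (Q : Fin (n + 1) → R) :
    mulF (fun i j => φ (q i j)) (fun i => φ (Q i)) = fun i => φ (mulF q Q i) := by
  funext i
  unfold mulF
  simp only [pb_map, ← Polynomial.map_mul, Polynomial.coeff_map]

end HY
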