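import Pool.Agent.Lib.MP_10e784_agH.EDefs
import Pool.Agent.Lib.MP_10e784_agH.PB

/-!
# LEAF EB: the number of the bad forms modulo `p`

PROOF.  `g = pol (q 0) * pol (q 1) * pol (q 2) ≠ 0` (`pol_coeff`), `γ = natDegree g ≤ 6`.  If `g * pol f = C c * s²` then, `c = 0` giving `f = 0` (`s = 0`), and `c = t²` or `c = ν t²` with a fixed nonsquare `ν` (if `p = 2` every `c` is a square): `g * pol f = (C t s)²` or `= C ν (C t s)²`.  So `f ↦ (which case, s)` with `g * pol f = C ν^ε s²` is injective (`g ≠ 0`, `pol` injective by `pol_coeff`): the number is at most `2 · #V`, `V = {s : natDegree s ≤ D, g ∣ s²}`, `D = (m + γ) / 2` (`s = 0` or `2 natDegree s = γ + natDegree (pol f) ≤ γ + m`).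
`#V ≤ p ^ (m / 2 + 1)`: there is `g'` with `g ∣ s² → g' ∣ s` for all `s` and `2 natDegree g' ≥ γ`: by strong induction on the degree of `g ≠ 0`: if `g` is squarefree, `g' = g` (`g ∣ s²` implies `g ∣ s`: `Squarefree.dvd_of_squarefree_of_..` / `IsRadical`); otherwise `g = a² b`, `a` not a unit, `g ∣ s²` implies `a² ∣ s²`, `a ∣ s`, `s = a t`, `b ∣ t²`, `g' = a b'`.  So `V` injects into the polynomials `t` with `natDegree t ≤ D - natDegree g'` (or `t = 0`), at most `p ^ (D - natDegree g' + 1)` (`Polynomial.degreeLT`, `card`), and `D - natDegree g' ≤ (m + γ) / 2 - (γ + 1) / 2 ≤ m / 2` for even `m`.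
-/

set_option autoImplicit false

namespace HY

open Polynomial

private theorem EB_root {F : Type} [Field F] : ∀ (n : ℕ) (g : F[X]), g.natDegree = n → g ≠ 0 →
    ∃ g' : F[X], g' ≠ 0 ∧ (∀ s : F[X], g ∣ s ^ 2 → g' ∣ s) ∧ n ≤ 2 * g'.natDegree := by
  intro n
  induction n using Nat.strong_induction_on with
  | _ n ih =>
    intro g hn hg
    by_cases hsq : Squarefree g
    · exact ⟨g, hg, fun s hs => hsq.isRadical 2 s hs, by omega⟩
    · unfold Squarefree at hsq
      push Not at hsq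
      obtain ⟨a, ⟨b, hab⟩, hu⟩ := hsq
      have ha : a ≠ 0 := by
        rintro rfl
        apply hg
        rw [hab, zero_mul, zero_mul]
      have hb : b ≠ 0 := by
        rintro rfl
        apply hg
        rw [hab, mul_zero]
      have hda : 0 < a.natDegree := by
        rw [Nat.pos_iff_ne_zero]
        intro h0
        apply hu
        rw [Polynomial.isUnit_iff_degree_eq_zero, Polynomial.degree_eq_natDegree ha, h0]
        rfl
      have hdeg : g.natDegree = a.natDegree + a.natDegree + b.natDegree := by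
        rw [hab, Polynomial.natDegree_mul (mul_ne_zero ha ha) hb, Polynomial.natDegree_mul ha ha]
      obtain ⟨b', hb', h1, h2⟩ := ih b.natDegree (by omega) b rfl hb
      refine ⟨a * b', mul_ne_zero ha hb', fun s hs => ?_, ?_⟩
      · have h3 : a ^ 2 ∣ s ^ 2 := by
          refine Dvd.dvd.trans ?_ hs
          rw [hab, sq]
          exact Dvd.intro _ rfl
        rw [UniqueFactorizationMonoid.pow_dvd_pow_iff_dvd two_ne_zero] at h3
        obtain ⟨t, rfl⟩ := h3
        refine mul_dvd_mul_left a (h1 t ?_)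
        rw [hab, mul_pow, ← sq] at hs
        exact (mul_dvd_mul_iff_left (pow_ne_zero 2 ha)).1 hs
      · rw [Polynomial.natDegree_mul ha hb']
        omega

private theorem EB_nu (p : ℕ) [Fact p.Prime] : ∃ ν : ZMod p, ν ≠ 0 ∧
    ∀ c : ZMod p, c ≠ 0 → ∃ r : ZMod p, c = 1 * r ^ 2 ∨ c = ν * r ^ 2 := by
  by_cases h : ∃ ν : ZMod p, ¬ IsSquare ν
  · obtain ⟨ν, hν⟩ := h
    have hν0 : ν ≠ 0 := by
      rintro rfl
      exact hν IsSquare.zero
    refine ⟨ν, hν0, fun c hc => ?_⟩
    by_cases h1 : IsSquare c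
    · obtain ⟨r, hr⟩ := h1
      exact ⟨r, Or.inl (by rw [hr]; ring)⟩
    · have h2 : quadraticChar (ZMod p) (c * ν) = 1 := by
        rw [map_mul, quadraticChar_neg_one_iff_not_isSquare.2 h1,
          quadraticChar_neg_one_iff_not_isSquare.2 hν]
        norm_num
      obtain ⟨w, hw⟩ := (quadraticChar_one_iff_isSquare (mul_ne_zero hc hν0)).1 h2
      refine ⟨w / ν, Or.inr ?_⟩
      field_simp
      rw [hw]
      ring
  · push Not at h
    refine ⟨1, one_ne_zero, fun c _ => ?_⟩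
    obtain ⟨r, hr⟩ := h c
    exact ⟨r, Or.inl (by rw [hr]; ring)⟩

private theorem EB_inj {R : Type*} [CommRing R] {k : ℕ} {f f' : Fin k → R}
    (h : pol f = pol f') : f = f' := by
  funext i
  have h1 := congrArg (fun P : R[X] => P.coeff (i : ℕ)) h
  simp only [pol_coeff, i.2, dif_pos, Fin.eta] at h1
  exact h1

private theorem EB_key {p : ℕ} [Fact p.Prime] {m : ℕ} (q : Fin 3 → Fin 3 → ZMod p)
    (hq : ∀ i, q i ≠ 0) : ∃ (g' : (ZMod p)[X]) (ν : ZMod p), ∀ f : Fin (m + 1) → ZMod p,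
      BadF p q f → ∃ (ε : Bool) (t : (ZMod p)[X]), t.natDegree ≤ m / 2 ∧
        pol (q 0) * pol (q 1) * pol (q 2) * pol f = C (bif ε then ν else 1) * (g' * t) ^ 2 := by
  have hpq : ∀ i, pol (q i) ≠ 0 := by
    intro i h0
    apply hq i
    apply EB_inj
    rw [h0]
    unfold pol
    simp
  obtain ⟨g, hg⟩ : ∃ g, g = pol (q 0) * pol (q 1) * pol (q 2) := ⟨_, rfl⟩
  have hg0 : g ≠ 0 := by
    rw [hg]
    exact mul_ne_zero (mul_ne_zero (hpq 0) (hpq 1)) (hpq 2)
  obtain ⟨g', hg', h1, h2⟩ := EB_root _ g rfl hg0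
  obtain ⟨ν, hν, h3⟩ := EB_nu p
  refine ⟨g', ν, fun f hf => ?_⟩
  obtain ⟨c, s, hcs⟩ := hf
  rw [← hg] at hcs ⊢
  by_cases hf0 : pol f = 0
  · refine ⟨false, 0, by simp, ?_⟩
    rw [hf0]
    simp
  have hc : c ≠ 0 := by
    rintro rfl
    apply mul_ne_zero hg0 hf0
    rw [hcs, C_0, zero_mul]
  obtain ⟨r, hr⟩ := h3 c hc
  have h4 : ∃ (ε : Bool), C c * s ^ 2 = C (bif ε then ν else 1) * (C r * s) ^ 2 := by
    rcases hr with hr | hr
    · refine ⟨false, ?_⟩
      rw [hr, map_mul, map_pow]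
      simp only [cond_false]
      ring
    · refine ⟨true, ?_⟩
      rw [hr, map_mul, map_pow]
      simp only [cond_true]
      ring
  obtain ⟨ε, hε⟩ := h4
  rw [hε] at hcs
  have hu0 : (bif ε then ν else 1) ≠ 0 := by
    cases ε
    · exact one_ne_zero
    · exact hν
  have hS0 : C r * s ≠ 0 := by
    intro h0
    apply mul_ne_zero hg0 hf0
    rw [hcs, h0]
    ring
  have hdvd : g ∣ (C r * s) ^ 2 := by
    have h5 : g ∣ C (bif ε then ν else 1) * (C r * s) ^ 2 := hcs ▸ Dvd.intro _ rfl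
    exact (IsUnit.dvd_mul_left (Polynomial.isUnit_C.2 (isUnit_iff_ne_zero.2 hu0))).1 h5
  obtain ⟨t, ht⟩ := h1 _ hdvd
  have ht0 : t ≠ 0 := by
    rintro rfl
    apply hS0
    rw [ht, mul_zero]
  refine ⟨ε, t, ?_, by rw [hcs, ht]⟩
  have h6 := congrArg Polynomial.natDegree hcs
  rw [ht, Polynomial.natDegree_mul hg0 hf0, Polynomial.natDegree_C_mul hu0,
    Polynomial.natDegree_pow, Polynomial.natDegree_mul hg' ht0] at h6
  have h7 := pol_deg f
  omega

theorem count_bad {p : ℕ} [Fact p.Prime] {m : ℕ} (hm : Even m) (q : Fin 3 → Fin 3 → ZMod p) (hq : ∀ i, q i ≠ 0) :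
    Nat.card {f : Fin (m + 1) → ZMod p // BadF p q f} ≤ 2 * p ^ (m / 2 + 1) := by
  obtain ⟨g', ν, h⟩ := EB_key (m := m) q hq
  have hpq : ∀ i, pol (q i) ≠ 0 := by
    intro i h0
    apply hq i
    apply EB_inj
    rw [h0]
    unfold pol
    simp
  choose ε t ht he using h
  let Φ : {f : Fin (m + 1) → ZMod p // BadF p q f} → Bool × (Fin (m / 2 + 1) → ZMod p) :=
    fun f => (ε f.1 f.2, fun i => (t f.1 f.2).coeff (i : ℕ))
  have hΦ : Function.Injective Φ := by
    rintro ⟨f, hf⟩ ⟨f', hf'⟩ hff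
    have h1 : ε f hf = ε f' hf' := congrArg Prod.fst hff
    have h2 : t f hf = t f' hf' := by
      ext i
      by_cases hi : i < m / 2 + 1
      · exact congrFun (congrArg Prod.snd hff) ⟨i, hi⟩
      · rw [Polynomial.coeff_eq_zero_of_natDegree_lt ((ht f hf).trans_lt (by omega)),
          Polynomial.coeff_eq_zero_of_natDegree_lt ((ht f' hf').trans_lt (by omega))]
    have h3 : pol (q 0) * pol (q 1) * pol (q 2) * pol f =
        pol (q 0) * pol (q 1) * pol (q 2) * pol f' := by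
      rw [he f hf, he f' hf', h1, h2]
    exact Subtype.ext (EB_inj (mul_left_cancel₀
      (mul_ne_zero (mul_ne_zero (hpq 0) (hpq 1)) (hpq 2)) h3))
  refine (Nat.card_le_card_of_injective Φ hΦ).trans (le_of_eq ?_)
  rw [Nat.card_prod, Nat.card_eq_fintype_card, Fintype.card_bool, Nat.card_eq_fintype_card,
    Fintype.card_fun, ZMod.card, Fintype.card_fin]

end HY
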