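import Pool.Agent.Lib.MP_10e784_agH.SDefs

/-!
# LEAF PA: identities

PROOF.  `unfold`, `ring` (`Fin 3` indices; `simp only [..]; ring`).  `.._map`: `map_add`, `map_mul`, `map_pow`, `map_ofNat`.  `dsc_tw`: `dsc` is `4 α³ + 27 β²`.
-/

set_option autoImplicit false

namespace HY

open Finset Polynomial MWS

variable {R S : Type*} [CommRing R] [CommRing S]

theorem bq_sq (v w : Fin 3 → R) : bq v w ^ 2 - 4 * (dq v * dq w) = 16 * rq v w := by
  simp only [bq, dq, rq]
  ring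

theorem syz (v w : Fin 3 → R) (x z : R) :
    jq v w x z ^ 2 = dq v * qe w x z ^ 2 - bq v w * (qe v x z * qe w x z) + dq w * qe v x z ^ 2 := by
  simp only [jq, qe, bq, dq]
  ring

theorem dsc_q (v w : Fin 3 → R) :
    4 * Aq v w ^ 3 + 27 * Bq v w ^ 2 = -(3 ^ 12 * 16) * ((dq v * dq w) ^ 2 * rq v w) := by
  have h := bq_sq v w
  have e : 4 * Aq v w ^ 3 + 27 * Bq v w ^ 2
      = -(3 ^ 12) * ((dq v * dq w) ^ 2 * (bq v w ^ 2 - 4 * (dq v * dq w))) := by
    simp only [Aq, Bq]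
    ring
  rw [e, h]
  ring

theorem qe_map (φ : R →+* S) (v : Fin 3 → R) (x z : R) : qe (fun i => φ (v i)) (φ x) (φ z) = φ (qe v x z) := by
  simp only [qe, map_add, map_mul, map_pow]

theorem dq_map (φ : R →+* S) (v : Fin 3 → R) : dq (fun i => φ (v i)) = φ (dq v) := by
  simp only [dq, map_sub, map_mul, map_pow, map_ofNat]

theorem bq_map (φ : R →+* S) (v w : Fin 3 → R) : bq (fun i => φ (v i)) (fun i => φ (w i)) = φ (bq v w) := by
  simp only [bq, map_sub, map_mul, map_ofNat]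

theorem rq_map (φ : R →+* S) (v w : Fin 3 → R) : rq (fun i => φ (v i)) (fun i => φ (w i)) = φ (rq v w) := by
  simp only [rq, map_sub, map_mul, map_pow]

theorem Aq_map (φ : R →+* S) (v w : Fin 3 → R) : Aq (fun i => φ (v i)) (fun i => φ (w i)) = φ (Aq v w) := by
  simp only [Aq, dq_map, bq_map, map_sub, map_mul, map_pow, map_ofNat]

theorem Bq_map (φ : R →+* S) (v w : Fin 3 → R) : Bq (fun i => φ (v i)) (fun i => φ (w i)) = φ (Bq v w) := by
  simp only [Bq, dq_map, bq_map, map_sub, map_mul, map_pow, map_ofNat]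

theorem fe_map (φ : R →+* S) {m : ℕ} (f : Fin (m + 1) → R) (x z : R) :
    fe (fun i => φ (f i)) (φ x) (φ z) = φ (fe f x z) := by
  simp only [fe, map_sum, map_mul, map_pow]

theorem fe_add {m : ℕ} (f g : Fin (m + 1) → R) (x z : R) : fe (f + g) x z = fe f x z + fe g x z := by
  simp only [fe, Pi.add_apply]
  rw [← Finset.sum_add_distrib]
  exact Finset.sum_congr rfl fun i _ => by ring

/-- scaling of the coordinates -/
theorem qe_smul (v : Fin 3 → R) (t x z : R) : qe v (t * x) (t * z) = t ^ 2 * qe v x z := by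
  simp only [qe]
  ring

theorem fe_smul {m : ℕ} (f : Fin (m + 1) → R) (t x z : R) : fe f (t * x) (t * z) = t ^ m * fe f x z := by
  simp only [fe, Finset.mul_sum]
  refine Finset.sum_congr rfl fun i _ => ?_
  have hi : (i : ℕ) + (m - (i : ℕ)) = m := by
    have := i.isLt
    omega
  have ht : t ^ m = t ^ (i : ℕ) * t ^ (m - (i : ℕ)) := by
    rw [← pow_add, hi]
  rw [ht, mul_pow, mul_pow]
  ring

theorem dsc_tw (D : ℤ) (v w : Fin 3 → ℤ) :
    dsc (D ^ 2 * Aq v w) (D ^ 3 * Bq v w) = -(3 ^ 12 * 16) * (D ^ 6 * ((dq v * dq w) ^ 2 * rq v w)) := by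
  have h := dsc_q v w
  have e : dsc (D ^ 2 * Aq v w) (D ^ 3 * Bq v w) = D ^ 6 * (4 * Aq v w ^ 3 + 27 * Bq v w ^ 2) := by
    simp only [dsc]
    ring
  rw [e, h]
  ring

end HY
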