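import Pool.Agent.Lib.MP_10e784_agH.EDefs
import Pool.Agent.Lib.MP_10e784_agH.PA
import Pool.Agent.Lib.MP_10e784_agH.PB
import Pool.Agent.Lib.MP_10e784_agL.HA

/-!
# LEAF EC: local points

PROOF.  `pol_eval`: `∑ monomial` evaluated; `qe v x 1`, `fe f x 1`.
`sol_p`: `x₀ : ℤ` a lift of `x`, the point `(x₀, 1)`: `V = qe .. * qe .. * qe .. * fe ..` at `(x₀, 1)` in `ℤ` is, modulo `p`, the value of the polynomial (`qe_map`, `fe_map`), a nonzero square `t²`: `sq_unit` (`MP_10e784_agL/HA.lean`): `V` is a square in `ℤ_[p]`.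
`sol_lead`: the point `(1, 0)`: `qe v 1 0 = v 2`, `fe f 1 0 = f (Fin.last m)`.
-/

set_option autoImplicit false

namespace HY

open Polynomial

theorem pol_eval3 {R : Type*} [CommRing R] (v : Fin 3 → R) (x : R) : (pol v).eval x = qe v x 1 := by
  unfold pol qe
  rw [Fin.sum_univ_three, eval_add, eval_add, eval_monomial, eval_monomial, eval_monomial]
  simp only [Fin.val_zero, Fin.val_one, Fin.val_two]
  ring

theorem pol_eval {R : Type*} [CommRing R] {m : ℕ} (f : Fin (m + 1) → R) (x : R) : (pol f).eval x = fe f x 1 := by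
  unfold pol fe
  rw [eval_finsetSum]
  refine Finset.sum_congr rfl fun i _ => ?_
  rw [eval_monomial, one_pow, mul_one]

theorem sol_p {p : ℕ} [Fact p.Prime] (hp : p ≠ 2) {m : ℕ} (q : Fin 3 → Fin 3 → ℤ) (f : Fin (m + 1) → ℤ) (x : ZMod p)
    (h0 : (pol (cq p q 0) * pol (cq p q 1) * pol (cq p q 2) * pol (cf p f)).eval x ≠ 0)
    (hs : IsSquare ((pol (cq p q 0) * pol (cq p q 1) * pol (cq p q 2) * pol (cf p f)).eval x)) : SolK ℚ_[p] q f := by
  obtain ⟨x₀, hx₀⟩ := ZMod.intCast_surjective x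
  obtain ⟨V, hV⟩ : ∃ V : ℤ, V = qe (q 0) x₀ 1 * qe (q 1) x₀ 1 * qe (q 2) x₀ 1 * fe f x₀ 1 := ⟨_, rfl⟩
  have hq : ∀ (R : Type) [CommRing R] (i : Fin 3), qe (fun j => ((q i j : ℤ) : R)) ((x₀ : ℤ) : R) 1 =
      ((qe (q i) x₀ 1 : ℤ) : R) := by
    intro R _ i
    have h := qe_map (Int.castRingHom R) (q i) x₀ 1
    rw [map_one] at h
    exact h
  have hf : ∀ (R : Type) [CommRing R], fe (fun j => ((f j : ℤ) : R)) ((x₀ : ℤ) : R) 1 = ((fe f x₀ 1 : ℤ) : R) := by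
    intro R _
    have h := fe_map (Int.castRingHom R) f x₀ 1
    rw [map_one] at h
    exact h
  have hVR : ∀ (R : Type) [CommRing R], qe (fun j => ((q 0 j : ℤ) : R)) ((x₀ : ℤ) : R) 1 *
      qe (fun j => ((q 1 j : ℤ) : R)) ((x₀ : ℤ) : R) 1 * qe (fun j => ((q 2 j : ℤ) : R)) ((x₀ : ℤ) : R) 1 *
      fe (fun j => ((f j : ℤ) : R)) ((x₀ : ℤ) : R) 1 = ((V : ℤ) : R) := by
    intro R _
    rw [hq, hq, hq, hf, hV]
    push_cast
    ring
  have hev : (pol (cq p q 0) * pol (cq p q 1) * pol (cq p q 2) * pol (cf p f)).eval x = ((V : ℤ) : ZMod p) := by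
    rw [eval_mul, eval_mul, eval_mul, pol_eval3, pol_eval3, pol_eval3, pol_eval, ← hx₀]
    exact hVR (ZMod p)
  rw [hev] at h0 hs
  obtain ⟨t, ht⟩ := hs
  have ht0 : t ≠ 0 := by
    rintro rfl
    apply h0
    rw [ht, mul_zero]
  have h1 : PadicInt.toZMod ((V : ℤ) : ℤ_[p]) = t ^ 2 := by
    rw [map_intCast, ht, sq]
  obtain ⟨s, hs, -⟩ := BLS.sq_unit p hp ((V : ℤ) : ℤ_[p]) t ht0 h1
  refine ⟨((x₀ : ℤ) : ℚ_[p]), 1, (s : ℚ_[p]), Or.inr one_ne_zero, ?_⟩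
  rw [hVR ℚ_[p]]
  have h2 : (((V : ℤ) : ℤ_[p]) : ℚ_[p]) = ((s ^ 2 : ℤ_[p]) : ℚ_[p]) := by rw [hs]
  rw [PadicInt.coe_intCast, PadicInt.coe_pow] at h2
  exact h2.symm

theorem sol_lead (K : Type) [Field K] {m : ℕ} (q : Fin 3 → Fin 3 → ℤ) (f : Fin (m + 1) → ℤ)
    (h : IsSquare (((q 0 2 * q 1 2 * q 2 2 * f (Fin.last m) : ℤ)) : K)) : SolK K q f := by
  obtain ⟨y, hy⟩ := h
  refine ⟨1, 0, y, Or.inl one_ne_zero, ?_⟩
  have hq : ∀ i : Fin 3, qe (fun j => ((q i j : ℤ) : K)) 1 0 = ((q i 2 : ℤ) : K) := by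
    intro i
    unfold qe
    ring
  have hf : fe (fun i => ((f i : ℤ) : K)) 1 0 = ((f (Fin.last m) : ℤ) : K) := by
    unfold fe
    rw [Finset.sum_eq_single (Fin.last m)]
    · rw [Fin.val_last, one_pow, Nat.sub_self, pow_zero, mul_one, mul_one]
    · intro i _ hi
      have h3 : (i : ℕ) < m := Fin.val_lt_last hi
      rw [zero_pow (by omega), mul_zero]
    · intro h
      exact absurd (Finset.mem_univ _) h
  rw [hq, hq, hq, hf, sq, ← hy]
  push_cast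
  ring

end HY
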