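import Pool.Agent.Lib.MP_10e784_agH.EA
import Pool.Agent.Lib.MP_10e784_agH.EC

/-!
# LEAF ED: everywhere locally soluble

MODEL: `els` in `MP_10e784_agL/SB.lean`.
PROOF.  `P1` from `many_x (m + 6)`, and `≥ 4`.  `M = 8 * P0!`, `N = q₀₂ q₁₂ q₂₂ f_m ≡ 1` modulo `M`, `N > 0`.  Real points: `sol_lead`, `sq_real`.  `p = 2`: `sq_two`.  `2 < p ≤ P0`: `p ∣ P0!`: `sq_odd`.  `p > P0`: not `BadF`, so `many_x` for the polynomial `pol .. * pol .. * pol .. * pol ..` (degree `≤ m + 6`: `pol_deg`, and `natDegree (pol (v : Fin 3 → _)) ≤ 2`) and `sol_p`.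
-/

set_option autoImplicit false

namespace HY

open Polynomial

private theorem ED_deg {R : Type*} [CommRing R] {m : ℕ} (q : Fin 3 → Fin 3 → R) (f : Fin (m + 1) → R) :
    (pol (q 0) * pol (q 1) * pol (q 2) * pol f).natDegree ≤ m + 6 := by
  have h0 : (pol (q 0)).natDegree ≤ 2 := pol_deg (q 0)
  have h1 : (pol (q 1)).natDegree ≤ 2 := pol_deg (q 1)
  have h2 : (pol (q 2)).natDegree ≤ 2 := pol_deg (q 2)
  have h3 := pol_deg f
  have a1 : (pol (q 0) * pol (q 1)).natDegree ≤ 2 + 2 :=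
    Polynomial.natDegree_mul_le.trans (add_le_add h0 h1)
  have a2 : (pol (q 0) * pol (q 1) * pol (q 2)).natDegree ≤ 2 + 2 + 2 :=
    Polynomial.natDegree_mul_le.trans (add_le_add a1 h2)
  have a3 : (pol (q 0) * pol (q 1) * pol (q 2) * pol f).natDegree ≤ 2 + 2 + 2 + m :=
    Polynomial.natDegree_mul_le.trans (add_le_add a2 h3)
  omega

private theorem ED_dvd {M a b c d : ℤ} (ha : M ∣ a - 1) (hb : M ∣ b - 1) (hc : M ∣ c - 1) (hd : M ∣ d - 1) :
    M ∣ a * b * c * d - 1 := by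
  obtain ⟨x, hx⟩ := ha
  obtain ⟨y, hy⟩ := hb
  obtain ⟨z, hz⟩ := hc
  obtain ⟨w, hw⟩ := hd
  refine ⟨x * b * c * d + y * c * d + z * d + w, ?_⟩
  linear_combination (b * c * d) * hx + (c * d) * hy + d * hz + hw

theorem els (m : ℕ) : ∃ P1 : ℕ, 4 ≤ P1 ∧ ∀ P0 : ℕ, P1 ≤ P0 → ∀ (H H' : ℕ) (q : Fin 3 × Fin 3 → ℤ)
    (f : Fin (m + 1) → ℤ), Tq (8 * P0.factorial) H q → Tf (8 * P0.factorial) H' f →
    (∀ (p : ℕ) (_ : Fact p.Prime), P0 < p → ¬ BadF p (cq p (fun i j => q (i, j))) (cf p f)) →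
    SolK ℝ (fun i j => q (i, j)) f ∧ ∀ (p : ℕ) [Fact p.Prime], SolK ℚ_[p] (fun i j => q (i, j)) f := by
  obtain ⟨P1, hP1⟩ := many_x (m + 6)
  refine ⟨max P1 4, le_max_right _ _, fun P0 h0 H H' q f hq hf hB => ?_⟩
  have hpos : 0 < q (0, 2) * q (1, 2) * q (2, 2) * f (Fin.last m) :=
    mul_pos (mul_pos (mul_pos (hq.2 0).1 (hq.2 1).1) (hq.2 2).1) hf.2.1
  have hdvd : ((8 * P0.factorial : ℕ) : ℤ) ∣ q (0, 2) * q (1, 2) * q (2, 2) * f (Fin.last m) - 1 :=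
    ED_dvd (hq.2 0).2 (hq.2 1).2 (hq.2 2).2 hf.2.2
  refine ⟨sol_lead ℝ (fun i j => q (i, j)) f (BLS.sq_real _ hpos), fun p hp => ?_⟩
  have hP1' : P1 ≤ P0 := (le_max_left _ _).trans h0
  rcases lt_or_ge P0 p with h | h
  · have h2 : p ≠ 2 := by
      have := le_trans (le_max_right P1 4) h0
      omega
    obtain ⟨x, hx0, hxs⟩ := hP1 p (hP1'.trans h.le) _
      (ED_deg (cq p (fun i j => q (i, j))) (cf p f)) (hB p hp h)
    exact sol_p h2 (fun i j => q (i, j)) f x hx0 hxs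
  · rcases eq_or_ne p 2 with h2 | h2
    · subst h2
      apply sol_lead
      apply BLS.sq_two
      refine dvd_trans ?_ hdvd
      push_cast
      exact dvd_mul_right _ _
    · apply sol_lead
      apply BLS.sq_odd p h2
      refine dvd_trans ?_ hdvd
      exact_mod_cast (dvd_mul_of_dvd_right ((Nat.Prime.dvd_factorial hp.out).mpr h) 8)

end HY
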