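import Pool.Agent.Lib.MP_10e784_agH.SDefs

/-!
# Block E (local solubility): definitions
-/

set_option autoImplicit false

namespace HY

open Finset Polynomial

/-- the curve `y² = q₁ q₂ q₃ F` has a point over the field `K` -/
def SolK (K : Type) [Field K] {m : ℕ} (q : Fin 3 → Fin 3 → ℤ) (f : Fin (m + 1) → ℤ) : Prop :=
  ∃ x z y : K, (x ≠ 0 ∨ z ≠ 0) ∧ y ^ 2 = qe (fun j => ((q 0 j : ℤ) : K)) x z * qe (fun j => ((q 1 j : ℤ) : K)) x z *
    qe (fun j => ((q 2 j : ℤ) : K)) x z * fe (fun i => ((f i : ℤ) : K)) x z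

/-- `q₁ q₂ q₃ F` is a constant times a square modulo `p` -/
def BadF (p : ℕ) {m : ℕ} (q : Fin 3 → Fin 3 → ZMod p) (f : Fin (m + 1) → ZMod p) : Prop :=
  ∃ (c : ZMod p) (s : (ZMod p)[X]), pol (q 0) * pol (q 1) * pol (q 2) * pol f = C c * s ^ 2

/-- the box of the quadratic forms with leading coefficients positive and `≡ 1` modulo `M` -/
def Tq (M H : ℕ) (q : Fin 3 × Fin 3 → ℤ) : Prop :=
  (∀ k, |q k| ≤ (H : ℤ)) ∧ ∀ i : Fin 3, 0 < q (i, 2) ∧ (M : ℤ) ∣ q (i, 2) - 1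

/-- the box of the forms of degree `m` with leading coefficient positive and `≡ 1` modulo `M` -/
def Tf (M H : ℕ) {m : ℕ} (f : Fin (m + 1) → ℤ) : Prop :=
  (∀ k, |f k| ≤ (H : ℤ)) ∧ 0 < f (Fin.last m) ∧ (M : ℤ) ∣ f (Fin.last m) - 1

/-- the conditions on the quadratic forms: no discriminant and no resultant is `0`, no prime `p > P0` divides all the
coefficients of one of them, no prime `p ≥ L` divides two of the resultants -/
def Gq (P0 L : ℕ) (q : Fin 3 → Fin 3 → ℤ) : Prop :=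
  (∀ i, dq (q i) ≠ 0) ∧ (∀ i j, i ≠ j → rq (q i) (q j) ≠ 0) ∧
  (∀ p : ℕ, p.Prime → P0 < p → ∀ i, ∃ j, ¬ (p : ℤ) ∣ q i j) ∧
  ∀ p : ℕ, p.Prime → L ≤ p → ∀ i j k : Fin 3, i ≠ j → i ≠ k → j ≠ k → ¬ ((p : ℤ) ∣ rq (q i) (q j) ∧ (p : ℤ) ∣ rq (q i) (q k))

end HY
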