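import Pool.Agent.Lib.MP_10e784_agH.EB
import Pool.Agent.Lib.MP_10e784_agL.MA
import Pool.Agent.Lib.MP_10e784_agL.MB

/-!
# LEAF EE: the bad forms at the primes `p ≤ N / M`

MODEL: `mid` in `MP_10e784_agL/MB.lean` (here simpler: only the case `1 / p²`).
PROOF.  For a prime `p > P0`, `p M ≤ N`: all three `cq p q i ≠ 0` (`hq`), so `count_bad`: `2 p^(m/2+1) ≤ 2 p^(m-1)` bad vectors modulo `p` (`m ≥ 4`... here `m ≥ 6`), `card_box` with `k1 = Fin.last m`: at most `2 p^(m-1) (3 N / p)^m (2 N / (p M)) = 4 · 3^m N^(m+1) / (M p²)` vectors.  Sum over the primes `P0 < p ≤ N`: `sum_inv_sq`.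
-/

set_option autoImplicit false

namespace HY

/-- the bad forms at one prime -/
private theorem EE_one {m : ℕ} (hm : Even m) (h6 : 6 ≤ m) (M N : ℕ) (hM : 1 ≤ M)
    (q : Fin 3 → Fin 3 → ℤ) (p : ℕ) [Fact p.Prime] (hpM : p.Coprime M) (h : p * M ≤ N)
    (hq : ∀ i, ∃ j, ¬ (p : ℤ) ∣ q i j) :
    (Nat.card {f : Fin (m + 1) → ℤ // Tf M N f ∧ BadF p (cq p q) (cf p f)} : ℝ) ≤
      4 * 3 ^ m * (N : ℝ) ^ (m + 1) / M * (1 / (p : ℝ) ^ 2) := by
  have hp1 : 1 ≤ p := (Fact.out : p.Prime).one_lt.le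
  have hp0 : (0 : ℝ) < p := by exact_mod_cast hp1
  have hM0 : (0 : ℝ) < M := by exact_mod_cast hM
  have hcard : Fintype.card (Fin (m + 1)) - 1 = m := by
    rw [Fintype.card_fin]
    omega
  have hbox := BLS.card_box (Fin.last m) p M N hM hpM h
    {s : Fin (m + 1) → ZMod p | BadF p (cq p q) s}
  rw [hcard] at hbox
  have h1 : (Nat.card {f : Fin (m + 1) → ℤ // Tf M N f ∧ BadF p (cq p q) (cf p f)} : ℝ) ≤
      Nat.card {s : Fin (m + 1) → ZMod p | BadF p (cq p q) s} *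
        ((3 * (N : ℝ) / p) ^ m * (2 * (N : ℝ) / (p * M))) := hbox
  refine h1.trans ?_
  have hnn : (0 : ℝ) ≤ (3 * (N : ℝ) / p) ^ m * (2 * (N : ℝ) / (p * M)) := by positivity
  have hne : ∀ i, cq p q i ≠ 0 := by
    intro i h0
    obtain ⟨j, hj⟩ := hq i
    apply hj
    have h2 : cq p q i j = 0 := by rw [h0]; rfl
    rw [← ZMod.intCast_zmod_eq_zero_iff_dvd]
    exact h2
  have h2 : (Nat.card {s : Fin (m + 1) → ZMod p | BadF p (cq p q) s} : ℝ) ≤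
      2 * (p : ℝ) ^ (m - 1) := by
    have h3 : Nat.card {s : Fin (m + 1) → ZMod p | BadF p (cq p q) s} ≤ 2 * p ^ (m / 2 + 1) :=
      count_bad hm (cq p q) hne
    have h4 : p ^ (m / 2 + 1) ≤ p ^ (m - 1) := Nat.pow_le_pow_right hp1 (by omega)
    have h5 : Nat.card {s : Fin (m + 1) → ZMod p | BadF p (cq p q) s} ≤ 2 * p ^ (m - 1) :=
      h3.trans (Nat.mul_le_mul_left 2 h4)
    exact_mod_cast h5
  have hpp : (p : ℝ) ^ m = (p : ℝ) ^ (m - 1) * p := by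
    rw [← pow_succ]
    congr 1
    omega
  have hN : (N : ℝ) ^ (m + 1) = (N : ℝ) ^ m * N := pow_succ _ _
  refine (mul_le_mul_of_nonneg_right h2 hnn).trans (le_of_eq ?_)
  rw [hN, div_pow, mul_pow, hpp]
  field_simp
  ring

theorem midF {m : ℕ} (hm : Even m) (h6 : 6 ≤ m) : ∃ C1 : ℝ, 0 < C1 ∧ ∀ P0 M N : ℕ, 4 ≤ P0 → 1 ≤ M →
    (∀ p : ℕ, p.Prime → P0 < p → p.Coprime M) → ∀ q : Fin 3 → Fin 3 → ℤ,
    (∀ p : ℕ, p.Prime → P0 < p → ∀ i, ∃ j, ¬ (p : ℤ) ∣ q i j) →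
    (Nat.card {f : Fin (m + 1) → ℤ // Tf M N f ∧ ∃ (p : ℕ) (_ : Fact p.Prime), P0 < p ∧ p * M ≤ N ∧
      BadF p (cq p q) (cf p f)} : ℝ) ≤ C1 * (N : ℝ) ^ (m + 1) / M * (1 / P0) := by
  classical
  refine ⟨4 * 3 ^ m, by positivity, fun P0 M N hP hM hcop q hq => ?_⟩
  set F : Finset (Fin (m + 1) → ℤ) := Fintype.piFinset fun _ => Finset.Icc (-(N : ℤ)) N with hF
  have hFm : ∀ f : Fin (m + 1) → ℤ, Tf M N f → f ∈ F := fun f hf => by
    rw [hF, Fintype.mem_piFinset]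
    intro k
    rw [Finset.mem_Icc]
    exact abs_le.1 (hf.1 k)
  set T : ℕ → Finset (Fin (m + 1) → ℤ) := fun p => F.filter fun f => Tf M N f ∧ p * M ≤ N ∧
    ∃ _ : Fact p.Prime, BadF p (cq p q) (cf p f) with hT
  set U : Finset (Fin (m + 1) → ℤ) := F.filter fun f => Tf M N f ∧ ∃ (p : ℕ) (_ : Fact p.Prime),
    P0 < p ∧ p * M ≤ N ∧ BadF p (cq p q) (cf p f) with hU
  have hcU : Nat.card {f : Fin (m + 1) → ℤ // Tf M N f ∧ ∃ (p : ℕ) (_ : Fact p.Prime), P0 < p ∧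
      p * M ≤ N ∧ BadF p (cq p q) (cf p f)} = U.card := by
    refine Nat.subtype_card U fun f => ?_
    rw [hU, Finset.mem_filter]
    exact ⟨fun h => h.2, fun h => ⟨hFm f h.1, h⟩⟩
  rw [hcU]
  have hsub : U ⊆ ((Finset.Icc (P0 + 1) N).filter Nat.Prime).biUnion T := by
    intro f hf
    rw [hU, Finset.mem_filter] at hf
    obtain ⟨hfF, hfT, p, hp, hp0, hpM, hB⟩ := hf
    rw [Finset.mem_biUnion]
    refine ⟨p, ?_, ?_⟩
    · rw [Finset.mem_filter, Finset.mem_Icc]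
      exact ⟨⟨hp0, (Nat.le_mul_of_pos_right p hM).trans hpM⟩, hp.out⟩
    · rw [hT, Finset.mem_filter]
      exact ⟨hfF, hfT, hpM, hp, hB⟩
  have h1 : (U.card : ℝ) ≤ ∑ p ∈ (Finset.Icc (P0 + 1) N).filter Nat.Prime, ((T p).card : ℝ) := by
    have := (Finset.card_le_card hsub).trans Finset.card_biUnion_le
    exact_mod_cast this
  refine h1.trans ?_
  have h2 : ∀ p ∈ (Finset.Icc (P0 + 1) N).filter Nat.Prime, ((T p).card : ℝ) ≤
      4 * 3 ^ m * (N : ℝ) ^ (m + 1) / M * (1 / (p : ℝ) ^ 2) := by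
    intro p hp
    rw [Finset.mem_filter, Finset.mem_Icc] at hp
    have : Fact p.Prime := ⟨hp.2⟩
    by_cases hpM : p * M ≤ N
    · refine le_trans (le_of_eq ?_)
        (EE_one hm h6 M N hM q p (hcop p hp.2 hp.1.1) hpM (hq p hp.2 hp.1.1))
      congr 1
      symm
      refine Nat.subtype_card (T p) fun f => ?_
      rw [hT, Finset.mem_filter]
      exact ⟨fun h => ⟨h.2.1, h.2.2.2.2⟩, fun h => ⟨hFm f h.1, h.1, hpM, ⟨hp.2⟩, h.2⟩⟩
    · have h3 : T p = ∅ := by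
        rw [hT]
        refine Finset.filter_eq_empty_iff.2 fun f _ h => hpM h.2.1
      rw [h3, Finset.card_empty, Nat.cast_zero]
      positivity
  refine (Finset.sum_le_sum h2).trans ?_
  rw [← Finset.mul_sum]
  refine mul_le_mul_of_nonneg_left ?_ (by positivity)
  refine le_trans ?_ (BLS.sum_inv_sq P0 N (by omega))
  exact Finset.sum_le_sum_of_subset_of_nonneg (Finset.filter_subset _ _) fun p _ _ => by positivity

end HY
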