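import Pool.Agent.Lib.MP_10e784_agH.PA
import Pool.Agent.Lib.MP_10e784_agH.PB

/-!
# LEAF PD: common zeros modulo `p`

PROOF.  `dvd_rq`: in `ZMod p` with `q(x,z) = q'(x,z) = 0`, `(x, z) ≠ 0` (coprime): if `z ≠ 0`: `z³ rq = (linear form) q + (linear form) q'` is a polynomial identity (Sylvester; the same with `x³`); or: the vector `(z², x z, x²) ≠ 0` is orthogonal to `v` and `w`; from the two equations eliminate.
`dvd_rf`: if `p ∤ z`: with `t = x / z` in `ZMod p`: `pol v` and `pol f` (mapped to `ZMod p`) vanish at `t`; `exists_mul_add_mul_eq_C_resultant` and `resultant_map_map`: the resultant with degrees `2`, `m` vanishes (if the leading coefficients vanish use that the statement of Mathlib is for `natDegree ≤`); if `p ∣ z` then `p ∤ x` and both leading coefficients `v 2`, `f m` vanish: `resultant_eq_zero_of_lt_lt` (`natDegree < 2`, `natDegree < m`; for `m = 0`: `f = 0` modulo `p`).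
-/

set_option autoImplicit false

namespace HY

open Finset Polynomial MWS

private theorem PD_rq {K : Type*} [Field K] (v w : Fin 3 → K) (x z : K) (hxz : x ≠ 0 ∨ z ≠ 0)
    (h1 : qe v x z = 0) (h2 : qe w x z = 0) : rq v w = 0 := by
  unfold qe at h1 h2
  unfold rq
  by_cases hz : z = 0
  · have hx : x ≠ 0 := hxz.resolve_right fun h => h hz
    have hx2 : x ^ 2 ≠ 0 := pow_ne_zero 2 hx
    subst hz
    have e1 : v 2 = 0 := by
      have h3 : v 2 * x ^ 2 = 0 := by linear_combination h1
      exact (mul_eq_zero.1 h3).resolve_right hx2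
    have e2 : w 2 = 0 := by
      have h3 : w 2 * x ^ 2 = 0 := by linear_combination h2
      exact (mul_eq_zero.1 h3).resolve_right hx2
    rw [e1, e2]
    ring
  · by_cases hx : x = 0
    · have hz2 : z ^ 2 ≠ 0 := pow_ne_zero 2 hz
      subst hx
      have e1 : v 0 = 0 := by
        have h3 : v 0 * z ^ 2 = 0 := by linear_combination h1
        exact (mul_eq_zero.1 h3).resolve_right hz2
      have e2 : w 0 = 0 := by
        have h3 : w 0 * z ^ 2 = 0 := by linear_combination h2
        exact (mul_eq_zero.1 h3).resolve_right hz2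
      rw [e1, e2]
      ring
    · have e1 : (v 1 * w 0 - v 0 * w 1) * z - (v 0 * w 2 - v 2 * w 0) * x = 0 := by
        have h3 : x * ((v 1 * w 0 - v 0 * w 1) * z - (v 0 * w 2 - v 2 * w 0) * x) = 0 := by
          linear_combination w 0 * h1 - v 0 * h2
        exact (mul_eq_zero.1 h3).resolve_left hx
      have e2 : (v 0 * w 2 - v 2 * w 0) * z - (v 2 * w 1 - v 1 * w 2) * x = 0 := by
        have h3 : z * ((v 0 * w 2 - v 2 * w 0) * z - (v 2 * w 1 - v 1 * w 2) * x) = 0 := by
          linear_combination w 2 * h1 - v 2 * h2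
        exact (mul_eq_zero.1 h3).resolve_left hz
      have h3 : z * ((v 0 * w 2 - v 2 * w 0) ^ 2 -
          (v 2 * w 1 - v 1 * w 2) * (v 1 * w 0 - v 0 * w 1)) = 0 := by
        linear_combination (v 0 * w 2 - v 2 * w 0) * e2 - (v 2 * w 1 - v 1 * w 2) * e1
      exact (mul_eq_zero.1 h3).resolve_left hz

private theorem PD_ev {K : Type*} [Field K] {k : ℕ} (f : Fin k → K) (t : K) :
    (pol f).eval t = ∑ i : Fin k, f i * t ^ (i : ℕ) := by
  unfold pol
  rw [eval_finsetSum]
  exact Finset.sum_congr rfl fun i _ => eval_monomial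

private theorem PD_map {R S : Type*} [CommRing R] [CommRing S] (φ : R →+* S) {k : ℕ} (f : Fin k → R) :
    (pol f).map φ = pol (fun i => φ (f i)) := by
  unfold pol
  rw [Polynomial.map_sum]
  exact Finset.sum_congr rfl fun i _ => map_monomial φ

private theorem PD_lt {K : Type*} [Field K] {g : K[X]} {m : ℕ} (hm : 1 ≤ m) (h : g.natDegree ≤ m)
    (h0 : g.coeff m = 0) : g.natDegree < m := by
  rcases lt_or_eq_of_le h with h1 | h1
  · exact h1
  · have h2 : g.leadingCoeff = 0 := by
      rw [leadingCoeff, h1, h0]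
    rw [leadingCoeff_eq_zero.1 h2, natDegree_zero]
    omega

private theorem PD_rf {K : Type*} [Field K] {m : ℕ} (hm : 1 ≤ m) (v : Fin 3 → K) (f : Fin (m + 1) → K) (x z : K)
    (hxz : x ≠ 0 ∨ z ≠ 0) (h1 : qe v x z = 0) (h2 : fe f x z = 0) : rf v f = 0 := by
  unfold rf
  by_cases hz : z = 0
  · have hx : x ≠ 0 := hxz.resolve_right fun h => h hz
    subst hz
    have e1 : v 2 = 0 := by
      unfold qe at h1
      have h3 : v 2 * x ^ 2 = 0 := by linear_combination h1
      exact (mul_eq_zero.1 h3).resolve_right (pow_ne_zero 2 hx)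
    have e2 : f (Fin.last m) = 0 := by
      unfold fe at h2
      rw [Fin.sum_univ_castSucc] at h2
      have h3 : ∑ i : Fin m, f i.castSucc * x ^ ((i.castSucc : Fin (m + 1)) : ℕ) *
          0 ^ (m - ((i.castSucc : Fin (m + 1)) : ℕ)) = 0 := by
        apply Finset.sum_eq_zero
        intro i _
        have h4 : m - ((i.castSucc : Fin (m + 1)) : ℕ) ≠ 0 := by
          have h5 := i.isLt
          rw [Fin.val_castSucc]
          omega
        rw [zero_pow h4, mul_zero]
      rw [h3, zero_add, Fin.val_last, Nat.sub_self, pow_zero, mul_one] at h2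
      exact (mul_eq_zero.1 h2).resolve_right (pow_ne_zero m hx)
    apply resultant_eq_zero_of_lt_lt
    · apply PD_lt (by norm_num) (pol_deg v)
      rw [pol_coeff, dif_pos (by norm_num)]
      exact e1
    · apply PD_lt hm (pol_deg f)
      rw [pol_coeff, dif_pos (by omega)]
      exact e2
  · obtain ⟨t, rfl⟩ : ∃ t, x = t * z := ⟨x / z, by field_simp⟩
    have e1 : (pol v).eval t = 0 := by
      have h3 : z ^ 2 * (pol v).eval t = 0 := by
        rw [PD_ev, Fin.sum_univ_three]
        unfold qe at h1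
        simp only [Fin.val_zero, Fin.val_one, Fin.val_two]
        linear_combination h1
      exact (mul_eq_zero.1 h3).resolve_left (pow_ne_zero 2 hz)
    have e2 : (pol f).eval t = 0 := by
      have h3 : z ^ m * (pol f).eval t = 0 := by
        rw [PD_ev, ← h2, fe, Finset.mul_sum]
        apply Finset.sum_congr rfl
        intro i _
        have h4 : (i : ℕ) + (m - (i : ℕ)) = m := by
          have := i.isLt
          omega
        calc z ^ m * (f i * t ^ (i : ℕ)) = z ^ ((i : ℕ) + (m - (i : ℕ))) * (f i * t ^ (i : ℕ)) := by rw [h4]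
          _ = f i * (t * z) ^ (i : ℕ) * z ^ (m - (i : ℕ)) := by
            rw [pow_add, mul_pow]
            ring
      exact (mul_eq_zero.1 h3).resolve_left (pow_ne_zero m hz)
    obtain ⟨P, Q, _, _, h3⟩ := exists_mul_add_mul_eq_C_resultant (pol v) (pol f) (m := 2) (n := m) (pol_deg v)
      (pol_deg f) (Or.inl two_ne_zero)
    have h4 := congrArg (Polynomial.eval t) h3
    rw [eval_add, eval_mul, eval_mul, e1, e2, zero_mul, zero_mul, add_zero, eval_C] at h4
    exact h4.symm

private theorem PD_cop {p : ℕ} [Fact p.Prime] {x z : ℤ} (hc : IsCoprime x z) :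
    Int.castRingHom (ZMod p) x ≠ 0 ∨ Int.castRingHom (ZMod p) z ≠ 0 := by
  by_contra h
  push Not at h
  obtain ⟨a, b, hab⟩ := hc
  have h1 := congrArg (Int.castRingHom (ZMod p)) hab
  rw [map_add, map_mul, map_mul, h.1, h.2, mul_zero, mul_zero, add_zero, map_one] at h1
  exact zero_ne_one h1

private theorem PD_iff {p : ℕ} (a : ℤ) : Int.castRingHom (ZMod p) a = 0 ↔ (p : ℤ) ∣ a := by
  rw [eq_intCast]
  exact ZMod.intCast_zmod_eq_zero_iff_dvd a p

theorem dvd_rq {p : ℕ} (hp : p.Prime) {v w : Fin 3 → ℤ} {x z : ℤ} (hc : IsCoprime x z) (h1 : (p : ℤ) ∣ qe v x z)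
    (h2 : (p : ℤ) ∣ qe w x z) : (p : ℤ) ∣ rq v w := by
  have : Fact p.Prime := ⟨hp⟩
  rw [← PD_iff] at h1 h2 ⊢
  rw [← qe_map] at h1 h2
  rw [← rq_map]
  exact PD_rq _ _ _ _ (PD_cop hc) h1 h2

theorem dvd_rf {p : ℕ} (hp : p.Prime) {m : ℕ} (hm : 1 ≤ m) {v : Fin 3 → ℤ} {f : Fin (m + 1) → ℤ} {x z : ℤ}
    (hc : IsCoprime x z) (h1 : (p : ℤ) ∣ qe v x z) (h2 : (p : ℤ) ∣ fe f x z) : (p : ℤ) ∣ rf v f := by
  have : Fact p.Prime := ⟨hp⟩
  rw [← PD_iff] at h1 h2 ⊢
  rw [← qe_map] at h1
  rw [← fe_map] at h2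
  have h3 := PD_rf hm _ _ _ _ (PD_cop (p := p) hc) h1 h2
  unfold rf at h3 ⊢
  rw [← PD_map, ← PD_map, resultant_map_map] at h3
  exact h3

end HY
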