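import Pool.Agent.Lib.MP_10e784_agH.EDefs
import Pool.Agent.Lib.MP_10e784_agH.PB
import Pool.Agent.Lib.MP_10e784_agH.PD

/-!
# LEAF EF: bad forms are divisible by one of the quadratic forms

PROOF.  `P_k = pol (q k)`, of degree exactly `2` for `k = i` (`q i 2 ≠ 0`).  `P_i` is squarefree: its discriminant `dq (q i) ≠ 0` (characteristic `≠ 2`; if `P_i = a² b` with `a` of degree `1` then the discriminant is `0`; or `P_i` and its derivative are coprime: `4 v₂ P_i = (2 v₂ X + v₁)² - dq`), and coprime to `P_j`, `P_k` (`rq ≠ 0`: a common factor gives a common root in an extension; or the explicit Sylvester identity `A P_i + B P_j = rq` with `A`, `B` of degree `≤ 1`: check it with `ring`).  `P_0 P_1 P_2 F = C c s²`.  If `c = 0`: the product is `0`, so `F = 0` (`P_i ≠ 0`; if `P_j = 0` then `rq = 0`).  If `c ≠ 0`: `P_i ∣ s²`, so `P_i ∣ s` (squarefree), `P_i² ∣ P_i P_j P_k F`, `P_i ∣ P_j P_k F`, `P_i ∣ F`.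
-/

set_option autoImplicit false

namespace HY

open Polynomial

private theorem EF_pol {R : Type*} [CommRing R] (v : Fin 3 → R) :
    pol v = C (v 0) + C (v 1) * X + C (v 2) * X ^ 2 := by
  unfold pol
  rw [Fin.sum_univ_three]
  simp only [← C_mul_X_pow_eq_monomial, Fin.val_zero, Fin.val_one, Fin.val_two, pow_zero, mul_one, pow_one]

private theorem EF_cop {K : Type*} [Field K] (v w : Fin 3 → K) (h : rq v w ≠ 0) : IsCoprime (pol v) (pol w) := by
  have h1 : (C ((v 0 * w 2 - v 2 * w 0) * w 2 + (v 2 * w 1 - v 1 * w 2) * w 1) + C ((v 2 * w 1 - v 1 * w 2) * w 2) * X) *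
      pol v + (-(C ((v 0 * w 2 - v 2 * w 0) * v 2 + (v 2 * w 1 - v 1 * w 2) * v 1) +
        C ((v 2 * w 1 - v 1 * w 2) * v 2) * X)) * pol w = C (rq v w) := by
    rw [EF_pol, EF_pol]
    unfold rq
    simp only [map_add, map_mul, map_sub, map_pow]
    ring
  refine ⟨C (rq v w)⁻¹ * (C ((v 0 * w 2 - v 2 * w 0) * w 2 + (v 2 * w 1 - v 1 * w 2) * w 1) +
    C ((v 2 * w 1 - v 1 * w 2) * w 2) * X), C (rq v w)⁻¹ * (-(C ((v 0 * w 2 - v 2 * w 0) * v 2 +
      (v 2 * w 1 - v 1 * w 2) * v 1) + C ((v 2 * w 1 - v 1 * w 2) * v 2) * X)), ?_⟩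
  rw [mul_assoc, mul_assoc, ← mul_add, h1, ← C_mul, inv_mul_cancel₀ h, C_1]

private theorem EF_sq {K : Type*} [Field K] (v : Fin 3 → K) (h : dq v ≠ 0) : Squarefree (pol v) := by
  have h1 : derivative (pol v) = C (v 1) + C (2 * v 2) * X := by
    rw [EF_pol]
    simp only [derivative_add, derivative_mul, derivative_C, derivative_X, derivative_X_pow, zero_mul, mul_one, zero_add]
    simp only [map_mul, map_ofNat, Nat.cast_ofNat]
    ring
  have h2 : (-C (4 * v 2)) * pol v + derivative (pol v) * derivative (pol v) = C (dq v) := by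
    rw [h1, EF_pol]
    unfold dq
    simp only [map_mul, map_sub, map_pow, map_ofNat]
    ring
  have h3 : (pol v).Separable := by
    refine ⟨C (dq v)⁻¹ * (-C (4 * v 2)), C (dq v)⁻¹ * derivative (pol v), ?_⟩
    rw [mul_assoc, mul_assoc, ← mul_add, h2, ← C_mul, inv_mul_cancel₀ h, C_1]
  exact h3.squarefree

private theorem EF_main {K : Type*} [Field K] {P G F s : K[X]} {c : K} (hP : Squarefree P) (h0 : P ≠ 0)
    (hG : IsCoprime P G) (h : P * (G * F) = C c * s ^ 2) : P ∣ F := by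
  refine hG.dvd_of_dvd_mul_left ?_
  by_cases hc : c = 0
  · rw [hc, C_0, zero_mul] at h
    rw [(mul_eq_zero.1 h).resolve_left h0]
    exact dvd_zero _
  · have h1 : P ∣ s ^ 2 := by
      have h2 : P ∣ C c⁻¹ * (C c * s ^ 2) := Dvd.dvd.mul_left ⟨_, h.symm⟩ _
      rwa [← mul_assoc, ← C_mul, inv_mul_cancel₀ hc, C_1, one_mul] at h2
    obtain ⟨t, ht⟩ := (hP.dvd_pow_iff_dvd two_ne_zero).1 h1
    refine ⟨C c * t ^ 2, mul_left_cancel₀ h0 ?_⟩
    rw [h, ht]
    ring

theorem dvd_of_bad {p : ℕ} [Fact p.Prime] (hp : p ≠ 2) {m : ℕ} (q : Fin 3 → Fin 3 → ZMod p) (f : Fin (m + 1) → ZMod p)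
    (i : Fin 3) (h2 : q i 2 ≠ 0) (hd : dq (q i) ≠ 0) (hr : ∀ j, j ≠ i → rq (q i) (q j) ≠ 0) (h : BadF p q f) :
    pol (q i) ∣ pol f := by
  obtain ⟨c, s, h⟩ := h
  have h0 : pol (q i) ≠ 0 := by
    intro h1
    apply h2
    have h3 := congrArg (fun g => coeff g 2) h1
    rw [pol_coeff, dif_pos (by norm_num : (2 : ℕ) < 3)] at h3
    exact h3
  have key : ∀ j k : Fin 3, j ≠ i → k ≠ i → pol (q i) * (pol (q j) * pol (q k) * pol f) = C c * s ^ 2 →
      pol (q i) ∣ pol f := fun j k hj hk h4 =>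
    EF_main (EF_sq _ hd) h0 ((EF_cop _ _ (hr j hj)).mul_right (EF_cop _ _ (hr k hk))) h4
  have h5 : i = 0 ∨ i = 1 ∨ i = 2 := by
    fin_cases i
    · exact Or.inl rfl
    · exact Or.inr (Or.inl rfl)
    · exact Or.inr (Or.inr rfl)
  rcases h5 with rfl | rfl | rfl
  · refine key 1 2 (by decide) (by decide) ?_
    rw [← h]
    ring
  · refine key 0 2 (by decide) (by decide) ?_
    rw [← h]
    ring
  · refine key 0 1 (by decide) (by decide) ?_
    rw [← h]
    ring

end HY
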