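import Pool.Agent.Lib.MP_10e784_agH.EDefs
import Pool.Agent.Lib.MP_10e784_agH.PB

/-!
# LEAF EG: the remainder modulo a quadratic form

Define (private or here) for `v : Fin 3 → ℤ`: `s₀ = 0, t₀ = 1`... precisely `a = v 2`, `a^(i-1) X^i ≡ s_i X + t_i` modulo `pol v` for `i ≥ 1`: `s₁ = 1`, `t₁ = 0`, `s_(i+1) = - v₁ s_i + a t_i`, `t_(i+1) = - v₀ s_i`.
`U v f = ∑_(i ≥ 1) f_i a^(m-i) s_i`, `V v f = a^(m-1) f_0 + ∑_(i ≥ 1) f_i a^(m-i) t_i`: `a^(m-1) pol f - (U X + V)` is a multiple of `pol v` over `ℤ`.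
PROOF of the statement with this `U`: (1) clear.  (2) the coefficient of `f_1` in `U` is `a^(m-1) ≠ 0`.  (3) modulo `p`: `pol v ∣ pol f` gives `pol v ∣ U X + V`, of degree `≤ 1 < 2 = natDegree (pol v)` (`p ∤ a`), so `U ≡ V ≡ 0`.  (4) `V v f - V v f' = a^(m-1) (f_0 - f'_0)` if `f` and `f'` agree off `0`, and `p ∤ a`.  (5) size: `|s_i|, |t_i| ≤ (2 N)^i` or so.
-/

set_option autoImplicit false

namespace HY

open Polynomial

/-- the remainders: `a ^ i X ^ i ≡ s_i X + t_i` modulo `pol v`, `a = v 2` -/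
private def EG_st {R : Type*} [CommRing R] (v : Fin 3 → R) : ℕ → R × R
  | 0 => (0, 1)
  | i + 1 => (-(v 1) * (EG_st v i).1 + v 2 * (EG_st v i).2, -(v 0) * (EG_st v i).1)

private def EG_U {R : Type*} [CommRing R] {m : ℕ} (v : Fin 3 → R) (f : Fin (m + 1) → R) : R :=
  ∑ i : Fin (m + 1), f i * v 2 ^ (m - (i : ℕ)) * (EG_st v i).1

private def EG_V {R : Type*} [CommRing R] {m : ℕ} (v : Fin 3 → R) (f : Fin (m + 1) → R) : R :=
  ∑ i : Fin (m + 1), f i * v 2 ^ (m - (i : ℕ)) * (EG_st v i).2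

private theorem EG_map {R S : Type*} [CommRing R] [CommRing S] (φ : R →+* S) (v : Fin 3 → R) (i : ℕ) :
    EG_st (fun j => φ (v j)) i = (φ (EG_st v i).1, φ (EG_st v i).2) := by
  induction i with
  | zero => simp [EG_st]
  | succ i ih =>
    rw [EG_st, ih]
    simp [EG_st]

private theorem EG_pol {R : Type*} [CommRing R] (v : Fin 3 → R) :
    pol v = C (v 0) + C (v 1) * X + C (v 2) * X ^ 2 := by
  unfold pol
  rw [Fin.sum_univ_three]
  simp [← C_mul_X_pow_eq_monomial]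

private theorem EG_dvd {R : Type*} [CommRing R] (v : Fin 3 → R) (i : ℕ) :
    pol v ∣ C (v 2 ^ i) * X ^ i - (C (EG_st v i).1 * X + C (EG_st v i).2) := by
  induction i with
  | zero => simp [EG_st]
  | succ i ih =>
    have h : C (v 2 ^ (i + 1)) * X ^ (i + 1) - (C (EG_st v (i + 1)).1 * X + C (EG_st v (i + 1)).2) =
        C (v 2) * X * (C (v 2 ^ i) * X ^ i - (C (EG_st v i).1 * X + C (EG_st v i).2)) +
          C (EG_st v i).1 * pol v := by
      rw [EG_pol]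
      simp only [EG_st, map_add, map_mul, map_neg, map_pow, pow_succ]
      ring
    rw [h]
    exact dvd_add (dvd_mul_of_dvd_right ih _) (dvd_mul_left _ _)

private theorem EG_rem {R : Type*} [CommRing R] {m : ℕ} (v : Fin 3 → R) (f : Fin (m + 1) → R) :
    pol v ∣ C (v 2 ^ m) * pol f - (C (EG_U v f) * X + C (EG_V v f)) := by
  have h : C (v 2 ^ m) * pol f - (C (EG_U v f) * X + C (EG_V v f)) =
      ∑ i : Fin (m + 1), C (f i * v 2 ^ (m - (i : ℕ))) *
        (C (v 2 ^ (i : ℕ)) * X ^ (i : ℕ) - (C (EG_st v i).1 * X + C (EG_st v i).2)) := by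
    unfold pol EG_U EG_V
    rw [map_sum, map_sum, Finset.mul_sum, Finset.sum_mul, ← Finset.sum_add_distrib,
      ← Finset.sum_sub_distrib]
    refine Finset.sum_congr rfl fun i _ => ?_
    have h1 : v 2 ^ m = v 2 ^ (m - (i : ℕ)) * v 2 ^ (i : ℕ) := by
      rw [← pow_add, Nat.sub_add_cancel (Nat.lt_succ_iff.1 i.2)]
    rw [h1, ← C_mul_X_pow_eq_monomial]
    simp only [map_mul]
    ring
  rw [h]
  exact Finset.dvd_sum fun i _ => dvd_mul_of_dvd_right (EG_dvd v i) _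

private theorem EG_zero {F : Type*} [Field F] {m : ℕ} {v : Fin 3 → F} {f : Fin (m + 1) → F} (hv : v 2 ≠ 0)
    (h : pol v ∣ pol f) : EG_U v f = 0 ∧ EG_V v f = 0 := by
  have h1 : pol v ∣ C (EG_U v f) * X + C (EG_V v f) := by
    have h2 := dvd_sub (dvd_mul_of_dvd_right h (C (v 2 ^ m))) (EG_rem v f)
    rwa [sub_sub_cancel] at h2
  have hdeg : (pol v).natDegree = 2 := by
    refine le_antisymm (pol_deg (m := 2) v) ?_
    refine le_natDegree_of_ne_zero ?_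
    rw [pol_coeff, dif_pos (by norm_num)]
    exact hv
  have h3 : C (EG_U v f) * X + C (EG_V v f) = 0 := by
    by_contra h4
    have h5 := natDegree_le_of_dvd h1 h4
    have h6 : (C (EG_U v f) * X + C (EG_V v f)).natDegree ≤ 1 := natDegree_linear_le
    omega
  have h7 := congrArg (fun P => coeff P 1) h3
  have h8 := congrArg (fun P => coeff P 0) h3
  simp only [coeff_add, coeff_C_mul, coeff_X_one, mul_one, coeff_C_succ, add_zero, coeff_zero] at h7
  simp only [coeff_add, coeff_C_mul, coeff_X_zero, mul_zero, coeff_C_zero, zero_add, coeff_zero] at h8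
  exact ⟨h7, h8⟩

private theorem EG_diffU {R : Type*} [CommRing R] {m : ℕ} (v : Fin 3 → R) (f f' : Fin (m + 1) → R)
    (k0 : Fin (m + 1)) (h : ∀ k, k ≠ k0 → f k = f' k) :
    EG_U v f - EG_U v f' = (f k0 - f' k0) * v 2 ^ (m - (k0 : ℕ)) * (EG_st v k0).1 := by
  unfold EG_U
  rw [← Finset.sum_sub_distrib, Finset.sum_eq_single k0]
  · ring
  · intro b _ hb
    rw [h b hb, sub_self]
  · intro h'
    exact absurd (Finset.mem_univ _) h'

private theorem EG_diffV {R : Type*} [CommRing R] {m : ℕ} (v : Fin 3 → R) (f f' : Fin (m + 1) → R)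
    (k0 : Fin (m + 1)) (h : ∀ k, k ≠ k0 → f k = f' k) :
    EG_V v f - EG_V v f' = (f k0 - f' k0) * v 2 ^ (m - (k0 : ℕ)) * (EG_st v k0).2 := by
  unfold EG_V
  rw [← Finset.sum_sub_distrib, Finset.sum_eq_single k0]
  · ring
  · intro b _ hb
    rw [h b hb, sub_self]
  · intro h'
    exact absurd (Finset.mem_univ _) h'

private theorem EG_castU (p : ℕ) {m : ℕ} (v : Fin 3 → ℤ) (f : Fin (m + 1) → ℤ) :
    ((EG_U v f : ℤ) : ZMod p) = EG_U (fun j => ((v j : ℤ) : ZMod p)) (fun j => ((f j : ℤ) : ZMod p)) := by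
  unfold EG_U
  rw [Int.cast_sum]
  refine Finset.sum_congr rfl fun i _ => ?_
  have h := EG_map (Int.castRingHom (ZMod p)) v i
  have h' : EG_st (fun j => ((v j : ℤ) : ZMod p)) i =
      (((EG_st v i).1 : ZMod p), ((EG_st v i).2 : ZMod p)) := h
  rw [h']
  push_cast
  rfl

private theorem EG_castV (p : ℕ) {m : ℕ} (v : Fin 3 → ℤ) (f : Fin (m + 1) → ℤ) :
    ((EG_V v f : ℤ) : ZMod p) = EG_V (fun j => ((v j : ℤ) : ZMod p)) (fun j => ((f j : ℤ) : ZMod p)) := by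
  unfold EG_V
  rw [Int.cast_sum]
  refine Finset.sum_congr rfl fun i _ => ?_
  have h := EG_map (Int.castRingHom (ZMod p)) v i
  have h' : EG_st (fun j => ((v j : ℤ) : ZMod p)) i =
      (((EG_st v i).1 : ZMod p), ((EG_st v i).2 : ZMod p)) := h
  rw [h']
  push_cast
  rfl

private theorem EG_size {N : ℤ} (hN : 1 ≤ N) {v : Fin 3 → ℤ} (hv : ∀ k, |v k| ≤ N) (i : ℕ) :
    |(EG_st v i).1| ≤ (2 * N) ^ i ∧ |(EG_st v i).2| ≤ (2 * N) ^ i := by
  induction i with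
  | zero => simp [EG_st]
  | succ i ih =>
    obtain ⟨h1, h2⟩ := ih
    have hP : 0 ≤ (2 * N) ^ i := by positivity
    have h3 : |v 1 * (EG_st v i).1| ≤ N * (2 * N) ^ i := by
      rw [abs_mul]
      exact mul_le_mul (hv 1) h1 (abs_nonneg _) (by omega)
    have h4 : |v 2 * (EG_st v i).2| ≤ N * (2 * N) ^ i := by
      rw [abs_mul]
      exact mul_le_mul (hv 2) h2 (abs_nonneg _) (by omega)
    have h5 : |v 0 * (EG_st v i).1| ≤ N * (2 * N) ^ i := by
      rw [abs_mul]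
      exact mul_le_mul (hv 0) h1 (abs_nonneg _) (by omega)
    have h6 : (2 * N) ^ (i + 1) = N * (2 * N) ^ i + N * (2 * N) ^ i := by ring
    have h7 : 0 ≤ N * (2 * N) ^ i := by positivity
    simp only [EG_st]
    rw [abs_le] at h3 h4 h5 ⊢
    rw [abs_le]
    rw [h6]
    constructor <;> constructor <;> nlinarith [h3.1, h3.2, h4.1, h4.2, h5.1, h5.2]

theorem exists_U (m : ℕ) (hm : 2 ≤ m) : ∃ (U : (Fin 3 → ℤ) → (Fin (m + 1) → ℤ) → ℤ) (C K : ℕ),
    (∀ v f f', (∀ k, k ≠ 0 → f k = f' k) → U v f = U v f') ∧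
    (∀ v f f', v 2 ≠ 0 → (∀ k, k ≠ 1 → f k = f' k) → U v f = 0 → U v f' = 0 → f = f') ∧
    (∀ (p : ℕ) [Fact p.Prime] (v : Fin 3 → ℤ) (f : Fin (m + 1) → ℤ), ¬ (p : ℤ) ∣ v 2 →
      pol (fun j => ((v j : ℤ) : ZMod p)) ∣ pol (cf p f) → (p : ℤ) ∣ U v f) ∧
    (∀ (p : ℕ) [Fact p.Prime] (v : Fin 3 → ℤ) (f f' : Fin (m + 1) → ℤ), ¬ (p : ℤ) ∣ v 2 →
      pol (fun j => ((v j : ℤ) : ZMod p)) ∣ pol (cf p f) → pol (fun j => ((v j : ℤ) : ZMod p)) ∣ pol (cf p f') →
      (∀ k, k ≠ 0 → f k = f' k) → (p : ℤ) ∣ f 0 - f' 0) ∧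
    ∀ N : ℕ, 1 ≤ N → ∀ v f, (∀ k, |v k| ≤ (N : ℤ)) → (∀ k, |f k| ≤ (N : ℤ)) → |U v f| ≤ (C : ℤ) * (N : ℤ) ^ K := by
  refine ⟨fun v f => EG_U v f, (m + 1) * 2 ^ m, m + 1, ?_, ?_, ?_, ?_, ?_⟩
  · intro v f f' h
    have h1 := EG_diffU v f f' 0 h
    have h2 : (EG_st v ((0 : Fin (m + 1)) : ℕ)).1 = 0 := by
      simp [EG_st]
    rw [h2, mul_zero] at h1
    exact sub_eq_zero.1 h1
  · intro v f f' hv h hf hf'
    have h1 := EG_diffU v f f' 1 h
    have hone : ((1 : Fin (m + 1)) : ℕ) = 1 := by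
      rw [Fin.val_one']
      exact Nat.mod_eq_of_lt (by omega)
    have h2 : (EG_st v 1).1 = v 2 := by simp [EG_st]
    have hf0 : EG_U v f = 0 := hf
    have hf1 : EG_U v f' = 0 := hf'
    rw [hf0, hf1, hone, h2, sub_zero] at h1
    have h3 : f 1 - f' 1 = 0 := by
      rcases mul_eq_zero.1 h1.symm with h4 | h4
      · rcases mul_eq_zero.1 h4 with h5 | h5
        · exact h5
        · exact absurd h5 (pow_ne_zero _ hv)
      · exact absurd h4 hv
    funext k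
    by_cases hk : k = 1
    · rw [hk]
      exact sub_eq_zero.1 h3
    · exact h k hk
  · intro p _ v f hv h
    have hv' : ((v 2 : ℤ) : ZMod p) ≠ 0 := fun h0 => hv ((ZMod.intCast_zmod_eq_zero_iff_dvd _ _).1 h0)
    have h1 := (EG_zero (v := fun j => ((v j : ℤ) : ZMod p)) (f := fun j => ((f j : ℤ) : ZMod p)) hv' h).1
    rw [← EG_castU] at h1
    exact (ZMod.intCast_zmod_eq_zero_iff_dvd _ _).1 h1
  · intro p _ v f f' hv h h' hff
    have hv' : ((v 2 : ℤ) : ZMod p) ≠ 0 := fun h0 => hv ((ZMod.intCast_zmod_eq_zero_iff_dvd _ _).1 h0)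
    have h1 := (EG_zero (v := fun j => ((v j : ℤ) : ZMod p)) (f := fun j => ((f j : ℤ) : ZMod p)) hv' h).2
    have h1' := (EG_zero (v := fun j => ((v j : ℤ) : ZMod p)) (f := fun j => ((f' j : ℤ) : ZMod p)) hv' h').2
    have h2 := EG_diffV (fun j => ((v j : ℤ) : ZMod p)) (fun j => ((f j : ℤ) : ZMod p))
      (fun j => ((f' j : ℤ) : ZMod p)) 0 (fun k hk => by rw [hff k hk])
    have h3 : (EG_st (fun j => ((v j : ℤ) : ZMod p)) ((0 : Fin (m + 1)) : ℕ)).2 = 1 := by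
      simp [EG_st]
    rw [h1, h1', h3, sub_zero, mul_one] at h2
    have h4 : ((f 0 : ℤ) : ZMod p) - ((f' 0 : ℤ) : ZMod p) = 0 := by
      rcases mul_eq_zero.1 h2.symm with h5 | h5
      · exact h5
      · exact absurd h5 (pow_ne_zero _ hv')
    refine (ZMod.intCast_zmod_eq_zero_iff_dvd _ _).1 ?_
    rw [Int.cast_sub]
    exact h4
  · intro N hN v f hv hf
    have hN' : (1 : ℤ) ≤ (N : ℤ) := by exact_mod_cast hN
    have h1 : ∀ i : Fin (m + 1), |f i * v 2 ^ (m - (i : ℕ)) * (EG_st v i).1| ≤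
        (N : ℤ) * (N : ℤ) ^ (m - (i : ℕ)) * (2 * (N : ℤ)) ^ (i : ℕ) := by
      intro i
      rw [abs_mul, abs_mul, abs_pow]
      refine mul_le_mul (mul_le_mul (hf i) (pow_le_pow_left₀ (abs_nonneg _) (hv 2) _) (by positivity)
        (by positivity)) (EG_size hN' hv i).1 (abs_nonneg _) (by positivity)
    have h2 : ∀ i : Fin (m + 1), (N : ℤ) * (N : ℤ) ^ (m - (i : ℕ)) * (2 * (N : ℤ)) ^ (i : ℕ) ≤
        2 ^ m * (N : ℤ) ^ (m + 1) := by
      intro i
      have hi : (i : ℕ) ≤ m := Nat.lt_succ_iff.1 i.2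
      have h3 : (N : ℤ) * (N : ℤ) ^ (m - (i : ℕ)) * (2 * (N : ℤ)) ^ (i : ℕ) =
          2 ^ (i : ℕ) * (N : ℤ) ^ (m + 1) := by
        have h4 : (N : ℤ) ^ (m + 1) = N * ((N : ℤ) ^ (m - (i : ℕ)) * (N : ℤ) ^ (i : ℕ)) := by
          rw [← pow_add, Nat.sub_add_cancel hi, pow_succ, mul_comm]
        rw [h4, mul_pow]
        ring
      rw [h3]
      exact mul_le_mul_of_nonneg_right (pow_le_pow_right₀ (by norm_num) hi) (by positivity)
    show |EG_U v f| ≤ _
    unfold EG_U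
    refine (Finset.abs_sum_le_sum_abs _ _).trans ?_
    refine (Finset.sum_le_sum fun i _ => (h1 i).trans (h2 i)).trans ?_
    rw [Finset.sum_const, Finset.card_univ, Fintype.card_fin, nsmul_eq_mul]
    push_cast
    exact le_of_eq (by ring)

end HY
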