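import Pool.Agent.Lib.MP_10e784_agH.EF
import Pool.Agent.Lib.MP_10e784_agH.EG
import Pool.Agent.Lib.MP_10e784_agL.GD

/-!
# LEAF EH: the bad forms at the primes `p > N / M`

MODEL: `big` in `MP_10e784_agL/GE.lean`.
PROOF.  `U`, `C`, `K` from `exists_U`; `N = H⁴`, `L = N / M + 1` (floor): `N ≤ L M`, `N < p M` implies `L ≤ p`; for `H ≥ H0`: `C N^K < L^(K+1)`, `L > H`, `L > 5 H²`.  Let `f` be in the set with the prime `p`: `p ∤ q_(i,2)` (`0 < q_(i,2) ≤ H < p`), `p ∤ dq (q i)` (`0 < |dq| ≤ 5 H² < p`).  Since `p` does not divide two of the three resultants (last condition of `Gq` for all three indices) there is `i` with `p ∤ rq (q i) (q j)` for both `j ≠ i` (if for every `i` some `rq (q i) (q j)` is divisible then two of the three are).  `dvd_of_bad`: `pol (q i) ∣ pol f` modulo `p`.  So `f` is in the union over `i` of the two sets: `U (q i) f = 0`: `fib1` with `k = 1`: at most `(3 N)^m`; `U (q i) f ≠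 0` and for some prime `p ≥ L`, `p ∤ q_(i,2)`, `pol (q i) ∣ pol f` modulo `p`: `fib2` with `k = 0`: at most `(3 N)^m K 3 M`.
-/

set_option autoImplicit false

namespace HY

open Polynomial

private theorem EH_rq_symm (v w : Fin 3 → ℤ) : rq v w = rq w v := by
  unfold rq
  ring

/-- The union bound for three pairs of sets. -/
private theorem EH_card {α : Type} (A B : Fin 3 → α → Prop) (P : α → Prop)
    (hA : ∀ i, Finite {a // A i a}) (hB : ∀ i, Finite {a // B i a}) (a b : ℝ)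
    (hAa : ∀ i, (Nat.card {x // A i x} : ℝ) ≤ a) (hBb : ∀ i, (Nat.card {x // B i x} : ℝ) ≤ b)
    (h : ∀ x, P x → ∃ i, A i x ∨ B i x) : (Nat.card {x // P x} : ℝ) ≤ 3 * (a + b) := by
  classical
  choose g hg using fun x : {x // P x} => h x.1 x.2
  let φ : {x // P x} → (Σ i : Fin 3, {a // A i a} ⊕ {a // B i a}) := fun x =>
    ⟨g x, if hx : A (g x) x.1 then Sum.inl ⟨x.1, hx⟩ else Sum.inr ⟨x.1, (hg x).resolve_left hx⟩⟩
  have hφ : Function.Injective φ := by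
    have key : ∀ x : {x // P x}, (Sum.elim Subtype.val Subtype.val (φ x).2 : α) = x.1 := by
      intro x
      by_cases hx : A (g x) x.1
      · simp only [φ, dif_pos hx, Sum.elim_inl]
      · simp only [φ, dif_neg hx, Sum.elim_inr]
    intro x y hxy
    refine Subtype.ext ?_
    rw [← key x, ← key y, hxy]
  have h1 : Nat.card {x // P x} ≤ Nat.card (Σ i : Fin 3, {a // A i a} ⊕ {a // B i a}) :=
    Nat.card_le_card_of_injective φ hφ
  have h2 : Nat.card (Σ i : Fin 3, {a // A i a} ⊕ {a // B i a}) =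
      ∑ i : Fin 3, (Nat.card {a // A i a} + Nat.card {a // B i a}) := by
    rw [Nat.card_sigma]
    exact Finset.sum_congr rfl fun i _ => Nat.card_sum
  rw [h2] at h1
  calc (Nat.card {x // P x} : ℝ) ≤ ((∑ i : Fin 3, (Nat.card {a // A i a} + Nat.card {a // B i a}) : ℕ) : ℝ) := by
        exact_mod_cast h1
    _ = ∑ i : Fin 3, ((Nat.card {a // A i a} : ℝ) + (Nat.card {a // B i a} : ℝ)) := by
        push_cast
        rfl
    _ ≤ ∑ _i : Fin 3, (a + b) := Finset.sum_le_sum fun i _ => add_le_add (hAa i) (hBb i)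
    _ = 3 * (a + b) := by
        rw [Finset.sum_const, Finset.card_univ, Fintype.card_fin, nsmul_eq_mul]
        norm_num

/-- One of the three forms has both resultants prime to `p`. -/
private theorem EH_idx (p : ℤ) (q : Fin 3 → Fin 3 → ℤ)
    (h : ∀ i j k : Fin 3, i ≠ j → i ≠ k → j ≠ k → ¬ (p ∣ rq (q i) (q j) ∧ p ∣ rq (q i) (q k))) :
    ∃ i, ∀ j, j ≠ i → ¬ p ∣ rq (q i) (q j) := by
  by_cases h01 : p ∣ rq (q 0) (q 1)
  · refine ⟨2, fun j hj hd => ?_⟩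
    fin_cases j
    · refine h 0 1 2 (by decide) (by decide) (by decide) ⟨h01, ?_⟩
      rw [EH_rq_symm]
      exact hd
    · refine h 1 0 2 (by decide) (by decide) (by decide) ⟨?_, ?_⟩
      · rw [EH_rq_symm]
        exact h01
      · rw [EH_rq_symm]
        exact hd
    · exact hj rfl
  · by_cases h02 : p ∣ rq (q 0) (q 2)
    · refine ⟨1, fun j hj hd => ?_⟩
      fin_cases j
      · refine h01 ?_
        rw [EH_rq_symm]
        exact hd
      · exact hj rfl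
      · refine h 2 0 1 (by decide) (by decide) (by decide) ⟨?_, ?_⟩
        · rw [EH_rq_symm]
          exact h02
        · rw [EH_rq_symm]
          exact hd
    · refine ⟨0, fun j hj hd => ?_⟩
      fin_cases j
      · exact hj rfl
      · exact h01 hd
      · exact h02 hd

private theorem EH_nd (p : ℕ) (x : ℤ) (B : ℤ) (hx : x ≠ 0) (hB : |x| ≤ B) (hp : B < (p : ℤ)) :
    ((x : ℤ) : ZMod p) ≠ 0 := by
  intro h
  have h1 : (p : ℤ) ∣ x := (ZMod.intCast_zmod_eq_zero_iff_dvd x p).1 h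
  have h2 : (p : ℤ) ≤ |x| := Int.le_of_dvd (abs_pos.2 hx) ((dvd_abs _ _).2 h1)
  exact absurd (lt_of_lt_of_le hp (h2.trans hB)) (lt_irrefl _)

private theorem EH_dq (v : Fin 3 → ℤ) (H : ℤ) (h : ∀ j, |v j| ≤ H) : |dq v| ≤ 5 * H ^ 2 := by
  have h0 := abs_le.1 (h 0)
  have h1 := abs_le.1 (h 1)
  have h2 := abs_le.1 (h 2)
  have hH : 0 ≤ H := (abs_nonneg _).trans (h 0)
  have e1 : |v 1 ^ 2| ≤ H ^ 2 := by
    rw [abs_pow]
    exact pow_le_pow_left₀ (abs_nonneg _) (h 1) 2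
  have e2 : |v 0 * v 2| ≤ H ^ 2 := by
    rw [abs_mul, sq]
    exact mul_le_mul (h 0) (h 2) (abs_nonneg _) hH
  unfold dq
  calc |v 1 ^ 2 - 4 * (v 0 * v 2)| ≤ |v 1 ^ 2| + |4 * (v 0 * v 2)| := abs_sub _ _
    _ = |v 1 ^ 2| + 4 * |v 0 * v 2| := by
      rw [abs_mul, abs_of_pos (show (0 : ℤ) < 4 by norm_num)]
    _ ≤ 5 * H ^ 2 := by linarith

theorem bigF {m : ℕ} (h6 : 6 ≤ m) (M : ℕ) (hM : 1 ≤ M) : ∃ (C : ℝ) (H0 : ℕ), 0 < C ∧ ∀ H : ℕ, H0 ≤ H → ∀ P0 : ℕ,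
    ∀ q : Fin 3 × Fin 3 → ℤ, Tq M H q → Gq P0 (H ^ 4 / M + 1) (fun i j => q (i, j)) →
    (Nat.card {f : Fin (m + 1) → ℤ // Tf M (H ^ 4) f ∧ ∃ (p : ℕ) (_ : Fact p.Prime), 5 ≤ p ∧ H ^ 4 < p * M ∧
      BadF p (cq p (fun i j => q (i, j))) (cf p f)} : ℝ) ≤ C * ((H : ℝ) ^ 4) ^ m := by
  classical
  obtain ⟨U, C, K, hU0, hU1, hUp, hUq, hUs⟩ := exists_U m (by omega)
  refine ⟨3 * (3 ^ m + 3 ^ m * (K * (3 * M))), C * M ^ (K + 1) + 5 * M + 1, by positivity, ?_⟩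
  intro H hH P0 q hq hG
  set N : ℕ := H ^ 4 with hNdef
  set L : ℕ := N / M + 1 with hLdef
  have hH1 : 1 ≤ H := by omega
  have hHM : 5 * M ≤ H := by
    have : 0 ≤ C * M ^ (K + 1) := Nat.zero_le _
    omega
  have hHC : C * M ^ (K + 1) ≤ H := by omega
  have hHN : H ≤ N := by
    rw [hNdef]
    calc H = H ^ 1 := (pow_one H).symm
      _ ≤ H ^ 4 := Nat.pow_le_pow_right hH1 (by norm_num)
  have hN1 : 1 ≤ N := le_trans hH1 hHN
  have hNL : N < L * M := by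
    rw [hLdef, mul_comm]
    exact Nat.lt_mul_div_succ N hM
  -- `L > 5 H²`
  have hL5 : 5 * H ^ 2 < L := by
    have h1 : 5 * H ^ 2 * M ≤ N := by
      rw [hNdef]
      calc 5 * H ^ 2 * M = H ^ 2 * (5 * M) := by ring
        _ ≤ H ^ 2 * H := Nat.mul_le_mul_left _ hHM
        _ = H ^ 3 := by ring
        _ ≤ H ^ 4 := Nat.pow_le_pow_right hH1 (by norm_num)
    have h2 : 5 * H ^ 2 * M < L * M := lt_of_le_of_lt h1 hNL
    exact lt_of_mul_lt_mul_right h2 (Nat.zero_le M)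
  have hLH : H < L := by
    refine lt_of_le_of_lt ?_ hL5
    calc H = 1 * (H * 1) := by ring
      _ ≤ 5 * (H * H) := Nat.mul_le_mul (by norm_num) (Nat.mul_le_mul_left _ hH1)
      _ = 5 * H ^ 2 := by ring
  -- `C N^K < L^(K+1)`
  have hCL : (C : ℤ) * (N : ℤ) ^ K < (L : ℤ) ^ (K + 1) := by
    have h1 : C * N ^ K * M ^ (K + 1) < L ^ (K + 1) * M ^ (K + 1) := by
      calc C * N ^ K * M ^ (K + 1) = N ^ K * (C * M ^ (K + 1)) := by ring
        _ ≤ N ^ K * N := Nat.mul_le_mul_left _ (hHC.trans hHN)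
        _ = N ^ (K + 1) := (pow_succ N K).symm
        _ < (L * M) ^ (K + 1) := Nat.pow_lt_pow_left hNL (Nat.succ_ne_zero K)
        _ = L ^ (K + 1) * M ^ (K + 1) := mul_pow _ _ _
    have h2 : C * N ^ K < L ^ (K + 1) := lt_of_mul_lt_mul_right h1 (Nat.zero_le _)
    exact_mod_cast h2
  have hv2 : ∀ i : Fin 3, q (i, 2) ≠ 0 := fun i => (hq.2 i).1.ne'
  have hqN : ∀ k, |q k| ≤ (N : ℤ) := fun k => (hq.1 k).trans (by exact_mod_cast hHN)
  have hcard : Fintype.card (Fin (m + 1)) - 1 = m := by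
    rw [Fintype.card_fin, Nat.add_sub_cancel]
  have hNr : ((N : ℕ) : ℝ) = (H : ℝ) ^ 4 := by
    rw [hNdef]
    push_cast
    rfl
  have key := EH_card (α := Fin (m + 1) → ℤ)
    (fun i f => (∀ k, |f k| ≤ (N : ℤ)) ∧ U (fun j => q (i, j)) f = 0)
    (fun i f => (∀ k, |f k| ≤ (N : ℤ)) ∧ (U (fun j => q (i, j)) f ≠ 0 ∧ ∃ p : ℕ, ∃ _ : Fact p.Prime, L ≤ p ∧
      ¬ (p : ℤ) ∣ q (i, 2) ∧ pol (fun j => ((q (i, j) : ℤ) : ZMod p)) ∣ pol (cf p f)))
    (fun f => Tf M N f ∧ ∃ (p : ℕ) (_ : Fact p.Prime), 5 ≤ p ∧ N < p * M ∧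
      BadF p (cq p (fun i j => q (i, j))) (cf p f))
    (fun i => BLS.box_fin N _) (fun i => BLS.box_fin N _)
    ((3 * (N : ℝ)) ^ m) ((3 * (N : ℝ)) ^ m * (K * (3 * M))) ?_ ?_ ?_
  · refine key.trans (le_of_eq ?_)
    rw [hNr, mul_pow]
    ring
  · intro i
    have h1 := BLS.fib1 (1 : Fin (m + 1)) N hN1 (fun f => U (fun j => q (i, j)) f = 0) (fun f f' hf hf' h =>
      hU1 _ f f' (hv2 i) h hf hf')
    rw [hcard] at h1
    exact h1
  · intro i
    have h1 := BLS.fib2 (0 : Fin (m + 1)) N L M K hN1 hM hNL.le (U (fun j => q (i, j)))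
      (fun f f' h => hU0 _ f f' h)
      (fun p f => ∃ _ : Fact p.Prime, L ≤ p ∧
        ¬ (p : ℤ) ∣ q (i, 2) ∧ pol (fun j => ((q (i, j) : ℤ) : ZMod p)) ∣ pol (cf p f))
      (fun f hf => lt_of_le_of_lt (hUs N hN1 _ f (fun k => hqN _) hf) hCL) ?_ ?_
    · rw [hcard] at h1
      exact h1
    · rintro p f ⟨hp, hLp, hp2, hd⟩
      exact ⟨hp.out, hLp, hUp p _ f hp2 hd⟩
    · rintro p f f' ⟨hp, hLp, hp2, hd⟩ ⟨_, _, _, hd'⟩ h
      exact hUq p _ f f' hp2 hd hd' h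
  · rintro f ⟨hf, p, hp, hp5, hpM, hbad⟩
    have hLp : L ≤ p := by
      rw [hLdef]
      exact (Nat.div_lt_iff_lt_mul hM).2 hpM
    have hLpz : (L : ℤ) ≤ (p : ℤ) := by exact_mod_cast hLp
    obtain ⟨i, hi⟩ := EH_idx (p : ℤ) (fun i j => q (i, j)) (hG.2.2.2 p hp.out hLp)
    have h2 : ((q (i, 2) : ℤ) : ZMod p) ≠ 0 := by
      refine EH_nd p _ (H : ℤ) (hv2 i) (hq.1 _) (lt_of_lt_of_le ?_ hLpz)
      exact_mod_cast hLH
    have hp2 : ¬ (p : ℤ) ∣ q (i, 2) := fun h => h2 ((ZMod.intCast_zmod_eq_zero_iff_dvd _ p).2 h)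
    have hdq : dq (cq p (fun i j => q (i, j)) i) ≠ 0 := by
      have h3 : dq (cq p (fun i j => q (i, j)) i) = ((dq (fun j => q (i, j)) : ℤ) : ZMod p) := by
        simp only [dq, cq]
        push_cast
        ring
      rw [h3]
      refine EH_nd p _ (5 * (H : ℤ) ^ 2) (hG.1 i) (EH_dq _ _ fun j => hq.1 _) (lt_of_lt_of_le ?_ hLpz)
      exact_mod_cast hL5
    have hrq : ∀ j, j ≠ i → rq (cq p (fun i j => q (i, j)) i) (cq p (fun i j => q (i, j)) j) ≠ 0 := by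
      intro j hj h
      refine hi j hj ((ZMod.intCast_zmod_eq_zero_iff_dvd _ p).1 ?_)
      rw [← h]
      simp only [rq, cq]
      push_cast
      ring
    have hd := dvd_of_bad (p := p) (by omega) (cq p (fun i j => q (i, j))) (cf p f) i h2 hdq hrq hbad
    refine ⟨i, ?_⟩
    by_cases hU : U (fun j => q (i, j)) f = 0
    · exact Or.inl ⟨hf.1, hU⟩
    · exact Or.inr ⟨hf.1, hU, p, hp, hLp, hp2, hd⟩

end HY
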