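import Pool.Agent.Lib.MP_10e784_agH.EDefs
import Pool.Agent.Lib.MP_10e784_agH.PA
import Pool.Agent.Lib.MP_10e784_agL.MA
import Pool.Agent.Lib.MP_10e784_agL.MB
import Pool.Agent.Lib.MP_10e784_agL.GD

/-!
# LEAF EI: most triples of quadratic forms satisfy `Gq`

Each of the four statements bounds the number of the `q` in `Tq M H` which violate one condition.
PROOF.  `cnt_T`: `q_(i,2)` takes at least `H / M` values (`1 + j M`, `0 ≤ j`, `1 + j M ≤ H`: `⌊(H - 1) / M⌋ + 1 ≥ H / M`), the other six coordinates `2 H + 1 ≥ H`.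
`cnt_d`: `dq (q i) = 0`: `4 q_(i,2) q_(i,0) = q_(i,1)²` determines `q_(i,0)` from the other eight coordinates (`fib1` of `MP_10e784_agL/GD.lean` or a direct injection): `(3 H)^8`.
`cnt_r`: `rq (q i) (q j) = 0`: for given other coordinates a quadratic equation for `q_(j,0)` with leading coefficient `q_(i,2)² ≠ 0`: at most two values: `2 (3 H)^8`.
`cnt_p`: if `p > P0` divides `q_(i,0)`, `q_(i,1)`, `q_(i,2)` then `p ≤ H` (`0 < q_(i,2) ≤ H`); for a prime `p ≤ H`: the pairs `(q_(i,0), q_(i,1))` with both divisible by `p`: `(2 H / p + 1)² ≤ 9 H² / p²`; the other four coordinates `(3 H)^4`, and the three leading ones `(H / M + 1)³ ≤ (2 H / M)³` (`M ≤ H`): sum over `p > P0`: `sum_inv_sq`: at most `3 · 9 · 81 · 8 H^9 / (M³ P0)`.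
`cnt_2`: `p ≥ L = H⁴ / M + 1` divides `rq (q i) (q j)` and `rq (q i) (q k)`, both not `0`: `|rq| ≤ 8 H⁴ < L²`, so for given `q i`, `q j` there is at most one prime `p ≥ L` with `p ∣ rq (q i) (q j)`; given it and `q_(k,1)`, `q_(k,2)` the congruence `rq (q i) (q k) ≡ 0` is quadratic in `q_(k,0)` with leading coefficient `q_(i,2)²`, not divisible by `p` (`0 < q_(i,2) ≤ H < L`): at most two classes modulo `p`, each with at most one value (`2 H + 1 ≤ L ≤ p`): so at most `2` values of `q_(k,0)` for every choice of the other eight coordinates: `2 (3 H)^8`.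
-/

set_option autoImplicit false

namespace HY

section

variable {ι : Type} [Fintype ι] [DecidableEq ι]

private theorem EI_card (H : ℕ) (Y : ℤ → Prop) [DecidablePred Y] :
    Nat.card {x : ℤ // |x| ≤ (H : ℤ) ∧ Y x} = ((Finset.Icc (-(H : ℤ)) H).filter Y).card := by
  refine Nat.subtype_card _ fun x => ?_
  rw [Finset.mem_filter, Finset.mem_Icc, abs_le]

private theorem EI_box (k : ι) (H : ℕ) : (Fintype.piFinset fun j : ι =>
    if j = k then ({0} : Finset ℤ) else Finset.Icc (-(H : ℤ)) H).card =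
      (2 * H + 1) ^ (Fintype.card ι - 1) := by
  classical
  rw [Fintype.card_piFinset]
  have h1 : ∀ j : ι, (if j = k then ({0} : Finset ℤ) else Finset.Icc (-(H : ℤ)) H).card =
      if j = k then 1 else 2 * H + 1 := by
    intro j
    split_ifs
    · exact Finset.card_singleton 0
    · rw [Int.card_Icc]
      omega
  rw [Finset.prod_congr rfl fun j _ => h1 j, Finset.prod_ite, Finset.prod_const_one, one_mul,
    Finset.prod_const, Finset.filter_ne', Finset.card_erase_of_mem (Finset.mem_univ k),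
    Finset.card_univ]

private theorem EI_fib (k : ι) (H : ℕ) (hH : 1 ≤ H) (P : (ι → ℤ) → Prop)
    (hP : ∀ a, P a → ∀ j, |a j| ≤ (H : ℤ)) (c : ℝ) (hc0 : 0 ≤ c)
    (hc : ∀ a, P a → (Nat.card {x : ℤ // |x| ≤ (H : ℤ) ∧ P (Function.update a k x)} : ℝ) ≤ c) :
    (Nat.card {a : ι → ℤ // P a} : ℝ) ≤ (3 * (H : ℝ)) ^ (Fintype.card ι - 1) * c := by
  classical
  have h0 : Nat.card {a : ι → ℤ // P a} =
      ((Fintype.piFinset fun _ : ι => Finset.Icc (-(H : ℤ)) H).filter P).card := by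
    refine Nat.subtype_card _ fun a => ?_
    rw [Finset.mem_filter, Fintype.mem_piFinset]
    refine ⟨fun h => h.2, fun h => ⟨fun j => ?_, h⟩⟩
    exact Finset.mem_Icc.2 (abs_le.1 (hP a h j))
  have hmap : ∀ a ∈ (Fintype.piFinset fun _ : ι => Finset.Icc (-(H : ℤ)) H).filter P,
      Function.update a k 0 ∈ Fintype.piFinset fun j : ι =>
        if j = k then ({0} : Finset ℤ) else Finset.Icc (-(H : ℤ)) H := by
    intro a ha
    rw [Fintype.mem_piFinset]
    intro j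
    by_cases hj : j = k
    · rw [if_pos hj, hj, Function.update_self]
      exact Finset.mem_singleton_self 0
    · rw [if_neg hj, Function.update_of_ne hj]
      exact Fintype.mem_piFinset.1 (Finset.mem_filter.1 ha).1 j
  rw [h0, Finset.card_eq_sum_card_fiberwise hmap, Nat.cast_sum]
  have h1 : ∀ b ∈ Fintype.piFinset fun j : ι =>
      if j = k then ({0} : Finset ℤ) else Finset.Icc (-(H : ℤ)) H,
      ((((Fintype.piFinset fun _ : ι => Finset.Icc (-(H : ℤ)) H).filter P).filter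
        (fun a => Function.update a k 0 = b)).card : ℝ) ≤ c := by
    intro b _
    rcases (((Fintype.piFinset fun _ : ι => Finset.Icc (-(H : ℤ)) H).filter P).filter
        (fun a => Function.update a k 0 = b)).eq_empty_or_nonempty with he | ⟨a₀, ha₀⟩
    · rw [he, Finset.card_empty, Nat.cast_zero]
      exact hc0
    · rw [Finset.mem_filter, Finset.mem_filter] at ha₀
      refine le_trans ?_ (hc a₀ ha₀.1.2)
      rw [EI_card]
      have h2 : (((Fintype.piFinset fun _ : ι => Finset.Icc (-(H : ℤ)) H).filter P).filter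
          (fun a => Function.update a k 0 = b)).card ≤
          ((Finset.Icc (-(H : ℤ)) H).filter fun x => P (Function.update a₀ k x)).card := by
        have hu : ∀ a ∈ ((Fintype.piFinset fun _ : ι => Finset.Icc (-(H : ℤ)) H).filter P).filter
            (fun a => Function.update a k 0 = b), a = Function.update a₀ k (a k) := by
          intro a ha
          rw [Finset.mem_filter] at ha
          funext j
          by_cases hj : j = k
          · rw [hj, Function.update_self]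
          · rw [Function.update_of_ne hj]
            have h3 := congrFun (ha.2.trans ha₀.2.symm) j
            rw [Function.update_of_ne hj, Function.update_of_ne hj] at h3
            exact h3
        refine Finset.card_le_card_of_injOn (fun a => a k) ?_ ?_
        · intro a ha
          have ha' := Finset.mem_filter.1 (Finset.mem_coe.1 ha)
          have ha'' := Finset.mem_filter.1 ha'.1
          refine Finset.mem_coe.2 (Finset.mem_filter.2 ⟨Fintype.mem_piFinset.1 ha''.1 k, ?_⟩)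
          rw [← hu a (Finset.mem_coe.1 ha)]
          exact ha''.2
        · intro a ha a' ha' h
          rw [hu a (Finset.mem_coe.1 ha), hu a' (Finset.mem_coe.1 ha')]
          have h' : a k = a' k := h
          rw [h']
      exact_mod_cast h2
  have hHr : (1 : ℝ) ≤ H := by exact_mod_cast hH
  calc ∑ b ∈ Fintype.piFinset fun j : ι =>
      if j = k then ({0} : Finset ℤ) else Finset.Icc (-(H : ℤ)) H,
      ((((Fintype.piFinset fun _ : ι => Finset.Icc (-(H : ℤ)) H).filter P).filter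
        (fun a => Function.update a k 0 = b)).card : ℝ)
      ≤ ∑ _b ∈ Fintype.piFinset fun j : ι =>
        if j = k then ({0} : Finset ℤ) else Finset.Icc (-(H : ℤ)) H, c := Finset.sum_le_sum h1
    _ = ((2 * (H : ℝ) + 1) ^ (Fintype.card ι - 1)) * c := by
        rw [Finset.sum_const, nsmul_eq_mul, EI_box]
        push_cast
        rfl
    _ ≤ (3 * (H : ℝ)) ^ (Fintype.card ι - 1) * c := by
        refine mul_le_mul_of_nonneg_right ?_ hc0
        exact pow_le_pow_left₀ (by positivity) (by linarith) _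

end

private theorem EI_pi (Q : Fin 3 × Fin 3 → ℤ → Prop) :
    Nat.card {q : Fin 3 × Fin 3 → ℤ // ∀ k, Q k (q k)} = ∏ k, Nat.card {x : ℤ // Q k x} := by
  rw [← Nat.card_pi]
  exact Nat.card_congr Equiv.subtypePiEquivPi

private theorem EI_mono (H : ℕ) (s t : ℤ → Prop) (hst : ∀ x, s x → t x) (ht : ∀ x, t x → |x| ≤ (H : ℤ)) :
    Nat.card {x : ℤ // s x} ≤ Nat.card {x : ℤ // t x} := by
  have hfin : Finite {x : ℤ // t x} := by
    have h1 : {x : ℤ | t x} ⊆ Set.Icc (-(H : ℤ)) H := fun x hx => abs_le.1 (ht x hx)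
    exact ((Set.finite_Icc _ _).subset h1).to_subtype
  refine Nat.card_le_card_of_injective (fun x : {x : ℤ // s x} => (⟨x.1, hst x.1 x.2⟩ : {x : ℤ // t x})) ?_
  intro x y hxy
  exact Subtype.ext (congrArg (fun z : {x : ℤ // t x} => z.1) hxy)

private theorem EI_two (s : ℤ → Prop) (h : ∀ x y z, s x → s y → s z → x = y ∨ x = z ∨ y = z) :
    Nat.card {x : ℤ // s x} ≤ 2 := by
  classical
  by_contra hc
  have hfin : Finite {x : ℤ // s x} := Nat.finite_of_card_ne_zero (by omega)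
  have : Fintype {x : ℤ // s x} := Fintype.ofFinite _
  rw [Nat.card_eq_fintype_card, not_le, Fintype.two_lt_card_iff] at hc
  obtain ⟨a, b, c, h1, h2, h3⟩ := hc
  rcases h a.1 b.1 c.1 a.2 b.2 c.2 with h4 | h4 | h4
  · exact h1 (Subtype.ext h4)
  · exact h2 (Subtype.ext h4)
  · exact h3 (Subtype.ext h4)

private theorem EI_lead (M H : ℕ) (hM : 1 ≤ M) (hMH : M ≤ H) (s : ℤ → Prop)
    (hs : ∀ x, s x → |x| ≤ (H : ℤ) ∧ 0 < x ∧ (M : ℤ) ∣ x - 1) :
    (Nat.card {x : ℤ // s x} : ℝ) ≤ 2 * (H : ℝ) / M := by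
  have hM0 : (0 : ℝ) < M := by exact_mod_cast hM
  have h1 := EI_mono H s (fun x => |x| ≤ (H : ℤ) ∧ 0 < x ∧ (M : ℤ) ∣ x - 1 ∧ (x : ZMod 1) = 0)
    (fun x hx => ⟨(hs x hx).1, (hs x hx).2.1, (hs x hx).2.2, Subsingleton.elim _ _⟩) (fun x hx => hx.1)
  have h2 := BLS.card_ap' 1 M H le_rfl hM (Nat.coprime_one_left M) (0 : ZMod 1)
  have h3 : (Nat.card {x : ℤ // s x} : ℝ) ≤ (H : ℝ) / (((1 : ℕ) : ℝ) * M) + 1 := by
    refine le_trans ?_ h2
    exact_mod_cast h1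
  have h4 : (1 : ℝ) ≤ H / M := by
    rw [le_div_iff₀ hM0, one_mul]
    exact_mod_cast hMH
  rw [Nat.cast_one, one_mul] at h3
  have h5 : 2 * (H : ℝ) / M = H / M + H / M := by ring
  rw [h5]
  linarith

private theorem EI_ap (p H : ℕ) (hp : 1 ≤ p) (hpH : p ≤ H) (s : ℤ → Prop)
    (hs : ∀ x, s x → |x| ≤ (H : ℤ) ∧ (p : ℤ) ∣ x) :
    (Nat.card {x : ℤ // s x} : ℝ) ≤ 3 * (H : ℝ) / p := by
  have hp0 : (0 : ℝ) < p := by exact_mod_cast hp
  have h1 := EI_mono H s (fun x => |x| ≤ (H : ℤ) ∧ (x : ZMod p) = 0)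
    (fun x hx => ⟨(hs x hx).1, (ZMod.intCast_zmod_eq_zero_iff_dvd _ _).2 (hs x hx).2⟩) (fun x hx => hx.1)
  have h2 := BLS.card_ap p H hp (0 : ZMod p)
  have h3 : (Nat.card {x : ℤ // s x} : ℝ) ≤ 2 * (H : ℝ) / p + 1 := by
    refine le_trans ?_ h2
    exact_mod_cast h1
  have h4 : (1 : ℝ) ≤ H / p := by
    rw [le_div_iff₀ hp0, one_mul]
    exact_mod_cast hpH
  have h5 : 3 * (H : ℝ) / p = 2 * (H : ℝ) / p + H / p := by ring
  rw [h5]
  linarith

private theorem EI_one (p M H : ℕ) (hp : 1 ≤ p) (hpH : p ≤ H) (hM : 1 ≤ M) (hMH : M ≤ H) (i : Fin 3) :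
    (Nat.card {q : Fin 3 × Fin 3 → ℤ // Tq M H q ∧ ∀ j, (p : ℤ) ∣ q (i, j)} : ℝ) ≤
      5832 * (H : ℝ) ^ 9 / (M : ℝ) ^ 3 * (1 / (p : ℝ) ^ 2) := by
  have hp0 : (0 : ℝ) < p := by exact_mod_cast hp
  have hM0 : (0 : ℝ) < M := by exact_mod_cast hM
  have hH0 : (0 : ℝ) ≤ H := Nat.cast_nonneg H
  have h1 : Nat.card {q : Fin 3 × Fin 3 → ℤ // Tq M H q ∧ ∀ j, (p : ℤ) ∣ q (i, j)} =
      Nat.card {q : Fin 3 × Fin 3 → ℤ // ∀ k, (|q k| ≤ (H : ℤ) ∧ (k.2 = 2 → 0 < q k ∧ (M : ℤ) ∣ q k - 1) ∧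
        (k.1 = i → (p : ℤ) ∣ q k))} := by
    refine Nat.card_congr (Equiv.subtypeEquivRight fun q => ?_)
    constructor
    · rintro ⟨⟨h1, h2⟩, h3⟩ ⟨a, b⟩
      refine ⟨h1 _, ?_, ?_⟩
      · rintro rfl
        exact h2 a
      · rintro rfl
        exact h3 b
    · intro h
      exact ⟨⟨fun k => (h k).1, fun a => (h (a, 2)).2.1 rfl⟩, fun j => (h (i, j)).2.2 rfl⟩
  rw [h1, EI_pi (fun k x => |x| ≤ (H : ℤ) ∧ (k.2 = 2 → 0 < x ∧ (M : ℤ) ∣ x - 1) ∧
        (k.1 = i → (p : ℤ) ∣ x)), Nat.cast_prod]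
  have h2 : ∀ k : Fin 3 × Fin 3, (Nat.card {x : ℤ // |x| ≤ (H : ℤ) ∧ (k.2 = 2 → 0 < x ∧ (M : ℤ) ∣ x - 1) ∧
        (k.1 = i → (p : ℤ) ∣ x)} : ℝ) ≤
      if k.2 = 2 then 2 * (H : ℝ) / M else if k.1 = i then 3 * (H : ℝ) / p else 3 * (H : ℝ) / 1 := by
    intro k
    split_ifs with h3 h4
    · exact EI_lead M H hM hMH _ fun x hx => ⟨hx.1, hx.2.1 h3⟩
    · exact EI_ap p H hp hpH _ fun x hx => ⟨hx.1, hx.2.2 h4⟩
    · have h5 := EI_ap 1 H le_rfl (hM.trans hMH) (fun x => |x| ≤ (H : ℤ) ∧ (k.2 = 2 → 0 < x ∧ (M : ℤ) ∣ x - 1) ∧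
        (k.1 = i → (p : ℤ) ∣ x)) fun x hx => ⟨hx.1, by simp⟩
      rw [Nat.cast_one] at h5
      exact h5
  refine (Finset.prod_le_prod (fun k _ => Nat.cast_nonneg _) fun k _ => h2 k).trans (le_of_eq ?_)
  rw [Fintype.prod_prod_type]
  fin_cases i <;> simp [Fin.prod_univ_three] <;> field_simp <;> ring

private theorem EI_dq (q : Fin 3 × Fin 3 → ℤ) (i : Fin 3) (x : ℤ) :
    dq (fun l => Function.update q (i, 0) x (i, l)) = q (i, 1) ^ 2 - 4 * (x * q (i, 2)) := by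
  have e2 : Function.update q (i, 0) x (i, 1) = q (i, 1) := Function.update_of_ne (by simp) _ _
  have e3 : Function.update q (i, 0) x (i, 2) = q (i, 2) := Function.update_of_ne (by simp) _ _
  unfold dq
  beta_reduce
  rw [e2, e3, Function.update_self]

private def EI_B (q : Fin 3 × Fin 3 → ℤ) (i j : Fin 3) : ℤ :=
  -2 * (q (i, 0) * q (j, 2) * q (i, 2)) - q (i, 1) * (q (i, 2) * q (j, 1) - q (i, 1) * q (j, 2))

private def EI_C (q : Fin 3 × Fin 3 → ℤ) (i j : Fin 3) : ℤ :=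
  (q (i, 0) * q (j, 2)) ^ 2 + q (i, 0) * q (j, 1) * (q (i, 2) * q (j, 1) - q (i, 1) * q (j, 2))

private theorem EI_rq (q : Fin 3 × Fin 3 → ℤ) (i j : Fin 3) (hij : i ≠ j) (x : ℤ) :
    rq (fun l => Function.update q (j, 0) x (i, l)) (fun l => Function.update q (j, 0) x (j, l)) =
      q (i, 2) ^ 2 * x ^ 2 + EI_B q i j * x + EI_C q i j := by
  have e1 : ∀ l, Function.update q (j, 0) x (i, l) = q (i, l) := fun l =>
    Function.update_of_ne (fun h => hij (congrArg Prod.fst h)) _ _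
  have e2 : Function.update q (j, 0) x (j, 1) = q (j, 1) := Function.update_of_ne (by simp) _ _
  have e3 : Function.update q (j, 0) x (j, 2) = q (j, 2) := Function.update_of_ne (by simp) _ _
  unfold rq EI_B EI_C
  beta_reduce
  rw [e1, e1, e1, e2, e3, Function.update_self]
  ring

private theorem EI_abs (q : Fin 3 × Fin 3 → ℤ) (H : ℕ) (hq : ∀ k, |q k| ≤ (H : ℤ)) (i j : Fin 3) :
    |rq (fun l => q (i, l)) (fun l => q (j, l))| ≤ 8 * (H : ℤ) ^ 4 := by
  have h1 : ∀ a b : Fin 3 × Fin 3, |q a * q b| ≤ (H : ℤ) ^ 2 := by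
    intro a b
    rw [abs_mul, sq]
    exact mul_le_mul (hq a) (hq b) (abs_nonneg _) (by positivity)
  have h2 : ∀ a b c d : Fin 3 × Fin 3, |q a * q b - q c * q d| ≤ 2 * (H : ℤ) ^ 2 := by
    intro a b c d
    have h3 := abs_sub (q a * q b) (q c * q d)
    have h4 := h1 a b
    have h5 := h1 c d
    linarith
  unfold rq
  beta_reduce
  have h3 := h2 (i, 0) (j, 2) (i, 2) (j, 0)
  have h4 := h2 (i, 2) (j, 1) (i, 1) (j, 2)
  have h5 := h2 (i, 1) (j, 0) (i, 0) (j, 1)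
  obtain ⟨A, hA⟩ : ∃ A : ℤ, A = q (i, 0) * q (j, 2) - q (i, 2) * q (j, 0) := ⟨_, rfl⟩
  obtain ⟨B, hB⟩ : ∃ B : ℤ, B = q (i, 2) * q (j, 1) - q (i, 1) * q (j, 2) := ⟨_, rfl⟩
  obtain ⟨C, hC⟩ : ∃ C : ℤ, C = q (i, 1) * q (j, 0) - q (i, 0) * q (j, 1) := ⟨_, rfl⟩
  rw [← hA] at h3 ⊢
  rw [← hB] at h4 ⊢
  rw [← hC] at h5 ⊢
  have h6 : |A ^ 2| ≤ (2 * (H : ℤ) ^ 2) ^ 2 := by
    rw [abs_pow]
    exact pow_le_pow_left₀ (abs_nonneg _) h3 2
  have h7 : |B * C| ≤ (2 * (H : ℤ) ^ 2) * (2 * (H : ℤ) ^ 2) := by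
    rw [abs_mul]
    exact mul_le_mul h4 h5 (abs_nonneg _) (by positivity)
  have h8 := abs_sub (A ^ 2) (B * C)
  have h9 : (2 * (H : ℤ) ^ 2) ^ 2 + (2 * (H : ℤ) ^ 2) * (2 * (H : ℤ) ^ 2) = 8 * (H : ℤ) ^ 4 := by ring
  linarith

theorem cnt_T (M H : ℕ) (hM : 1 ≤ M) (hH : 1 ≤ H) :
    (H : ℝ) ^ 9 / (M : ℝ) ^ 3 ≤ (Nat.card {q : Fin 3 × Fin 3 → ℤ // Tq M H q} : ℝ) := by
  have hM0 : (0 : ℝ) < M := by exact_mod_cast hM
  have hHr : (1 : ℝ) ≤ H := by exact_mod_cast hH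
  have h1 : Nat.card {q : Fin 3 × Fin 3 → ℤ // Tq M H q} =
      Nat.card {q : Fin 3 × Fin 3 → ℤ // ∀ k, (|q k| ≤ (H : ℤ) ∧ (k.2 = 2 → 0 < q k ∧ (M : ℤ) ∣ q k - 1))} := by
    refine Nat.card_congr (Equiv.subtypeEquivRight fun q => ?_)
    constructor
    · rintro ⟨h1, h2⟩ ⟨a, b⟩
      refine ⟨h1 _, ?_⟩
      rintro rfl
      exact h2 a
    · intro h
      exact ⟨fun k => (h k).1, fun a => (h (a, 2)).2 rfl⟩
  rw [h1, EI_pi (fun k x => |x| ≤ (H : ℤ) ∧ (k.2 = 2 → 0 < x ∧ (M : ℤ) ∣ x - 1)), Nat.cast_prod]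
  have hfin : ∀ t : ℤ → Prop, (∀ x, t x → |x| ≤ (H : ℤ)) → Finite {x : ℤ // t x} := by
    intro t ht
    have h1 : {x : ℤ | t x} ⊆ Set.Icc (-(H : ℤ)) H := fun x hx => abs_le.1 (ht x hx)
    exact ((Set.finite_Icc _ _).subset h1).to_subtype
  have h2 : ∀ k : Fin 3 × Fin 3, (if k.2 = 2 then (H : ℝ) / M else (H : ℝ)) ≤
      (Nat.card {x : ℤ // |x| ≤ (H : ℤ) ∧ (k.2 = 2 → 0 < x ∧ (M : ℤ) ∣ x - 1)} : ℝ) := by
    intro k
    have hf := hfin (fun x => |x| ≤ (H : ℤ) ∧ (k.2 = 2 → 0 < x ∧ (M : ℤ) ∣ x - 1)) fun x hx => hx.1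
    split_ifs with h3
    · have h4 : Nat.card (Fin ((H - 1) / M + 1)) ≤
          Nat.card {x : ℤ // |x| ≤ (H : ℤ) ∧ (k.2 = 2 → 0 < x ∧ (M : ℤ) ∣ x - 1)} := by
        refine Nat.card_le_card_of_injective (fun j : Fin ((H - 1) / M + 1) =>
          (⟨1 + (j.1 : ℤ) * M, ?_, fun _ => ⟨by positivity, ⟨j.1, by ring⟩⟩⟩ :
            {x : ℤ // |x| ≤ (H : ℤ) ∧ (k.2 = 2 → 0 < x ∧ (M : ℤ) ∣ x - 1)})) ?_
        · have h5 : j.1 * M ≤ H - 1 := by
            have h6 : j.1 ≤ (H - 1) / M := Nat.lt_succ_iff.1 j.2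
            exact (Nat.mul_le_mul_right M h6).trans (Nat.div_mul_le_self _ _)
          have h6 : (0 : ℤ) ≤ 1 + (j.1 : ℤ) * M := by positivity
          rw [abs_of_nonneg h6]
          have h7 : 1 + j.1 * M ≤ H := by omega
          exact_mod_cast h7
        · intro j j' hj
          have h5 : 1 + (j.1 : ℤ) * M = 1 + (j'.1 : ℤ) * M := congrArg Subtype.val hj
          have h6 : (M : ℤ) ≠ 0 := by exact_mod_cast (by omega : M ≠ 0)
          have h7 : (j.1 : ℤ) = j'.1 := mul_right_cancel₀ h6 (by linarith)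
          exact Fin.ext (by exact_mod_cast h7)
      rw [Nat.card_eq_fintype_card, Fintype.card_fin] at h4
      have h5 : (H : ℝ) / M ≤ (((H - 1) / M + 1 : ℕ) : ℝ) := by
        rw [div_le_iff₀ hM0]
        have h6 : H ≤ ((H - 1) / M + 1) * M := by
          have h7 := Nat.div_add_mod (H - 1) M
          have h8 := Nat.mod_lt (H - 1) (by omega : 0 < M)
          have h9 : ((H - 1) / M + 1) * M = M * ((H - 1) / M) + M := by ring
          omega
        exact_mod_cast h6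
      exact h5.trans (by exact_mod_cast h4)
    · have h4 : Nat.card (Fin H) ≤
          Nat.card {x : ℤ // |x| ≤ (H : ℤ) ∧ (k.2 = 2 → 0 < x ∧ (M : ℤ) ∣ x - 1)} := by
        refine Nat.card_le_card_of_injective (fun j : Fin H =>
          (⟨(j.1 : ℤ), ?_, fun h => absurd h h3⟩ :
            {x : ℤ // |x| ≤ (H : ℤ) ∧ (k.2 = 2 → 0 < x ∧ (M : ℤ) ∣ x - 1)})) ?_
        · rw [abs_of_nonneg (by positivity)]
          exact_mod_cast j.2.le
        · intro j j' hj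
          have h5 : (j.1 : ℤ) = (j'.1 : ℤ) := congrArg Subtype.val hj
          exact Fin.ext (by exact_mod_cast h5)
      rw [Nat.card_eq_fintype_card, Fintype.card_fin] at h4
      exact_mod_cast h4
  refine le_trans (le_of_eq ?_) (Finset.prod_le_prod (fun k _ => ?_) fun k _ => h2 k)
  · rw [Fintype.prod_prod_type]
    simp [Fin.prod_univ_three]
    field_simp
  · split_ifs <;> positivity

theorem cnt_d (M H : ℕ) (hH : 1 ≤ H) (i : Fin 3) :
    (Nat.card {q : Fin 3 × Fin 3 → ℤ // Tq M H q ∧ dq (fun j => q (i, j)) = 0} : ℝ) ≤ (3 * (H : ℝ)) ^ 8 := by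
  have h0 := EI_fib (i, (0 : Fin 3)) H hH
    (fun q : Fin 3 × Fin 3 → ℤ => Tq M H q ∧ dq (fun j => q (i, j)) = 0) (fun q hq => hq.1.1) 1 zero_le_one ?_
  · refine h0.trans (le_of_eq ?_)
    simp
  · rintro q ⟨hq, -⟩
    have hs : Subsingleton {x : ℤ // |x| ≤ (H : ℤ) ∧ (Tq M H (Function.update q (i, 0) x) ∧
        dq (fun j => Function.update q (i, 0) x (i, j)) = 0)} := by
      refine ⟨fun x y => Subtype.ext ?_⟩
      have h1 := x.2.2.2
      have h2 := y.2.2.2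
      rw [EI_dq] at h1 h2
      have h3 := (hq.2 i).1
      have h4 : q (i, 2) * (x.1 - y.1) = 0 := by linarith
      rcases mul_eq_zero.1 h4 with h5 | h5
      · omega
      · omega
    have h3 := Finite.card_le_one_iff_subsingleton.2 hs
    exact_mod_cast h3

theorem cnt_r (M H : ℕ) (hH : 1 ≤ H) (i j : Fin 3) (hij : i ≠ j) :
    (Nat.card {q : Fin 3 × Fin 3 → ℤ // Tq M H q ∧ rq (fun l => q (i, l)) (fun l => q (j, l)) = 0} : ℝ) ≤
      2 * (3 * (H : ℝ)) ^ 8 := by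
  have h0 := EI_fib (j, (0 : Fin 3)) H hH
    (fun q : Fin 3 × Fin 3 → ℤ => Tq M H q ∧ rq (fun l => q (i, l)) (fun l => q (j, l)) = 0)
    (fun q hq => hq.1.1) 2 zero_le_two ?_
  · refine h0.trans (le_of_eq ?_)
    simp
    ring
  · rintro q ⟨hq, -⟩
    have h3 := (hq.2 i).1
    have h1 := EI_two (fun x => |x| ≤ (H : ℤ) ∧ (Tq M H (Function.update q (j, 0) x) ∧
        rq (fun l => Function.update q (j, 0) x (i, l)) (fun l => Function.update q (j, 0) x (j, l)) = 0)) ?_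
    · exact_mod_cast h1
    · rintro x y z ⟨-, -, hx⟩ ⟨-, -, hy⟩ ⟨-, -, hz⟩
      rw [EI_rq q i j hij] at hx hy hz
      by_cases hxy : x = y
      · exact Or.inl hxy
      by_cases hxz : x = z
      · exact Or.inr (Or.inl hxz)
      right
      right
      obtain ⟨B, hB⟩ : ∃ B : ℤ, B = EI_B q i j := ⟨_, rfl⟩
      rw [← hB] at hx hy hz
      have e1 : (x - y) * (q (i, 2) ^ 2 * (x + y) + B) = 0 := by linear_combination hx - hy
      have e2 : (x - z) * (q (i, 2) ^ 2 * (x + z) + B) = 0 := by linear_combination hx - hz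
      have e3 : q (i, 2) ^ 2 * (x + y) + B = 0 := by
        rcases mul_eq_zero.1 e1 with h | h
        · exact absurd (sub_eq_zero.1 h) hxy
        · exact h
      have e4 : q (i, 2) ^ 2 * (x + z) + B = 0 := by
        rcases mul_eq_zero.1 e2 with h | h
        · exact absurd (sub_eq_zero.1 h) hxz
        · exact h
      have e5 : q (i, 2) ^ 2 * (y - z) = 0 := by linear_combination e3 - e4
      rcases mul_eq_zero.1 e5 with h | h
      · exact absurd h (pow_ne_zero 2 h3.ne')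
      · exact sub_eq_zero.1 h

theorem cnt_p : ∃ C : ℝ, 0 < C ∧ ∀ P0 M H : ℕ, 4 ≤ P0 → 1 ≤ M → M ≤ H → ∀ i : Fin 3,
    (Nat.card {q : Fin 3 × Fin 3 → ℤ // Tq M H q ∧ ∃ p : ℕ, p.Prime ∧ P0 < p ∧ ∀ j, (p : ℤ) ∣ q (i, j)} : ℝ) ≤
      C * (H : ℝ) ^ 9 / ((M : ℝ) ^ 3 * P0) := by
  classical
  refine ⟨5832, by norm_num, fun P0 M H hP hM hMH i => ?_⟩
  have hM0 : (0 : ℝ) < M := by exact_mod_cast hM
  have hP0 : (0 : ℝ) < P0 := by exact_mod_cast (by omega : 0 < P0)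
  set F : Finset (Fin 3 × Fin 3 → ℤ) := Fintype.piFinset fun _ => Finset.Icc (-(H : ℤ)) H with hF
  have hFm : ∀ q : Fin 3 × Fin 3 → ℤ, Tq M H q → q ∈ F := fun q hq => by
    rw [hF, Fintype.mem_piFinset]
    intro k
    rw [Finset.mem_Icc]
    exact abs_le.1 (hq.1 k)
  set T : ℕ → Finset (Fin 3 × Fin 3 → ℤ) := fun p => F.filter fun q => Tq M H q ∧ ∀ j, (p : ℤ) ∣ q (i, j) with hT
  set U : Finset (Fin 3 × Fin 3 → ℤ) := F.filter fun q => Tq M H q ∧ ∃ p : ℕ, p.Prime ∧ P0 < p ∧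
    ∀ j, (p : ℤ) ∣ q (i, j) with hU
  have hcU : Nat.card {q : Fin 3 × Fin 3 → ℤ // Tq M H q ∧ ∃ p : ℕ, p.Prime ∧ P0 < p ∧
      ∀ j, (p : ℤ) ∣ q (i, j)} = U.card := by
    refine Nat.subtype_card U fun q => ?_
    rw [hU, Finset.mem_filter]
    exact ⟨fun h => h.2, fun h => ⟨hFm q h.1, h⟩⟩
  rw [hcU]
  have hsub : U ⊆ ((Finset.Icc (P0 + 1) H).filter Nat.Prime).biUnion T := by
    intro q hq
    rw [hU, Finset.mem_filter] at hq
    obtain ⟨hqF, hqT, p, hp, hp0, hd⟩ := hq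
    rw [Finset.mem_biUnion]
    refine ⟨p, ?_, ?_⟩
    · rw [Finset.mem_filter, Finset.mem_Icc]
      refine ⟨⟨hp0, ?_⟩, hp⟩
      have h1 := Int.le_of_dvd (hqT.2 i).1 (hd 2)
      have h2 := (abs_le.1 (hqT.1 (i, 2))).2
      omega
    · rw [hT, Finset.mem_filter]
      exact ⟨hqF, hqT, hd⟩
  have h1 : (U.card : ℝ) ≤ ∑ p ∈ (Finset.Icc (P0 + 1) H).filter Nat.Prime, ((T p).card : ℝ) := by
    have := (Finset.card_le_card hsub).trans Finset.card_biUnion_le
    exact_mod_cast this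
  refine h1.trans ?_
  have h2 : ∀ p ∈ (Finset.Icc (P0 + 1) H).filter Nat.Prime, ((T p).card : ℝ) ≤
      5832 * (H : ℝ) ^ 9 / (M : ℝ) ^ 3 * (1 / (p : ℝ) ^ 2) := by
    intro p hp
    rw [Finset.mem_filter, Finset.mem_Icc] at hp
    refine le_trans (le_of_eq ?_) (EI_one p M H hp.2.one_lt.le hp.1.2 hM hMH i)
    congr 1
    symm
    refine Nat.subtype_card (T p) fun q => ?_
    rw [hT, Finset.mem_filter]
    exact ⟨fun h => h.2, fun h => ⟨hFm q h.1, h⟩⟩
  refine (Finset.sum_le_sum h2).trans ?_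
  rw [← Finset.mul_sum]
  have h3 : ∑ p ∈ (Finset.Icc (P0 + 1) H).filter Nat.Prime, (1 : ℝ) / (p : ℝ) ^ 2 ≤ 1 / P0 := by
    refine le_trans ?_ (BLS.sum_inv_sq P0 H (by omega))
    exact Finset.sum_le_sum_of_subset_of_nonneg (Finset.filter_subset _ _) fun p _ _ => by positivity
  calc 5832 * (H : ℝ) ^ 9 / (M : ℝ) ^ 3 *
      ∑ p ∈ (Finset.Icc (P0 + 1) H).filter Nat.Prime, (1 : ℝ) / (p : ℝ) ^ 2
      ≤ 5832 * (H : ℝ) ^ 9 / (M : ℝ) ^ 3 * (1 / P0) := mul_le_mul_of_nonneg_left h3 (by positivity)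
    _ = 5832 * (H : ℝ) ^ 9 / ((M : ℝ) ^ 3 * P0) := by
      rw [mul_one_div, div_div]

theorem cnt_2 (M : ℕ) (hM : 1 ≤ M) : ∃ H0 : ℕ, ∀ H : ℕ, H0 ≤ H → ∀ i j k : Fin 3, i ≠ j → i ≠ k → j ≠ k →
    (Nat.card {q : Fin 3 × Fin 3 → ℤ // Tq M H q ∧ rq (fun l => q (i, l)) (fun l => q (j, l)) ≠ 0 ∧
      ∃ p : ℕ, p.Prime ∧ H ^ 4 / M + 1 ≤ p ∧ (p : ℤ) ∣ rq (fun l => q (i, l)) (fun l => q (j, l)) ∧
        (p : ℤ) ∣ rq (fun l => q (i, l)) (fun l => q (k, l))} : ℝ) ≤ 2 * (3 * (H : ℝ)) ^ 8 := by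
  refine ⟨8 * M + 8, fun H hH i j k hij hik hjk => ?_⟩
  have hH1 : 1 ≤ H := by omega
  obtain ⟨L, hL⟩ : ∃ L : ℕ, L = H ^ 4 / M + 1 := ⟨_, rfl⟩
  rw [← hL]
  have hb1 : 8 * H ^ 3 ≤ H ^ 4 / M := by
    rw [Nat.le_div_iff_mul_le (by omega)]
    calc 8 * H ^ 3 * M = H ^ 3 * (8 * M) := by ring
      _ ≤ H ^ 3 * H := Nat.mul_le_mul_left _ (by omega)
      _ = H ^ 4 := by ring
  have hb2 : 2 * H + 1 ≤ L := by
    have h1 : H ≤ H ^ 3 := Nat.le_self_pow (by norm_num) H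
    omega
  have hb3 : 8 * (H : ℤ) ^ 4 < (L : ℤ) ^ 2 := by
    have h1 : 8 * H ^ 3 ≤ L := by omega
    have h2 : 8 * H ^ 4 < L ^ 2 := by
      have h3 : (8 * H ^ 3) ^ 2 ≤ L ^ 2 := Nat.pow_le_pow_left h1 2
      have h4 : (8 * H ^ 3) ^ 2 = 64 * H ^ 6 := by ring
      have h5 : H ^ 4 ≤ H ^ 6 := Nat.pow_le_pow_right hH1 (by norm_num)
      have h6 : 0 < H ^ 4 := by positivity
      omega
    exact_mod_cast h2
  have h0 := EI_fib (k, (0 : Fin 3)) H hH1
    (fun q : Fin 3 × Fin 3 → ℤ => Tq M H q ∧ rq (fun l => q (i, l)) (fun l => q (j, l)) ≠ 0 ∧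
      ∃ p : ℕ, p.Prime ∧ L ≤ p ∧ (p : ℤ) ∣ rq (fun l => q (i, l)) (fun l => q (j, l)) ∧
        (p : ℤ) ∣ rq (fun l => q (i, l)) (fun l => q (k, l)))
    (fun q hq => hq.1.1) 2 zero_le_two ?_
  · refine h0.trans (le_of_eq ?_)
    simp
    ring
  · rintro q ⟨hq, hne, -⟩
    have h3 := (hq.2 i).1
    have h3' := (abs_le.1 (hq.1 (i, 2))).2
    have hlt : |rq (fun l => q (i, l)) (fun l => q (j, l))| < (L : ℤ) ^ (1 + 1) :=
      lt_of_le_of_lt (EI_abs q H hq.1 i j) hb3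
    obtain ⟨hS, hSK⟩ := BLS.few_big _ hne L 1 hlt
    have hu : ∀ x : ℤ, rq (fun l => Function.update q (k, 0) x (i, l)) (fun l => Function.update q (k, 0) x (j, l)) =
        rq (fun l => q (i, l)) (fun l => q (j, l)) := by
      intro x
      have e1 : (fun l => Function.update q (k, 0) x (i, l)) = fun l => q (i, l) := by
        funext l
        exact Function.update_of_ne (fun h => hik (congrArg Prod.fst h)) _ _
      have e2 : (fun l => Function.update q (k, 0) x (j, l)) = fun l => q (j, l) := by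
        funext l
        exact Function.update_of_ne (fun h => hjk (congrArg Prod.fst h)) _ _
      rw [e1, e2]
    have h1 := EI_two (fun x => |x| ≤ (H : ℤ) ∧ (Tq M H (Function.update q (k, 0) x) ∧
      rq (fun l => Function.update q (k, 0) x (i, l)) (fun l => Function.update q (k, 0) x (j, l)) ≠ 0 ∧
      ∃ p : ℕ, p.Prime ∧ L ≤ p ∧
        (p : ℤ) ∣ rq (fun l => Function.update q (k, 0) x (i, l)) (fun l => Function.update q (k, 0) x (j, l)) ∧
        (p : ℤ) ∣ rq (fun l => Function.update q (k, 0) x (i, l)) (fun l => Function.update q (k, 0) x (k, l)))) ?_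
    · exact_mod_cast h1
    · rintro x y z ⟨hxH, -, -, p, hp, hLp, hx1, hx2⟩ ⟨hyH, -, -, p', hp', hLp', hy1, hy2⟩
        ⟨hzH, -, -, p'', hp'', hLp'', hz1, hz2⟩
      rw [hu] at hx1 hy1 hz1
      have hone : ∀ a b : ℕ, a.Prime ∧ L ≤ a ∧ (a : ℤ) ∣ rq (fun l => q (i, l)) (fun l => q (j, l)) →
          b.Prime ∧ L ≤ b ∧ (b : ℤ) ∣ rq (fun l => q (i, l)) (fun l => q (j, l)) → a = b := by
        intro a b ha hb
        exact (Set.ncard_le_one hS).1 hSK a ha b hb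
      have e1 := hone p' p ⟨hp', hLp', hy1⟩ ⟨hp, hLp, hx1⟩
      have e2 := hone p'' p ⟨hp'', hLp'', hz1⟩ ⟨hp, hLp, hx1⟩
      subst e1
      subst e2
      rw [EI_rq q i k hik] at hx2 hy2 hz2
      obtain ⟨B, hB⟩ : ∃ B : ℤ, B = EI_B q i k := ⟨_, rfl⟩
      rw [← hB] at hx2 hy2 hz2
      have hpZ : Prime (p'' : ℤ) := Nat.prime_iff_prime_int.1 hp
      have hsmall : ∀ u v : ℤ, |u| ≤ (H : ℤ) → |v| ≤ (H : ℤ) → (p'' : ℤ) ∣ u - v → u = v := by
        intro u v hu hv huv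
        have h4 : |u - v| < (p'' : ℤ) := by
          have h5 := abs_le.1 hu
          have h6 := abs_le.1 hv
          have h7 : |u - v| ≤ 2 * (H : ℤ) := abs_le.2 ⟨by omega, by omega⟩
          have h8 : (2 * H + 1 : ℕ) ≤ p'' := hb2.trans hLp
          omega
        exact sub_eq_zero.1 (Int.eq_zero_of_abs_lt_dvd huv h4)
      have hlead : ¬ (p'' : ℤ) ∣ q (i, 2) ^ 2 := by
        intro h
        have h4 := hpZ.dvd_of_dvd_pow h
        have h5 := Int.le_of_dvd h3 h4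
        have h8 : (2 * H + 1 : ℕ) ≤ p'' := hb2.trans hLp
        omega
      by_cases hxy : x = y
      · exact Or.inl hxy
      by_cases hxz : x = z
      · exact Or.inr (Or.inl hxz)
      right
      right
      have e3 : (p'' : ℤ) ∣ (x - y) * (q (i, 2) ^ 2 * (x + y) + B) := by
        have h4 := dvd_sub hx2 hy2
        have h5 : (x - y) * (q (i, 2) ^ 2 * (x + y) + B) =
            q (i, 2) ^ 2 * x ^ 2 + B * x + EI_C q i k - (q (i, 2) ^ 2 * y ^ 2 + B * y + EI_C q i k) := by ring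
        rw [h5]
        exact h4
      have e4 : (p'' : ℤ) ∣ (x - z) * (q (i, 2) ^ 2 * (x + z) + B) := by
        have h4 := dvd_sub hx2 hz2
        have h5 : (x - z) * (q (i, 2) ^ 2 * (x + z) + B) =
            q (i, 2) ^ 2 * x ^ 2 + B * x + EI_C q i k - (q (i, 2) ^ 2 * z ^ 2 + B * z + EI_C q i k) := by ring
        rw [h5]
        exact h4
      have e5 : (p'' : ℤ) ∣ q (i, 2) ^ 2 * (x + y) + B := by
        rcases hpZ.dvd_or_dvd e3 with h | h
        · exact absurd (hsmall x y hxH hyH h) hxy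
        · exact h
      have e6 : (p'' : ℤ) ∣ q (i, 2) ^ 2 * (x + z) + B := by
        rcases hpZ.dvd_or_dvd e4 with h | h
        · exact absurd (hsmall x z hxH hzH h) hxz
        · exact h
      have e7 : (p'' : ℤ) ∣ q (i, 2) ^ 2 * (y - z) := by
        have h4 := dvd_sub e5 e6
        have h5 : q (i, 2) ^ 2 * (y - z) = q (i, 2) ^ 2 * (x + y) + B - (q (i, 2) ^ 2 * (x + z) + B) := by ring
        rw [h5]
        exact h4
      rcases hpZ.dvd_or_dvd e7 with h | h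
      · exact absurd h hlead
      · exact hsmall y z hyH hzH h

end HY
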