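import Pool.Agent.Lib.MP_10e784_agH.EI

/-!
# LEAF EJ: a positive proportion of the triples satisfies `Gq`

PROOF.  `{Tq} ⊆ {Tq ∧ Gq} ∪ (the sets of `cnt_d` (3), `cnt_r` (6), `cnt_p` (3), `cnt_2` (6))`: the number of the `q` with `Tq` and `Gq` is at least `H^9 / M³ - 3 (3 H)^8 - 12 (3 H)^8 - 12 (3 H)^8 - 3 C H^9 / (M³ P0)`; `P1 ≥ 12 C`: `≥ (3/4) H^9 / M³ - 27 · 3^8 H^8 ≥ H^9 / (2 M³)` for `H ≥ H0(M)`.
-/

set_option autoImplicit false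

namespace HY

private theorem EJ_card {α : Type} [DecidableEq α] {S G A B C D : Finset α} (h : S ⊆ G ∪ (A ∪ (B ∪ (C ∪ D)))) :
    (S.card : ℝ) ≤ G.card + (A.card + (B.card + (C.card + D.card))) := by
  have h1 : S.card ≤ G.card + (A.card + (B.card + (C.card + D.card))) := by
    refine (Finset.card_le_card h).trans ((Finset.card_union_le _ _).trans ?_)
    refine Nat.add_le_add_left ((Finset.card_union_le _ _).trans ?_) _
    refine Nat.add_le_add_left ((Finset.card_union_le _ _).trans ?_) _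
    exact Nat.add_le_add_left (Finset.card_union_le _ _) _
  exact_mod_cast h1

private theorem EJ_bU {α ι : Type} [DecidableEq α] [Fintype ι] (t : ι → Finset α) {b : ℝ}
    (h : ∀ x, ((t x).card : ℝ) ≤ b) : ((Finset.univ.biUnion t).card : ℝ) ≤ Fintype.card ι * b := by
  have h1 : ((Finset.univ.biUnion t).card : ℝ) ≤ ∑ x : ι, ((t x).card : ℝ) := by
    exact_mod_cast (Finset.card_biUnion_le : (Finset.univ.biUnion t).card ≤ ∑ x : ι, (t x).card)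
  refine h1.trans ?_
  have h2 := Finset.sum_le_card_nsmul Finset.univ (fun x => ((t x).card : ℝ)) b fun x _ => h x
  rwa [nsmul_eq_mul, Finset.card_univ] at h2

theorem good_q : ∃ P1 : ℕ, 4 ≤ P1 ∧ ∀ P0 M : ℕ, P1 ≤ P0 → 1 ≤ M → ∃ H0 : ℕ, ∀ H : ℕ, H0 ≤ H →
    (H : ℝ) ^ 9 / (2 * (M : ℝ) ^ 3) ≤ (Nat.card {q : Fin 3 × Fin 3 → ℤ // Tq M H q ∧
      Gq P0 (H ^ 4 / M + 1) (fun i j => q (i, j))} : ℝ) := by
  classical
  obtain ⟨C, hC, hp⟩ := cnt_p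
  refine ⟨max 4 ⌈12 * C⌉₊, le_max_left _ _, fun P0 M hP0 hM => ?_⟩
  obtain ⟨H2, h2⟩ := cnt_2 M hM
  have hP4 : 4 ≤ P0 := le_trans (le_max_left _ _) hP0
  have hP12 : 12 * C ≤ (P0 : ℝ) :=
    le_trans (Nat.le_ceil _) (Nat.cast_le.2 (le_trans (le_max_right _ _) hP0))
  refine ⟨max (max M H2) (300 * 3 ^ 8 * M ^ 3), fun H hH => ?_⟩
  have hHM : M ≤ H := le_trans (le_trans (le_max_left _ _) (le_max_left _ _)) hH
  have hH2 : H2 ≤ H := le_trans (le_trans (le_max_right _ _) (le_max_left _ _)) hH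
  have hHb : 300 * 3 ^ 8 * M ^ 3 ≤ H := le_trans (le_max_right _ _) hH
  have hH1 : 1 ≤ H := le_trans hM hHM
  have hfin : {q : Fin 3 × Fin 3 → ℤ | Tq M H q}.Finite := by
    refine (Set.finite_Icc (fun _ => -(H : ℤ)) (fun _ => (H : ℤ))).subset ?_
    intro q hq
    exact ⟨fun k => (abs_le.1 (hq.1 k)).1, fun k => (abs_le.1 (hq.1 k)).2⟩
  obtain ⟨S, hS⟩ : ∃ S : Finset (Fin 3 × Fin 3 → ℤ), ∀ q, q ∈ S ↔ Tq M H q :=
    ⟨hfin.toFinset, fun q => hfin.mem_toFinset⟩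
  have hcard : ∀ (p : (Fin 3 × Fin 3 → ℤ) → Prop) [DecidablePred p],
      Nat.card {q : Fin 3 × Fin 3 → ℤ // Tq M H q ∧ p q} = (S.filter p).card := fun p _ =>
    Nat.subtype_card _ fun q => by rw [Finset.mem_filter, hS]
  have hST : Nat.card {q : Fin 3 × Fin 3 → ℤ // Tq M H q} = S.card := Nat.subtype_card _ hS
  have e1 := cnt_T M H hM hH1
  rw [hST] at e1
  have e2 : ∀ i : Fin 3, ((S.filter fun q => dq (fun j => q (i, j)) = 0).card : ℝ) ≤ (3 * (H : ℝ)) ^ 8 := fun i => by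
    rw [← hcard]
    exact cnt_d M H hH1 i
  have hpos : (0 : ℝ) ≤ 2 * (3 * (H : ℝ)) ^ 8 := by positivity
  have e3 : ∀ x : Fin 3 × Fin 3, ((S.filter fun q => x.1 ≠ x.2 ∧
      rq (fun l => q (x.1, l)) (fun l => q (x.2, l)) = 0).card : ℝ) ≤ 2 * (3 * (H : ℝ)) ^ 8 := fun x => by
    by_cases hx : x.1 = x.2
    · rw [Finset.filter_false_of_mem (fun q _ h => h.1 hx), Finset.card_empty, Nat.cast_zero]
      exact hpos
    · have h := cnt_r M H hH1 x.1 x.2 hx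
      rw [hcard] at h
      refine le_trans (Nat.cast_le.2 (Finset.card_le_card ?_)) h
      exact Finset.monotone_filter_right _ fun q _ hq => hq.2
  have e4 : ∀ i : Fin 3, ((S.filter fun q => ∃ p : ℕ, p.Prime ∧ P0 < p ∧ ∀ j, (p : ℤ) ∣ q (i, j)).card : ℝ) ≤
      C * (H : ℝ) ^ 9 / ((M : ℝ) ^ 3 * P0) := fun i => by
    rw [← hcard]
    exact hp P0 M H hP4 hM hHM i
  have e5 : ∀ x : Fin 3 × Fin 3 × Fin 3, ((S.filter fun q => (x.1 ≠ x.2.1 ∧ x.1 ≠ x.2.2 ∧ x.2.1 ≠ x.2.2) ∧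
      rq (fun l => q (x.1, l)) (fun l => q (x.2.1, l)) ≠ 0 ∧
      ∃ p : ℕ, p.Prime ∧ H ^ 4 / M + 1 ≤ p ∧ (p : ℤ) ∣ rq (fun l => q (x.1, l)) (fun l => q (x.2.1, l)) ∧
        (p : ℤ) ∣ rq (fun l => q (x.1, l)) (fun l => q (x.2.2, l))).card : ℝ) ≤ 2 * (3 * (H : ℝ)) ^ 8 := fun x => by
    by_cases hx : x.1 ≠ x.2.1 ∧ x.1 ≠ x.2.2 ∧ x.2.1 ≠ x.2.2
    · have h := h2 H hH2 x.1 x.2.1 x.2.2 hx.1 hx.2.1 hx.2.2
      rw [hcard] at h
      refine le_trans (Nat.cast_le.2 (Finset.card_le_card ?_)) h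
      exact Finset.monotone_filter_right _ fun q _ hq => hq.2
    · rw [Finset.filter_false_of_mem (fun q _ h => hx h.1), Finset.card_empty, Nat.cast_zero]
      exact hpos
  rw [hcard]
  have hsub : S ⊆ (S.filter fun q => Gq P0 (H ^ 4 / M + 1) (fun i j => q (i, j))) ∪
      ((Finset.univ.biUnion fun i : Fin 3 => S.filter fun q => dq (fun j => q (i, j)) = 0) ∪
      ((Finset.univ.biUnion fun x : Fin 3 × Fin 3 => S.filter fun q => x.1 ≠ x.2 ∧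
        rq (fun l => q (x.1, l)) (fun l => q (x.2, l)) = 0) ∪
      ((Finset.univ.biUnion fun i : Fin 3 => S.filter fun q => ∃ p : ℕ, p.Prime ∧ P0 < p ∧ ∀ j, (p : ℤ) ∣ q (i, j)) ∪
      (Finset.univ.biUnion fun x : Fin 3 × Fin 3 × Fin 3 => S.filter fun q =>
        (x.1 ≠ x.2.1 ∧ x.1 ≠ x.2.2 ∧ x.2.1 ≠ x.2.2) ∧
        rq (fun l => q (x.1, l)) (fun l => q (x.2.1, l)) ≠ 0 ∧
        ∃ p : ℕ, p.Prime ∧ H ^ 4 / M + 1 ≤ p ∧ (p : ℤ) ∣ rq (fun l => q (x.1, l)) (fun l => q (x.2.1, l)) ∧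
          (p : ℤ) ∣ rq (fun l => q (x.1, l)) (fun l => q (x.2.2, l)))))) := by
    intro q hq
    by_cases c1 : ∃ i : Fin 3, dq (fun j => q (i, j)) = 0
    · obtain ⟨i, hi⟩ := c1
      exact Finset.mem_union_right _ (Finset.mem_union_left _
        (Finset.mem_biUnion.2 ⟨i, Finset.mem_univ _, Finset.mem_filter.2 ⟨hq, hi⟩⟩))
    by_cases c2 : ∃ i j : Fin 3, i ≠ j ∧ rq (fun l => q (i, l)) (fun l => q (j, l)) = 0
    · obtain ⟨i, j, hij, hi⟩ := c2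
      exact Finset.mem_union_right _ (Finset.mem_union_right _ (Finset.mem_union_left _
        (Finset.mem_biUnion.2 ⟨(i, j), Finset.mem_univ _, Finset.mem_filter.2 ⟨hq, hij, hi⟩⟩)))
    by_cases c3 : ∃ i : Fin 3, ∃ p : ℕ, p.Prime ∧ P0 < p ∧ ∀ j, (p : ℤ) ∣ q (i, j)
    · obtain ⟨i, hi⟩ := c3
      exact Finset.mem_union_right _ (Finset.mem_union_right _ (Finset.mem_union_right _ (Finset.mem_union_left _
        (Finset.mem_biUnion.2 ⟨i, Finset.mem_univ _, Finset.mem_filter.2 ⟨hq, hi⟩⟩))))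
    by_cases c4 : ∃ i j k : Fin 3, (i ≠ j ∧ i ≠ k ∧ j ≠ k) ∧ ∃ p : ℕ, p.Prime ∧ H ^ 4 / M + 1 ≤ p ∧
        (p : ℤ) ∣ rq (fun l => q (i, l)) (fun l => q (j, l)) ∧ (p : ℤ) ∣ rq (fun l => q (i, l)) (fun l => q (k, l))
    · obtain ⟨i, j, k, hijk, hi⟩ := c4
      have hne : rq (fun l => q (i, l)) (fun l => q (j, l)) ≠ 0 := fun h0 => c2 ⟨i, j, hijk.1, h0⟩
      exact Finset.mem_union_right _ (Finset.mem_union_right _ (Finset.mem_union_right _ (Finset.mem_union_right _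
        (Finset.mem_biUnion.2 ⟨(i, j, k), Finset.mem_univ _, Finset.mem_filter.2 ⟨hq, hijk, hne, hi⟩⟩))))
    refine Finset.mem_union_left _ (Finset.mem_filter.2 ⟨hq, fun i h => c1 ⟨i, h⟩, fun i j hij h => c2 ⟨i, j, hij, h⟩,
      fun p hpp hpP i => ?_, fun p hpp hpL i j k hij hik hjk h => c4 ⟨i, j, k, ⟨hij, hik, hjk⟩, p, hpp, hpL, h⟩⟩)
    by_contra hcon
    push Not at hcon
    exact c3 ⟨i, p, hpp, hpP, hcon⟩
  have hle := EJ_card hsub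
  have b1 := EJ_bU _ e2
  have b2 := EJ_bU _ e3
  have b3 := EJ_bU _ e4
  have b4 := EJ_bU _ e5
  simp only [Fintype.card_fin, Fintype.card_prod] at b1 b2 b3 b4
  push_cast at b1 b2 b3 b4
  have hM0 : (0 : ℝ) < M := by exact_mod_cast (show 0 < M by omega)
  have hH0 : (0 : ℝ) < H := by exact_mod_cast (show 0 < H by omega)
  have hP0' : (0 : ℝ) < P0 := by exact_mod_cast (show 0 < P0 by omega)
  have hM3 : (0 : ℝ) < (M : ℝ) ^ 3 := pow_pos hM0 3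
  have f1 : 3 * (C * (H : ℝ) ^ 9 / ((M : ℝ) ^ 3 * P0)) ≤ 1 / 4 * ((H : ℝ) ^ 9 / (M : ℝ) ^ 3) := by
    rw [show 3 * (C * (H : ℝ) ^ 9 / ((M : ℝ) ^ 3 * P0)) = 3 * C / P0 * ((H : ℝ) ^ 9 / (M : ℝ) ^ 3) by
      field_simp]
    refine mul_le_mul_of_nonneg_right ?_ (by positivity)
    rw [div_le_iff₀ hP0']
    linarith
  have f2 : 75 * (3 * (H : ℝ)) ^ 8 ≤ 1 / 4 * ((H : ℝ) ^ 9 / (M : ℝ) ^ 3) := by
    have g1 : (300 : ℝ) * 3 ^ 8 * (M : ℝ) ^ 3 ≤ H := by exact_mod_cast hHb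
    have g2 : (H : ℝ) ^ 8 * (300 * 3 ^ 8 * (M : ℝ) ^ 3) ≤ (H : ℝ) ^ 8 * H :=
      mul_le_mul_of_nonneg_left g1 (by positivity)
    have g3 : (300 : ℝ) * (3 * (H : ℝ)) ^ 8 ≤ (H : ℝ) ^ 9 / (M : ℝ) ^ 3 := by
      rw [le_div_iff₀ hM3]
      calc (300 : ℝ) * (3 * (H : ℝ)) ^ 8 * (M : ℝ) ^ 3 = (H : ℝ) ^ 8 * (300 * 3 ^ 8 * (M : ℝ) ^ 3) := by ring
        _ ≤ (H : ℝ) ^ 8 * H := g2
        _ = (H : ℝ) ^ 9 := by ring
    linarith
  have f3 : (H : ℝ) ^ 9 / (2 * (M : ℝ) ^ 3) = 1 / 2 * ((H : ℝ) ^ 9 / (M : ℝ) ^ 3) := by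
    field_simp
  rw [f3]
  linarith

end HY
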