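import Pool.Agent.Lib.MP_10e784_agH.ED
import Pool.Agent.Lib.MP_10e784_agH.EE
import Pool.Agent.Lib.MP_10e784_agH.EH
import Pool.Agent.Lib.MP_10e784_agH.EJ
import Pool.Agent.Lib.MP_10e784_agL.SB

/-!
# LEAF EK: a positive proportion is everywhere locally soluble

MODEL: `loc_all` in `MP_10e784_agL/SC.lean`, `SD.lean`.
PROOF.  `P0` = the maximum of the `P1` of `els m`, of `good_q`, and `≥ 4 C1` with `C1` of `midF`; `M = 8 P0!` (every prime `p > P0` is coprime to `M`: `coprime_fac` in `MP_10e784_agL/SB.lean`).  For every `q` with `Tq M H` and `Gq P0 (H⁴ / M + 1)`: the number of the `f` with `Tf M (H⁴)` is at least `(H⁴)^(m+1) / M`; those which are bad at a prime `P0 < p ≤ H⁴ / M` are at most `C1 (H⁴)^(m+1) / (M P0) ≤ (H⁴)^(m+1) / (4 M)` (`midF`, third condition of `Gq`), those which are bad at a prime `p > H⁴ / M` (`p ≥ 5`) at most `C (H⁴)^m ≤ (H⁴)^(m+1) / (4 M)` for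 `H` large (`bigF`).  The others are everywhere locally soluble (`els`): at least `(H⁴)^(m+1) / (2 M)`.  Sum over the `q` (`good_q`): at least `H^9 / (2 M³) · H^(4(m+1)) / (2 M)`; `η = 1 / (4 M⁴)`.
-/

set_option autoImplicit false

namespace HY

open Finset BLS

/-- a lower bound for the number of the forms of `Tf` -/
private theorem EK_card (m M N : ℕ) (hM : 1 ≤ M) :
    (N : ℝ) ^ (m + 1) / M ≤ (Nat.card {f : Fin (m + 1) → ℤ // Tf M N f} : ℝ) := by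
  classical
  rcases Nat.eq_zero_or_pos N with rfl | hH
  · have h0 : (((0 : ℕ) : ℝ)) ^ (m + 1) / M = 0 := by
      rw [Nat.cast_zero, zero_pow (by omega), zero_div]
    rw [h0]
    exact Nat.cast_nonneg _
  have hfin : Finite {f : Fin (m + 1) → ℤ // Tf M N f} :=
    box_fin N (fun f : Fin (m + 1) → ℤ => 0 < f (Fin.last m) ∧ (M : ℤ) ∣ f (Fin.last m) - 1)
  let F : Fin (m + 1) → Finset ℤ := fun k =>
    if k = Fin.last m then (range ((N - 1) / M + 1)).image (fun j : ℕ => (1 : ℤ) + M * j)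
    else Icc (-(N : ℤ)) N
  have hM' : (0 : ℤ) < M := by exact_mod_cast hM
  have hFk : ∀ j : ℕ, j < (N - 1) / M + 1 → (0 : ℤ) < 1 + M * j ∧ (1 : ℤ) + M * j ≤ N := by
    intro j hj
    have h1 : j ≤ (N - 1) / M := Nat.lt_succ_iff.1 hj
    have h2 : j * M ≤ N - 1 := (Nat.le_div_iff_mul_le hM).1 h1
    have h3 : j * M + 1 ≤ N := by omega
    have h4 : (j : ℤ) * M + 1 ≤ N := by exact_mod_cast h3
    have h5 : (0 : ℤ) ≤ (j : ℤ) := Int.natCast_nonneg j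
    constructor
    · nlinarith
    · linarith [mul_comm (M : ℤ) j]
  have hTf : ∀ f ∈ Fintype.piFinset F, Tf M N f := by
    intro f hf
    rw [Fintype.mem_piFinset] at hf
    have hk := hf (Fin.last m)
    simp only [F, if_true, mem_image, mem_range] at hk
    obtain ⟨j, hj, hja⟩ := hk
    obtain ⟨p1, p2⟩ := hFk j hj
    refine ⟨fun k => ?_, ?_, ?_⟩
    · by_cases hkd : k = Fin.last m
      · rw [hkd, ← hja, abs_of_pos p1]
        exact p2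
      · have h1 := hf k
        simp only [F, if_neg hkd, mem_Icc] at h1
        exact abs_le.2 h1
    · rw [← hja]
      exact p1
    · rw [← hja]
      exact ⟨j, by ring⟩
  have hcard1 : (Fintype.piFinset F).card ≤ Nat.card {f : Fin (m + 1) → ℤ // Tf M N f} := by
    rw [← Fintype.card_coe (Fintype.piFinset F), ← Nat.card_eq_fintype_card]
    exact Nat.card_le_card_of_injective
      (fun f : (Fintype.piFinset F : Finset (Fin (m + 1) → ℤ)) =>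
        (⟨f.1, hTf f.1 f.2⟩ : {f : Fin (m + 1) → ℤ // Tf M N f}))
      (fun a b hab => Subtype.ext (congrArg (fun w : {f : Fin (m + 1) → ℤ // Tf M N f} => w.1) hab))
  have hcard2 : (Fintype.piFinset F).card = ((N - 1) / M + 1) * (2 * N + 1) ^ m := by
    rw [Fintype.card_piFinset, ← mul_prod_erase univ _ (mem_univ (Fin.last m))]
    have h1 : (F (Fin.last m)).card = (N - 1) / M + 1 := by
      simp only [F, if_true]
      rw [card_image_of_injective, card_range]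
      intro i j hij
      have h2 : (M : ℤ) * i = M * j := by simpa using hij
      exact_mod_cast mul_left_cancel₀ hM'.ne' h2
    have h2 : ∏ k ∈ univ.erase (Fin.last m), (F k).card = (2 * N + 1) ^ m := by
      have h3 : ∀ k ∈ univ.erase (Fin.last m), (F k).card = 2 * N + 1 := by
        intro k hk
        have hk' := (mem_erase.1 hk).1
        simp only [F, if_neg hk', Int.card_Icc]
        omega
      rw [prod_congr rfl h3, prod_const, card_erase_of_mem (mem_univ _), card_univ, Fintype.card_fin,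
        Nat.add_sub_cancel]
    rw [h1, h2]
  have hr1 : (N : ℝ) / M ≤ (((N - 1) / M + 1 : ℕ) : ℝ) := by
    rw [div_le_iff₀ (by exact_mod_cast hM)]
    have h1 : N ≤ ((N - 1) / M + 1) * M := by
      have h2 := Nat.div_add_mod (N - 1) M
      have h3 := Nat.mod_lt (N - 1) hM
      have h4 : ((N - 1) / M + 1) * M = M * ((N - 1) / M) + M := by ring
      rw [h4]
      omega
    exact_mod_cast h1
  have hr2 : (N : ℝ) ^ m ≤ (((2 * N + 1) ^ m : ℕ) : ℝ) := by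
    push_cast
    refine pow_le_pow_left₀ (Nat.cast_nonneg _) ?_ _
    have : (0 : ℝ) ≤ N := Nat.cast_nonneg _
    linarith
  calc (N : ℝ) ^ (m + 1) / M = (N : ℝ) / M * (N : ℝ) ^ m := by
        rw [pow_succ']
        ring
    _ ≤ (((N - 1) / M + 1 : ℕ) : ℝ) * (((2 * N + 1) ^ m : ℕ) : ℝ) :=
        mul_le_mul hr1 hr2 (by positivity) (Nat.cast_nonneg _)
    _ = ((Fintype.piFinset F).card : ℝ) := by
        rw [hcard2]
        push_cast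
        ring
    _ ≤ _ := by exact_mod_cast hcard1

private theorem EK_box (m N : ℕ) : {f : Fin (m + 1) → ℤ | ∀ k, |f k| ≤ (N : ℤ)}.Finite := by
  refine (Set.Finite.pi' fun _ : Fin (m + 1) => (Set.finite_Icc (-(N : ℤ)) (N : ℤ))).subset fun a ha => ?_
  intro k
  exact Set.mem_Icc.2 (abs_le.1 (ha k))

/-- the number of the everywhere locally soluble curves for given quadratic forms -/
private theorem EK_one {m : ℕ} (hm : Even m) (h6 : 6 ≤ m) : ∃ P1 : ℕ, 4 ≤ P1 ∧ ∀ P0 : ℕ, P1 ≤ P0 →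
    ∃ H0 : ℕ, ∀ H : ℕ, H0 ≤ H → ∀ q : Fin 3 × Fin 3 → ℤ, Tq (8 * P0.factorial) H q →
      Gq P0 (H ^ 4 / (8 * P0.factorial) + 1) (fun i j => q (i, j)) →
      ((H : ℝ) ^ 4) ^ (m + 1) / (2 * (8 * P0.factorial : ℕ)) ≤ (Nat.card {f : Fin (m + 1) → ℤ //
        (∀ i, |f i| ≤ (H : ℤ) ^ 4) ∧ SolK ℝ (fun i j => q (i, j)) f ∧
        ∀ (p : ℕ) [Fact p.Prime], SolK ℚ_[p] (fun i j => q (i, j)) f} : ℝ) := by
  obtain ⟨P1, hP1, hels⟩ := els m
  obtain ⟨C1, hC1, hmid⟩ := midF hm h6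
  refine ⟨max P1 ⌈4 * C1⌉₊, hP1.trans (le_max_left _ _), fun P0 hP0 => ?_⟩
  have hPa : P1 ≤ P0 := (le_max_left _ _).trans hP0
  have h4 : 4 ≤ P0 := hP1.trans hPa
  have hPc : 4 * C1 ≤ (P0 : ℝ) := by
    refine (Nat.le_ceil _).trans ?_
    exact_mod_cast (le_max_right _ _).trans hP0
  have hcop : ∀ p : ℕ, p.Prime → P0 < p → p.Coprime (8 * P0.factorial) :=
    fun p hp hlt => coprime_fac P0 p h4 hp hlt
  have hels' := hels P0 hPa
  have hM : 1 ≤ 8 * P0.factorial := Nat.mul_pos (by norm_num) (Nat.factorial_pos P0)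
  obtain ⟨M, hMM⟩ : ∃ M : ℕ, M = 8 * P0.factorial := ⟨_, rfl⟩
  rw [← hMM] at hcop hels' hM
  rw [← hMM]
  obtain ⟨C, H0, hC, hbig⟩ := bigF h6 M hM
  have hM0 : (0 : ℝ) < (M : ℝ) := by exact_mod_cast hM
  have hP0r : (0 : ℝ) < (P0 : ℝ) := by exact_mod_cast (by omega : 0 < P0)
  refine ⟨max H0 (max 1 ⌈4 * M * C⌉₊), fun H hH q hTq hGq => ?_⟩
  have hH0 : H0 ≤ H := (le_max_left _ _).trans hH
  have hH1 : 1 ≤ H := ((le_max_left _ _).trans (le_max_right _ _)).trans hH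
  have hHM : 4 * M * C ≤ (H : ℝ) := by
    refine (Nat.le_ceil _).trans ?_
    exact_mod_cast ((le_max_right _ _).trans (le_max_right _ _)).trans hH
  have hmid' := hmid P0 M (H ^ 4) h4 hM hcop (fun i j => q (i, j)) hGq.2.2.1
  have hbig' := hbig H hH0 P0 q hTq hGq
  have hT := EK_card m M (H ^ 4) hM
  rw [Nat.cast_pow] at hT hmid'
  have hN : ((H ^ 4 : ℕ) : ℤ) = (H : ℤ) ^ 4 := by push_cast; rfl
  have hcard : Nat.card {f : Fin (m + 1) → ℤ // Tf M (H ^ 4) f} ≤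
      Nat.card {f : Fin (m + 1) → ℤ // (∀ i, |f i| ≤ (H : ℤ) ^ 4) ∧ SolK ℝ (fun i j => q (i, j)) f ∧
        ∀ (p : ℕ) [Fact p.Prime], SolK ℚ_[p] (fun i j => q (i, j)) f} +
      (Nat.card {f : Fin (m + 1) → ℤ // Tf M (H ^ 4) f ∧ ∃ (p : ℕ) (_ : Fact p.Prime), P0 < p ∧ p * M ≤ H ^ 4 ∧
        BadF p (cq p (fun i j => q (i, j))) (cf p f)} +
      Nat.card {f : Fin (m + 1) → ℤ // Tf M (H ^ 4) f ∧ ∃ (p : ℕ) (_ : Fact p.Prime), 5 ≤ p ∧ H ^ 4 < p * M ∧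
        BadF p (cq p (fun i j => q (i, j))) (cf p f)}) := by
    have hbox := EK_box m (H ^ 4)
    have hsub : {f : Fin (m + 1) → ℤ | Tf M (H ^ 4) f} ⊆
        {f : Fin (m + 1) → ℤ | (∀ i, |f i| ≤ (H : ℤ) ^ 4) ∧ SolK ℝ (fun i j => q (i, j)) f ∧
          ∀ (p : ℕ) [Fact p.Prime], SolK ℚ_[p] (fun i j => q (i, j)) f} ∪
        ({f : Fin (m + 1) → ℤ | Tf M (H ^ 4) f ∧ ∃ (p : ℕ) (_ : Fact p.Prime), P0 < p ∧ p * M ≤ H ^ 4 ∧
          BadF p (cq p (fun i j => q (i, j))) (cf p f)} ∪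
        {f : Fin (m + 1) → ℤ | Tf M (H ^ 4) f ∧ ∃ (p : ℕ) (_ : Fact p.Prime), 5 ≤ p ∧ H ^ 4 < p * M ∧
          BadF p (cq p (fun i j => q (i, j))) (cf p f)}) := by
      intro f hf
      by_cases hb : ∃ (p : ℕ) (_ : Fact p.Prime), P0 < p ∧ BadF p (cq p (fun i j => q (i, j))) (cf p f)
      · obtain ⟨p, hp, hlt, hBp⟩ := hb
        right
        rcases le_or_gt (p * M) (H ^ 4) with hle | hgt
        · left
          exact ⟨hf, p, hp, hlt, hle, hBp⟩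
        · right
          exact ⟨hf, p, hp, by omega, hgt, hBp⟩
      · left
        have hb' : ∀ (p : ℕ) (_ : Fact p.Prime), P0 < p → ¬ BadF p (cq p (fun i j => q (i, j))) (cf p f) :=
          fun p hp hlt hBp => hb ⟨p, hp, hlt, hBp⟩
        refine ⟨fun i => ?_, hels' H (H ^ 4) q f hTq hf hb'⟩
        rw [← hN]
        exact hf.1 i
    have hf1 := hbox.subset (t := {f : Fin (m + 1) → ℤ | (∀ i, |f i| ≤ (H : ℤ) ^ 4) ∧
          SolK ℝ (fun i j => q (i, j)) f ∧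
          ∀ (p : ℕ) [Fact p.Prime], SolK ℚ_[p] (fun i j => q (i, j)) f}) (fun f hf k => by
            rw [hN]
            exact hf.1 k)
    have hf2 := hbox.subset (t := {f : Fin (m + 1) → ℤ | Tf M (H ^ 4) f ∧
          ∃ (p : ℕ) (_ : Fact p.Prime), P0 < p ∧ p * M ≤ H ^ 4 ∧
          BadF p (cq p (fun i j => q (i, j))) (cf p f)}) (fun f hf => hf.1.1)
    have hf3 := hbox.subset (t := {f : Fin (m + 1) → ℤ | Tf M (H ^ 4) f ∧
          ∃ (p : ℕ) (_ : Fact p.Prime), 5 ≤ p ∧ H ^ 4 < p * M ∧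
          BadF p (cq p (fun i j => q (i, j))) (cf p f)}) (fun f hf => hf.1.1)
    have h1 := Set.ncard_le_ncard hsub (hf1.union (hf2.union hf3))
    refine h1.trans ((Set.ncard_union_le _ _).trans ?_)
    exact Nat.add_le_add le_rfl (Set.ncard_union_le _ _)
  have hcard' : (Nat.card {f : Fin (m + 1) → ℤ // Tf M (H ^ 4) f} : ℝ) ≤
      (Nat.card {f : Fin (m + 1) → ℤ // (∀ i, |f i| ≤ (H : ℤ) ^ 4) ∧ SolK ℝ (fun i j => q (i, j)) f ∧
        ∀ (p : ℕ) [Fact p.Prime], SolK ℚ_[p] (fun i j => q (i, j)) f} : ℝ) +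
      ((Nat.card {f : Fin (m + 1) → ℤ // Tf M (H ^ 4) f ∧ ∃ (p : ℕ) (_ : Fact p.Prime), P0 < p ∧ p * M ≤ H ^ 4 ∧
        BadF p (cq p (fun i j => q (i, j))) (cf p f)} : ℝ) +
      (Nat.card {f : Fin (m + 1) → ℤ // Tf M (H ^ 4) f ∧ ∃ (p : ℕ) (_ : Fact p.Prime), 5 ≤ p ∧ H ^ 4 < p * M ∧
        BadF p (cq p (fun i j => q (i, j))) (cf p f)} : ℝ)) := by
    exact_mod_cast hcard
  obtain ⟨Y, hY⟩ : ∃ Y : ℝ, Y = (H : ℝ) ^ 4 := ⟨_, rfl⟩
  rw [← hY] at hT hmid' hbig'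
  rw [← hY]
  have hY0 : 0 ≤ Y := by rw [hY]; positivity
  have hHr : (1 : ℝ) ≤ (H : ℝ) := by exact_mod_cast hH1
  have hYH : 4 * M * C ≤ Y := hHM.trans (by rw [hY]; exact le_self_pow₀ hHr (by norm_num))
  have hE0 : 0 ≤ Y ^ (m + 1) / M := by positivity
  have h5 : C1 * Y ^ (m + 1) / M * (1 / P0) ≤ Y ^ (m + 1) / M / 4 := by
    have e1 : C1 * Y ^ (m + 1) / M * (1 / P0) = Y ^ (m + 1) / M * (C1 / P0) := by ring
    have e2 : C1 / P0 ≤ 1 / 4 := by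
      rw [div_le_div_iff₀ hP0r (by norm_num)]
      linarith
    rw [e1]
    have e3 := mul_le_mul_of_nonneg_left e2 hE0
    linarith
  have h6' : C * Y ^ m ≤ Y ^ (m + 1) / M / 4 := by
    rw [div_div, le_div_iff₀ (by positivity), pow_succ]
    have e1 := mul_le_mul_of_nonneg_left hYH (pow_nonneg hY0 m)
    linarith
  have h7 : Y ^ (m + 1) / (2 * (M : ℝ)) = Y ^ (m + 1) / M / 2 := by
    rw [div_div, mul_comm]
  rw [h7]
  linarith

theorem loc_H {m : ℕ} (hm : Even m) (h6 : 6 ≤ m) : ∃ (η : ℝ) (H0 : ℕ), 0 < η ∧ ∀ H : ℕ, H0 ≤ H →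
    η * (H : ℝ) ^ (9 + 4 * (m + 1)) ≤ (Nat.card {z : (Fin 3 × Fin 3 → ℤ) × (Fin (m + 1) → ℤ) //
      (∀ i, |z.1 i| ≤ (H : ℤ)) ∧ (∀ i, |z.2 i| ≤ (H : ℤ) ^ 4) ∧ SolK ℝ (fun i j => z.1 (i, j)) z.2 ∧
      ∀ (p : ℕ) [Fact p.Prime], SolK ℚ_[p] (fun i j => z.1 (i, j)) z.2} : ℝ) := by
  obtain ⟨P1, hP1, h1⟩ := EK_one hm h6
  obtain ⟨P2, hP2, h2⟩ := good_q
  obtain ⟨P0, hP0⟩ : ∃ P0 : ℕ, P0 = max P1 P2 := ⟨_, rfl⟩
  have hPa : P1 ≤ P0 := by rw [hP0]; exact le_max_left _ _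
  have hPb : P2 ≤ P0 := by rw [hP0]; exact le_max_right _ _
  obtain ⟨Ha, hone⟩ := h1 P0 hPa
  have hM : 1 ≤ 8 * P0.factorial := Nat.mul_pos (by norm_num) (Nat.factorial_pos P0)
  obtain ⟨Hb, hgood⟩ := h2 P0 (8 * P0.factorial) hPb hM
  obtain ⟨M, hMM⟩ : ∃ M : ℕ, M = 8 * P0.factorial := ⟨_, rfl⟩
  rw [← hMM] at hone hgood hM
  have hM0 : (0 : ℝ) < (M : ℝ) := by exact_mod_cast hM
  refine ⟨1 / (4 * (M : ℝ) ^ 4), max Ha Hb, by positivity, fun H hH => ?_⟩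
  have hHa : Ha ≤ H := (le_max_left _ _).trans hH
  have hHb : Hb ≤ H := (le_max_right _ _).trans hH
  have hg := hgood H hHb
  have ho := hone H hHa
  have hN : ((H ^ 4 : ℕ) : ℤ) = (H : ℤ) ^ 4 := by push_cast; rfl
  -- finiteness
  have hboxq : {q : Fin 3 × Fin 3 → ℤ | ∀ k, |q k| ≤ (H : ℤ)}.Finite := by
    refine (Set.Finite.pi' fun _ : Fin 3 × Fin 3 => (Set.finite_Icc (-(H : ℤ)) (H : ℤ))).subset fun a ha => ?_
    intro k
    exact Set.mem_Icc.2 (abs_le.1 (ha k))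
  have hboxf := EK_box m (H ^ 4)
  have hfinq : Finite {q : Fin 3 × Fin 3 → ℤ // Tq M H q ∧ Gq P0 (H ^ 4 / M + 1) (fun i j => q (i, j))} :=
    (hboxq.subset fun q (hq : Tq M H q ∧ Gq P0 (H ^ 4 / M + 1) (fun i j => q (i, j))) => hq.1.1 :
      Set.Finite {q : Fin 3 × Fin 3 → ℤ | Tq M H q ∧ Gq P0 (H ^ 4 / M + 1) (fun i j => q (i, j))})
  have hfinf : ∀ q : Fin 3 × Fin 3 → ℤ, Finite {f : Fin (m + 1) → ℤ // (∀ i, |f i| ≤ (H : ℤ) ^ 4) ∧
      SolK ℝ (fun i j => q (i, j)) f ∧ ∀ (p : ℕ) [Fact p.Prime], SolK ℚ_[p] (fun i j => q (i, j)) f} := by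
    intro q
    refine (hboxf.subset ?_ : Set.Finite {f : Fin (m + 1) → ℤ | (∀ i, |f i| ≤ (H : ℤ) ^ 4) ∧
      SolK ℝ (fun i j => q (i, j)) f ∧ ∀ (p : ℕ) [Fact p.Prime], SolK ℚ_[p] (fun i j => q (i, j)) f})
    intro f hf k
    rw [hN]
    exact hf.1 k
  have hfin : Finite {z : (Fin 3 × Fin 3 → ℤ) × (Fin (m + 1) → ℤ) //
      (∀ i, |z.1 i| ≤ (H : ℤ)) ∧ (∀ i, |z.2 i| ≤ (H : ℤ) ^ 4) ∧ SolK ℝ (fun i j => z.1 (i, j)) z.2 ∧
      ∀ (p : ℕ) [Fact p.Prime], SolK ℚ_[p] (fun i j => z.1 (i, j)) z.2} := by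
    refine ((hboxq.prod hboxf).subset ?_ : Set.Finite {z : (Fin 3 × Fin 3 → ℤ) × (Fin (m + 1) → ℤ) |
      (∀ i, |z.1 i| ≤ (H : ℤ)) ∧ (∀ i, |z.2 i| ≤ (H : ℤ) ^ 4) ∧ SolK ℝ (fun i j => z.1 (i, j)) z.2 ∧
      ∀ (p : ℕ) [Fact p.Prime], SolK ℚ_[p] (fun i j => z.1 (i, j)) z.2})
    rintro z ⟨hz1, hz2, -⟩
    refine ⟨hz1, fun k => ?_⟩
    rw [hN]
    exact hz2 k
  -- the disjoint union
  have hle : Nat.card (Σ q : {q : Fin 3 × Fin 3 → ℤ // Tq M H q ∧ Gq P0 (H ^ 4 / M + 1) (fun i j => q (i, j))},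
      {f : Fin (m + 1) → ℤ // (∀ i, |f i| ≤ (H : ℤ) ^ 4) ∧ SolK ℝ (fun i j => q.1 (i, j)) f ∧
        ∀ (p : ℕ) [Fact p.Prime], SolK ℚ_[p] (fun i j => q.1 (i, j)) f}) ≤
      Nat.card {z : (Fin 3 × Fin 3 → ℤ) × (Fin (m + 1) → ℤ) //
        (∀ i, |z.1 i| ≤ (H : ℤ)) ∧ (∀ i, |z.2 i| ≤ (H : ℤ) ^ 4) ∧ SolK ℝ (fun i j => z.1 (i, j)) z.2 ∧
        ∀ (p : ℕ) [Fact p.Prime], SolK ℚ_[p] (fun i j => z.1 (i, j)) z.2} := by
    refine Nat.card_le_card_of_injective (fun x => ⟨(x.1.1, x.2.1), x.1.2.1.1, x.2.2.1, x.2.2.2.1, x.2.2.2.2⟩) ?_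
    rintro ⟨⟨q, hq⟩, ⟨f, hf⟩⟩ ⟨⟨q', hq'⟩, ⟨f', hf'⟩⟩ hxy
    have e3 := congrArg Subtype.val hxy
    have e4 : q = q' := congrArg Prod.fst e3
    have e5 : f = f' := congrArg Prod.snd e3
    subst e4 e5
    rfl
  have hfinq' := Fintype.ofFinite {q : Fin 3 × Fin 3 → ℤ // Tq M H q ∧
    Gq P0 (H ^ 4 / M + 1) (fun i j => q (i, j))}
  have hfinf' : ∀ q : {q : Fin 3 × Fin 3 → ℤ // Tq M H q ∧ Gq P0 (H ^ 4 / M + 1) (fun i j => q (i, j))},
      Finite {f : Fin (m + 1) → ℤ // (∀ i, |f i| ≤ (H : ℤ) ^ 4) ∧ SolK ℝ (fun i j => q.1 (i, j)) f ∧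
        ∀ (p : ℕ) [Fact p.Prime], SolK ℚ_[p] (fun i j => q.1 (i, j)) f} := fun q => hfinf q.1
  rw [Nat.card_sigma] at hle
  have hle' : ∑ q : {q : Fin 3 × Fin 3 → ℤ // Tq M H q ∧ Gq P0 (H ^ 4 / M + 1) (fun i j => q (i, j))},
      ((H : ℝ) ^ 4) ^ (m + 1) / (2 * (M : ℝ)) ≤
      (Nat.card {z : (Fin 3 × Fin 3 → ℤ) × (Fin (m + 1) → ℤ) //
        (∀ i, |z.1 i| ≤ (H : ℤ)) ∧ (∀ i, |z.2 i| ≤ (H : ℤ) ^ 4) ∧ SolK ℝ (fun i j => z.1 (i, j)) z.2 ∧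
        ∀ (p : ℕ) [Fact p.Prime], SolK ℚ_[p] (fun i j => z.1 (i, j)) z.2} : ℝ) := by
    have e1 := Finset.sum_le_sum (s := (Finset.univ : Finset {q : Fin 3 × Fin 3 → ℤ // Tq M H q ∧
      Gq P0 (H ^ 4 / M + 1) (fun i j => q (i, j))})) (fun q _ => ho q.1 q.2.1 q.2.2)
    refine e1.trans ?_
    rw [← Nat.cast_sum]
    exact_mod_cast hle
  refine le_trans ?_ hle'
  rw [Finset.sum_const, nsmul_eq_mul, Finset.card_univ, ← Nat.card_eq_fintype_card]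
  have hY0 : 0 ≤ ((H : ℝ) ^ 4) ^ (m + 1) / (2 * (M : ℝ)) := by positivity
  refine le_trans (le_of_eq ?_) (mul_le_mul_of_nonneg_right hg hY0)
  rw [pow_add, pow_mul, div_mul_div_comm, one_div_mul_eq_div]
  congr 1
  ring

end HY
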