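import Pool.Agent.Lib.MP_10e784_agH.EDefs
import Pool.Agent.Lib.MP_10e784_agH.PB

/-!
# LEAF EL: the product is squarefree

PROOF.  Over `K = ℚ` (any field of characteristic `0`).  `P_i = pol (q i)`, `G = pol f`.  `pol_coeff`: `P_i` has degree `2` and leading coefficient `q i 2`, `G` degree `m` and leading coefficient `f (Fin.last m)`.  `P_i` is squarefree: `(2 v₂ X + v₁) P_i' - 4 v₂ P_i = dq`-like identity (`P_i' = 2 v₂ X + v₁`, `P_i'² - 4 v₂ P_i = dq (q i)`), so `P_i`, `P_i'` are coprime: separable, squarefree.  `P_i`, `P_j` coprime: an explicit identity `A P_i + B P_j = C (rq (q i) (q j))` (Sylvester; `A`, `B` of degree `≤ 1`), or: `rq` is the resultant.  `P_i`, `G` coprime: `exists_mul_add_mul_eq_C_resultant`, `rf (q i) f ≠ 0`.  So the product of the four pairwise coprime squarefree polynomials is squarefree (`Squarefree` of coprime products: `squarefree_mul_iff` for `IsRelPrime`), of degree `6 + m`.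
`RR ≠ 0` is the product of all `dq`, `rq`, `rf`; the integers are mapped to `ℚ` (`resultant_map_map`; `RR` of the integral vectors).
-/

set_option autoImplicit false

namespace HY

open Polynomial

private theorem EL_three {K : Type} [Field K] (v : Fin 3 → K) :
    pol v = C (v 0) + C (v 1) * X + C (v 2) * X ^ 2 := by
  unfold pol
  rw [Fin.sum_univ_three]
  simp only [Fin.val_zero, Fin.val_one, Fin.val_two, ← C_mul_X_pow_eq_monomial, pow_zero, pow_one, mul_one]

private theorem EL_map {k : ℕ} (f : Fin k → ℤ) :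
    pol (fun i => ((f i : ℤ) : ℚ)) = (pol f).map (Int.castRingHom ℚ) := by
  unfold pol
  rw [Polynomial.map_sum]
  refine Finset.sum_congr rfl fun i _ => ?_
  rw [Polynomial.map_monomial]
  rfl

private theorem EL_one {K : Type} [Field K] (v : Fin 3 → K) (h : dq v ≠ 0) : Squarefree (pol v) := by
  apply Separable.squarefree
  have hd : derivative (pol v) = C (v 1) + C (2 * v 2) * X := by
    rw [EL_three]
    simp only [derivative_add, derivative_C, derivative_C_mul, derivative_X, derivative_X_pow, zero_add, mul_one]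
    rw [C_mul]
    simp only [Nat.cast_ofNat, map_ofNat, Nat.add_one_sub_one, pow_one]
    ring
  have hid : C (-4 * v 2) * pol v + derivative (pol v) * derivative (pol v) = C (dq v) := by
    rw [hd, EL_three]
    unfold dq
    simp only [C_sub, C_mul, C_pow, C_neg, map_ofNat]
    ring
  have hc : (C (dq v)⁻¹ : K[X]) * C (dq v) = 1 := by
    rw [← C_mul, inv_mul_cancel₀ h, C_1]
  refine ⟨C (dq v)⁻¹ * C (-4 * v 2), C (dq v)⁻¹ * derivative (pol v), ?_⟩
  rw [mul_assoc, mul_assoc, ← mul_add, hid, hc]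

private theorem EL_two {K : Type} [Field K] (v w : Fin 3 → K) (h : rq v w ≠ 0) :
    IsCoprime (pol v) (pol w) := by
  have hid : (C ((v 0 * w 2 - v 2 * w 0) * w 2 - (v 1 * w 2 - v 2 * w 1) * w 1) -
        C ((v 1 * w 2 - v 2 * w 1) * w 2) * X) * pol v +
      (C (-((v 0 * w 2 - v 2 * w 0) * v 2) + (v 1 * w 2 - v 2 * w 1) * v 1) +
        C ((v 1 * w 2 - v 2 * w 1) * v 2) * X) * pol w = C (rq v w) := by
    rw [EL_three, EL_three]
    unfold rq
    simp only [C_sub, C_add, C_mul, C_pow, C_neg]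
    ring
  have hc : (C (rq v w)⁻¹ : K[X]) * C (rq v w) = 1 := by
    rw [← C_mul, inv_mul_cancel₀ h, C_1]
  refine ⟨C (rq v w)⁻¹ * (C ((v 0 * w 2 - v 2 * w 0) * w 2 - (v 1 * w 2 - v 2 * w 1) * w 1) -
        C ((v 1 * w 2 - v 2 * w 1) * w 2) * X),
      C (rq v w)⁻¹ * (C (-((v 0 * w 2 - v 2 * w 0) * v 2) + (v 1 * w 2 - v 2 * w 1) * v 1) +
        C ((v 1 * w 2 - v 2 * w 1) * v 2) * X), ?_⟩
  rw [mul_assoc, mul_assoc, ← mul_add, hid, hc]

private theorem EL_res {K : Type} [Field K] {m : ℕ} (v : Fin 3 → K) (f : Fin (m + 1) → K) (h : rf v f ≠ 0) :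
    IsCoprime (pol v) (pol f) := by
  obtain ⟨p, q, -, -, e⟩ := exists_mul_add_mul_eq_C_resultant (m := 2) (n := m) (pol v) (pol f)
    (pol_deg v) (pol_deg f) (Or.inl two_ne_zero)
  have hc : (C (rf v f)⁻¹ : K[X]) * C (rf v f) = 1 := by
    rw [← C_mul, inv_mul_cancel₀ h, C_1]
  refine ⟨C (rf v f)⁻¹ * p, C (rf v f)⁻¹ * q, ?_⟩
  have e' : p * pol v + q * pol f = C (rf v f) := by
    unfold rf
    rw [← e]
    ring
  rw [mul_assoc, mul_assoc, ← mul_add, e', hc]

private theorem EL_deg {K : Type} [Field K] {m : ℕ} (f : Fin (m + 1) → K) (h : f (Fin.last m) ≠ 0) :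
    (pol f).natDegree = m := by
  refine le_antisymm (pol_deg f) ?_
  apply Polynomial.le_natDegree_of_ne_zero
  rw [pol_coeff, dif_pos (Nat.lt_succ_self m)]
  exact h

theorem sqf_prod {m : ℕ} (q : Fin 3 → Fin 3 → ℤ) (f : Fin (m + 1) → ℤ) (hR : RR q f ≠ 0) (hq : ∀ i, q i 2 ≠ 0)
    (hf : f (Fin.last m) ≠ 0) (hs : Squarefree (pol (fun i => ((f i : ℤ) : ℚ)))) :
    Squarefree (pol (fun j => ((q 0 j : ℤ) : ℚ)) * pol (fun j => ((q 1 j : ℤ) : ℚ)) * pol (fun j => ((q 2 j : ℤ) : ℚ)) *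
      pol (fun i => ((f i : ℤ) : ℚ))) ∧
    (pol (fun j => ((q 0 j : ℤ) : ℚ)) * pol (fun j => ((q 1 j : ℤ) : ℚ)) * pol (fun j => ((q 2 j : ℤ) : ℚ)) *
      pol (fun i => ((f i : ℤ) : ℚ))).natDegree = m + 6 := by
  unfold RR at hR
  have hR1 := left_ne_zero_of_mul hR
  have hR2 := right_ne_zero_of_mul hR
  have hd := left_ne_zero_of_mul hR1
  have hr := right_ne_zero_of_mul hR1
  have hr3 : rq (q 1) (q 2) ≠ 0 := right_ne_zero_of_mul hr
  have hr1 : rq (q 0) (q 1) ≠ 0 := left_ne_zero_of_mul (left_ne_zero_of_mul hr)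
  have hr2 : rq (q 0) (q 2) ≠ 0 := right_ne_zero_of_mul (left_ne_zero_of_mul hr)
  rw [Finset.prod_ne_zero_iff] at hd hR2
  have cd : ∀ i, dq (fun j => ((q i j : ℤ) : ℚ)) ≠ 0 := by
    intro i
    have h := hd i (Finset.mem_univ i)
    have e : dq (fun j => ((q i j : ℤ) : ℚ)) = ((dq (q i) : ℤ) : ℚ) := by
      unfold dq
      push_cast
      ring
    rw [e]
    exact_mod_cast h
  have cr : ∀ i j, rq (q i) (q j) ≠ 0 →
      IsCoprime (pol (fun k => ((q i k : ℤ) : ℚ))) (pol (fun k => ((q j k : ℤ) : ℚ))) := by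
    intro i j h
    apply EL_two
    have e : rq (fun k => ((q i k : ℤ) : ℚ)) (fun k => ((q j k : ℤ) : ℚ)) = ((rq (q i) (q j) : ℤ) : ℚ) := by
      unfold rq
      push_cast
      ring
    rw [e]
    exact_mod_cast h
  have cf : ∀ i, IsCoprime (pol (fun k => ((q i k : ℤ) : ℚ))) (pol (fun k => ((f k : ℤ) : ℚ))) := by
    intro i
    apply EL_res
    have h := hR2 i (Finset.mem_univ i)
    have e : rf (fun k => ((q i k : ℤ) : ℚ)) (fun k => ((f k : ℤ) : ℚ)) = ((rf (q i) f : ℤ) : ℚ) := by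
      unfold rf
      rw [EL_map, EL_map, resultant_map_map]
      rfl
    rw [e]
    exact_mod_cast h
  have s : ∀ i, Squarefree (pol (fun k => ((q i k : ℤ) : ℚ))) := fun i => EL_one _ (cd i)
  have dg : ∀ i, (pol (fun k => ((q i k : ℤ) : ℚ))).natDegree = 2 := by
    intro i
    refine EL_deg (m := 2) (fun k => ((q i k : ℤ) : ℚ)) ?_
    have h := hq i
    have h' : ((q i 2 : ℤ) : ℚ) ≠ 0 := by exact_mod_cast h
    exact h'
  have dgf : (pol (fun k => ((f k : ℤ) : ℚ))).natDegree = m := by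
    refine EL_deg (fun k => ((f k : ℤ) : ℚ)) ?_
    have h' : ((f (Fin.last m) : ℤ) : ℚ) ≠ 0 := by exact_mod_cast hf
    exact h'
  have n0 : ∀ i, pol (fun k => ((q i k : ℤ) : ℚ)) ≠ 0 := fun i => (s i).ne_zero
  have nf : pol (fun k => ((f k : ℤ) : ℚ)) ≠ 0 := hs.ne_zero
  have s01 := squarefree_mul_iff.2 ⟨(cr 0 1 hr1).isRelPrime, s 0, s 1⟩
  have s012 := squarefree_mul_iff.2 ⟨((cr 0 2 hr2).mul_left (cr 1 2 hr3)).isRelPrime, s01, s 2⟩
  have s3 := squarefree_mul_iff.2 ⟨(((cf 0).mul_left (cf 1)).mul_left (cf 2)).isRelPrime, s012, hs⟩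
  refine ⟨s3, ?_⟩
  rw [natDegree_mul (mul_ne_zero (mul_ne_zero (n0 0) (n0 1)) (n0 2)) nf,
    natDegree_mul (mul_ne_zero (n0 0) (n0 1)) (n0 2), natDegree_mul (n0 0) (n0 1), dg 0, dg 1, dg 2, dgf]
  omega

end HY
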