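import Pool.Agent.Lib.MP_10e784_agH.EDefs
import Pool.Agent.Lib.MP_10e784_agH.PB

/-!
# LEAF EM: most forms are squarefree

PROOF.  Fix `f_1, .., f_m` with `f_m ≠ 0`: `pol f = C f_0 + G` with `G` independent of `f_0`, `G' ≠ 0` of degree `m - 1`.  If `pol f` is not squarefree over `ℚ` it has a double root `θ` in `ℂ` (or `AlgebraicClosure ℚ`): `G'(θ) = 0`, `f_0 = - G(θ)`: at most `m - 1` values of `f_0` (the roots of `G'`).  So for every choice of the other `m` coordinates (at most `(2 N + 1)^m`) at most `m` values of `f_0`.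
-/

set_option autoImplicit false

namespace HY

open Polynomial

/-- the part of the form without its constant term -/
private noncomputable def EM_G {m : ℕ} (t : Fin m → ℤ) : ℚ[X] :=
  pol (Fin.cons 0 (fun j => ((t j : ℤ) : ℚ)) : Fin (m + 1) → ℚ)

private theorem EM_split {m : ℕ} (f : Fin (m + 1) → ℤ) :
    pol (fun i => ((f i : ℤ) : ℚ)) = C ((f 0 : ℤ) : ℚ) + EM_G (fun j => f j.succ) := by
  unfold EM_G pol
  rw [Fin.sum_univ_succ, Fin.sum_univ_succ]
  simp only [Fin.cons_zero, Fin.cons_succ, Fin.val_zero, map_zero, zero_add,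
    Polynomial.monomial_zero_left]

private theorem EM_der_ne {m : ℕ} (hm : 1 ≤ m) (f : Fin (m + 1) → ℤ) (hf : f (Fin.last m) ≠ 0) :
    derivative (EM_G (fun j => f j.succ)) ≠ 0 := by
  intro h
  have h1 := congrArg (fun P : ℚ[X] => P.coeff (m - 1)) h
  beta_reduce at h1
  rw [coeff_derivative, coeff_zero] at h1
  have h2 : m - 1 + 1 = m := by omega
  have h3 : (EM_G (fun j => f j.succ)).coeff m = ((f (Fin.last m) : ℤ) : ℚ) := by
    have h4 := congrArg (fun P : ℚ[X] => P.coeff m) (EM_split f)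
    beta_reduce at h4
    rw [pol_coeff, dif_pos (by omega), coeff_add, coeff_C, if_neg (by omega), zero_add] at h4
    rw [← h4]
    rfl
  rw [h2, h3] at h1
  have h5 : ((f (Fin.last m) : ℤ) : ℚ) ≠ 0 := by exact_mod_cast hf
  have h6 : (((m - 1 : ℕ) : ℚ) + 1) ≠ 0 := by positivity
  exact (mul_ne_zero h5 h6) h1

private theorem EM_der_deg {m : ℕ} (hm : 1 ≤ m) (t : Fin m → ℤ) :
    (derivative (EM_G t)).natDegree < m := by
  have h1 := natDegree_derivative_le (EM_G t)
  have h2 : (EM_G t).natDegree ≤ m := pol_deg _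
  omega

/-- the list of the critical points -/
private noncomputable def EM_L {m : ℕ} (t : Fin m → ℤ) : List ℂ :=
  ((derivative (EM_G t)).aroots ℂ).toList

private theorem EM_len {m : ℕ} (hm : 1 ≤ m) (t : Fin m → ℤ) : (EM_L t).length < m := by
  unfold EM_L
  rw [Multiset.length_toList]
  refine lt_of_le_of_lt (card_roots' _) ?_
  exact lt_of_le_of_lt natDegree_map_le (EM_der_deg hm t)

private theorem EM_root {m : ℕ} (hm : 1 ≤ m) (f : Fin (m + 1) → ℤ) (hf : f (Fin.last m) ≠ 0)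
    (hs : ¬ Squarefree (pol (fun i => ((f i : ℤ) : ℚ)))) :
    ∃ i : Fin m, ((f 0 : ℤ) : ℂ) =
      -(aeval ((EM_L (fun j => f j.succ)).getD i 0) (EM_G (fun j => f j.succ))) := by
  set P : ℚ[X] := pol (fun i => ((f i : ℤ) : ℚ)) with hP
  set G : ℚ[X] := EM_G (fun j => f j.succ) with hG
  have hsplit : P = C ((f 0 : ℤ) : ℚ) + G := EM_split f
  have hP0 : P ≠ 0 := by
    intro h
    have h4 := congrArg (fun P : ℚ[X] => P.coeff m) h
    beta_reduce at h4
    rw [hP, pol_coeff, dif_pos (by omega), coeff_zero] at h4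
    have h5 : f ⟨m, by omega⟩ = 0 := by exact_mod_cast h4
    exact hf h5
  have hnc : ¬ IsCoprime P (derivative P) := fun hc =>
    hs ((PerfectField.separable_iff_squarefree (g := P)).1 hc)
  have hd0 : EuclideanDomain.gcd P (derivative P) ≠ 0 := by
    intro h
    exact hP0 (EuclideanDomain.gcd_eq_zero_iff.1 h).1
  have hdu : ¬ IsUnit (EuclideanDomain.gcd P (derivative P)) := fun h =>
    hnc (EuclideanDomain.gcd_isUnit_iff.1 h)
  have hdeg : (EuclideanDomain.gcd P (derivative P)).degree ≠ 0 := fun h =>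
    hdu (Polynomial.isUnit_iff_degree_eq_zero.2 h)
  obtain ⟨θ, hθ⟩ := IsAlgClosed.exists_aeval_eq_zero (k := ℂ) (EuclideanDomain.gcd P (derivative P)) hdeg
  have h1 : aeval θ P = 0 :=
    aeval_eq_zero_of_dvd_aeval_eq_zero (EuclideanDomain.gcd_dvd_left _ _) hθ
  have h2 : aeval θ (derivative P) = 0 :=
    aeval_eq_zero_of_dvd_aeval_eq_zero (EuclideanDomain.gcd_dvd_right _ _) hθ
  have h3 : derivative P = derivative G := by
    rw [hsplit, derivative_add, derivative_C, zero_add]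
  rw [h3] at h2
  have hmem : θ ∈ EM_L (fun j => f j.succ) := by
    unfold EM_L
    rw [Multiset.mem_toList, mem_aroots]
    exact ⟨EM_der_ne hm f hf, h2⟩
  obtain ⟨i, hi, hiθ⟩ := List.getElem_of_mem hmem
  have hlen := EM_len hm (fun j => f j.succ)
  refine ⟨⟨i, by omega⟩, ?_⟩
  have h5 : (EM_L (fun j => f j.succ)).getD i 0 = θ := by
    rw [List.getD_eq_getElem _ _ hi, hiθ]
  show ((f 0 : ℤ) : ℂ) = -(aeval ((EM_L (fun j => f j.succ)).getD i 0) G)
  rw [h5]
  have h6 : aeval θ P = ((f 0 : ℤ) : ℂ) + aeval θ G := by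
    rw [hsplit, map_add, aeval_C]
    simp
  rw [h6] at h1
  exact eq_neg_of_add_eq_zero_left h1

theorem cnt_sqf (m N : ℕ) (hm : 1 ≤ m) :
    Nat.card {f : Fin (m + 1) → ℤ // (∀ k, |f k| ≤ (N : ℤ)) ∧ f (Fin.last m) ≠ 0 ∧
      ¬ Squarefree (pol (fun i => ((f i : ℤ) : ℚ)))} ≤ m * (2 * N + 1) ^ m := by
  classical
  choose I hI using fun f : {f : Fin (m + 1) → ℤ // (∀ k, |f k| ≤ (N : ℤ)) ∧ f (Fin.last m) ≠ 0 ∧
      ¬ Squarefree (pol (fun i => ((f i : ℤ) : ℚ)))} => EM_root hm f.1 f.2.2.1 f.2.2.2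
  let Φ : {f : Fin (m + 1) → ℤ // (∀ k, |f k| ≤ (N : ℤ)) ∧ f (Fin.last m) ≠ 0 ∧
      ¬ Squarefree (pol (fun i => ((f i : ℤ) : ℚ)))} →
      Fin m × (Fin m → Finset.Icc (-(N : ℤ)) N) := fun f =>
    (I f, fun j => ⟨f.1 j.succ, Finset.mem_Icc.2 (abs_le.1 (f.2.1 j.succ))⟩)
  have hinj : Function.Injective Φ := by
    intro f g hfg
    have h1 : I f = I g := congrArg Prod.fst hfg
    have h2 : (fun j : Fin m => f.1 j.succ) = fun j => g.1 j.succ := by
      funext j
      have h3 := congrFun (congrArg Prod.snd hfg) j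
      exact congrArg Subtype.val h3
    have h4 : ((f.1 0 : ℤ) : ℂ) = ((g.1 0 : ℤ) : ℂ) := by
      rw [hI f, hI g, h1, h2]
    have h5 : f.1 0 = g.1 0 := by exact_mod_cast h4
    apply Subtype.ext
    funext k
    refine Fin.cases h5 (fun j => ?_) k
    exact congrFun h2 j
  refine le_trans (Nat.card_le_card_of_injective Φ hinj) ?_
  rw [Nat.card_eq_fintype_card, Fintype.card_prod, Fintype.card_fin, Fintype.card_fun,
    Fintype.card_coe, Int.card_Icc, Fintype.card_fin]
  apply le_of_eq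
  congr 2
  omega

end HY
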