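import Pool.Agent.Lib.MP_10e784_agH.EK
import Pool.Agent.Lib.MP_10e784_agH.EL
import Pool.Agent.Lib.MP_10e784_agH.EM
import Pool.Agent.Lib.MP_10e784_agH.PH
import Pool.Agent.Lib.MP_10e784_agL.SE

/-!
# LEAF EN: the failure of the Hasse principle

MODEL: `hp_all` in `MP_10e784_agL/SE.lean` (`exp_small`, `pow_small` can be cited).
PROOF.  `loc_H`: at least `η H^N` elements of the box (`N = 9 + 4 (m + 1)`) are everywhere locally soluble.  Remove (a) those with a rational point: `sol_of_rat` (leaf PH): they satisfy `Sol`, at most `C H^N exp(-(log H)^c)` (`hA`); (b) `RR = 0`: at most `C' H^N exp(-(log H)^c')` (`hO` with `c' = 1/8`); (c) `q_(i,2) = 0` for some `i` or `f_m = 0`: at most `3 (3 H)^8 (3 H⁴)^(m+1) + (3 H)^9 (3 H⁴)^m`; (d) `f_m ≠ 0` and `pol f` not squarefree: `(3 H)^9 m (3 H⁴)^m` (`cnt_sqf` with `H⁴`).  All four are at most `(η / 8) H^N` for `H` large.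  For the others `sqf_prod`.  `η' = η / 2`.
-/

set_option autoImplicit false

namespace HY

open Polynomial

private noncomputable abbrev ENbx (ι : Type) [Fintype ι] [DecidableEq ι] (N : ℕ) : Finset (ι → ℤ) :=
  Fintype.piFinset (fun _ : ι => Finset.Icc (-(N : ℤ)) N)

private theorem EN_mem {ι : Type} [Fintype ι] [DecidableEq ι] (N : ℕ) (g : ι → ℤ) :
    g ∈ ENbx ι N ↔ ∀ i, |g i| ≤ (N : ℤ) := by
  simp only [ENbx, Fintype.mem_piFinset, Finset.mem_Icc, abs_le]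

private theorem EN_card {ι : Type} [Fintype ι] [DecidableEq ι] (N : ℕ) :
    (ENbx ι N).card = (2 * N + 1) ^ Fintype.card ι := by
  rw [ENbx, Fintype.card_piFinset, Finset.prod_const, Int.card_Icc, Finset.card_univ]
  congr 1
  omega

private theorem EN_zero {ι : Type} [Fintype ι] [DecidableEq ι] (N : ℕ) (k : ι) :
    ((ENbx ι N).filter (fun g => g k = 0)).card ≤ (2 * N + 1) ^ (Fintype.card ι - 1) := by
  have h1 : (ENbx ι N).filter (fun g => g k = 0) ⊆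
      Fintype.piFinset (fun j => if j = k then ({0} : Finset ℤ) else Finset.Icc (-(N : ℤ)) N) := by
    intro g hg
    rw [Finset.mem_filter, Fintype.mem_piFinset] at hg
    rw [Fintype.mem_piFinset]
    intro j
    by_cases h : j = k
    · rw [if_pos h, h, hg.2]
      exact Finset.mem_singleton_self 0
    · rw [if_neg h]
      exact hg.1 j
  refine (Finset.card_le_card h1).trans (le_of_eq ?_)
  rw [Fintype.card_piFinset, ← Finset.mul_prod_erase Finset.univ _ (Finset.mem_univ k), if_pos rfl,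
    Finset.card_singleton, one_mul]
  have h2 : ∀ j ∈ Finset.univ.erase k,
      (if j = k then ({0} : Finset ℤ) else Finset.Icc (-(N : ℤ)) N).card = 2 * N + 1 := by
    intro j hj
    rw [if_neg (Finset.ne_of_mem_erase hj), Int.card_Icc]
    omega
  rw [Finset.prod_congr rfl h2, Finset.prod_const, Finset.card_erase_of_mem (Finset.mem_univ k), Finset.card_univ]

/-- the real estimate of the small sets -/
private theorem EN_real {m H : ℕ} (hH : 1 ≤ H) :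
    (3 * ((2 * H + 1) ^ 8 * (2 * H ^ 4 + 1) ^ (m + 1)) + (2 * H + 1) ^ 9 * (2 * H ^ 4 + 1) ^ m +
      (2 * H + 1) ^ 9 * (m * (2 * H ^ 4 + 1) ^ m) : ℕ) ≤ (m + 4) * 3 ^ (m + 9) * H ^ (8 + 4 * (m + 1)) := by
  have a1 : 2 * H + 1 ≤ 3 * H := by omega
  have hH4 : 1 ≤ H ^ 4 := Nat.one_le_pow _ _ hH
  have a2 : 2 * H ^ 4 + 1 ≤ 3 * H ^ 4 := by omega
  have b1 : (2 * H + 1) ^ 8 * (2 * H ^ 4 + 1) ^ (m + 1) ≤ 3 ^ (m + 9) * H ^ (8 + 4 * (m + 1)) := by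
    calc (2 * H + 1) ^ 8 * (2 * H ^ 4 + 1) ^ (m + 1) ≤ (3 * H) ^ 8 * (3 * H ^ 4) ^ (m + 1) :=
          Nat.mul_le_mul (Nat.pow_le_pow_left a1 8) (Nat.pow_le_pow_left a2 (m + 1))
      _ = 3 ^ (m + 9) * H ^ (8 + 4 * (m + 1)) := by
          rw [mul_pow, mul_pow, ← pow_mul]
          have e1 : m + 9 = 8 + (m + 1) := by omega
          rw [e1, pow_add 3 8 (m + 1), pow_add H 8 (4 * (m + 1))]
          ring
  have b2 : (2 * H + 1) ^ 9 * (2 * H ^ 4 + 1) ^ m ≤ 3 ^ (m + 9) * H ^ (8 + 4 * (m + 1)) := by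
    calc (2 * H + 1) ^ 9 * (2 * H ^ 4 + 1) ^ m ≤ (3 * H) ^ 9 * (3 * H ^ 4) ^ m :=
          Nat.mul_le_mul (Nat.pow_le_pow_left a1 9) (Nat.pow_le_pow_left a2 m)
      _ = 3 ^ (m + 9) * H ^ (9 + 4 * m) := by
          rw [mul_pow, mul_pow, ← pow_mul]
          rw [pow_add 3 m 9, pow_add H 9 (4 * m)]
          ring
      _ ≤ 3 ^ (m + 9) * H ^ (8 + 4 * (m + 1)) :=
          Nat.mul_le_mul le_rfl (Nat.pow_le_pow_right hH (by omega))
  have b3 : (2 * H + 1) ^ 9 * (m * (2 * H ^ 4 + 1) ^ m) ≤ m * (3 ^ (m + 9) * H ^ (8 + 4 * (m + 1))) := by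
    calc (2 * H + 1) ^ 9 * (m * (2 * H ^ 4 + 1) ^ m) = m * ((2 * H + 1) ^ 9 * (2 * H ^ 4 + 1) ^ m) := by ring
      _ ≤ _ := Nat.mul_le_mul le_rfl b2
  calc 3 * ((2 * H + 1) ^ 8 * (2 * H ^ 4 + 1) ^ (m + 1)) + (2 * H + 1) ^ 9 * (2 * H ^ 4 + 1) ^ m +
      (2 * H + 1) ^ 9 * (m * (2 * H ^ 4 + 1) ^ m) ≤
      3 * (3 ^ (m + 9) * H ^ (8 + 4 * (m + 1))) + 3 ^ (m + 9) * H ^ (8 + 4 * (m + 1)) +
        m * (3 ^ (m + 9) * H ^ (8 + 4 * (m + 1))) := by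
        exact Nat.add_le_add (Nat.add_le_add (Nat.mul_le_mul le_rfl b1) b2) b3
    _ = (m + 4) * 3 ^ (m + 9) * H ^ (8 + 4 * (m + 1)) := by ring

/-- the counting of the small sets -/
private theorem EN_cnt {m : ℕ} (hm : 1 ≤ m) {H : ℕ} (hH : 1 ≤ H) [DecidablePred fun z : (Fin 3 × Fin 3 → ℤ) × (Fin (m + 1) → ℤ) =>
      (∃ i : Fin 3, z.1 (i, 2) = 0) ∨ z.2 (Fin.last m) = 0 ∨
        (z.2 (Fin.last m) ≠ 0 ∧ ¬ Squarefree (pol (fun i => ((z.2 i : ℤ) : ℚ))))] :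
    (((ENbx (Fin 3 × Fin 3) H) ×ˢ (ENbx (Fin (m + 1)) (H ^ 4))).filter
      (fun z : (Fin 3 × Fin 3 → ℤ) × (Fin (m + 1) → ℤ) => (∃ i : Fin 3, z.1 (i, 2) = 0) ∨ z.2 (Fin.last m) = 0 ∨
        (z.2 (Fin.last m) ≠ 0 ∧ ¬ Squarefree (pol (fun i => ((z.2 i : ℤ) : ℚ)))))).card ≤
      (m + 4) * 3 ^ (m + 9) * H ^ (8 + 4 * (m + 1)) := by
  classical
  refine le_trans ?_ (EN_real (m := m) hH)
  let B1 := ENbx (Fin 3 × Fin 3) H
  let B2 := ENbx (Fin (m + 1)) (H ^ 4)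
  have c1 : B1.card = (2 * H + 1) ^ 9 := by
    have h := EN_card (ι := Fin 3 × Fin 3) H
    rw [Fintype.card_prod, Fintype.card_fin] at h
    exact h
  have c2 : B2.card = (2 * H ^ 4 + 1) ^ (m + 1) := by
    have h := EN_card (ι := Fin (m + 1)) (H ^ 4)
    rw [Fintype.card_fin] at h
    exact h
  have c3 : ∀ i : Fin 3, (B1.filter (fun g => g (i, 2) = 0)).card ≤ (2 * H + 1) ^ 8 := by
    intro i
    have h := EN_zero (ι := Fin 3 × Fin 3) H (i, 2)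
    rw [Fintype.card_prod, Fintype.card_fin] at h
    exact h
  have c4 : (B2.filter (fun g => g (Fin.last m) = 0)).card ≤ (2 * H ^ 4 + 1) ^ m := by
    have h := EN_zero (ι := Fin (m + 1)) (H ^ 4) (Fin.last m)
    rw [Fintype.card_fin, Nat.add_sub_cancel] at h
    exact h
  have c5 : (B2.filter (fun f => f (Fin.last m) ≠ 0 ∧ ¬ Squarefree (pol (fun i => ((f i : ℤ) : ℚ))))).card ≤
      m * (2 * H ^ 4 + 1) ^ m := by
    have h := cnt_sqf m (H ^ 4) hm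
    have e := Nat.subtype_card (p := fun f : Fin (m + 1) → ℤ => (∀ k, |f k| ≤ ((H ^ 4 : ℕ) : ℤ)) ∧ f (Fin.last m) ≠ 0 ∧
      ¬ Squarefree (pol (fun i => ((f i : ℤ) : ℚ))))
      (B2.filter (fun f => f (Fin.last m) ≠ 0 ∧ ¬ Squarefree (pol (fun i => ((f i : ℤ) : ℚ)))))
      (fun f => by rw [Finset.mem_filter, EN_mem])
    rw [e] at h
    exact h
  have hsub : (B1 ×ˢ B2).filter
      (fun z : (Fin 3 × Fin 3 → ℤ) × (Fin (m + 1) → ℤ) => (∃ i : Fin 3, z.1 (i, 2) = 0) ∨ z.2 (Fin.last m) = 0 ∨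
        (z.2 (Fin.last m) ≠ 0 ∧ ¬ Squarefree (pol (fun i => ((z.2 i : ℤ) : ℚ))))) ⊆
      ((Finset.univ : Finset (Fin 3)).biUnion (fun i => (B1.filter (fun g => g (i, 2) = 0)) ×ˢ B2)) ∪
        (B1 ×ˢ (B2.filter (fun g => g (Fin.last m) = 0))) ∪
        (B1 ×ˢ (B2.filter (fun f => f (Fin.last m) ≠ 0 ∧ ¬ Squarefree (pol (fun i => ((f i : ℤ) : ℚ)))))) := by
    intro z hz
    obtain ⟨h1, h2⟩ := Finset.mem_filter.1 hz
    obtain ⟨h3, h4⟩ := Finset.mem_product.1 h1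
    rcases h2 with ⟨i, hi⟩ | h2 | h2
    · refine Finset.mem_union_left _ (Finset.mem_union_left _ (Finset.mem_biUnion.2 ⟨i, Finset.mem_univ i, ?_⟩))
      exact Finset.mem_product.2 ⟨Finset.mem_filter.2 ⟨h3, hi⟩, h4⟩
    · exact Finset.mem_union_left _ (Finset.mem_union_right _ (Finset.mem_product.2 ⟨h3, Finset.mem_filter.2 ⟨h4, h2⟩⟩))
    · exact Finset.mem_union_right _ (Finset.mem_product.2 ⟨h3, Finset.mem_filter.2 ⟨h4, h2⟩⟩)
  have hle := Finset.card_le_card hsub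
  refine le_trans (le_trans (le_of_eq ?_) hle) ?_
  · exact congrArg Finset.card (Finset.filter_congr_decidable _ _ _)
  refine (Finset.card_union_le _ _).trans (Nat.add_le_add ((Finset.card_union_le _ _).trans (Nat.add_le_add ?_ ?_)) ?_)
  · refine Finset.card_biUnion_le.trans ?_
    have h1 : ∀ i ∈ (Finset.univ : Finset (Fin 3)), ((B1.filter (fun g => g (i, 2) = 0)) ×ˢ B2).card ≤
        (2 * H + 1) ^ 8 * (2 * H ^ 4 + 1) ^ (m + 1) := by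
      intro i _
      rw [Finset.card_product, c2]
      exact Nat.mul_le_mul (c3 i) le_rfl
    refine (Finset.sum_le_card_nsmul _ _ _ h1).trans (le_of_eq ?_)
    rw [Finset.card_univ, Fintype.card_fin, smul_eq_mul]
  · rw [Finset.card_product, c1]
    exact Nat.mul_le_mul le_rfl c4
  · rw [Finset.card_product, c1]
    exact Nat.mul_le_mul le_rfl c5

private theorem EN_nat {m : ℕ} (H : ℕ) (P : (Fin 3 × Fin 3 → ℤ) × (Fin (m + 1) → ℤ) → Prop) [DecidablePred P] :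
    Nat.card {z : (Fin 3 × Fin 3 → ℤ) × (Fin (m + 1) → ℤ) //
      (∀ i, |z.1 i| ≤ (H : ℤ)) ∧ (∀ i, |z.2 i| ≤ (H : ℤ) ^ 4) ∧ P z} =
    (((ENbx (Fin 3 × Fin 3) H) ×ˢ (ENbx (Fin (m + 1)) (H ^ 4))).filter P).card := by
  refine Nat.subtype_card _ fun z => ?_
  rw [Finset.mem_filter, Finset.mem_product, EN_mem, EN_mem, and_assoc]
  push_cast
  exact Iff.rfl

theorem hp_H {c : ℝ} (hc : 0 < c) {m : ℕ} (hm : Even m) (h6 : 6 ≤ m) (hO : FactO)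
    (hA : ∃ C : ℝ, ∀ H : ℕ, 1 ≤ H → (Nat.card {z : (Fin 3 × Fin 3 → ℤ) × (Fin (m + 1) → ℤ) //
      (∀ i, |z.1 i| ≤ (H : ℤ)) ∧ (∀ i, |z.2 i| ≤ (H : ℤ) ^ 4) ∧ Sol (fun i j => z.1 (i, j)) z.2} : ℝ) ≤
      C * (H : ℝ) ^ (9 + 4 * (m + 1)) * Real.exp (-(Real.log H) ^ c)) :
    ∃ (η : ℝ) (H0 : ℕ), 0 < η ∧ ∀ H : ℕ, H0 ≤ H → η * (H : ℝ) ^ (9 + 4 * (m + 1)) ≤
      (Nat.card {z : (Fin 3 × Fin 3 → ℤ) × (Fin (m + 1) → ℤ) //
        (∀ i, |z.1 i| ≤ (H : ℤ)) ∧ (∀ i, |z.2 i| ≤ (H : ℤ) ^ 4) ∧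
        (Squarefree (pol (fun j => ((z.1 (0, j) : ℤ) : ℚ)) * pol (fun j => ((z.1 (1, j) : ℤ) : ℚ)) *
            pol (fun j => ((z.1 (2, j) : ℤ) : ℚ)) * pol (fun i => ((z.2 i : ℤ) : ℚ))) ∧
          (pol (fun j => ((z.1 (0, j) : ℤ) : ℚ)) * pol (fun j => ((z.1 (1, j) : ℤ) : ℚ)) *
            pol (fun j => ((z.1 (2, j) : ℤ) : ℚ)) * pol (fun i => ((z.2 i : ℤ) : ℚ))).natDegree = m + 6) ∧
        SolK ℝ (fun i j => z.1 (i, j)) z.2 ∧ (∀ (p : ℕ) [Fact p.Prime], SolK ℚ_[p] (fun i j => z.1 (i, j)) z.2) ∧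
        ¬ SolK ℚ (fun i j => z.1 (i, j)) z.2} : ℝ) := by
  classical
  obtain ⟨η, H1, hη, h1⟩ := loc_H hm h6
  obtain ⟨C, hC⟩ := hA
  obtain ⟨C', hC'⟩ := hO (1 / 8) (by norm_num) (by norm_num) m
  have hη8 : 0 < η / 8 := by positivity
  obtain ⟨H2, h2⟩ := BLS.exp_small (C := C) hc hη8
  obtain ⟨H3, h3⟩ := BLS.exp_small (c := (1 / 8 : ℝ)) (C := C') (by norm_num) hη8
  obtain ⟨H4, h4⟩ := exists_nat_ge (((m + 4) * 3 ^ (m + 9) : ℕ) / (η / 8) : ℝ)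
  refine ⟨η / 2, max H1 (max H2 (max H3 (max H4 1))), half_pos hη, fun H hH => ?_⟩
  have a1 : H1 ≤ H := (le_max_left _ _).trans hH
  have hH' := (le_max_right _ _).trans hH
  have a2 : H2 ≤ H := (le_max_left _ _).trans hH'
  have hH'' := (le_max_right _ _).trans hH'
  have a3 : H3 ≤ H := (le_max_left _ _).trans hH''
  have hH''' := (le_max_right _ _).trans hH''
  have a4 : H4 ≤ H := (le_max_left _ _).trans hH'''
  have a5 : 1 ≤ H := (le_max_right _ _).trans hH'''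
  have k1 := h1 H a1
  have k2 := hC H a5
  have k3 := hC' H a5
  have k4 := h2 H a2
  have k5 := h3 H a3
  have k6 := EN_cnt (m := m) (by omega) a5
  have hpos : (0 : ℝ) < (H : ℝ) ^ (9 + 4 * (m + 1)) := by
    have : (0 : ℝ) < H := by exact_mod_cast a5
    positivity
  -- the three estimates
  have s1 : (Nat.card {z : (Fin 3 × Fin 3 → ℤ) × (Fin (m + 1) → ℤ) //
      (∀ i, |z.1 i| ≤ (H : ℤ)) ∧ (∀ i, |z.2 i| ≤ (H : ℤ) ^ 4) ∧ Sol (fun i j => z.1 (i, j)) z.2} : ℝ) ≤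
      η / 8 * (H : ℝ) ^ (9 + 4 * (m + 1)) := by
    refine k2.trans ?_
    calc C * (H : ℝ) ^ (9 + 4 * (m + 1)) * Real.exp (-(Real.log H) ^ c) =
          C * Real.exp (-(Real.log H) ^ c) * (H : ℝ) ^ (9 + 4 * (m + 1)) := by ring
      _ ≤ η / 8 * (H : ℝ) ^ (9 + 4 * (m + 1)) := mul_le_mul_of_nonneg_right k4 hpos.le
  have s2 := k3.trans (show C' * (H : ℝ) ^ (9 + 4 * (m + 1)) * Real.exp (-(Real.log H) ^ (1 / 8 : ℝ)) ≤
      η / 8 * (H : ℝ) ^ (9 + 4 * (m + 1)) from by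
    calc C' * (H : ℝ) ^ (9 + 4 * (m + 1)) * Real.exp (-(Real.log H) ^ (1 / 8 : ℝ)) =
          C' * Real.exp (-(Real.log H) ^ (1 / 8 : ℝ)) * (H : ℝ) ^ (9 + 4 * (m + 1)) := by ring
      _ ≤ η / 8 * (H : ℝ) ^ (9 + 4 * (m + 1)) := mul_le_mul_of_nonneg_right k5 hpos.le)
  have s3 : ((((m + 4) * 3 ^ (m + 9) * H ^ (8 + 4 * (m + 1)) : ℕ)) : ℝ) ≤ η / 8 * (H : ℝ) ^ (9 + 4 * (m + 1)) := by
    have t1 : ((((m + 4) * 3 ^ (m + 9) : ℕ)) : ℝ) ≤ η / 8 * H := by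
      have t2 : (((m + 4) * 3 ^ (m + 9) : ℕ) / (η / 8) : ℝ) ≤ H := h4.trans (by exact_mod_cast a4)
      rw [div_le_iff₀ hη8] at t2
      rw [mul_comm (η / 8)]
      exact t2
    have t3 : (0 : ℝ) ≤ (H : ℝ) ^ (8 + 4 * (m + 1)) := by positivity
    calc ((((m + 4) * 3 ^ (m + 9) * H ^ (8 + 4 * (m + 1)) : ℕ)) : ℝ) =
        ((((m + 4) * 3 ^ (m + 9) : ℕ)) : ℝ) * (H : ℝ) ^ (8 + 4 * (m + 1)) := by
          rw [Nat.cast_mul, Nat.cast_pow]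
      _ ≤ η / 8 * H * (H : ℝ) ^ (8 + 4 * (m + 1)) := mul_le_mul_of_nonneg_right t1 t3
      _ = η / 8 * (H : ℝ) ^ (9 + 4 * (m + 1)) := by
          have e : 9 + 4 * (m + 1) = (8 + 4 * (m + 1)) + 1 := by omega
          rw [e, pow_succ]
          ring
  rw [EN_nat H (fun z => Sol (fun i j => z.1 (i, j)) z.2)] at s1
  rw [EN_nat H (fun z => RR (fun i j => z.1 (i, j)) z.2 = 0 ∨
      Real.log H ^ (3 * (1 / 8 : ℝ)) < ((RR (fun i j => z.1 (i, j)) z.2).natAbs.primeFactors.card : ℝ))] at s2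
  rw [EN_nat H (fun z => SolK ℝ (fun i j => z.1 (i, j)) z.2 ∧
      ∀ (p : ℕ) [Fact p.Prime], SolK ℚ_[p] (fun i j => z.1 (i, j)) z.2)] at k1
  rw [EN_nat H (fun z => (Squarefree (pol (fun j => ((z.1 (0, j) : ℤ) : ℚ)) * pol (fun j => ((z.1 (1, j) : ℤ) : ℚ)) *
            pol (fun j => ((z.1 (2, j) : ℤ) : ℚ)) * pol (fun i => ((z.2 i : ℤ) : ℚ))) ∧
          (pol (fun j => ((z.1 (0, j) : ℤ) : ℚ)) * pol (fun j => ((z.1 (1, j) : ℤ) : ℚ)) *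
            pol (fun j => ((z.1 (2, j) : ℤ) : ℚ)) * pol (fun i => ((z.2 i : ℤ) : ℚ))).natDegree = m + 6) ∧
        SolK ℝ (fun i j => z.1 (i, j)) z.2 ∧ (∀ (p : ℕ) [Fact p.Prime], SolK ℚ_[p] (fun i j => z.1 (i, j)) z.2) ∧
        ¬ SolK ℚ (fun i j => z.1 (i, j)) z.2)]
  have hsub : (((ENbx (Fin 3 × Fin 3) H) ×ˢ (ENbx (Fin (m + 1)) (H ^ 4))).filter
      (fun z => SolK ℝ (fun i j => z.1 (i, j)) z.2 ∧
        ∀ (p : ℕ) [Fact p.Prime], SolK ℚ_[p] (fun i j => z.1 (i, j)) z.2)) ⊆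
      (((ENbx (Fin 3 × Fin 3) H) ×ˢ (ENbx (Fin (m + 1)) (H ^ 4))).filter
        (fun z => (Squarefree (pol (fun j => ((z.1 (0, j) : ℤ) : ℚ)) * pol (fun j => ((z.1 (1, j) : ℤ) : ℚ)) *
            pol (fun j => ((z.1 (2, j) : ℤ) : ℚ)) * pol (fun i => ((z.2 i : ℤ) : ℚ))) ∧
          (pol (fun j => ((z.1 (0, j) : ℤ) : ℚ)) * pol (fun j => ((z.1 (1, j) : ℤ) : ℚ)) *
            pol (fun j => ((z.1 (2, j) : ℤ) : ℚ)) * pol (fun i => ((z.2 i : ℤ) : ℚ))).natDegree = m + 6) ∧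
        SolK ℝ (fun i j => z.1 (i, j)) z.2 ∧ (∀ (p : ℕ) [Fact p.Prime], SolK ℚ_[p] (fun i j => z.1 (i, j)) z.2) ∧
        ¬ SolK ℚ (fun i j => z.1 (i, j)) z.2)) ∪
      (((ENbx (Fin 3 × Fin 3) H) ×ˢ (ENbx (Fin (m + 1)) (H ^ 4))).filter
        (fun z => Sol (fun i j => z.1 (i, j)) z.2)) ∪
      (((ENbx (Fin 3 × Fin 3) H) ×ˢ (ENbx (Fin (m + 1)) (H ^ 4))).filter
        (fun z => RR (fun i j => z.1 (i, j)) z.2 = 0 ∨
          Real.log H ^ (3 * (1 / 8 : ℝ)) < ((RR (fun i j => z.1 (i, j)) z.2).natAbs.primeFactors.card : ℝ))) ∪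
      (((ENbx (Fin 3 × Fin 3) H) ×ˢ (ENbx (Fin (m + 1)) (H ^ 4))).filter
        (fun z => (∃ i : Fin 3, z.1 (i, 2) = 0) ∨ z.2 (Fin.last m) = 0 ∨
        (z.2 (Fin.last m) ≠ 0 ∧ ¬ Squarefree (pol (fun i => ((z.2 i : ℤ) : ℚ)))))) := by
    intro z hz
    obtain ⟨hb, hz1, hz2⟩ := Finset.mem_filter.1 hz
    by_cases p1 : Sol (fun i j => z.1 (i, j)) z.2
    · exact Finset.mem_union_left _ (Finset.mem_union_left _ (Finset.mem_union_right _ (Finset.mem_filter.2 ⟨hb, p1⟩)))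
    by_cases p2 : RR (fun i j => z.1 (i, j)) z.2 = 0
    · exact Finset.mem_union_left _ (Finset.mem_union_right _ (Finset.mem_filter.2 ⟨hb, Or.inl p2⟩))
    by_cases p3 : (∃ i : Fin 3, z.1 (i, 2) = 0) ∨ z.2 (Fin.last m) = 0 ∨
        (z.2 (Fin.last m) ≠ 0 ∧ ¬ Squarefree (pol (fun i => ((z.2 i : ℤ) : ℚ))))
    · exact Finset.mem_union_right _ (Finset.mem_filter.2 ⟨hb, p3⟩)
    refine Finset.mem_union_left _ (Finset.mem_union_left _ (Finset.mem_union_left _ (Finset.mem_filter.2 ⟨hb, ?_⟩)))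
    rw [not_or, not_or, not_and, not_not] at p3
    refine ⟨sqf_prod (fun i j => z.1 (i, j)) z.2 p2 (fun i h => p3.1 ⟨i, h⟩) p3.2.1 (p3.2.2 p3.2.1), hz1, hz2, ?_⟩
    rintro ⟨x, w, y, hx, hy⟩
    exact p1 (sol_of_rat hm _ _ x w y hx hy)
  have hcard := (Finset.card_le_card hsub).trans ((Finset.card_union_le _ _).trans (Nat.add_le_add
    ((Finset.card_union_le _ _).trans (Nat.add_le_add (Finset.card_union_le _ _) le_rfl)) k6))
  have hcardR := (Nat.cast_le (α := ℝ)).2 hcard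
  rw [Nat.cast_add, Nat.cast_add, Nat.cast_add] at hcardR
  linarith

end HY
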