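import Pool.Agent.Lib.MP_10e784_agX.CDefs
import Pool.Agent.Lib.MP_10e784_agX.C1

/-!
# LEAF KA: the power series `ξ_n` for an even number `l = 2 m`

MODEL: `xi_cc`, `xi_lip` in `MP_10e784_agX/C1.lean` (copy the private lemmas `C1_..` under other names; `inv_lip` can be cited).
PROOF.  `xi_cc2`: strong induction on `n` as there: for `n + 3 ≤ m - 1` the exponent `2 m - 2 (n + 2) - 2` is `≥ 1`, so all the terms with `w` have constant coefficient `0`.
`xi_cc2m`: `n + 3 = m`: the exponent is `0`: the numerator is `ξ_(m-1)² + w (1 + 4 X^(m-1) ξ_(m-1) + 4 X)`, with constant coefficient `1 + w₀`, and the denominator has constant coefficient `1` (`xi_cc2`).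
`xi_lip2`: as `xi_lip`.  `xi_lip2m`: for `n = m` the same step, but `w - w'` is divisible only by `X ^ k` and not multiplied by `X`.
-/

set_option autoImplicit false

namespace HY

open PowerSeries BIE

variable {K : Type} [Field K]

private theorem KA_mul {a b c d : PowerSeries K} {k : ℕ} (h1 : (X : PowerSeries K) ^ k ∣ a - b)
    (h2 : (X : PowerSeries K) ^ k ∣ c - d) : (X : PowerSeries K) ^ k ∣ a * c - b * d := by
  have e : a * c - b * d = a * (c - d) + (a - b) * d := by ring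
  rw [e]
  exact dvd_add (Dvd.dvd.mul_left h2 a) (Dvd.dvd.mul_right h1 d)

private theorem KA_add {a b c d : PowerSeries K} {k : ℕ} (h1 : (X : PowerSeries K) ^ k ∣ a - b)
    (h2 : (X : PowerSeries K) ^ k ∣ c - d) : (X : PowerSeries K) ^ k ∣ (a + c) - (b + d) := by
  have e : (a + c) - (b + d) = (a - b) + (c - d) := by ring
  rw [e]
  exact dvd_add h1 h2

private theorem KA_sub {a b c d : PowerSeries K} {k : ℕ} (h1 : (X : PowerSeries K) ^ k ∣ a - b)
    (h2 : (X : PowerSeries K) ^ k ∣ c - d) : (X : PowerSeries K) ^ k ∣ (a - c) - (b - d) := by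
  have e : (a - c) - (b - d) = (a - b) - (c - d) := by ring
  rw [e]
  exact dvd_sub h1 h2

private theorem KA_refl (a : PowerSeries K) (k : ℕ) : (X : PowerSeries K) ^ k ∣ a - a := by
  rw [sub_self]
  exact dvd_zero _

private theorem KA_sq {a b : PowerSeries K} {k : ℕ} (h1 : (X : PowerSeries K) ^ k ∣ a - b) :
    (X : PowerSeries K) ^ k ∣ a ^ 2 - b ^ 2 := by
  rw [sq, sq]
  exact KA_mul h1 h1

/-- `w X ^ e` modulo `X ^ (k + 1)`. -/
private theorem KA_w {w w' : PowerSeries K} {k e : ℕ} (h : (X : PowerSeries K) ^ k ∣ w - w') (he : 1 ≤ e) :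
    (X : PowerSeries K) ^ (k + 1) ∣ w * X ^ e - w' * X ^ e := by
  have e1 : w * X ^ e - w' * X ^ e = (w - w') * X ^ e := by ring
  rw [e1]
  calc (X : PowerSeries K) ^ (k + 1) ∣ X ^ (k + e) := pow_dvd_pow _ (by omega)
    _ = X ^ k * X ^ e := pow_add _ _ _
    _ ∣ (w - w') * X ^ e := mul_dvd_mul_right h _

private theorem KA_cX {e : ℕ} (he : 1 ≤ e) : constantCoeff ((X : PowerSeries K) ^ e) = 0 := by
  rw [map_pow, constantCoeff_X, zero_pow (by omega)]

private theorem KA_ne {a : PowerSeries K} (ha : constantCoeff a = 1) : constantCoeff a ≠ 0 := by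
  rw [ha]
  exact one_ne_zero

private theorem KA_two (l : ℕ) (w : PowerSeries K) : xi K l w 2 =
    (1 + w * X ^ (l - 4) * (1 + 8 * X)) * (1 + 4 * X - 4 * w * X ^ (l - 2))⁻¹ := by
  rw [xi]

private theorem KA_step (l : ℕ) (w : PowerSeries K) (n : ℕ) : xi K l w (n + 3) =
    (xi K l w (n + 2) ^ 2 + w * X ^ (l - 2 * (n + 2) - 2) * (1 + 4 * X ^ (n + 2) * xi K l w (n + 2) + 4 * X)) *
      ((1 - X ^ (n + 1) * xi K l w (n + 2)) ^ 2 * xi K l w (n + 1))⁻¹ := by
  rw [xi]

private theorem KA_den2 {m : ℕ} (hm : 4 ≤ m) (w : PowerSeries K) :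
    constantCoeff (1 + 4 * X - 4 * w * X ^ (2 * m - 2)) = 1 := by
  rw [map_sub, map_add, map_mul, map_mul, KA_cX (by omega), constantCoeff_X, map_one]
  ring

private theorem KA_den {e : ℕ} (he : 1 ≤ e) {a b : PowerSeries K} (hb : constantCoeff b = 1) :
    constantCoeff ((1 - X ^ e * a) ^ 2 * b) = 1 := by
  rw [map_mul, map_pow, map_sub, map_mul, KA_cX he, map_one, hb]
  ring

private theorem KA_u {e : ℕ} (he : 1 ≤ e) (a : PowerSeries K) :
    constantCoeff (1 + 4 * X ^ e * a + 4 * X) = 1 := by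
  rw [map_add, map_add, map_mul, map_mul, map_mul, KA_cX he, constantCoeff_X, map_one]
  ring

theorem xi_cc2 {m : ℕ} (hm : 4 ≤ m) (w : PowerSeries K) (n : ℕ) (hn : n < m) :
    constantCoeff (xi K (2 * m) w n) = 1 := by
  induction n using Nat.strong_induction_on with
  | _ n ih =>
    match n, ih, hn with
    | 0, _, _ => rw [xi, map_one]
    | 1, _, _ => rw [xi, map_one]
    | 2, _, _ =>
      rw [KA_two, map_mul, PowerSeries.constantCoeff_inv, KA_den2 hm, map_add, map_mul, map_mul,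
        KA_cX (by omega), map_one]
      simp
    | n + 3, ih, hn =>
      have h1 := ih (n + 2) (by omega) (by omega)
      have h2 := ih (n + 1) (by omega) (by omega)
      rw [KA_step, map_mul, PowerSeries.constantCoeff_inv, KA_den (by omega) h2, map_add, map_pow, h1,
        map_mul, map_mul, KA_cX (by omega)]
      simp

theorem xi_cc2m {m : ℕ} (hm : 4 ≤ m) (w : PowerSeries K) :
    constantCoeff (xi K (2 * m) w m) = 1 + constantCoeff w := by
  obtain ⟨n, rfl⟩ : ∃ n, m = n + 3 := ⟨m - 3, by omega⟩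
  have h1 := xi_cc2 hm w (n + 2) (by omega)
  have h2 := xi_cc2 hm w (n + 1) (by omega)
  have h3 : 2 * (n + 3) - 2 * (n + 2) - 2 = 0 := by omega
  rw [KA_step, map_mul, PowerSeries.constantCoeff_inv, KA_den (by omega) h2, map_add, map_pow, h1, h3, pow_zero, mul_one,
    map_mul, KA_u (by omega)]
  simp

theorem xi_lip2 {m : ℕ} (hm : 4 ≤ m) (w w' : PowerSeries K) (k : ℕ) (h : (X : PowerSeries K) ^ k ∣ w - w') (n : ℕ)
    (hn : n < m) : (X : PowerSeries K) ^ (k + 1) ∣ xi K (2 * m) w n - xi K (2 * m) w' n := by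
  induction n using Nat.strong_induction_on with
  | _ n ih =>
    match n, ih, hn with
    | 0, _, _ =>
      rw [xi, xi]
      exact KA_refl _ _
    | 1, _, _ =>
      rw [xi, xi]
      exact KA_refl _ _
    | 2, _, _ =>
      rw [KA_two, KA_two]
      refine KA_mul (KA_add (KA_refl _ _) (KA_mul (KA_w h (by omega)) (KA_refl _ _)))
        (inv_lip (KA_den2 hm w) (KA_den2 hm w') (KA_sub (KA_refl _ _) ?_))
      rw [mul_assoc, mul_assoc]
      exact KA_mul (KA_refl _ _) (KA_w h (by omega))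
    | n + 3, ih, hn =>
      have h1 := ih (n + 2) (by omega) (by omega)
      have h2 := ih (n + 1) (by omega) (by omega)
      rw [KA_step, KA_step]
      refine KA_mul (KA_add (KA_sq h1) (KA_mul (KA_w h (by omega)) (KA_add (KA_add (KA_refl _ _)
        (KA_mul (KA_refl _ _) h1)) (KA_refl _ _)))) (inv_lip (KA_den (by omega) (xi_cc2 hm w _ (by omega)))
        (KA_den (by omega) (xi_cc2 hm w' _ (by omega)))
        (KA_mul (KA_sq (KA_sub (KA_refl _ _) (KA_mul (KA_refl _ _) h1))) h2))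

theorem xi_lip2m {m : ℕ} (hm : 4 ≤ m) (w w' : PowerSeries K) (k : ℕ) (h : (X : PowerSeries K) ^ k ∣ w - w') :
    (X : PowerSeries K) ^ k ∣ xi K (2 * m) w m - xi K (2 * m) w' m := by
  obtain ⟨n, rfl⟩ : ∃ n, m = n + 3 := ⟨m - 3, by omega⟩
  have h1 : (X : PowerSeries K) ^ k ∣ xi K (2 * (n + 3)) w (n + 2) - xi K (2 * (n + 3)) w' (n + 2) :=
    (pow_dvd_pow _ (Nat.le_succ k)).trans (xi_lip2 hm w w' k h (n + 2) (by omega))
  have h2 : (X : PowerSeries K) ^ k ∣ xi K (2 * (n + 3)) w (n + 1) - xi K (2 * (n + 3)) w' (n + 1) :=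
    (pow_dvd_pow _ (Nat.le_succ k)).trans (xi_lip2 hm w w' k h (n + 1) (by omega))
  rw [KA_step, KA_step]
  refine KA_mul (KA_add (KA_sq h1) (KA_mul (KA_mul h (KA_refl _ _)) (KA_add (KA_add (KA_refl _ _)
    (KA_mul (KA_refl _ _) h1)) (KA_refl _ _)))) (inv_lip (KA_den (by omega) (xi_cc2 hm w _ (by omega)))
    (KA_den (by omega) (xi_cc2 hm w' _ (by omega)))
    (KA_mul (KA_sq (KA_sub (KA_refl _ _) (KA_mul (KA_refl _ _) h1))) h2))

end HY
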