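import Pool.Agent.Lib.MP_10e784_agH.KA
import Pool.Agent.Lib.MP_10e784_agX.C2

/-!
# LEAF KB: the power series `w`

PROOF.  `fixed` (`MP_10e784_agX/C2.lean`) with `c = 1` and `T w = (ξ_(m-1)² (1 - X^(m-1) ξ_m)² - X² ξ_m²) (1 + 4 X + 4 X^m ξ_m)⁻¹`, `ξ_n = xi K (2 m) w n`.  The constant coefficient of `T w` is `1` (`xi_cc2`).  If `X^k ∣ w - w'` then `X^(k+1)` divides the differences of the `ξ_(m-1)` (`xi_lip2`), of the `X^(m-1) ξ_m`, `X² ξ_m²`, `X^m ξ_m` (`xi_lip2m` and a factor `X`), so it divides `T w - T w'` (`inv_lip`).  A fixed point satisfies the equation (`PowerSeries.mul_inv_cancel`).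
-/

set_option autoImplicit false

namespace HY

open PowerSeries BIE

variable {K : Type} [Field K]

theorem exists_w2 {m : ℕ} (hm : 4 ≤ m) : ∃ w : PowerSeries K, constantCoeff w = 1 ∧
    w * (1 + 4 * X + 4 * X ^ m * xi K (2 * m) w m) =
      xi K (2 * m) w (m - 1) ^ 2 * (1 - X ^ (m - 1) * xi K (2 * m) w m) ^ 2 - X ^ 2 * xi K (2 * m) w m ^ 2 := by
  obtain ⟨e, rfl⟩ : ∃ e, m = e + 4 := ⟨m - 4, by omega⟩
  have hm1 : e + 4 - 1 = e + 3 := rfl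
  rw [hm1]
  have hD : ∀ w : PowerSeries K,
      constantCoeff (1 + 4 * X + 4 * X ^ (e + 4) * xi K (2 * (e + 4)) w (e + 4) : PowerSeries K) = 1 := by
    intro w
    simp only [map_add, map_mul, map_pow, map_one, constantCoeff_X, mul_zero,
      zero_pow (Nat.succ_ne_zero (e + 3)), zero_mul, add_zero]
  have hN : ∀ w : PowerSeries K,
      constantCoeff (xi K (2 * (e + 4)) w (e + 3) ^ 2 *
        (1 - X ^ (e + 3) * xi K (2 * (e + 4)) w (e + 4)) ^ 2 -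
        X ^ 2 * xi K (2 * (e + 4)) w (e + 4) ^ 2 : PowerSeries K) = 1 := by
    intro w
    have h1 := xi_cc2 hm w (e + 3) (by omega)
    simp only [map_sub, map_mul, map_pow, map_one, constantCoeff_X, h1,
      zero_pow (Nat.succ_ne_zero (e + 2)), zero_pow (Nat.succ_ne_zero 1), zero_mul, sub_zero, one_pow, mul_one]
  obtain ⟨w, hw, hT⟩ := fixed (K := K) 1
    (fun w => (xi K (2 * (e + 4)) w (e + 3) ^ 2 *
        (1 - X ^ (e + 3) * xi K (2 * (e + 4)) w (e + 4)) ^ 2 -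
        X ^ 2 * xi K (2 * (e + 4)) w (e + 4) ^ 2) *
        (1 + 4 * X + 4 * X ^ (e + 4) * xi K (2 * (e + 4)) w (e + 4))⁻¹)
    (fun w _ => by
      show constantCoeff ((xi K (2 * (e + 4)) w (e + 3) ^ 2 *
        (1 - X ^ (e + 3) * xi K (2 * (e + 4)) w (e + 4)) ^ 2 -
        X ^ 2 * xi K (2 * (e + 4)) w (e + 4) ^ 2) *
        (1 + 4 * X + 4 * X ^ (e + 4) * xi K (2 * (e + 4)) w (e + 4))⁻¹) = 1
      rw [map_mul, hN, constantCoeff_inv, hD, inv_one, one_mul])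
    (fun k w w' _ _ h => by
      show (X : PowerSeries K) ^ (k + 1) ∣ (xi K (2 * (e + 4)) w (e + 3) ^ 2 *
        (1 - X ^ (e + 3) * xi K (2 * (e + 4)) w (e + 4)) ^ 2 -
        X ^ 2 * xi K (2 * (e + 4)) w (e + 4) ^ 2) *
        (1 + 4 * X + 4 * X ^ (e + 4) * xi K (2 * (e + 4)) w (e + 4))⁻¹ -
        (xi K (2 * (e + 4)) w' (e + 3) ^ 2 *
        (1 - X ^ (e + 3) * xi K (2 * (e + 4)) w' (e + 4)) ^ 2 -
        X ^ 2 * xi K (2 * (e + 4)) w' (e + 4) ^ 2) *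
        (1 + 4 * X + 4 * X ^ (e + 4) * xi K (2 * (e + 4)) w' (e + 4))⁻¹
      obtain ⟨u, hu⟩ := xi_lip2 hm w w' k h (e + 3) (by omega)
      obtain ⟨v, hv⟩ := xi_lip2m hm w w' k h
      have hD1 := hD w
      have hD2 := hD w'
      generalize xi K (2 * (e + 4)) w (e + 3) = a at *
      generalize xi K (2 * (e + 4)) w' (e + 3) = a' at *
      generalize xi K (2 * (e + 4)) w (e + 4) = b at *
      generalize xi K (2 * (e + 4)) w' (e + 4) = b' at *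
      have h1 : (X : PowerSeries K) ^ (k + 1) ∣ (a ^ 2 * (1 - X ^ (e + 3) * b) ^ 2 - X ^ 2 * b ^ 2) -
          (a' ^ 2 * (1 - X ^ (e + 3) * b') ^ 2 - X ^ 2 * b' ^ 2) := by
        refine ⟨(u * (1 - X ^ (e + 3) * b) - a' * X ^ (e + 2) * v) *
          (a * (1 - X ^ (e + 3) * b) + a' * (1 - X ^ (e + 3) * b')) - X * v * (b + b'), ?_⟩
        linear_combination ((1 - X ^ (e + 3) * b) *
          (a * (1 - X ^ (e + 3) * b) + a' * (1 - X ^ (e + 3) * b'))) * hu +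
          (-(a' * X ^ (e + 3) * (a * (1 - X ^ (e + 3) * b) + a' * (1 - X ^ (e + 3) * b'))) -
            X ^ 2 * (b + b')) * hv
      have h2 : (X : PowerSeries K) ^ (k + 1) ∣ (1 + 4 * X + 4 * X ^ (e + 4) * b) -
          (1 + 4 * X + 4 * X ^ (e + 4) * b') := by
        refine ⟨4 * X ^ (e + 3) * v, ?_⟩
        linear_combination (4 * X ^ (e + 4)) * hv
      have h3 := inv_lip hD1 hD2 h2
      have e1 : (a ^ 2 * (1 - X ^ (e + 3) * b) ^ 2 - X ^ 2 * b ^ 2) * (1 + 4 * X + 4 * X ^ (e + 4) * b)⁻¹ -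
          (a' ^ 2 * (1 - X ^ (e + 3) * b') ^ 2 - X ^ 2 * b' ^ 2) * (1 + 4 * X + 4 * X ^ (e + 4) * b')⁻¹ =
          ((a ^ 2 * (1 - X ^ (e + 3) * b) ^ 2 - X ^ 2 * b ^ 2) -
            (a' ^ 2 * (1 - X ^ (e + 3) * b') ^ 2 - X ^ 2 * b' ^ 2)) * (1 + 4 * X + 4 * X ^ (e + 4) * b)⁻¹ +
          (a' ^ 2 * (1 - X ^ (e + 3) * b') ^ 2 - X ^ 2 * b' ^ 2) *
            ((1 + 4 * X + 4 * X ^ (e + 4) * b)⁻¹ - (1 + 4 * X + 4 * X ^ (e + 4) * b')⁻¹) := by ring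
      rw [e1]
      exact dvd_add (Dvd.dvd.mul_right h1 _) (Dvd.dvd.mul_left h3 _))
  refine ⟨w, hw, ?_⟩
  have h3 : (xi K (2 * (e + 4)) w (e + 3) ^ 2 *
        (1 - X ^ (e + 3) * xi K (2 * (e + 4)) w (e + 4)) ^ 2 -
        X ^ 2 * xi K (2 * (e + 4)) w (e + 4) ^ 2) *
        (1 + 4 * X + 4 * X ^ (e + 4) * xi K (2 * (e + 4)) w (e + 4))⁻¹ = w := hT
  have h4 : (1 + 4 * X + 4 * X ^ (e + 4) * xi K (2 * (e + 4)) w (e + 4) : PowerSeries K) *
      (1 + 4 * X + 4 * X ^ (e + 4) * xi K (2 * (e + 4)) w (e + 4))⁻¹ = 1 :=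
    PowerSeries.mul_inv_cancel _ (by rw [hD]; exact one_ne_zero)
  generalize (1 + 4 * X + 4 * X ^ (e + 4) * xi K (2 * (e + 4)) w (e + 4) : PowerSeries K)⁻¹ = I at *
  generalize xi K (2 * (e + 4)) w (e + 3) = a at *
  generalize xi K (2 * (e + 4)) w (e + 4) = b at *
  linear_combination (-(1 + 4 * X + 4 * X ^ (e + 4) * b)) * h3 +
    (a ^ 2 * (1 - X ^ (e + 3) * b) ^ 2 - X ^ 2 * b ^ 2) * h4

end HY
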