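import Pool.Agent.Lib.MP_10e784_agH.KB
import Pool.Agent.Lib.MP_10e784_agH.KC
import Pool.Agent.Lib.MP_10e784_agX.C3
import Pool.Agent.Lib.MP_10e784_agX.PB2
import Pool.Agent.Lib.MP_10e784_agX.PB3

/-!
# LEAF KD: the branch for an even number

MODEL: `branch` in `MP_10e784_agX/C5.lean` (the first half: fields, nonsingularity, `exists_y` with `l = 2 m`).
PROOF.  `w` from `exists_w2`, `y` from `exists_y`, `L`, `φ`, `q = φ (w X^(2m))`, `s = φ X`, `P = (s, φ y)` as there.  `mults2`: `m P` has `x_m = φ (X^m ξ_m)`, `(m-1) P` has `x_(m-1) = φ (X^(m-1) ξ_(m-1))`.  `x_m ≠ s` (`X (X^(m-1) ξ_m - 1) ≠ 0`: constant coefficient), so `add_sub` (`PA2`) for `m P` and `P`: `(m+1) P`, `(m-1) P` affine with `x_(m+1) x_(m-1) (x_m - s)² = x_m² s² + 4 q (x_m + s) + q` (uniqueness of coordinates: `x₄ = x_(m-1)`).  By the equation of `exists_w2` multiplied by `X^(2m)` the right side is `x_(m-1)² (x_m - s)²`; `x_(m-1) ≠ 0`, `x_m ≠ s`: `x_(m+1) = x_(m-1)`.  `eq_or_neg`: `(m+1) P = (m-1) P`, i.e.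 `2 P = 0`, impossible by `mults2` (`n = 2`), or `(m+1) P = -(m-1) P`: `2 m P = 0`.  `lad_zero`, `lad_map`, injectivity, `Zl_sub2`: `sub2 (Zl K (2 m)) X y = 0`.
Last statement: for `1 ≤ n ≤ m`: `n P ≠ 0` (`mults2`: affine), so `(lad ..).1.2 ≠ 0` (`lad_zero`), `sub2 (Zl K n) X y ≠ 0` (`Zl_sub2`, `lad_map`).
-/

set_option autoImplicit false

namespace HY

open PowerSeries BIE

private theorem KD_const_ne {K : Type} [Field K] {f : PowerSeries K} (h : constantCoeff f ≠ 0) :
    f ≠ 0 := by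
  rintro rfl
  exact h (map_zero _)

theorem branch2 {K : Type} [Field K] (h6 : (6 : K) ≠ 0) (m : ℕ) (hm : 4 ≤ m) :
    ∃ w y : PowerSeries K, constantCoeff w = 1 ∧ (X : PowerSeries K) ^ 2 ∣ y ∧
      X ^ 3 - X * y - y ^ 2 = w * X ^ (2 * m) ∧ sub2 (Zl K (2 * m)) X y = 0 ∧
      ∀ n : ℕ, 1 ≤ n → n ≤ m → sub2 (Zl K n) X y ≠ 0 := by
  classical
  obtain ⟨w, hw, hwe⟩ := exists_w2 (K := K) hm
  obtain ⟨y, hy2, hy⟩ := exists_y (2 * m) (by omega) w
  have hq : (X : PowerSeries K) ^ 3 - X * y - y ^ 2 = w * X ^ (2 * m) := by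
    linear_combination -hy
  have hinj : Function.Injective (algebraMap (PowerSeries K) (FractionRing (PowerSeries K))) :=
    IsFractionRing.injective _ _
  have h6L : (6 : FractionRing (PowerSeries K)) ≠ 0 := by
    intro h
    apply h6
    have h1 : algebraMap (PowerSeries K) (FractionRing (PowerSeries K)) (PowerSeries.C (6 : K)) =
        algebraMap (PowerSeries K) (FractionRing (PowerSeries K)) 0 := by
      rw [map_zero, ← h, map_ofNat, map_ofNat]
    have h2 := hinj h1
    have h3 := congrArg constantCoeff h2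
    rwa [constantCoeff_C, map_zero] at h3
  have h2K : (2 : K) ≠ 0 := by
    intro h
    apply h6
    have : (6 : K) = 2 * 3 := by norm_num
    rw [this, h, zero_mul]
  have hX0 : algebraMap (PowerSeries K) (FractionRing (PowerSeries K)) X ≠ 0 := by
    rw [ne_eq, map_eq_zero_iff _ hinj]
    exact X_ne_zero
  have hw0 : w ≠ 0 := KD_const_ne (by rw [hw]; exact one_ne_zero)
  have hq0 : algebraMap (PowerSeries K) (FractionRing (PowerSeries K)) (w * X ^ (2 * m)) ≠ 0 := by
    rw [ne_eq, map_eq_zero_iff _ hinj]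
    exact mul_ne_zero hw0 (pow_ne_zero _ X_ne_zero)
  have hq1 : 432 * algebraMap (PowerSeries K) (FractionRing (PowerSeries K))
      (w * X ^ (2 * m)) ≠ 1 := by
    intro h
    have h1 : algebraMap (PowerSeries K) (FractionRing (PowerSeries K))
        (432 * (w * X ^ (2 * m))) =
        algebraMap (PowerSeries K) (FractionRing (PowerSeries K)) 1 := by
      rw [map_mul, map_ofNat, map_one]
      exact h
    have h3 := congrArg constantCoeff (hinj h1)
    rw [map_mul, map_mul, map_pow, constantCoeff_X, zero_pow (by omega), mul_zero, mul_zero,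
      map_one] at h3
    exact zero_ne_one h3
  have hns : (EQ (FractionRing (PowerSeries K))
      (algebraMap _ _ (w * X ^ (2 * m)))).toAffine.Nonsingular
      (algebraMap _ _ (X : PowerSeries K)) (algebraMap _ _ y) := by
    rw [EQ_nons h6L hq0 hq1]
    rw [← map_pow, ← map_pow, ← map_mul, ← map_add, ← map_sub, hy]
  -- the multiples are not zero
  have hmul : ∀ n : ℕ, 1 ≤ n → n ≤ m → n • (.some _ _ hns : PQ (algebraMap (PowerSeries K)
      (FractionRing (PowerSeries K)) (w * X ^ (2 * m)))) ≠ 0 := by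
    intro n h1 hn h0
    obtain ⟨y', h', e'⟩ := mults2 h2K hm w y hns n h1 hn
    rw [e'] at h0
    exact absurd h0 (by simp [WeierstrassCurve.Affine.Point.zero_def])
  obtain ⟨y₁, h₁, e₁⟩ := mults2 h2K hm w y hns m (by omega) le_rfl
  obtain ⟨y₂, h₂, e₂⟩ := mults2 h2K hm w y hns (m - 1) (by omega) (by omega)
  obtain ⟨k, rfl⟩ : ∃ k, m = k + 4 := ⟨m - 4, by omega⟩
  have hm1 : k + 4 - 1 = k + 3 := by omega
  rw [hm1] at hwe h₂
  have e₂' : (k + 3) • (.some _ _ hns : PQ (algebraMap (PowerSeries K)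
      (FractionRing (PowerSeries K)) (w * X ^ (2 * (k + 4))))) = .some _ _ h₂ := e₂
  have hcc : constantCoeff (xi K (2 * (k + 4)) w (k + 3)) = 1 :=
    xi_cc2 (by omega) w (k + 3) (by omega)
  have hne : (X : PowerSeries K) ^ (k + 4) * xi K (2 * (k + 4)) w (k + 4) - X ≠ 0 := by
    intro h0
    have h1 : (X : PowerSeries K) * (X ^ (k + 3) * xi K (2 * (k + 4)) w (k + 4) - 1) = 0 := by
      rw [← h0]
      ring
    rcases mul_eq_zero.1 h1 with h2 | h2
    · exact PowerSeries.X_ne_zero h2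
    · have h3 := congrArg (constantCoeff (R := K)) h2
      simp [pow_succ] at h3
  have hBne : (X : PowerSeries K) ^ (k + 3) * xi K (2 * (k + 4)) w (k + 3) ≠ 0 := by
    refine mul_ne_zero (pow_ne_zero _ PowerSeries.X_ne_zero) (KD_const_ne ?_)
    rw [hcc]
    exact one_ne_zero
  have hx : algebraMap (PowerSeries K) (FractionRing (PowerSeries K))
      (X ^ (k + 4) * xi K (2 * (k + 4)) w (k + 4)) ≠
      algebraMap (PowerSeries K) (FractionRing (PowerSeries K)) X := fun h0 =>
    hne (sub_eq_zero.2 (hinj h0))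
  obtain ⟨x₃, y₃, h₃, x₄, y₄, h₄, ea, es, eq⟩ := add_sub _ _ _ _ _ h₁ hns hx
  rw [← e₁] at ea es
  have e3 : (k + 5) • (.some _ _ hns : PQ (algebraMap (PowerSeries K)
      (FractionRing (PowerSeries K)) (w * X ^ (2 * (k + 4))))) = .some _ _ h₃ := by
    rw [← ea, ← succ_nsmul]
  have e4 : (.some _ _ h₄ : PQ (algebraMap (PowerSeries K)
      (FractionRing (PowerSeries K)) (w * X ^ (2 * (k + 4))))) = .some _ _ h₂ := by
    rw [← es, ← e₂', succ_nsmul _ (k + 3), add_sub_cancel_right]
  injection e4 with e4x e4y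
  have h5 : x₄ * (algebraMap (PowerSeries K) (FractionRing (PowerSeries K))
      (X ^ (k + 4) * xi K (2 * (k + 4)) w (k + 4)) -
      algebraMap (PowerSeries K) (FractionRing (PowerSeries K)) X) ^ 2 ≠ 0 := by
    refine mul_ne_zero ?_ (pow_ne_zero _ (sub_ne_zero.2 hx))
    rw [e4x]
    intro h0
    exact hBne (hinj (by rw [h0, map_zero]))
  have hz : (X ^ (k + 4) * xi K (2 * (k + 4)) w (k + 4)) ^ 2 * X ^ 2 +
      4 * (w * X ^ (2 * (k + 4))) * (X ^ (k + 4) * xi K (2 * (k + 4)) w (k + 4) + X) +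
      w * X ^ (2 * (k + 4)) = (X ^ (k + 3) * xi K (2 * (k + 4)) w (k + 3)) ^ 2 *
        (X ^ (k + 4) * xi K (2 * (k + 4)) w (k + 4) - X) ^ 2 := by
    linear_combination (X : PowerSeries K) ^ (2 * (k + 4)) * hwe
  have hφz := congrArg (algebraMap (PowerSeries K) (FractionRing (PowerSeries K))) hz
  have hx34 : x₃ = x₄ := by
    apply mul_right_cancel₀ h5
    rw [← mul_assoc, eq]
    rw [e4x]
    simp only [map_mul, map_add, map_sub, map_pow, map_ofNat] at hφz ⊢
    linear_combination hφz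
  have hsum : (2 * (k + 4)) • (.some _ _ hns : PQ (algebraMap (PowerSeries K)
      (FractionRing (PowerSeries K)) (w * X ^ (2 * (k + 4))))) = 0 := by
    subst hx34
    rcases eq_or_neg _ _ _ _ h₃ h₄ with h | h
    · exfalso
      rw [← e3, ← es, e₁] at h
      have h6 : (2 : ℕ) • (.some _ _ hns : PQ (algebraMap (PowerSeries K)
        (FractionRing (PowerSeries K)) (w * X ^ (2 * (k + 4))))) = 0 := by
        have h7 : (k + 5) • (.some _ _ hns : PQ (algebraMap (PowerSeries K)
          (FractionRing (PowerSeries K)) (w * X ^ (2 * (k + 4))))) =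
          (k + 4) • (.some _ _ hns) + .some _ _ hns := succ_nsmul _ _
        rw [h7, e₁] at h
        have h8 : (.some _ _ hns : PQ (algebraMap (PowerSeries K)
          (FractionRing (PowerSeries K)) (w * X ^ (2 * (k + 4))))) = -.some _ _ hns := by
          rw [sub_eq_add_neg] at h
          exact add_left_cancel h
        rw [two_nsmul]
        nth_rewrite 1 [h8]
        exact neg_add_cancel _
      exact hmul 2 (by omega) (by omega) h6
    · rw [← e3, ← es] at h
      have h7 : (2 * (k + 4)) • (.some _ _ hns : PQ (algebraMap (PowerSeries K)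
        (FractionRing (PowerSeries K)) (w * X ^ (2 * (k + 4))))) =
        (k + 5) • (.some _ _ hns) + (k + 3) • (.some _ _ hns) := by
        rw [← add_smul]
        congr 1
        omega
      have h8 : (k + 4) • (.some _ _ hns : PQ (algebraMap (PowerSeries K)
        (FractionRing (PowerSeries K)) (w * X ^ (2 * (k + 4))))) - .some _ _ hns =
        (k + 3) • (.some _ _ hns) := by
        rw [succ_nsmul _ (k + 3), add_sub_cancel_right]
      rw [h7, h, h8, neg_add_cancel]
  refine ⟨w, y, hw, hy2, hq, ?_, fun n h1 hn h0 => ?_⟩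
  · rw [Zl_sub2, hq]
    have hz := (lad_zero h6L hq0 hq1 hX0 hns (2 * (k + 4))).1 hsum
    rw [lad_map] at hz
    exact (map_eq_zero_iff _ hinj).1 hz
  · rw [Zl_sub2, hq] at h0
    apply hmul n h1 hn
    rw [lad_zero h6L hq0 hq1 hX0 hns n, lad_map]
    exact (map_eq_zero_iff _ hinj).2 h0

end HY
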