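import Pool.Agent.Lib.MP_10e784_agH.Defs
import Pool.Agent.Lib.MP_10e784_agX.DDefs

/-!
# Block K: definitions
-/

set_option autoImplicit false

namespace HY

open BIE

/-- the points `(x, y)` of the plane such that the point `P = (x, y)` of the curve `y² + x y = x³ - q` is killed by `4 l` but
neither by `2 l` nor by `4` -/
def T4 (p l : ℕ) [Fact p.Prime] : Set (ZMod p × ZMod p) :=
  {z | z.1 ^ 3 - z.1 * z.2 - z.2 ^ 2 ≠ 0 ∧ 432 * (z.1 ^ 3 - z.1 * z.2 - z.2 ^ 2) ≠ 1 ∧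
    ∃ h, (4 * l) • (.some z.1 z.2 h : PQ (z.1 ^ 3 - z.1 * z.2 - z.2 ^ 2)) = 0 ∧
      (2 * l) • (.some z.1 z.2 h : PQ (z.1 ^ 3 - z.1 * z.2 - z.2 ^ 2)) ≠ 0 ∧
      4 • (.some z.1 z.2 h : PQ (z.1 ^ 3 - z.1 * z.2 - z.2 ^ 2)) ≠ 0}

/-- the `q` such that `y² + x y = x³ - q` has a point of order `4` and `l` divides the number of its points -/
def S4 (p l : ℕ) [Fact p.Prime] : Set (ZMod p) :=
  {q | q ≠ 0 ∧ 432 * q ≠ 1 ∧ l ∣ Nat.card (PQ q) ∧ ∃ P : PQ q, 4 • P = 0 ∧ 2 • P ≠ 0}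

/-- the union over the primes `l` in `(U, 4 U]` -/
def SU4 (p U : ℕ) [Fact p.Prime] : Set (ZMod p) :=
  {q | q ≠ 0 ∧ 432 * q ≠ 1 ∧ (∃ l : ℕ, l.Prime ∧ U < l ∧ l ≤ 4 * U ∧ l ∣ Nat.card (PQ q)) ∧
    ∃ P : PQ q, 4 • P = 0 ∧ 2 • P ≠ 0}

end HY
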