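import Pool.Agent.Lib.MP_10e784_agX.D1b

/-!
# LEAF KE: the polynomial `Zl` is not zero

MODEL: `two_tors` in `MP_10e784_agX/D1.lean`, `Zl_ne` in `MP_10e784_agX/D1b.lean` (there with a point of order two, for odd numbers).  Here with a point of order three.
PROOF.  `q : ZMod p` with `q ≠ 0`, `432 q ≠ 1` (`p ≥ 5`), `E = AlgebraicClosure (ZMod p)`, `x` a root of `3 X⁴ + X³ - 12 q X - q` in `E` (degree `4`; `x ≠ 0` because `q ≠ 0`), `y` a root of `Y² + x Y - (x³ - q)`; `P = (x, y)` is nonsingular (`EQ_nons`).  `x (4 x³ + x² - 4 q) = x⁴ + 8 q x + q`.  If `4 x³ + x² - 4 q = 0` then `x⁴ + 8 q x + q = 0` too and, as in the proof of `rep_dbl` (`PB1.lean`), `q = 0` or `432 q = 1`, contradiction.  So `dbl_pt` (`PA3.lean`): `2 P = (x', y')` with `x' = x`; `eq_or_neg` (`PA.lean`): `2 P = P` (impossible, `P ≠ 0`) or `2 P = - P`: `3 P = 0`.  So `n P ≠ 0` if `3 ∤ n` (`n P = ± P`), `(lad x q n).1.2 ≠ 0` (`lad_zero`), and `Zl ≠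 0` as in `Zl_ne`.
-/

set_option autoImplicit false

namespace HY

open Polynomial BIE

private theorem KE_two_ne {p : ℕ} [Fact p.Prime] (hp : 5 ≤ p) : (2 : ZMod p) ≠ 0 := by
  intro h
  have h1 : ((2 : ℕ) : ZMod p) = 0 := by exact_mod_cast h
  rw [ZMod.natCast_eq_zero_iff] at h1
  have h2 := Nat.le_of_dvd (by norm_num) h1
  omega

private theorem KE_exists_q {p : ℕ} [Fact p.Prime] (hp : 5 ≤ p) : ∃ q : ZMod p, q ≠ 0 ∧ 432 * q ≠ 1 := by
  by_cases h : (432 : ZMod p) = 1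
  · refine ⟨2, KE_two_ne hp, ?_⟩
    rw [h]
    intro h2
    have h3 : (1 : ZMod p) = 0 := by linear_combination h2
    exact one_ne_zero h3
  · refine ⟨1, one_ne_zero, ?_⟩
    rwa [mul_one]

private theorem KE_three_tors {p : ℕ} [Fact p.Prime] (hp : 5 ≤ p) {q : ZMod p} (hq : q ≠ 0) (hq' : 432 * q ≠ 1)
    (n : ℕ) (hn : ¬ 3 ∣ n) :
    ∃ x y : AlgebraicClosure (ZMod p), x ≠ 0 ∧ y ^ 2 + x * y = x ^ 3 - algebraMap (ZMod p) _ q ∧
      (lad x (algebraMap (ZMod p) _ q) n).1.2 ≠ 0 := by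
  classical
  obtain ⟨q', hq1⟩ : ∃ q', q' = algebraMap (ZMod p) (AlgebraicClosure (ZMod p)) q := ⟨_, rfl⟩
  rw [← hq1]
  have h6 : (6 : AlgebraicClosure (ZMod p)) ≠ 0 := by
    have h1 := (_root_.map_ne_zero (algebraMap (ZMod p) (AlgebraicClosure (ZMod p)))).2 (six_ne hp)
    rwa [map_ofNat] at h1
  have h2 : (2 : AlgebraicClosure (ZMod p)) ≠ 0 := by
    intro h
    apply h6
    have : (6 : AlgebraicClosure (ZMod p)) = 2 * 3 := by norm_num
    rw [this, h, zero_mul]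
  have h3 : (3 : AlgebraicClosure (ZMod p)) ≠ 0 := by
    intro h
    apply h6
    have : (6 : AlgebraicClosure (ZMod p)) = 2 * 3 := by norm_num
    rw [this, h, mul_zero]
  have hq0 : q' ≠ 0 := by
    rw [hq1]
    exact (_root_.map_ne_zero _).2 hq
  have hq432 : 432 * q' ≠ 1 := by
    intro h
    apply hq'
    apply (algebraMap (ZMod p) (AlgebraicClosure (ZMod p))).injective
    rw [map_mul, map_one, map_ofNat, ← hq1, h]
  obtain ⟨P, hP⟩ : ∃ P : (AlgebraicClosure (ZMod p))[X],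
    P = C 3 * X ^ 4 + (C 1 * X ^ 3 + C 0 * X ^ 2 + C (-(12 * q')) * X + C (-q')) := ⟨_, rfl⟩
  have hdeg : P.degree ≠ 0 := by
    have hlt : (C 1 * X ^ 3 + C 0 * X ^ 2 + C (-(12 * q')) * X + C (-q') :
        (AlgebraicClosure (ZMod p))[X]).degree < (C 3 * X ^ 4 : (AlgebraicClosure (ZMod p))[X]).degree := by
      rw [degree_C_mul_X_pow 4 h3]
      exact lt_of_le_of_lt degree_cubic_le (by norm_num)
    rw [hP, degree_add_eq_left_of_degree_lt hlt, degree_C_mul_X_pow 4 h3]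
    norm_num
  obtain ⟨x, hx⟩ := IsAlgClosed.exists_root P hdeg
  rw [IsRoot.def, hP] at hx
  simp only [eval_add, eval_mul, eval_C, eval_pow, eval_X, zero_mul, add_zero, one_mul] at hx
  have hx0 : x ≠ 0 := by
    rintro rfl
    apply hq0
    linear_combination -hx
  obtain ⟨Q, hQ⟩ : ∃ Q : (AlgebraicClosure (ZMod p))[X],
    Q = C 1 * X ^ 2 + C x * X + C (-(x ^ 3 - q')) := ⟨_, rfl⟩
  have hdegQ : Q.degree ≠ 0 := by
    rw [hQ, degree_quadratic one_ne_zero]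
    norm_num
  obtain ⟨y, hy⟩ := IsAlgClosed.exists_root Q hdegQ
  rw [IsRoot.def, hQ] at hy
  simp only [eval_add, eval_mul, eval_C, eval_pow, eval_X, one_mul] at hy
  have he : y ^ 2 + x * y = x ^ 3 - q' := by linear_combination hy
  refine ⟨x, y, hx0, he, ?_⟩
  have hns := (EQ_nons h6 hq0 hq432 x y).2 he
  have hkey : x * (4 * x ^ 3 + x ^ 2 - 4 * q') = x ^ 4 + 8 * q' * x + q' := by linear_combination hx
  have hd : 4 * x ^ 3 + x ^ 2 - 4 * q' ≠ 0 := by
    intro hd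
    have hN : x ^ 4 + 8 * q' * x + q' = 0 := by
      rw [← hkey, hd, mul_zero]
    have h4 : x ^ 2 * (6 * x + 1) ^ 2 = 0 := by
      linear_combination 4 * hN + (8 * x + 1) * hd
    rcases mul_eq_zero.1 h4 with h5 | h5
    · exact hx0 (by simpa using h5)
    · have hx6 : 6 * x + 1 = 0 := by simpa using h5
      apply hq432
      linear_combination (-108) * hd + (72 * x ^ 2 + 6 * x - 1) * hx6
  obtain ⟨x', y', h', h2P, hx'⟩ := dbl_pt q' x y hns hd
  have hxx : x' = x := mul_right_cancel₀ hd (by rw [hx', hkey])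
  subst hxx
  have hP0 : (.some x' y hns : PQ q') ≠ 0 := WeierstrassCurve.Affine.Point.some_ne_zero _
  have h3P : (3 : ℕ) • (.some x' y hns : PQ q') = 0 := by
    rcases eq_or_neg q' x' y' y h' hns with h7 | h7
    · exfalso
      rw [h7, two_nsmul] at h2P
      exact hP0 (add_eq_left.1 h2P)
    · rw [h7] at h2P
      rw [show (3 : ℕ) = 2 + 1 from rfl, add_nsmul, one_nsmul, h2P, neg_add_cancel]
  intro h
  have h5 := (lad_zero h6 hq0 hq432 hx0 hns n).2 h
  have hmod : n = 3 * (n / 3) + n % 3 := (Nat.div_add_mod n 3).symm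
  rw [hmod, add_nsmul, mul_comm, mul_nsmul', h3P, nsmul_zero, zero_add] at h5
  have hr : n % 3 = 1 ∨ n % 3 = 2 := by omega
  rcases hr with hr | hr
  · rw [hr, one_nsmul] at h5
    exact hP0 h5
  · rw [hr] at h5
    rw [show (3 : ℕ) = 2 + 1 from rfl, add_nsmul, h5, one_nsmul, zero_add] at h3P
    exact hP0 h3P

theorem Zl_ne3 {p : ℕ} [Fact p.Prime] (hp : 5 ≤ p) (n : ℕ) (hn : ¬ 3 ∣ n) : Zl (ZMod p) n ≠ 0 := by
  obtain ⟨q, hq, hq'⟩ := KE_exists_q (p := p) hp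
  obtain ⟨x, y, _, hxy, hne⟩ := KE_three_tors hp hq hq' n hn
  obtain ⟨φ, hφ⟩ : ∃ φ : (ZMod p)[X][X] →+* AlgebraicClosure (ZMod p),
      φ = eval₂RingHom (eval₂RingHom (algebraMap (ZMod p) (AlgebraicClosure (ZMod p))) x) y :=
    ⟨_, rfl⟩
  have h1 : φ (C X) = x := by
    rw [hφ, coe_eval₂RingHom, eval₂_C, coe_eval₂RingHom, eval₂_X]
  have h2 : φ X = y := by
    rw [hφ, coe_eval₂RingHom, eval₂_X]
  have h3 : φ (qq (ZMod p)) = algebraMap (ZMod p) (AlgebraicClosure (ZMod p)) q := by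
    unfold qq
    rw [map_sub, map_sub, map_mul, map_pow φ X 2, C_pow, map_pow, h1, h2]
    linear_combination -hxy
  intro h0
  apply hne
  have h4 := lad_map φ (C X) (qq (ZMod p)) n
  rw [h1, h3] at h4
  rw [h4]
  change φ (Zl (ZMod p) n) = 0
  rw [h0, map_zero]

end HY
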