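import Pool.Agent.Lib.MP_10e784_agH.KDefs
import Pool.Agent.Lib.MP_10e784_agH.KD
import Pool.Agent.Lib.MP_10e784_agH.KE

/-!
# LEAF KF: many points of order `4 l`

MODEL: `many` in `MP_10e784_agX/D2.lean`.
PROOF.  `n = 8 (4 l)² = 128 l²`, `F = Zl (ZMod p) (4 l)`: `Zl_ne3` (`3 ∤ 4 l`: `l` prime, `l ≥ 17`), `TD_Zl`, `branch2` with `m = 2 l` (`4 l = 2 m`).  Remove from `Z` the points where `C X` (total degree `1`), `qq` (`3`), `432 qq - 1` (`3`), `Zl (2 l)` (`8 (2 l)² = 32 l²`), `Zl 4` (`128`) vanish (`sub2 ≠ 0`: for the last two by `branch2`, `2 l ≤ m`, `4 ≤ m`): at most `5 n (n + n)² ≤ p / 6` points.  For the others: `lad_zero` for `4 l`, `2 l`, `4`.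
-/

set_option autoImplicit false

namespace HY

open Polynomial HNQ BIE

private theorem KF_card {α : Type} (Z : Finset α) (P : α → Prop) [DecidablePred P] :
    Nat.card {z : Z // P z.1} = (Z.filter P).card := by
  have e : {z : Z // P z.1} ≃ (Z.filter P : Finset α) :=
    { toFun := fun z => ⟨z.1.1, Finset.mem_filter.2 ⟨z.1.2, z.2⟩⟩
      invFun := fun w => ⟨⟨w.1, (Finset.mem_filter.1 w.2).1⟩, (Finset.mem_filter.1 w.2).2⟩
      left_inv := fun z => rfl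
      right_inv := fun w => rfl }
  rw [Nat.card_congr e, Nat.card_eq_fintype_card, Fintype.card_coe]

private theorem KF_TDq {K : Type} [Field K] : TD 3 (qq K) := by
  have h1 : TD 3 (C (X ^ 3) : K[X][X]) := TD_C _ (by rw [natDegree_X_pow])
  have h2 : TD 3 (C X * X : K[X][X]) := by
    have h3 := (TD_C (X : K[X]) (n := 1) (by rw [natDegree_X])).mul (TD_X_pow (K := K) 1)
    rw [pow_one] at h3
    exact h3.mono (by norm_num)
  have h4 : TD 3 ((X : K[X][X]) ^ 2) := (TD_X_pow (K := K) 2).mono (by norm_num)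
  exact (h1.sub h2).sub h4

private theorem KF_not_three {l : ℕ} (hl : l.Prime) (hl17 : 17 ≤ l) : ¬ 3 ∣ 4 * l := by
  intro h
  rcases (Nat.Prime.dvd_mul Nat.prime_three).1 h with h1 | h1
  · omega
  · have h2 := (Nat.prime_dvd_prime_iff_eq Nat.prime_three hl).1 h1
    omega

theorem many4 (hW : FactW) : ∃ K0 : ℕ, ∀ (p l : ℕ) [Fact p.Prime], l.Prime → 17 ≤ l → l ^ K0 ≤ p →
    (p : ℝ) / 3 ≤ Nat.card (T4 p l) := by
  classical
  obtain ⟨C0, c0, hW⟩ := hW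
  refine ⟨C0 + 4 * c0 + 13, fun p l _ hlp hl hp => ?_⟩
  -- sizes
  obtain ⟨n, hn⟩ : ∃ n : ℕ, n = 8 * (4 * l) ^ 2 := ⟨_, rfl⟩
  have hn128 : n = 128 * l ^ 2 := by rw [hn]; ring
  have hl2 : 289 ≤ l ^ 2 := by nlinarith
  have hlpos : 0 < l := by omega
  have hl1 : 1 < l := by omega
  have hnl : n ≤ l ^ 4 := by
    have h1 : l ^ 4 = l ^ 2 * l ^ 2 := by ring
    rw [hn128, h1]
    exact Nat.mul_le_mul_right _ (by omega)
  have hn4 : n ^ c0 ≤ l ^ (4 * c0) := by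
    rw [pow_mul]
    exact Nat.pow_le_pow_left hnl _
  have hC0 : C0 ≤ l ^ C0 := (Nat.lt_pow_self hl1).le
  have hp1 : C0 * n ^ c0 ≤ p := by
    calc C0 * n ^ c0 ≤ l ^ C0 * l ^ (4 * c0) := Nat.mul_le_mul hC0 hn4
      _ = l ^ (C0 + 4 * c0) := by rw [← pow_add]
      _ ≤ l ^ (C0 + 4 * c0 + 13) := Nat.pow_le_pow_right hlpos (by omega)
      _ ≤ p := hp
  have hp2 : 30 * (n * (n + n) ^ 2) ≤ p := by
    have h16 : 251658240 ≤ l ^ 7 := by
      calc 251658240 ≤ 17 ^ 7 := by norm_num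
        _ ≤ l ^ 7 := Nat.pow_le_pow_left hl 7
    calc 30 * (n * (n + n) ^ 2) = 251658240 * l ^ 6 := by rw [hn128]; ring
      _ ≤ l ^ 7 * l ^ 6 := Nat.mul_le_mul_right _ h16
      _ = l ^ 13 := by ring
      _ ≤ l ^ (C0 + 4 * c0 + 13) := Nat.pow_le_pow_right hlpos (by omega)
      _ ≤ p := hp
  have hp5 : 5 ≤ p := by
    calc 5 ≤ l ^ 2 := by omega
      _ ≤ l ^ (C0 + 4 * c0 + 13) := Nat.pow_le_pow_right hlpos (by omega)
      _ ≤ p := hp
  have h6 : (6 : ZMod p) ≠ 0 := six_ne hp5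
  obtain ⟨w, y, hw, hy, hyw, hZ0, hZn⟩ := branch2 h6 (2 * l) (by omega)
  have hl4 : 2 * (2 * l) = 4 * l := by ring
  rw [hl4] at hyw hZ0
  have hw0 : w ≠ 0 := by
    rintro rfl
    rw [map_zero] at hw
    exact zero_ne_one hw
  obtain ⟨Z, hZc, hZF, hZG⟩ := hW p n (by omega) hp1 (Zl (ZMod p) (4 * l)) y
    (Zl_ne3 hp5 (4 * l) (KF_not_three hlp hl)) (by rw [hn]; exact TD_Zl (4 * l) (by omega)) hy hZ0
  obtain ⟨φ, hφ, hφx, hφy, hφc⟩ := sub2_hom (PowerSeries.X : PowerSeries (ZMod p)) y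
  have hφq : φ (qq (ZMod p)) = w * PowerSeries.X ^ (4 * l) := by
    have h1 : (C (X ^ 3) : (ZMod p)[X][X]) = (C X) ^ 3 := map_pow C X 3
    rw [qq, h1, map_sub, map_sub, map_pow, map_mul, map_pow, hφx, hφy, hyw]
  -- five curves
  have hG1 := hZG 1 (C X) (TD_C _ (by rw [natDegree_X])) (by
    rw [← hφ, hφx]
    exact PowerSeries.X_ne_zero)
  have hG2 := hZG 3 (qq (ZMod p)) KF_TDq (by
    rw [← hφ, hφq]
    exact mul_ne_zero hw0 (pow_ne_zero _ PowerSeries.X_ne_zero))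
  obtain ⟨G3, hG3d⟩ : ∃ G3 : (ZMod p)[X][X], G3 = C (C 432) * qq (ZMod p) - C (C 1) := ⟨_, rfl⟩
  have hTD3 : TD 3 G3 := by
    rw [hG3d]
    have h1 : TD 0 (C (C 432) : (ZMod p)[X][X]) := TD_C _ (by rw [natDegree_C])
    have h2 := h1.mul (KF_TDq (K := ZMod p))
    rw [zero_add] at h2
    exact h2.sub (TD_C _ (by rw [natDegree_C]; norm_num))
  have hG3 := hZG 3 G3 hTD3 (by
    rw [← hφ, hG3d, map_sub, map_mul, hφq, hφc, hφc]
    intro h
    have h1 := congrArg (PowerSeries.constantCoeff (R := ZMod p)) h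
    rw [map_sub, map_mul, map_mul, map_pow, PowerSeries.constantCoeff_X, zero_pow (by omega),
      mul_zero, mul_zero, PowerSeries.constantCoeff_C, map_zero, zero_sub, neg_eq_zero] at h1
    exact one_ne_zero h1)
  have hG4 := hZG (8 * (2 * l) ^ 2) (Zl (ZMod p) (2 * l)) (TD_Zl (2 * l) (by omega))
    (hZn (2 * l) (by omega) le_rfl)
  have hG5 := hZG (8 * 4 ^ 2) (Zl (ZMod p) 4) (TD_Zl 4 (by norm_num)) (hZn 4 (by norm_num) (by omega))
  rw [KF_card Z fun z => (C X : (ZMod p)[X][X]).evalEval z.1 z.2 = 0] at hG1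
  rw [KF_card Z fun z => (qq (ZMod p)).evalEval z.1 z.2 = 0] at hG2
  rw [KF_card Z fun z => G3.evalEval z.1 z.2 = 0] at hG3
  rw [KF_card Z fun z => (Zl (ZMod p) (2 * l)).evalEval z.1 z.2 = 0] at hG4
  rw [KF_card Z fun z => (Zl (ZMod p) 4).evalEval z.1 z.2 = 0] at hG5
  have hq : ∀ z : ZMod p × ZMod p, (qq (ZMod p)).evalEval z.1 z.2 =
      z.1 ^ 3 - z.1 * z.2 - z.2 ^ 2 := by
    intro z
    rw [qq, evalEval_sub, evalEval_sub, evalEval_C, evalEval_mul, evalEval_C, evalEval_pow,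
      evalEval_X, eval_pow, eval_X]
  -- the good points
  let good : ZMod p × ZMod p → Prop := fun z => z.1 ≠ 0 ∧ z.1 ^ 3 - z.1 * z.2 - z.2 ^ 2 ≠ 0 ∧
    432 * (z.1 ^ 3 - z.1 * z.2 - z.2 ^ 2) ≠ 1 ∧ (Zl (ZMod p) (2 * l)).evalEval z.1 z.2 ≠ 0 ∧
    (Zl (ZMod p) 4).evalEval z.1 z.2 ≠ 0
  have hsub : Z ⊆ Z.filter good ∪ ((Z.filter fun z => (C X : (ZMod p)[X][X]).evalEval z.1 z.2 = 0) ∪
      ((Z.filter fun z => (qq (ZMod p)).evalEval z.1 z.2 = 0) ∪
      ((Z.filter fun z => G3.evalEval z.1 z.2 = 0) ∪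
      ((Z.filter fun z => (Zl (ZMod p) (2 * l)).evalEval z.1 z.2 = 0) ∪
      (Z.filter fun z => (Zl (ZMod p) 4).evalEval z.1 z.2 = 0))))) := by
    intro z hz
    simp only [Finset.mem_union, Finset.mem_filter]
    by_cases h1 : z.1 = 0
    · right; left
      refine ⟨hz, ?_⟩
      rw [evalEval_C, eval_X, h1]
    by_cases h2 : z.1 ^ 3 - z.1 * z.2 - z.2 ^ 2 = 0
    · right; right; left
      exact ⟨hz, by rw [hq, h2]⟩
    by_cases h3 : 432 * (z.1 ^ 3 - z.1 * z.2 - z.2 ^ 2) = 1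
    · right; right; right; left
      refine ⟨hz, ?_⟩
      rw [hG3d, evalEval_sub, evalEval_mul, evalEval_C, evalEval_C, eval_C, eval_C, hq, h3, sub_self]
    by_cases h4 : (Zl (ZMod p) (2 * l)).evalEval z.1 z.2 = 0
    · right; right; right; right; left
      exact ⟨hz, h4⟩
    by_cases h5 : (Zl (ZMod p) 4).evalEval z.1 z.2 = 0
    · right; right; right; right; right
      exact ⟨hz, h5⟩
    · left
      exact ⟨hz, h1, h2, h3, h4, h5⟩
  have hcard := Finset.card_le_card hsub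
  have hun := hcard.trans ((Finset.card_union_le _ _).trans (add_le_add le_rfl
    ((Finset.card_union_le _ _).trans (add_le_add le_rfl ((Finset.card_union_le _ _).trans
      (add_le_add le_rfl ((Finset.card_union_le _ _).trans (add_le_add le_rfl
        (Finset.card_union_le _ _)))))))))
  have hgood : (Z.filter good).card ≤ Nat.card (T4 p l) := by
    have h1 : (↑(Z.filter good) : Set (ZMod p × ZMod p)) ⊆ T4 p l := by
      intro z hz
      rw [Finset.mem_coe, Finset.mem_filter] at hz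
      obtain ⟨hz, hx, hq0, hq1, hz4, hz5⟩ := hz
      have hns : (EQ (ZMod p) (z.1 ^ 3 - z.1 * z.2 - z.2 ^ 2)).toAffine.Nonsingular z.1 z.2 :=
        (EQ_nons h6 hq0 hq1 z.1 z.2).2 (by ring)
      refine ⟨hq0, hq1, hns, ?_, ?_, ?_⟩
      · rw [lad_zero h6 hq0 hq1 hx hns (4 * l), ← Zl_eval]
        exact hZF z hz
      · rw [Ne, lad_zero h6 hq0 hq1 hx hns (2 * l), ← Zl_eval]
        exact hz4
      · rw [Ne, lad_zero h6 hq0 hq1 hx hns 4, ← Zl_eval]
        exact hz5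
    have h2 := Set.ncard_le_ncard h1 (Set.toFinite _)
    rw [Set.ncard_coe_finset] at h2
    exact h2
  have hm : ∀ m : ℕ, m ≤ n → n * (n + m) ^ 2 ≤ n * (n + n) ^ 2 := fun m hm =>
    Nat.mul_le_mul_left _ (Nat.pow_le_pow_left (by omega) 2)
  have hm1 := hG1.trans (hm 1 (by omega))
  have hm2 := hG2.trans (hm 3 (by omega))
  have hm3 := hG3.trans (hm 3 (by omega))
  have hm4 := hG4.trans (hm (8 * (2 * l) ^ 2) (by
    have h1 : 8 * (2 * l) ^ 2 = 32 * l ^ 2 := by ring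
    omega))
  have hm5 := hG5.trans (hm (8 * 4 ^ 2) (by omega))
  have hfin : Z.card ≤ Nat.card (T4 p l) + 5 * (n * (n + n) ^ 2) := by omega
  have hfinR : (Z.card : ℝ) ≤ Nat.card (T4 p l) + 5 * ((n * (n + n) ^ 2 : ℕ) : ℝ) := by
    exact_mod_cast hfin
  have hp2R : 30 * ((n * (n + n) ^ 2 : ℕ) : ℝ) ≤ p := by exact_mod_cast hp2
  linarith

end HY
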