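import Pool.Agent.Lib.MP_10e784_agH.KDefs
import Pool.Agent.Lib.MP_10e784_agWP.QA

/-!
# LEAF KG: the number of points killed by `4 l`

PROOF.  `PQ q` is finite (`D3a_finite`).  `two_bd`: a point with `2 P = 0` is `0` or has `4 x³ + x² - 4 q = 0` (`dbl_pt`: otherwise `2 P` is affine), at most three `x` (`4 ≠ 0`), and `2 y + x = 0` (`(2 y + x)² = 4 x³ + x² - 4 q` on the curve), so `y` is determined.
`fourl_bd`: for finite abelian groups: the homomorphism `P ↦ 2 P` maps the `P` with `2 n P = 0` to those with `n P = 0`, and its fibres have at most as many elements as its kernel: `#[2 n] ≤ #[2] #[n]`.  Twice: `#[4 l] ≤ 4 · 4 · #[l]`, and `#[l] ≤ l` (`tc_one`).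
-/

set_option autoImplicit false

namespace HY

open BIE WPL

private theorem KG_mul {A : Type*} [AddCommGroup A] [Finite A] (n : ℕ) :
    Nat.card {P : A // (2 * n) • P = 0} ≤ Nat.card {P : A // 2 • P = 0} * Nat.card {P : A // n • P = 0} := by
  classical
  obtain ⟨s, hs⟩ : ∃ s : A → A, ∀ P, 2 • s (2 • P) = 2 • P := by
    refine ⟨fun Q => if h : ∃ R, 2 • R = Q then h.choose else 0, fun P => ?_⟩
    have h : ∃ R, 2 • R = 2 • P := ⟨P, rfl⟩
    have h1 := h.choose_spec
    show 2 • (if h : ∃ R, 2 • R = 2 • P then h.choose else 0) = 2 • P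
    rw [dif_pos h]
    exact h1
  rw [← Nat.card_prod]
  refine Nat.card_le_card_of_injective
    (fun P : {P : A // (2 * n) • P = 0} =>
      ((⟨P.1 - s (2 • P.1), by rw [nsmul_sub, hs, sub_self]⟩,
        ⟨2 • P.1, by rw [← mul_nsmul]; exact P.2⟩) :
        {P : A // 2 • P = 0} × {P : A // n • P = 0})) ?_
  intro P Q h
  have h1 : P.1 - s (2 • P.1) = Q.1 - s (2 • Q.1) := congrArg (fun z => z.1.1) h
  have h2 : 2 • P.1 = 2 • Q.1 := congrArg (fun z => z.2.1) h
  rw [h2] at h1
  exact Subtype.ext (sub_left_injective h1)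

theorem two_bd {p : ℕ} [Fact p.Prime] (hp : 5 ≤ p) {q : ZMod p} (hq : q ≠ 0) (hq' : 432 * q ≠ 1) :
    Nat.card {P : PQ q // 2 • P = 0} ≤ 4 := by
  classical
  have hp2 : (2 : ZMod p) ≠ 0 := by
    have h : ((2 : ℕ) : ZMod p) ≠ 0 := by
      rw [Ne, ZMod.natCast_eq_zero_iff]
      intro h
      exact absurd (Nat.le_of_dvd (by norm_num) h) (by omega)
    exact_mod_cast h
  have hp4 : (4 : ZMod p) ≠ 0 := by
    have h : (4 : ZMod p) = 2 * 2 := by norm_num
    rw [h]
    exact mul_ne_zero hp2 hp2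
  obtain ⟨f, hf⟩ : ∃ f : Polynomial (ZMod p), f = Polynomial.C 4 * Polynomial.X ^ 3 + Polynomial.C 1 * Polynomial.X ^ 2 +
    Polynomial.C 0 * Polynomial.X + Polynomial.C (-(4 * q)) := ⟨_, rfl⟩
  have hdeg : f.natDegree = 3 := by
    rw [hf]
    exact Polynomial.natDegree_cubic hp4
  have hf0 : f ≠ 0 := by
    intro h
    rw [h, Polynomial.natDegree_zero] at hdeg
    exact absurd hdeg (by norm_num)
  have hcard : f.roots.toFinset.card ≤ 3 := by
    refine (Multiset.toFinset_card_le _).trans ?_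
    rw [← hdeg]
    exact Polynomial.card_roots' f
  -- the points of order two
  have key : ∀ (x y : ZMod p) (h : (EQ (ZMod p) q).toAffine.Nonsingular x y),
      2 • (.some x y h : PQ q) = 0 → 4 * x ^ 3 + x ^ 2 - 4 * q = 0 ∧ 2 * y + x = 0 := by
    intro x y h h2
    have hd : 4 * x ^ 3 + x ^ 2 - 4 * q = 0 := by
      by_contra hd
      obtain ⟨x', y', h', he, -⟩ := dbl_pt q x y h hd
      rw [h2] at he
      exact WeierstrassCurve.Affine.Point.some_ne_zero h' he.symm
    refine ⟨hd, ?_⟩
    have E := (EQ_eqn q x y).1 h.1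
    have hs : (2 * y + x) ^ 2 = 0 := by
      rw [← hd]
      linear_combination 4 * E
    exact pow_eq_zero_iff (two_ne_zero) |>.1 hs
  have hroot : ∀ x : ZMod p, 4 * x ^ 3 + x ^ 2 - 4 * q = 0 → x ∈ f.roots.toFinset := by
    intro x hx
    rw [Multiset.mem_toFinset, Polynomial.mem_roots hf0, Polynomial.IsRoot.def, hf]
    simp only [Polynomial.eval_add, Polynomial.eval_mul, Polynomial.eval_C, Polynomial.eval_pow, Polynomial.eval_X]
    linear_combination hx
  obtain ⟨g, hg0, hg1⟩ : ∃ g : PQ q → Option (ZMod p), g 0 = none ∧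
      ∀ x y h, g (.some x y h) = some x :=
    ⟨fun P => match P with
      | .zero => none
      | .some x _ _ => some x, rfl, fun _ _ _ => rfl⟩
  have hmem : ∀ P : {P : PQ q // 2 • P = 0}, g P.1 ∈ Finset.insertNone f.roots.toFinset := by
    rintro ⟨P, hP⟩
    rw [Finset.mem_insertNone]
    intro a ha
    rcases P with _ | ⟨x, y, h⟩
    · exfalso
      have h3 : g 0 = some a := ha
      rw [hg0] at h3
      exact absurd h3 (by simp)
    · have h3 : g (.some x y h) = some a := ha
      rw [hg1, Option.some.injEq] at h3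
      rw [← h3]
      exact hroot x (key x y h hP).1
  have hinj : Function.Injective (fun P : {P : PQ q // 2 • P = 0} =>
      (⟨g P.1, hmem P⟩ : {a // a ∈ Finset.insertNone f.roots.toFinset})) := by
    rintro ⟨P, hP⟩ ⟨Q, hQ⟩ hPQ
    have h4 : g P = g Q := congrArg Subtype.val hPQ
    apply Subtype.ext
    show P = Q
    rcases P with _ | ⟨x, y, h⟩
    · rcases Q with _ | ⟨x', y', h'⟩
      · rfl
      · have h5 : g 0 = g (.some x' y' h') := h4
        rw [hg0, hg1] at h5
        exact absurd h5 (by simp)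
    · rcases Q with _ | ⟨x', y', h'⟩
      · have h5 : g (.some x y h) = g 0 := h4
        rw [hg0, hg1] at h5
        exact absurd h5 (by simp)
      · rw [hg1, hg1, Option.some.injEq] at h4
        subst h4
        have h6 := (key x y h hP).2
        have h7 := (key x y' h' hQ).2
        have h8 : y = y' := by
          have h9 : 2 * (y - y') = 0 := by linear_combination h6 - h7
          rcases mul_eq_zero.1 h9 with h10 | h10
          · exact absurd h10 hp2
          · exact sub_eq_zero.1 h10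
        subst h8
        rfl
  refine (Nat.card_le_card_of_injective _ hinj).trans ?_
  rw [Nat.card_eq_fintype_card, Fintype.card_coe, Finset.card_insertNone]
  omega

theorem fourl_bd (p l : ℕ) [Fact p.Prime] (hp : 5 ≤ p) (hl : l.Prime) (h17 : 17 ≤ l) (hlp : ¬ l ∣ p - 1)
    {q : ZMod p} (hq : q ≠ 0) (hq' : 432 * q ≠ 1) : Nat.card {P : PQ q // (4 * l) • P = 0} ≤ 16 * l := by
  have := D3a_finite p q
  have h2 := two_bd hp hq hq'
  obtain ⟨k, hk, hc, -⟩ := WPL.tc_one p l hp hl h17 hlp hq hq'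
  have hl1 : Nat.card {P : PQ q // l • P = 0} ≤ l := by
    rw [hc]
    calc l ^ k ≤ l ^ 1 := Nat.pow_le_pow_right (by omega) hk
      _ = l := pow_one l
  have e1 := KG_mul (A := PQ q) l
  have e2 := KG_mul (A := PQ q) (2 * l)
  have e3 : 2 * (2 * l) = 4 * l := by ring
  rw [e3] at e2
  calc Nat.card {P : PQ q // (4 * l) • P = 0} ≤ _ := e2
    _ ≤ 4 * (4 * l) := Nat.mul_le_mul h2 (e1.trans (Nat.mul_le_mul h2 hl1))
    _ = 16 * l := by ring

end HY
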