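import Pool.Agent.Lib.MP_10e784_agH.KG

/-!
# LEAF KH: from points to curves

MODEL: `per_one` in `MP_10e784_agWP/QB.lean` (the same fibrewise count with `fourl_bd` in place of `tc_one`).
PROOF.  `T4 p l` is fibred over `q = x³ - x y - y²`; the fibre injects into the points killed by `4 l`, at most `16 l` (`fourl_bd`), and if it is not empty then `q ∈ S4 p l`: `P' = l P` has `4 P' = 0`, `2 P' ≠ 0`; `P'' = 4 P ≠ 0` has `l P'' = 0`, so `addOrderOf P'' = l` divides `Nat.card (PQ q)` (`D3a_finite`, `addOrderOf_dvd_natCard`).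
-/

set_option autoImplicit false

namespace HY

open BIE WPL

private theorem KH_tr {p l : ℕ} [Fact p.Prime] {q : ZMod p} {z : ZMod p × ZMod p}
    (hz : z.1 ^ 3 - z.1 * z.2 - z.2 ^ 2 = q)
    (h : ∃ h, (4 * l) • (.some z.1 z.2 h : PQ (z.1 ^ 3 - z.1 * z.2 - z.2 ^ 2)) = 0 ∧
      (2 * l) • (.some z.1 z.2 h : PQ (z.1 ^ 3 - z.1 * z.2 - z.2 ^ 2)) ≠ 0 ∧
      4 • (.some z.1 z.2 h : PQ (z.1 ^ 3 - z.1 * z.2 - z.2 ^ 2)) ≠ 0) :
    ∃ h, (4 * l) • (.some z.1 z.2 h : PQ q) = 0 ∧ (2 * l) • (.some z.1 z.2 h : PQ q) ≠ 0 ∧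
      4 • (.some z.1 z.2 h : PQ q) ≠ 0 := by
  subst hz
  exact h

open Classical in
private theorem KH_card {α : Type*} [Fintype α] (s : Set α) :
    Nat.card s = (Finset.univ.filter (· ∈ s)).card := by
  rw [Nat.card_eq_fintype_card]
  exact Fintype.card_subtype _

open Classical in
private theorem KH_fib (p l : ℕ) [Fact p.Prime] (hp : 5 ≤ p) (hl : l.Prime) (h17 : 17 ≤ l) (hlp : ¬ l ∣ p - 1)
    (q : ZMod p) (A : Finset (ZMod p × ZMod p))
    (hA : ∀ z ∈ A, z ∈ T4 p l ∧ z.1 ^ 3 - z.1 * z.2 - z.2 ^ 2 = q) :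
    A.card ≤ 16 * l * (if q ∈ S4 p l then 1 else 0) := by
  by_cases hA0 : A = ∅
  · rw [hA0, Finset.card_empty]
    exact Nat.zero_le _
  obtain ⟨z0, hz0⟩ := Finset.nonempty_iff_ne_empty.2 hA0
  obtain ⟨⟨h1, h2, h3⟩, h4⟩ := hA z0 hz0
  rw [h4] at h1 h2
  have hfin0 : Finite (PQ q) := D3a_finite p q
  have hle : A.card ≤ 16 * l := by
    refine le_trans ?_ (fourl_bd p l hp hl h17 hlp h1 h2)
    rw [← Fintype.card_coe A, ← Nat.card_eq_fintype_card]
    have hx : ∀ z : A, ∃ h, (4 * l) • (.some z.1.1 z.1.2 h : PQ q) = 0 := fun z => by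
      obtain ⟨h, hn, _, _⟩ := KH_tr (hA z.1 z.2).2 (hA z.1 z.2).1.2.2
      exact ⟨h, hn⟩
    choose hns hn using hx
    refine Nat.card_le_card_of_injective
      (fun z : A => (⟨.some z.1.1 z.1.2 (hns z), hn z⟩ : {P : PQ q // (4 * l) • P = 0})) ?_
    intro z w hzw
    simp only [Subtype.mk.injEq, WeierstrassCurve.Affine.Point.some.injEq] at hzw
    exact Subtype.ext (Prod.ext hzw.1 hzw.2)
  have hq : q ∈ S4 p l := by
    obtain ⟨h, ha, hb, hc⟩ := KH_tr h4 h3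
    refine ⟨h1, h2, ?_, l • (.some z0.1 z0.2 h : PQ q), ?_, ?_⟩
    · have h5 : l • (4 • (.some z0.1 z0.2 h : PQ q)) = 0 := by
        rw [smul_smul, mul_comm]
        exact ha
      have : Fact l.Prime := ⟨hl⟩
      have h6 : addOrderOf (4 • (.some z0.1 z0.2 h : PQ q)) = l := addOrderOf_eq_prime h5 hc
      have h7 := addOrderOf_dvd_natCard (4 • (.some z0.1 z0.2 h : PQ q))
      rwa [h6] at h7
    · rw [smul_smul]
      exact ha
    · rw [smul_smul]
      exact hb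
  rw [if_pos hq, mul_one]
  exact hle

theorem per4 (p l : ℕ) [Fact p.Prime] (hp : 5 ≤ p) (hl : l.Prime) (h17 : 17 ≤ l) (hlp : ¬ l ∣ p - 1) :
    Nat.card (T4 p l) ≤ 16 * l * Nat.card (S4 p l) := by
  classical
  rw [KH_card (T4 p l), KH_card (S4 p l)]
  rw [Finset.card_eq_sum_card_fiberwise (f := fun z : ZMod p × ZMod p => z.1 ^ 3 - z.1 * z.2 - z.2 ^ 2)
    (t := Finset.univ) (fun _ _ => Finset.mem_coe.2 (Finset.mem_univ _))]
  rw [Finset.card_filter (fun q => q ∈ S4 p l), Finset.mul_sum]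
  refine Finset.sum_le_sum fun q _ => KH_fib p l hp hl h17 hlp q _ ?_
  intro z hz
  rw [Finset.mem_filter, Finset.mem_filter] at hz
  exact ⟨hz.1.2, hz.2⟩

end HY
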