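import Pool.Agent.Lib.MP_10e784_agH.KDefs
import Pool.Agent.Lib.MP_10e784_agX.PA3

/-!
# LEAF KJ: a curve with a point of order four is `Y² = X (X² - b X + 1)`

PROOF.  `P = (x₄, y₄)` (not `0`), `2 P ≠ 0`: so `2 P = (x₀, y₀)` with `x₀ (4 x₄³ + x₄² - 4 q) = x₄⁴ + 8 q x₄ + q` and `4 x₄³ + x₄² - 4 q ≠ 0` (`dbl_zero`, `dbl_pt`), and `2 (2 P) = 0`: `4 x₀³ + x₀² = 4 q` (`dbl_pt`).  Then `x₄⁴ + 8 q x₄ + q - x₀ (4 x₄³ + x₄² - 4 q) = (x₄² - 2 x₀ x₄ - 2 x₀² - x₀ / 2)²` (with `4 q = 4 x₀³ + x₀²`), so `(x₄ - x₀)² = 3 x₀² + x₀ / 2`.  Put `n = 4 (x₄ - x₀)`: `n² = 4 (12 x₀² + 2 x₀)`; `n ≠ 0` (if `x₄ = x₀` then `4 x₄³ + x₄² - 4 q = 0`).  `p % 4 = 3`: `-1` is not a square, so `n` or `- n` is a square: `s² = ± n`, `s ≠ 0` (`ZMod.exists_sq_eq_neg_one_iff`, `FiniteField.isSquare_..` / `quadraticChar`).  `b = -(12 x₀ + 1) / s²`, `u = 6 / s`: `s⁴ = n² =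 48 x₀² + 8 x₀`, `s⁴ b² = (12 x₀ + 1)²`, so `s⁴ (81 - 27 b²) = 81 (48 x₀² + 8 x₀) - 27 (144 x₀² + 24 x₀ + 1) = -27 = - s⁴ u⁴ / 48` (`u⁴ s⁴ = 1296`), and `s⁶ (243 b - 54 b³) = -243 (12 x₀ + 1)(48 x₀² + 8 x₀) + 54 (12 x₀ + 1)³ = s⁶ u⁶ (1/864 - q) = 46656 (1/864 - x₀³ - x₀²/4) = 54 - 46656 x₀³ - 11664 x₀²`.
-/

set_option autoImplicit false

namespace HY

open BIE

private theorem KJ_cast {p : ℕ} [Fact p.Prime] (hp : 5 ≤ p) (k : ℕ) (hk : 0 < k) (hk5 : k < 5) : ((k : ℕ) : ZMod p) ≠ 0 := by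
  intro h
  have h1 := Nat.le_of_dvd hk ((ZMod.natCast_eq_zero_iff k p).1 h)
  omega

private theorem KJ_square {p : ℕ} [Fact p.Prime] (h4 : p % 4 = 3) {n : ZMod p} (hn : n ≠ 0) :
    ∃ s : ZMod p, s ≠ 0 ∧ (s ^ 2) ^ 2 = n ^ 2 := by
  classical
  have hm1 : ¬ IsSquare (-1 : ZMod p) := fun h => (ZMod.exists_sq_eq_neg_one_iff.1 h) h4
  by_cases h : IsSquare n
  · obtain ⟨s, hs⟩ := h
    refine ⟨s, ?_, ?_⟩
    · rintro rfl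
      exact hn (by rw [hs, mul_zero])
    · rw [hs]
      ring
  · have h2 : quadraticChar (ZMod p) n = -1 := quadraticChar_neg_one_iff_not_isSquare.2 h
    have h3 : quadraticChar (ZMod p) (-1) = -1 := quadraticChar_neg_one_iff_not_isSquare.2 hm1
    have h5 : quadraticChar (ZMod p) (-1 * n) = 1 := by rw [map_mul, h2, h3]; rfl
    have h6 : (-1 * n : ZMod p) ≠ 0 := mul_ne_zero (neg_ne_zero.2 one_ne_zero) hn
    obtain ⟨s, hs⟩ := (quadraticChar_one_iff_isSquare h6).1 h5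
    refine ⟨s, ?_, ?_⟩
    · rintro rfl
      exact h6 (by rw [hs, mul_zero])
    · have h7 : s ^ 2 = -n := by rw [pow_two, ← hs]; ring
      rw [h7]
      ring

theorem transfer {p : ℕ} [Fact p.Prime] (hp : 5 ≤ p) (h4 : p % 4 = 3) {q : ZMod p} (hq : q ≠ 0)
    (hq' : 432 * q ≠ 1) (P : PQ q) (hP : 4 • P = 0) (hP2 : 2 • P ≠ 0) :
    ∃ u b : ZMod p, u ≠ 0 ∧ 81 - 27 * b ^ 2 = -(u ^ 4) / 48 ∧ 243 * b - 54 * b ^ 3 = u ^ 6 * (1 / 864 - q) := by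
  have h2 : (2 : ZMod p) ≠ 0 := by
    have h := KJ_cast hp 2 (by norm_num) (by norm_num)
    exact_mod_cast h
  have h3 : (3 : ZMod p) ≠ 0 := by
    have h := KJ_cast hp 3 (by norm_num) (by norm_num)
    exact_mod_cast h
  have h6 : (6 : ZMod p) ≠ 0 := by
    have e : (6 : ZMod p) = 2 * 3 := by norm_num
    rw [e]
    exact mul_ne_zero h2 h3
  have h48 : (48 : ZMod p) ≠ 0 := by
    have e : (48 : ZMod p) = 2 ^ 4 * 3 := by norm_num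
    rw [e]
    exact mul_ne_zero (pow_ne_zero 4 h2) h3
  have h864 : (864 : ZMod p) ≠ 0 := by
    have e : (864 : ZMod p) = 2 ^ 5 * 3 ^ 3 := by norm_num
    rw [e]
    exact mul_ne_zero (pow_ne_zero 5 h2) (pow_ne_zero 3 h3)
  obtain ⟨x4, x0, hd4, hx0, hd0⟩ : ∃ x4 x0 : ZMod p, 4 * x4 ^ 3 + x4 ^ 2 - 4 * q ≠ 0 ∧
      x0 * (4 * x4 ^ 3 + x4 ^ 2 - 4 * q) = x4 ^ 4 + 8 * q * x4 + q ∧ 4 * x0 ^ 3 + x0 ^ 2 - 4 * q = 0 := by
    rcases P with _ | ⟨x4, y4, h⟩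
    · exact absurd (nsmul_zero 2) hP2
    · have hd4 : 4 * x4 ^ 3 + x4 ^ 2 - 4 * q ≠ 0 := fun h0 => hP2 (dbl_zero q x4 y4 h h0)
      obtain ⟨x0, y0, h0, e1, e2⟩ := dbl_pt q x4 y4 h hd4
      refine ⟨x4, x0, hd4, e2, ?_⟩
      by_contra hd0
      obtain ⟨x', y', h', e3, -⟩ := dbl_pt q x0 y0 h0 hd0
      have e4 : (4 : ℕ) • (.some x4 y4 h : PQ q) = 2 • (2 • (.some x4 y4 h : PQ q)) := by
        rw [← mul_nsmul]
      rw [e4, e1, e3] at hP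
      exact WeierstrassCurve.Affine.Point.some_ne_zero _ hP
  have hsq : (x4 - x0) ^ 2 * 2 = 6 * x0 ^ 2 + x0 := by
    have h1 : (2 * (x4 ^ 2 - 2 * x0 * x4 - 2 * x0 ^ 2) - x0) ^ 2 = 0 := by
      linear_combination -4 * hx0 + (8 * x4 + 4 * x0 + 1) * hd0
    have h5 := (pow_eq_zero_iff (two_ne_zero)).1 h1
    linear_combination h5
  have hn : 4 * (x4 - x0) ≠ 0 := by
    intro h
    have e : (4 : ZMod p) = 2 * 2 := by norm_num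
    rw [e] at h
    have h5 : x4 = x0 := sub_eq_zero.1 ((mul_eq_zero.1 h).resolve_left (mul_ne_zero h2 h2))
    rw [h5] at hd4
    exact hd4 hd0
  obtain ⟨s, hs0, hs⟩ := KJ_square h4 hn
  have hs4 : s ^ 4 = 48 * x0 ^ 2 + 8 * x0 := by
    linear_combination hs + 8 * hsq
  obtain ⟨b, hb⟩ : ∃ b : ZMod p, b * s ^ 2 = -(12 * x0 + 1) :=
    ⟨-(12 * x0 + 1) / s ^ 2, div_mul_cancel₀ _ (pow_ne_zero 2 hs0)⟩
  obtain ⟨u, hu⟩ : ∃ u : ZMod p, u * s = 6 := ⟨6 / s, div_mul_cancel₀ _ hs0⟩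
  have hu0 : u ≠ 0 := by
    rintro rfl
    rw [zero_mul] at hu
    exact h6 hu.symm
  have hu4 : u ^ 4 * s ^ 4 = 1296 := by
    rw [← mul_pow, hu]
    norm_num
  have hu6 : u ^ 6 * s ^ 6 = 46656 := by
    rw [← mul_pow, hu]
    norm_num
  have hb2 : b ^ 2 * s ^ 4 = (12 * x0 + 1) ^ 2 := by
    have e : b ^ 2 * s ^ 4 = (b * s ^ 2) ^ 2 := by ring
    rw [e, hb]
    ring
  have hb3 : b ^ 3 * s ^ 6 = -(12 * x0 + 1) ^ 3 := by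
    have e : b ^ 3 * s ^ 6 = (b * s ^ 2) ^ 3 := by ring
    rw [e, hb]
    ring
  have hb1 : b * s ^ 6 = -(12 * x0 + 1) * (48 * x0 ^ 2 + 8 * x0) := by
    have e : b * s ^ 6 = (b * s ^ 2) * s ^ 4 := by ring
    rw [e, hb, hs4]
  refine ⟨u, b, hu0, ?_, ?_⟩
  · rw [eq_div_iff h48]
    apply mul_right_cancel₀ (pow_ne_zero 4 hs0)
    linear_combination 48 * 81 * hs4 - 27 * 48 * hb2 + hu4
  · have e : u ^ 6 * (1 / 864 - q) * 864 = u ^ 6 * (1 - 864 * q) := by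
      field_simp
    apply mul_right_cancel₀ h864
    rw [e]
    apply mul_right_cancel₀ (pow_ne_zero 6 hs0)
    linear_combination 243 * 864 * hb1 - 54 * 864 * hb3 - (1 - 864 * q) * hu6 - 216 * 46656 * hd0

end HY
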