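import Pool.Agent.Lib.MP_10e784_agH.KJ
import Pool.Agent.Lib.MP_10e784_agX.D5a

/-!
# LEAF KK: from `q` to `b`

PROOF.  For `q ∈ SU4 p U` choose `u`, `b` by `transfer`: `card_ab` (`D5a`): `nz (81 - 27 b²) (243 b - 54 b³) + 1 = Nat.card (PQ q)`, divisible by the prime `l`; `disc_ab`: `4 A³ + 27 B² ≠ 0`: so `b ∈ GB p U`.  The map `q ↦ b` has fibres with at most `4` elements: `b` determines `u⁴ = -48 (81 - 27 b²)`, so at most four `u` (`≠ 0`), and `u`, `b` determine `q` (`Finset.card_le_mul_card_image`).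
-/

set_option autoImplicit false

namespace HY

open BIE

theorem fibre4 (p U : ℕ) [Fact p.Prime] (hp : 5 ≤ p) (h4 : p % 4 = 3) :
    Nat.card (SU4 p U) ≤ 4 * Nat.card (GB p U) := by
  classical
  have h0 : 48 ≠ (0 : ZMod p) := by
    have key : ∀ n : ℕ, 0 < n → n < 5 → ((n : ℕ) : ZMod p) ≠ 0 := by
      intro n h0 h5 h
      rw [ZMod.natCast_eq_zero_iff] at h
      have := Nat.le_of_dvd h0 h
      omega
    have h2 : (2 : ZMod p) ≠ 0 := by exact_mod_cast key 2 (by norm_num) (by norm_num)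
    have h3 : (3 : ZMod p) ≠ 0 := by exact_mod_cast key 3 (by norm_num) (by norm_num)
    have h : (48 : ZMod p) = 2 ^ 4 * 3 := by norm_num
    rw [h]
    exact mul_ne_zero (pow_ne_zero _ h2) h3
  have key : ∀ q ∈ SU4 p U, ∃ u b : ZMod p, u ≠ 0 ∧ 81 - 27 * b ^ 2 = -(u ^ 4) / 48 ∧
      243 * b - 54 * b ^ 3 = u ^ 6 * (1 / 864 - q) := by
    rintro q ⟨hq, hq', -, P, hP, hP2⟩
    exact transfer hp h4 hq hq' P hP hP2
  choose! u b hu h1 h2 using key
  have hS : Nat.card (SU4 p U) = (Finset.univ.filter fun q => q ∈ SU4 p U).card := by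
    rw [← Fintype.card_subtype, Nat.card_eq_fintype_card]
  have hG : Nat.card (GB p U) = (Finset.univ.filter fun q => q ∈ GB p U).card := by
    rw [← Fintype.card_subtype, Nat.card_eq_fintype_card]
  rw [hS, hG]
  refine Finset.card_le_mul_card_image_of_maps_to (f := b) (fun q hq => ?_) 4 fun c _ => ?_
  · rw [Finset.mem_filter] at hq ⊢
    refine ⟨Finset.mem_univ _, ?_⟩
    obtain ⟨hq0, hq1, ⟨l, hl, hl1, hl2, hl3⟩, -⟩ := hq.2
    show MWS.Gk p U 1 (81 - 27 * b q ^ 2, 243 * b q - 54 * b q ^ 3)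
    rw [h1 q hq.2, h2 q hq.2]
    refine ⟨disc_ab hp hq0 hq1 (hu q hq.2), l, hl, hl1, hl2, ?_⟩
    rw [pow_one]
    show l ∣ MWS.nz (-(u q ^ 4) / 48) (u q ^ 6 * (1 / 864 - q)) + 1
    rw [card_ab hp hq0 hq1 (hu q hq.2)]
    exact hl3
  · refine le_trans (Finset.card_le_card_of_injOn u (t := (Polynomial.nthRoots 4 (-(48 * (81 - 27 * c ^ 2)))).toFinset)
      ?_ ?_) ((Multiset.toFinset_card_le _).trans (Polynomial.card_nthRoots 4 _))
    · intro q hq
      rw [Finset.mem_coe, Finset.mem_filter, Finset.mem_filter] at hq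
      rw [Finset.mem_coe, Multiset.mem_toFinset, Polynomial.mem_nthRoots (by norm_num), ← hq.2, h1 q hq.1.2]
      field_simp
    · intro q hq q' hq' he
      rw [Finset.mem_coe, Finset.mem_filter, Finset.mem_filter] at hq hq'
      have e1 := h2 q hq.1.2
      have e2 := h2 q' hq'.1.2
      have he' : u q = u q' := he
      rw [hq.2] at e1
      rw [hq'.2, ← he'] at e2
      have e3 := mul_left_cancel₀ (pow_ne_zero 6 (hu q hq.1.2)) (e1.symm.trans e2)
      exact sub_right_injective e3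

end HY
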