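import Pool.Agent.Lib.MP_10e784_agH.KF
import Pool.Agent.Lib.MP_10e784_agH.KH
import Pool.Agent.Lib.MP_10e784_agH.KI
import Pool.Agent.Lib.MP_10e784_agH.KK
import Pool.Agent.Lib.MP_10e784_agX.FW

/-!
# LEAF KL: block K

MODEL: `factQ` in `MP_10e784_agWP/QD.lean`.
-/

set_option autoImplicit false

namespace HY

open BIE

theorem factK : FactK := by
  obtain ⟨K0, hK0⟩ := many4 factW
  obtain ⟨c, hc, U1, hU1⟩ := union4
  refine ⟨c / 4, by positivity, max (2 * K0 + 5) (max U1 17), fun U hU p hp hp4 hUp hUl => ?_⟩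
  have hfact : Fact p.Prime := ⟨hp⟩
  have hU17 : 17 ≤ U := le_trans (le_trans (le_max_right _ _) (le_max_right _ _)) hU
  have hUU1 : U1 ≤ U := le_trans (le_trans (le_max_left _ _) (le_max_right _ _)) hU
  have hK : 2 * K0 + 5 ≤ max (2 * K0 + 5) (max U1 17) := le_max_left _ _
  have hUp' : U ^ (2 * K0 + 5) ≤ p := (Nat.pow_le_pow_right (by omega) hK).trans hUp
  have hp5 : 5 ≤ p := by
    have h1 : U ^ 1 ≤ U ^ (2 * K0 + 5) := Nat.pow_le_pow_right (by omega) (by omega)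
    rw [pow_one] at h1
    omega
  have hp5' : (5 : ℝ) ≤ p := by exact_mod_cast hp5
  have hlog : 0 < Real.log p := Real.log_pos (by linarith)
  have h2l : 2 * Real.log p ≤ U := by
    have h1 : (2 : ℝ) ≤ ((max (2 * K0 + 5) (max U1 17) : ℕ) : ℝ) := by
      have : 2 ≤ max (2 * K0 + 5) (max U1 17) := by omega
      exact_mod_cast this
    nlinarith
  have hl : ∀ l : ℕ, l.Prime → U < l → l ≤ 4 * U → ¬ l ∣ p - 1 →
      (p : ℝ) / 3 ≤ 16 * (l : ℝ) * Nat.card (S4 p l) := by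
    intro l hlp h1 h2 h3
    have h4 : l ^ K0 ≤ p := by
      calc l ^ K0 ≤ (U ^ 2) ^ K0 := Nat.pow_le_pow_left (by nlinarith) _
        _ = U ^ (2 * K0) := by rw [← pow_mul]
        _ ≤ U ^ (2 * K0 + 5) := Nat.pow_le_pow_right (by omega) (by omega)
        _ ≤ p := hUp'
    have h5 := hK0 p l hlp (by omega) h4
    have h6 := per4 p l hp5 hlp (by omega) h3
    refine h5.trans ?_
    exact_mod_cast h6
  have h := hU1 p U hUU1 hp5 h2l hl
  have hfib : (Nat.card (SU4 p U) : ℝ) ≤ 4 * Nat.card (GB p U) := by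
    exact_mod_cast fibre4 p U hp5 hp4
  have h7 : c / 4 * (p : ℝ) / Real.log p = (c * p / Real.log p) / 4 := by ring
  rw [h7]
  linarith

end HY
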