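import Pool.Agent.Lib.MP_10e784_agH.SL
import Pool.Agent.Lib.MP_10e784_agH.KL
import Pool.Agent.Lib.MP_10e784_agHO.OK
import Pool.Agent.Lib.MP_10e784_agHG.GK
import Pool.Agent.Lib.MP_10e784_agHR.Fin

/-!
# Stage 1
-/

set_option autoImplicit false

namespace HY

theorem stage1 : ∃ c : ℝ, 0 < c ∧ ∀ n : ℕ, Even n → ∃ C : ℝ, ∀ H : ℕ, 1 ≤ H →
    (Nat.card {z : (Fin 3 × Fin 3 → ℤ) × (Fin (n + 6 + 1) → ℤ) //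
      (∀ i, |z.1 i| ≤ (H : ℤ)) ∧ (∀ i, |z.2 i| ≤ (H : ℤ) ^ 4) ∧ Sol (fun i j => z.1 (i, j)) z.2} : ℝ) ≤
      C * (H : ℝ) ^ (9 + 4 * (n + 7)) * Real.exp (-(Real.log H) ^ c) :=
  all_hyp HYR.factR2 (HYG.factG factK) HYO.factO

end HY
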