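import Pool.Agent.Lib.MP_10e784_agH.PD

/-!
# LEAF PE: the square classes of the values of the quadratic forms

PROOF.  Every nonzero integer is `d k²` with `d` squarefree (`Nat.sq_mul_squarefree`, sign in `d`).  `d₀ d₁ d₂ F · (k₀ k₁ k₂)² = y²`, so `(k₀ k₁ k₂)² ∣ y²` (`k₀ k₁ k₂ ≠ 0`; `Int.pow_dvd_pow_iff`), `k₀ k₁ k₂ ∣ y` and `d₀ d₁ d₂ F = (y / (k₀ k₁ k₂))²`.
Let `p ∣ d_i` be prime, so `p ∣ q_i(x, z)`.  If `p ∣ q_j(x, z)` for another `j` then `p ∣ rq` (`dvd_rq`; for the order of the indices: `rq w v = rq v w`), if `p ∣ F(x, z)` then `p ∣ rf` (`dvd_rf`): a factor of `RR`.  Otherwise `p` divides the square `d₀ d₁ d₂ F(x, z)`, so `p²` divides it, but `p² ∤ d_i` (squarefree), `p ∤ d_j` (as `d_j ∣ q_j(x, z)`), `p ∤ F(x, z)`: contradiction.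
-/

set_option autoImplicit false

namespace HY

open Finset Polynomial MWS

private theorem PE_sq (N : ℤ) (hN : N ≠ 0) : ∃ d k : ℤ, N = d * k ^ 2 ∧ Squarefree d := by
  obtain ⟨a, b, hab, ha⟩ := Nat.sq_mul_squarefree N.natAbs
  have h1 : ((b : ℤ) ^ 2 * (a : ℤ)) = |N| := by
    rw [← Int.natCast_natAbs, ← hab]
    push_cast
    ring
  have h2 : Squarefree (a : ℤ) := Int.squarefree_natCast.2 ha
  rcases abs_choice N with h | h
  · refine ⟨a, b, ?_, h2⟩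
    rw [h] at h1
    rw [← h1]
    ring
  · refine ⟨-a, b, ?_, fun x hx => h2 x (dvd_neg.1 hx)⟩
    rw [h] at h1
    linear_combination h1

private theorem PE_symm {R : Type*} [CommRing R] (v w : Fin 3 → R) : rq w v = rq v w := by
  unfold rq
  ring

private theorem PE_rq {m : ℕ} (q : Fin 3 → Fin 3 → ℤ) (f : Fin (m + 1) → ℤ) (i j : Fin 3) (hij : i ≠ j) :
    rq (q i) (q j) ∣ RR q f := by
  have e01 : rq (q 0) (q 1) ∣ RR q f :=
    Dvd.dvd.mul_right (Dvd.dvd.mul_left (Dvd.dvd.mul_right (dvd_mul_right _ _) _) _) _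
  have e02 : rq (q 0) (q 2) ∣ RR q f :=
    Dvd.dvd.mul_right (Dvd.dvd.mul_left (Dvd.dvd.mul_right (dvd_mul_left _ _) _) _) _
  have e12 : rq (q 1) (q 2) ∣ RR q f :=
    Dvd.dvd.mul_right (Dvd.dvd.mul_left (dvd_mul_left _ _) _) _
  have e10 : rq (q 1) (q 0) ∣ RR q f := by rw [PE_symm]; exact e01
  have e20 : rq (q 2) (q 0) ∣ RR q f := by rw [PE_symm]; exact e02
  have e21 : rq (q 2) (q 1) ∣ RR q f := by rw [PE_symm]; exact e12
  fin_cases i <;> fin_cases j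
  · exact absurd rfl hij
  · exact e01
  · exact e02
  · exact e10
  · exact absurd rfl hij
  · exact e12
  · exact e20
  · exact e21
  · exact absurd rfl hij

private theorem PE_rf {m : ℕ} (q : Fin 3 → Fin 3 → ℤ) (f : Fin (m + 1) → ℤ) (i : Fin 3) :
    rf (q i) f ∣ RR q f :=
  Dvd.dvd.mul_left (Finset.dvd_prod_of_mem (fun i => rf (q i) f) (Finset.mem_univ i)) _

theorem sol_data {m : ℕ} (hm : 1 ≤ m) (q : Fin 3 → Fin 3 → ℤ) (f : Fin (m + 1) → ℤ) {x z y : ℤ} (hc : IsCoprime x z)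
    (hy : y ^ 2 = qe (q 0) x z * qe (q 1) x z * qe (q 2) x z * fe f x z) (h0 : ∀ i, qe (q i) x z ≠ 0) :
    ∃ d k : Fin 3 → ℤ, (∀ i, qe (q i) x z = d i * k i ^ 2) ∧ (∀ i, Squarefree (d i)) ∧
      (∀ i, ∀ p : ℕ, p.Prime → (p : ℤ) ∣ d i → (p : ℤ) ∣ RR q f) ∧ IsSquare (d 0 * d 1 * d 2 * fe f x z) := by
  choose d k hdk hsq using fun i => PE_sq (qe (q i) x z) (h0 i)
  have hk : ∀ i, k i ≠ 0 := by
    intro i h
    apply h0 i
    rw [hdk, h]
    ring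
  have hK : k 0 * k 1 * k 2 ≠ 0 := mul_ne_zero (mul_ne_zero (hk 0) (hk 1)) (hk 2)
  have h1 : (k 0 * k 1 * k 2) ^ 2 * (d 0 * d 1 * d 2 * fe f x z) = y ^ 2 := by
    rw [hy, hdk 0, hdk 1, hdk 2]
    ring
  have h2 : k 0 * k 1 * k 2 ∣ y := by
    rw [← Int.pow_dvd_pow_iff (n := 2) two_ne_zero]
    exact ⟨_, h1.symm⟩
  obtain ⟨s, hs⟩ := h2
  have h3 : d 0 * d 1 * d 2 * fe f x z = s ^ 2 := by
    rw [hs, mul_pow (k 0 * k 1 * k 2) s] at h1
    exact mul_left_cancel₀ (pow_ne_zero 2 hK) h1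
  refine ⟨d, k, hdk, hsq, fun i p hp hpd => ?_, ⟨s, by rw [h3, sq]⟩⟩
  have hpp : Prime (p : ℤ) := Nat.prime_iff_prime_int.1 hp
  have hpq : (p : ℤ) ∣ qe (q i) x z := by
    rw [hdk]
    exact Dvd.dvd.mul_right hpd _
  by_contra hcon
  have h4 : ∀ j, j ≠ i → ¬ (p : ℤ) ∣ d j := by
    intro j hj hpj
    apply hcon
    have h5 : (p : ℤ) ∣ qe (q j) x z := by
      rw [hdk]
      exact Dvd.dvd.mul_right hpj _
    exact (dvd_rq hp hc hpq h5).trans (PE_rq q f i j hj.symm)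
  have h6 : ¬ (p : ℤ) ∣ fe f x z := fun h => hcon ((dvd_rf hp hm hc hpq h).trans (PE_rf q f i))
  have h7 : d 0 * d 1 * d 2 = d i * ∏ j ∈ Finset.univ.erase i, d j := by
    rw [Finset.mul_prod_erase Finset.univ d (Finset.mem_univ i), Fin.prod_univ_three]
  have h8 : ¬ (p : ℤ) ∣ (∏ j ∈ Finset.univ.erase i, d j) * fe f x z := by
    intro h
    rcases hpp.dvd_or_dvd h with h | h
    · obtain ⟨j, hj, hpj⟩ := hpp.exists_mem_finset_dvd h
      exact h4 j (Finset.ne_of_mem_erase hj) hpj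
    · exact h6 h
  have h9 : d i * ((∏ j ∈ Finset.univ.erase i, d j) * fe f x z) = s ^ 2 := by
    rw [← mul_assoc, ← h7, h3]
  have h10 : (p : ℤ) ∣ s := hpp.dvd_of_dvd_pow (h9 ▸ Dvd.dvd.mul_right hpd _)
  have h11 : (p : ℤ) ^ 2 ∣ d i * ((∏ j ∈ Finset.univ.erase i, d j) * fe f x z) := by
    rw [h9]
    exact pow_dvd_pow_of_dvd h10 2
  have h12 := hpp.pow_dvd_of_dvd_mul_right 2 h8 h11
  rw [sq] at h12
  exact hpp.not_isUnit (hsq i _ h12)

end HY
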