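import Pool.Agent.Lib.MP_10e784_agH.SDefs

/-!
# LEAF PF: the number of square classes

PROOF.  `d ↦ (sign of d, set of the prime factors of d)` is injective on squarefree integers (`Nat.prod_primeFactors_of_squarefree` for `d.natAbs`) with values in `{±1} × powerset (primeFactors N.natAbs)`.  So take the image of this finite set under `(s, A) ↦ s ∏_(p ∈ A) p`.
-/

set_option autoImplicit false

namespace HY

theorem dset {N : ℤ} (hN : N ≠ 0) {w : ℕ} (hw : N.natAbs.primeFactors.card ≤ w) :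
    ∃ s : Finset ℤ, s.card ≤ 2 ^ (w + 1) ∧
      ∀ d : ℤ, Squarefree d → (∀ p : ℕ, p.Prime → (p : ℤ) ∣ d → (p : ℤ) ∣ N) → d ∈ s := by
  classical
  refine ⟨(N.natAbs.primeFactors.powerset ×ˢ ({1, -1} : Finset ℤ)).image
    (fun x : Finset ℕ × ℤ => x.2 * ∏ p ∈ x.1, ((p : ℕ) : ℤ)), ?_, fun d hd h => ?_⟩
  · refine Finset.card_image_le.trans ?_
    rw [Finset.card_product, Finset.card_powerset, pow_succ]
    exact Nat.mul_le_mul (Nat.pow_le_pow_right (by norm_num) hw) Finset.card_le_two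
  · have hsq : Squarefree d.natAbs := Int.squarefree_natAbs.2 hd
    have h1 : ∏ p ∈ d.natAbs.primeFactors, (p : ℤ) = (d.natAbs : ℤ) := by
      rw [← Nat.cast_prod, Nat.prod_primeFactors_of_squarefree hsq]
    have h2 : d.natAbs.primeFactors ⊆ N.natAbs.primeFactors := by
      intro p hp
      have hp1 : p.Prime := Nat.prime_of_mem_primeFactors hp
      have hp2 : (p : ℤ) ∣ N := h p hp1 (Int.natCast_dvd.2 (Nat.dvd_of_mem_primeFactors hp))
      exact Nat.mem_primeFactors.2 ⟨hp1, Int.natCast_dvd.1 hp2, Int.natAbs_ne_zero.2 hN⟩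
    have h3 : ∃ e ∈ ({1, -1} : Finset ℤ), d = e * (d.natAbs : ℤ) := by
      rcases Int.natAbs_eq d with h4 | h4
      · exact ⟨1, by simp, by rw [one_mul]; exact h4⟩
      · exact ⟨-1, by simp, by rw [neg_one_mul]; exact h4⟩
    obtain ⟨e, he, hde⟩ := h3
    refine Finset.mem_image.2 ⟨(d.natAbs.primeFactors, e), ?_, ?_⟩
    · exact Finset.mem_product.2 ⟨Finset.mem_powerset.2 h2, he⟩
    · show e * ∏ p ∈ d.natAbs.primeFactors, (p : ℤ) = d
      rw [h1]
      exact hde.symm

end HY
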