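import Pool.Agent.Lib.MP_10e784_agH.PA
import Pool.Agent.Lib.MP_10e784_agW.RB
import Pool.Agent.Lib.MP_10e784_agW.RA

/-!
# LEAF PG: the point of the twisted elliptic curve and its reduction

`V = qe v x z ≠ 0`, `W = qe w x z`, `V W = D k²`, `A = D² Aq v w`, `B = D³ Bq v w`, `J = jq v w x z`.
PROOF.  In `ℚ`: `X = 9 D dq v W / V - 3 D bq v w`, `Y = 27 D² dq v J k / V²`: `Y² = X³ + A X + B`.  (With `T = dq v W / V`: `T (T² - bq T + dq v dq w) = (dq v)² W (dq v W² - bq V W + dq w V²) / V³ = (dq v)² W J² / V³ = (dq v)² J² V W / V⁴ = D ((dq v) J k / V²)²` by `syz`; and `Y² - X³ - A X - B = 729 D³ (D ((dq v) J k / V²)² - T (T² - bq T + dq v dq w))`.)  Nonsingular: `EW_nons` (`MP_10e784_agW/RA.lean`), the discriminant is not `0`.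
Reduction modulo a prime `p ∤ V`: `X` is `p`-integral (`rc_int`, `rc_mul`, `rc_add`; `rc p (V⁻¹)`: `V⁻¹ · V = 1`; or `(V⁻¹).den ∣ V`), so `rd p P = some (rc p X, rc p Y)` and `rc p X` is the expression of the statement.
-/

set_option autoImplicit false

namespace HY

open MWS

private theorem PG_inv {p : ℕ} (hp : p.Prime) {V : ℤ} (hV : ¬ (p : ℤ) ∣ V) :
    ¬ p ∣ ((V : ℚ)⁻¹).den ∧ rc p ((V : ℚ)⁻¹) = ((V : ℤ) : ZMod p)⁻¹ := by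
  have := Fact.mk hp
  have h1 : ¬ p ∣ ((V : ℚ)⁻¹).den := by
    intro h
    have h2 : (((V : ℚ)⁻¹).den : ℤ) ∣ V := by
      have h3 := Rat.den_dvd 1 V
      rw [Rat.divInt_eq_div, Int.cast_one, one_div] at h3
      exact h3
    exact hV ((Int.natCast_dvd_natCast.2 h).trans h2)
  refine ⟨h1, ?_⟩
  rw [rc_cast]
  have hV0 : ((V : ℤ) : ZMod p) ≠ 0 := by
    rwa [Ne, ZMod.intCast_zmod_eq_zero_iff_dvd]
  have hVQ : (V : ℚ) ≠ 0 := by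
    intro h
    apply hV
    rw [Int.cast_eq_zero.1 h]
    exact dvd_zero _
  have h4 := rc_mul hp (rc_int hp V).1 h1
  rw [mul_inv_cancel₀ hVQ, (rc_int hp V).2] at h4
  have h5 : rc p (1 : ℚ) = 1 := by
    have h6 := (rc_int hp 1).2
    rw [Int.cast_one, Int.cast_one] at h6
    exact h6
  rw [h5, rc_cast] at h4
  exact eq_inv_of_mul_eq_one_right h4.2.symm

theorem exists_pt (v w : Fin 3 → ℤ) (D k x z : ℤ) (hd : dsc (D ^ 2 * Aq v w) (D ^ 3 * Bq v w) ≠ 0)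
    (hV : qe v x z ≠ 0) (h : qe v x z * qe w x z = D * k ^ 2) :
    ∃ P : Pt ℚ (D ^ 2 * Aq v w) (D ^ 3 * Bq v w), ∀ p : ℕ, p.Prime → ¬ (p : ℤ) ∣ qe v x z →
      ∃ η : ZMod p, rd p P = some (((9 * D * dq v * qe w x z : ℤ) : ZMod p) * ((qe v x z : ℤ) : ZMod p)⁻¹ -
        ((3 * D * bq v w : ℤ) : ZMod p), η) := by
  have hsyz := syz v w x z
  obtain ⟨V, hVe⟩ : ∃ V, V = qe v x z := ⟨_, rfl⟩
  obtain ⟨W, hWe⟩ : ∃ W, W = qe w x z := ⟨_, rfl⟩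
  obtain ⟨J, hJe⟩ : ∃ J, J = jq v w x z := ⟨_, rfl⟩
  rw [← hVe, ← hWe, ← hJe] at hsyz
  rw [← hVe] at hV
  rw [← hVe, ← hWe] at h
  rw [← hVe, ← hWe]
  have hVQ : (V : ℚ) ≠ 0 := Int.cast_ne_zero.2 hV
  obtain ⟨X, hX⟩ : ∃ X : ℚ, X = ((9 * D * dq v * W : ℤ) : ℚ) * (V : ℚ)⁻¹ + ((-(3 * D * bq v w) : ℤ) : ℚ) :=
    ⟨_, rfl⟩
  obtain ⟨Y, hY⟩ : ∃ Y : ℚ, Y = 27 * D ^ 2 * dq v * J * k / (V : ℚ) ^ 2 := ⟨_, rfl⟩
  have heq : Y ^ 2 = X ^ 3 + ((D ^ 2 * Aq v w : ℤ) : ℚ) * X + ((D ^ 3 * Bq v w : ℤ) : ℚ) := by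
    have h1 : (V : ℚ) * W = D * (k : ℚ) ^ 2 := by exact_mod_cast h
    unfold Aq Bq
    rw [hX, hY]
    generalize dq v = a at hsyz ⊢
    generalize dq w = e at hsyz ⊢
    generalize bq v w = b at hsyz ⊢
    have h2 : (J : ℚ) ^ 2 = (a : ℚ) * (W : ℚ) ^ 2 - (b : ℚ) * (V * W) + (e : ℚ) * (V : ℚ) ^ 2 := by
      exact_mod_cast hsyz
    have hX' : ((9 * D * a * W : ℤ) : ℚ) * (V : ℚ)⁻¹ + ((-(3 * D * b) : ℤ) : ℚ) =
        (9 * D * a * W - 3 * D * b * V) / (V : ℚ) := by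
      push_cast
      field_simp
      ring
    have key : 729 * (D : ℚ) ^ 4 * (a : ℚ) ^ 2 * (J : ℚ) ^ 2 * (k : ℚ) ^ 2 =
        V * (9 * D * a * W - 3 * D * b * V) ^ 3 +
          (D : ℚ) ^ 2 * (81 * (a * e) - 27 * (b : ℚ) ^ 2) *
            (9 * D * a * W - 3 * D * b * V) * (V : ℚ) ^ 3 +
          (D : ℚ) ^ 3 * (243 * (b * (a * e)) - 54 * (b : ℚ) ^ 3) * (V : ℚ) ^ 4 := by
      linear_combination 729 * (D : ℚ) ^ 3 * (a : ℚ) ^ 2 * ((V : ℚ) * W * h2 - (J : ℚ) ^ 2 * h1)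
    have hl : (27 * (D : ℚ) ^ 2 * a * J * k / (V : ℚ) ^ 2) ^ 2 =
        729 * (D : ℚ) ^ 4 * (a : ℚ) ^ 2 * (J : ℚ) ^ 2 * (k : ℚ) ^ 2 / (V : ℚ) ^ 4 := by
      rw [div_pow]
      congr 1
      · ring
      · ring
    rw [hl, key, hX']
    push_cast
    field_simp
  have hns := (EW_nons (F := ℚ) (D ^ 2 * Aq v w) (D ^ 3 * Bq v w) two_ne_zero
    (Int.cast_ne_zero.2 hd) X Y).2 heq
  refine ⟨.some X Y hns, fun p hp hpV => ?_⟩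
  have hi := PG_inv hp hpV
  have h1 := rc_mul hp (rc_int hp (9 * D * dq v * W)).1 hi.1
  have h2 := rc_add hp h1.1 (rc_int hp (-(3 * D * bq v w))).1
  rw [← hX] at h2
  refine ⟨rc p Y, ?_⟩
  have h3 : rd p (.some X Y hns : Pt ℚ (D ^ 2 * Aq v w) (D ^ 3 * Bq v w)) =
      if p ∣ X.den then none else some (rc p X, rc p Y) := rfl
  rw [h3, if_neg h2.1, h2.2, h1.2, hi.2, (rc_int hp _).2, (rc_int hp _).2]
  push_cast
  rw [sub_eq_add_neg]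

end HY
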