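import Mathlib

/-!
# LEAF SA: two conditions `linear form + e = square` (Mathlib only)

`χ = quadraticChar (ZMod p)`.
PROOF.  `one_var`: if `e₁ = e₂`: `(p - 1) / 2` nonsquares.  `e₁ ≠ e₂`: the number of `t` with `t + e₁`, `t + e₂` both nonsquares is `(1/4) ∑_(t ≠ -e₁, -e₂) (1 - χ(t + e₁)) (1 - χ(t + e₂))`; `∑_t χ(t + e) = 0`, `∑_t χ((t + e₁)(t + e₂)) = -1` (substitution `t + e₁ = s`, `1 + (e₂ - e₁)/s`, for `s ≠ 0`; or `quadraticChar` sums in Mathlib / jacobi sums): `= (p - 3 + χ(e₁ - e₂) + χ(e₂ - e₁)) / 4 ≥ (p - 5) / 4 ≥ p / 5` for `p ≥ 25`.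
`dens2`, first case `v₂ = t² v₁`: `⟨v₂, Q⟩ + e₂ = t² (⟨v₁, Q⟩ + e₂ / t²)`, and `⟨v₁, Q⟩` takes each value `p ^ (N - 1)` times: `one_var`.  Second case, `v₁, v₂` linearly independent: `Q ↦ (⟨v₁, Q⟩, ⟨v₂, Q⟩)` is surjective onto `(ZMod p)²` with fibres of `p ^ (N - 2)` elements; both nonsquares for `((p - 1) / 2)²` of the `p²` values; `1 - ((p - 1) / (2 p))² ≤ 4 / 5` for `p ≥ 10`.
-/

set_option autoImplicit false

namespace HY

open Finset

/-- the values of the character -/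
private theorem SA_chi {p : ℕ} [Fact p.Prime] (u : ZMod p) :
    (u = 0 ∧ quadraticChar (ZMod p) u = 0) ∨ (u ≠ 0 ∧ IsSquare u ∧ quadraticChar (ZMod p) u = 1) ∨
      (¬ IsSquare u ∧ quadraticChar (ZMod p) u = -1) := by
  by_cases h0 : u = 0
  · exact Or.inl ⟨h0, by rw [h0, MulChar.map_zero]⟩
  · by_cases hs : IsSquare u
    · exact Or.inr (Or.inl ⟨h0, hs, (quadraticChar_one_iff_isSquare h0).2 hs⟩)
    · exact Or.inr (Or.inr ⟨hs, quadraticChar_neg_one_iff_not_isSquare.2 hs⟩)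

private theorem SA_sum0 {p : ℕ} [Fact p.Prime] (hp : p ≠ 2) (e : ZMod p) :
    ∑ t : ZMod p, quadraticChar (ZMod p) (t + e) = 0 := by
  exact (Equiv.sum_comp (Equiv.addRight e) (fun t => quadraticChar (ZMod p) t)).trans
    (quadraticChar_sum_zero (by rwa [ZMod.ringChar_zmod_n]))

private theorem SA_sum1 {p : ℕ} [Fact p.Prime] (hp : p ≠ 2) {e₁ e₂ : ZMod p} (he : e₁ ≠ e₂) :
    ∑ t : ZMod p, quadraticChar (ZMod p) (t + e₁) * quadraticChar (ZMod p) (t + e₂) = -1 := by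
  have hF : ringChar (ZMod p) ≠ 2 := by rwa [ZMod.ringChar_zmod_n]
  have hd : e₂ - e₁ ≠ 0 := sub_ne_zero.2 he.symm
  have h1 := jacobiSum_nontrivial_inv (χ := quadraticChar (ZMod p)) (quadraticChar_ne_one hF)
  rw [(quadraticChar_isQuadratic (ZMod p)).inv, jacobiSum] at h1
  -- the substitution
  obtain ⟨φ, hφ⟩ : ∃ φ : ZMod p ≃ ZMod p, ∀ x, φ x = -(e₂ - e₁) * x - e₁ := by
    refine ⟨(Equiv.mulLeft₀ (-(e₂ - e₁)) (neg_ne_zero.2 hd)).trans (Equiv.subRight e₁), fun x => ?_⟩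
    rfl
  rw [← Equiv.sum_comp φ]
  have h2 : ∀ x, quadraticChar (ZMod p) (φ x + e₁) * quadraticChar (ZMod p) (φ x + e₂) =
      quadraticChar (ZMod p) (-1) * (quadraticChar (ZMod p) x * quadraticChar (ZMod p) (1 - x)) := by
    intro x
    rw [hφ, show -(e₂ - e₁) * x - e₁ + e₁ = (-1) * ((e₂ - e₁) * x) by ring,
      show -(e₂ - e₁) * x - e₁ + e₂ = (e₂ - e₁) * (1 - x) by ring]
    simp only [map_mul]
    have h3 := quadraticChar_sq_one (F := ZMod p) hd
    linear_combination (quadraticChar (ZMod p) (-1) * quadraticChar (ZMod p) x *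
      quadraticChar (ZMod p) (1 - x)) * h3
  rw [sum_congr rfl fun x _ => h2 x, ← mul_sum, h1]
  have h4 := quadraticChar_sq_one (F := ZMod p) (neg_ne_zero.2 one_ne_zero : (-1 : ZMod p) ≠ 0)
  linear_combination -h4

open Classical in
private theorem SA_two {p : ℕ} [Fact p.Prime] (hp : p ≠ 2) {e₁ e₂ : ZMod p} (he : e₁ ≠ e₂) :
    (p : ℤ) - 5 ≤ 4 * ((univ.filter fun t : ZMod p => ¬ IsSquare (t + e₁) ∧
      ¬ IsSquare (t + e₂)).card : ℤ) := by
  have hpt : ∀ t : ZMod p, (1 - quadraticChar (ZMod p) (t + e₁)) *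
      (1 - quadraticChar (ZMod p) (t + e₂)) ≤
      4 * (if ¬ IsSquare (t + e₁) ∧ ¬ IsSquare (t + e₂) then 1 else 0) +
      (2 * (if t = -e₁ then 1 else 0) + 2 * (if t = -e₂ then 1 else 0)) := by
    intro t
    simp only [eq_neg_iff_add_eq_zero]
    have z0 : IsSquare (0 : ZMod p) := IsSquare.zero
    rcases SA_chi (t + e₁) with ⟨h0, h1⟩ | ⟨h0, h1, h2⟩ | ⟨h1, h2⟩
    · rcases SA_chi (t + e₂) with ⟨k0, k1⟩ | ⟨k0, k1, k2⟩ | ⟨k1, k2⟩
      · exact absurd (add_left_cancel (h0.trans k0.symm)) he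
      · rw [h1, k2, h0]
        simp [k0]
      · rw [h1, k2]
        split_ifs <;> simp_all
    · rw [h2, sub_self, zero_mul]
      split_ifs <;> simp
    · have h0 : t + e₁ ≠ 0 := fun h => h1 (h ▸ z0)
      rcases SA_chi (t + e₂) with ⟨k0, k1⟩ | ⟨k0, k1, k2⟩ | ⟨k1, k2⟩
      · rw [h2, k1, k0]
        simp [h0]
      · rw [k2, sub_self, mul_zero]
        split_ifs <;> simp
      · rw [h2, k2, if_pos ⟨h1, k1⟩, if_neg h0]
        split_ifs <;> simp
  have hsum := sum_le_sum (s := (univ : Finset (ZMod p))) fun t _ => hpt t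
  have e1 : ∑ t : ZMod p, (1 - quadraticChar (ZMod p) (t + e₁)) *
      (1 - quadraticChar (ZMod p) (t + e₂)) = (p : ℤ) - 1 := by
    have : ∀ t : ZMod p, (1 - quadraticChar (ZMod p) (t + e₁)) *
        (1 - quadraticChar (ZMod p) (t + e₂)) = 1 - quadraticChar (ZMod p) (t + e₁) -
        quadraticChar (ZMod p) (t + e₂) +
        quadraticChar (ZMod p) (t + e₁) * quadraticChar (ZMod p) (t + e₂) := fun t => by ring
    rw [sum_congr rfl fun t _ => this t, sum_add_distrib, sum_sub_distrib, sum_sub_distrib,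
      SA_sum0 hp, SA_sum0 hp, SA_sum1 hp he, sum_const, card_univ, ZMod.card]
    simp
    ring
  rw [e1, sum_add_distrib, sum_add_distrib, ← mul_sum, ← mul_sum, ← mul_sum, sum_boole,
    sum_boole, sum_boole, filter_eq' , filter_eq', if_pos (mem_univ _), if_pos (mem_univ _),
    card_singleton, card_singleton] at hsum
  push_cast at hsum
  linarith

/-- at least `(p - 1) / 2` nonsquares -/
private theorem SA_one {p : ℕ} [Fact p.Prime] (hp : p ≠ 2) (e : ZMod p) :
    (p : ℝ) - 1 ≤ 2 * (Nat.card {t : ZMod p // ¬ IsSquare (t + e)} : ℝ) := by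
  classical
  have hpt : ∀ t : ZMod p, (1 - quadraticChar (ZMod p) (t + e)) ≤
      2 * (if ¬ IsSquare (t + e) then 1 else 0) + (if t = -e then 1 else 0) := by
    intro t
    simp only [eq_neg_iff_add_eq_zero]
    rcases SA_chi (t + e) with ⟨h0, h1⟩ | ⟨h0, h1, h2⟩ | ⟨h1, h2⟩
    · rw [h1]
      split_ifs <;> simp_all
    · rw [h2, sub_self]
      split_ifs <;> simp
    · rw [h2, if_pos h1]
      split_ifs
      · simp
      · simp
  have hsum := sum_le_sum (s := (univ : Finset (ZMod p))) fun t _ => hpt t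
  rw [sum_sub_distrib, SA_sum0 hp, sum_const, card_univ, ZMod.card, sum_add_distrib, ← mul_sum,
    sum_boole, sum_boole, filter_eq', if_pos (mem_univ _), card_singleton] at hsum
  rw [Nat.card_eq_fintype_card, Fintype.card_subtype]
  have h : ((p : ℤ) : ℝ) - 1 ≤ 2 * (((univ.filter fun t : ZMod p => ¬ IsSquare (t + e)).card : ℤ) : ℝ) := by
    have h1 : (p : ℤ) - 1 ≤ 2 * ((univ.filter fun t : ZMod p => ¬ IsSquare (t + e)).card : ℤ) := by
      push_cast at hsum
      simp only [nsmul_eq_mul, mul_one] at hsum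
      linarith
    exact_mod_cast h1
  exact_mod_cast h

/-- a set and its complement -/
private theorem SA_compl {V : Type} [Finite V] (P : V → Prop) :
    Nat.card {v : V // P v} + Nat.card {v : V // ¬ P v} = Nat.card V := by
  classical
  rw [← Nat.card_sum]
  exact Nat.card_congr (Equiv.sumCompl P)

/-- the fibres of a surjective homomorphism -/
private theorem SA_fib {V W : Type} [AddCommGroup V] [AddCommGroup W] [Finite V] [Finite W]
    (f : V →+ W) (hf : Function.Surjective f) (P : W → Prop) :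
    Nat.card {v : V // P (f v)} * Nat.card W = Nat.card V * Nat.card {w : W // P w} := by
  obtain ⟨s, hs⟩ : ∃ s : W → V, ∀ w, f (s w) = w := ⟨fun w => (hf w).choose,
    fun w => (hf w).choose_spec⟩
  let e : V ≃ W × f.ker :=
    { toFun := fun v => (f v, ⟨v - s (f v), by rw [AddMonoidHom.mem_ker, map_sub, hs, sub_self]⟩)
      invFun := fun x => s x.1 + x.2
      left_inv := fun v => by simp
      right_inv := fun x => by
        have h : f (s x.1 + x.2) = x.1 := by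
          rw [map_add, hs, (AddMonoidHom.mem_ker).1 x.2.2, add_zero]
        refine Prod.ext h (Subtype.ext ?_)
        show s x.1 + x.2 - s (f (s x.1 + x.2)) = x.2
        rw [h]
        abel }
  have h1 : Nat.card V = Nat.card W * Nat.card f.ker := by
    rw [Nat.card_congr e, Nat.card_prod]
  have h2 : Nat.card {v : V // P (f v)} = Nat.card {w : W // P w} * Nat.card f.ker := by
    rw [← Nat.card_prod]
    exact Nat.card_congr ((e.subtypeEquiv (q := fun x => P x.1) fun v => Iff.rfl).trans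
      Equiv.prodSubtypeFstEquivSubtypeProd)
  rw [h1, h2]
  ring

theorem one_var {p : ℕ} [Fact p.Prime] (hp : 29 ≤ p) (e₁ e₂ : ZMod p) :
    (Nat.card {t : ZMod p // IsSquare (t + e₁) ∨ IsSquare (t + e₂)} : ℝ) ≤ 4 / 5 * p := by
  classical
  have hp2 : p ≠ 2 := by omega
  have hpR : (29 : ℝ) ≤ p := by exact_mod_cast hp
  have hcompl : (Nat.card {t : ZMod p // IsSquare (t + e₁) ∨ IsSquare (t + e₂)} : ℝ) +
      (Nat.card {t : ZMod p // ¬ (IsSquare (t + e₁) ∨ IsSquare (t + e₂))} : ℝ) = p := by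
    have h := SA_compl (fun t : ZMod p => IsSquare (t + e₁) ∨ IsSquare (t + e₂))
    rw [Nat.card_zmod] at h
    exact_mod_cast h
  by_cases he : e₁ = e₂
  · subst he
    have h1 := SA_one hp2 e₁
    simp only [or_self] at hcompl ⊢
    linarith
  · have h1 := SA_two hp2 he
    have h2 : (Nat.card {t : ZMod p // ¬ (IsSquare (t + e₁) ∨ IsSquare (t + e₂))}) =
        (univ.filter fun t : ZMod p => ¬ IsSquare (t + e₁) ∧ ¬ IsSquare (t + e₂)).card := by
      rw [Nat.card_eq_fintype_card, Fintype.card_subtype]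
      simp only [not_or]
    rw [h2] at hcompl
    have h3 : (p : ℝ) - 5 ≤ 4 * ((univ.filter fun t : ZMod p => ¬ IsSquare (t + e₁) ∧
      ¬ IsSquare (t + e₂)).card : ℝ) := by exact_mod_cast h1
    linarith

theorem dens2 {p : ℕ} [Fact p.Prime] (hp : 29 ≤ p) {ι : Type} [Fintype ι] (v₁ v₂ : ι → ZMod p) (h1 : v₁ ≠ 0)
    (h : (∃ t : ZMod p, t ≠ 0 ∧ v₂ = t ^ 2 • v₁) ∨ LinearIndependent (ZMod p) ![v₁, v₂]) (e₁ e₂ : ZMod p) :
    (Nat.card {Q : ι → ZMod p // IsSquare (∑ i, Q i * v₁ i + e₁) ∨ IsSquare (∑ i, Q i * v₂ i + e₂)} : ℝ) ≤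
      4 / 5 * (p : ℝ) ^ Fintype.card ι := by
  classical
  have hp2 : p ≠ 2 := by omega
  have hpR : (29 : ℝ) ≤ p := by exact_mod_cast hp
  have hV : (Nat.card (ι → ZMod p) : ℝ) = (p : ℝ) ^ Fintype.card ι := by
    rw [Nat.card_eq_fintype_card, Fintype.card_fun, ZMod.card]
    push_cast
    rfl
  have hlin : ∀ (v : ι → ZMod p), ∃ f : (ι → ZMod p) →+ ZMod p, ∀ Q, f Q = ∑ i, Q i * v i := by
    intro v
    refine ⟨⟨⟨fun Q => ∑ i, Q i * v i, by simp⟩, fun Q R => ?_⟩, fun Q => rfl⟩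
    show ∑ i, (Q + R) i * v i = ∑ i, Q i * v i + ∑ i, R i * v i
    rw [← sum_add_distrib]
    exact sum_congr rfl fun i _ => by rw [Pi.add_apply, add_mul]
  rcases h with ⟨t, ht, rfl⟩ | h
  · obtain ⟨f, hf⟩ := hlin v₁
    have hsur : Function.Surjective f := by
      obtain ⟨i, hi⟩ : ∃ i, v₁ i ≠ 0 := by
        by_contra hcon
        push Not at hcon
        exact h1 (funext hcon)
      intro y
      refine ⟨Pi.single i (y / v₁ i), ?_⟩
      rw [hf, sum_eq_single i (fun j _ hj => by rw [Pi.single_eq_of_ne hj, zero_mul])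
        (fun hi => absurd (mem_univ i) hi), Pi.single_eq_same, div_mul_cancel₀ _ hi]
    have hP : ∀ Q : ι → ZMod p, (IsSquare (∑ i, Q i * v₁ i + e₁) ∨
        IsSquare (∑ i, Q i * (t ^ 2 • v₁) i + e₂)) ↔
        (IsSquare (f Q + e₁) ∨ IsSquare (f Q + e₂ / t ^ 2)) := by
      intro Q
      rw [← hf]
      refine or_congr Iff.rfl ?_
      have e : ∑ i, Q i * (t ^ 2 • v₁) i + e₂ = t ^ 2 * (f Q + e₂ / t ^ 2) := by
        rw [hf, mul_add, mul_div_cancel₀ _ (pow_ne_zero 2 ht), mul_sum]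
        congr 1
        refine sum_congr rfl fun i _ => ?_
        rw [Pi.smul_apply, smul_eq_mul]
        ring
      rw [e]
      constructor
      · rintro ⟨r, hr⟩
        refine ⟨r / t, ?_⟩
        have ht2 : t ^ 2 ≠ 0 := pow_ne_zero 2 ht
        apply mul_left_cancel₀ ht2
        rw [hr]
        field_simp
      · rintro ⟨r, hr⟩
        exact ⟨t * r, by rw [hr]; ring⟩
    have h3 := SA_fib f hsur (fun y => IsSquare (y + e₁) ∨ IsSquare (y + e₂ / t ^ 2))
    have h4 := one_var hp e₁ (e₂ / t ^ 2)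
    rw [Nat.card_zmod] at h3
    have h3R : (Nat.card {Q : ι → ZMod p // IsSquare (f Q + e₁) ∨ IsSquare (f Q + e₂ / t ^ 2)} : ℝ) *
        p = (p : ℝ) ^ Fintype.card ι *
        (Nat.card {y : ZMod p // IsSquare (y + e₁) ∨ IsSquare (y + e₂ / t ^ 2)} : ℝ) := by
      rw [← hV]
      exact_mod_cast h3
    rw [Nat.card_congr (Equiv.subtypeEquivRight hP)]
    have hp0 : (0 : ℝ) < p := by linarith
    have hpow : (0 : ℝ) ≤ (p : ℝ) ^ Fintype.card ι := by positivity
    have h5 := mul_le_mul_of_nonneg_left h4 hpow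
    rw [← h3R] at h5
    refine le_of_mul_le_mul_right (h5.trans (le_of_eq ?_)) hp0
    ring
  · obtain ⟨f₁, hf₁⟩ := hlin v₁
    obtain ⟨f₂, hf₂⟩ := hlin v₂
    have hsur : Function.Surjective (f₁.prod f₂) := by
      have hr : (Matrix.of ![v₁, v₂]).rank = 2 := by
        have := h.rank_matrix (M := Matrix.of ![v₁, v₂])
        rwa [Fintype.card_fin] at this
      have htop : LinearMap.range (Matrix.of ![v₁, v₂]).mulVecLin = ⊤ := by
        apply Submodule.eq_top_of_finrank_eq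
        rw [Module.finrank_fin_fun]
        exact hr
      rintro ⟨y₁, y₂⟩
      obtain ⟨Q, hQ⟩ := LinearMap.range_eq_top.1 htop ![y₁, y₂]
      have q0 := congrFun hQ 0
      have q1 := congrFun hQ 1
      rw [Matrix.mulVecLin_apply] at q0 q1
      refine ⟨Q, Prod.ext ?_ ?_⟩
      · show f₁ Q = y₁
        rw [hf₁]
        refine Eq.trans ?_ q0
        exact sum_congr rfl fun i _ => mul_comm _ _
      · show f₂ Q = y₂
        rw [hf₂]
        refine Eq.trans ?_ q1
        exact sum_congr rfl fun i _ => mul_comm _ _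
    have h3 := SA_fib (f₁.prod f₂) hsur (fun y => IsSquare (y.1 + e₁) ∨ IsSquare (y.2 + e₂))
    have h4 := SA_compl (fun y : ZMod p × ZMod p => IsSquare (y.1 + e₁) ∨ IsSquare (y.2 + e₂))
    have h5 : Nat.card {y : ZMod p × ZMod p // ¬ (IsSquare (y.1 + e₁) ∨ IsSquare (y.2 + e₂))} =
        Nat.card {y : ZMod p // ¬ IsSquare (y + e₁)} * Nat.card {y : ZMod p // ¬ IsSquare (y + e₂)} := by
      rw [← Nat.card_prod]
      refine Nat.card_congr ((Equiv.subtypeEquivRight fun y => ?_).trans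
        (Equiv.subtypeProdEquivProd (p := fun y : ZMod p => ¬ IsSquare (y + e₁))
          (q := fun y : ZMod p => ¬ IsSquare (y + e₂))))
      exact not_or
    have k1 := SA_one hp2 e₁
    have k2 := SA_one hp2 e₂
    have e0 : ∀ Q : ι → ZMod p, (IsSquare (∑ i, Q i * v₁ i + e₁) ∨
        IsSquare (∑ i, Q i * v₂ i + e₂)) ↔ (IsSquare (((f₁.prod f₂) Q).1 + e₁) ∨
        IsSquare (((f₁.prod f₂) Q).2 + e₂)) := by
      intro Q
      rw [← hf₁, ← hf₂]
      exact Iff.rfl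
    rw [Nat.card_congr (Equiv.subtypeEquivRight e0)]
    rw [Nat.card_prod, Nat.card_zmod] at h3 h4
    rw [h5] at h4
    obtain ⟨A, hA⟩ : ∃ A : ℝ, A = (Nat.card {y : ZMod p // ¬ IsSquare (y + e₁)} : ℝ) := ⟨_, rfl⟩
    obtain ⟨B, hB⟩ : ∃ B : ℝ, B = (Nat.card {y : ZMod p // ¬ IsSquare (y + e₂)} : ℝ) := ⟨_, rfl⟩
    obtain ⟨C, hC⟩ : ∃ C : ℝ, C = (Nat.card {y : ZMod p × ZMod p //
      IsSquare (y.1 + e₁) ∨ IsSquare (y.2 + e₂)} : ℝ) := ⟨_, rfl⟩
    obtain ⟨D, hD⟩ : ∃ D : ℝ, D = (Nat.card {Q : ι → ZMod p // IsSquare (((f₁.prod f₂) Q).1 + e₁) ∨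
        IsSquare (((f₁.prod f₂) Q).2 + e₂)} : ℝ) := ⟨_, rfl⟩
    rw [← hA] at k1
    rw [← hB] at k2
    rw [← hD]
    have h4R : C + A * B = (p : ℝ) * p := by
      rw [hC, hA, hB]
      exact_mod_cast h4
    have h3R : D * ((p : ℝ) * p) = (p : ℝ) ^ Fintype.card ι * C := by
      rw [hC, hD, ← hV]
      exact_mod_cast h3
    have hAB : ((p : ℝ) - 1) * ((p : ℝ) - 1) ≤ 4 * (A * B) := by
      have := mul_le_mul k1 k2 (by linarith) (by linarith)
      linarith
    have hC' : C ≤ 4 / 5 * ((p : ℝ) * p) := by nlinarith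
    have hpp : (0 : ℝ) < (p : ℝ) * p := by positivity
    have hpow : (0 : ℝ) ≤ (p : ℝ) ^ Fintype.card ι := by positivity
    refine le_of_mul_le_mul_right ?_ hpp
    rw [h3R]
    refine (mul_le_mul_of_nonneg_left hC' hpow).trans (le_of_eq ?_)
    ring

end HY
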