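import Pool.Agent.Lib.MP_10e784_agH.SDefs

/-!
# LEAF SB: the zeros of a binary quadratic form, the vectors of monomials

PROOF.  `zeros2`: `u ≠ 0`.  If `u 2 = 0`: the zeros are `(1, 0)` (`z = 0`) and, for `z ≠ 0`, `u 0 z + u 1 x = 0`: proportional to `(-u 0, u 1)` if `u 1 ≠ 0`, none if `u 1 = 0` (then `u 0 ≠ 0`).  If `u 2 ≠ 0`: `z = 0` gives `x = 0`, so `z ≠ 0`, `x / z` is a root of the quadratic polynomial `u 2 T² + u 1 T + u 0`, at most two roots (if it has no root take any two vectors, e.g. `(1, 0)` twice).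
`evv_dich`: if `c₂ = s c₁` then `evv n c₂ = s ^ n evv n c₁`, `s ^ n = (s ^ (n / 2))²`.  Otherwise `n = 0`: `evv 0 c = 1` for both; `n ≥ 1` (in fact `n ≥ 2`): if `a evv n c₁ + b evv n c₂ = 0`: multiply with a form of degree `n` which vanishes at `c₂` and not at `c₁`: `(x z₂ - z x₂) · L(x, z) ^ (n - 1)` with a linear form `L`, `L c₁ ≠ 0` (for instance `L = x` or `z`): so `a = 0`, and in the same way `b = 0`.  (Or: the entries `i = 0, 1` or `n - 1, n`: a `2 × 2` minor, in cases.)
-/

set_option autoImplicit false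

namespace HY

theorem zeros2 {K : Type*} [Field K] (u : Fin 3 → K) (hu : u ≠ 0) :
    ∃ c : Fin 2 → K × K, (∀ i, c i ≠ 0) ∧
      ∀ x z : K, (x ≠ 0 ∨ z ≠ 0) → qe u x z = 0 → ∃ i, ∃ t, t ≠ 0 ∧ x = t * (c i).1 ∧ z = t * (c i).2 := by
  by_cases h2 : u 2 = 0
  · have hne : ((-u 0, u 1) : K × K) ≠ 0 := by
      intro h
      have h0 : -u 0 = 0 := congrArg Prod.fst h
      have h1 : u 1 = 0 := congrArg Prod.snd h
      apply hu
      funext i
      fin_cases i
      · exact neg_eq_zero.1 h0
      · exact h1
      · exact h2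
    refine ⟨![(1, 0), (-u 0, u 1)], ?_, ?_⟩
    · intro i
      fin_cases i
      · exact fun h => one_ne_zero (congrArg Prod.fst h : (1 : K) = 0)
      · exact hne
    · intro x z hxz hq
      have hq2 : z * (u 0 * z + u 1 * x) = 0 := by
        have h := hq
        unfold qe at h
        rw [h2] at h
        linear_combination h
      rcases mul_eq_zero.1 hq2 with hz | hz
      · refine ⟨0, x, ?_, ?_, ?_⟩
        · rcases hxz with h | h
          · exact h
          · exact absurd hz h
        · change x = x * 1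
          ring
        · change z = x * 0
          rw [hz, mul_zero]
      · by_cases h1 : u 1 = 0
        · have h0 : u 0 ≠ 0 := by
            intro h0
            apply hne
            rw [h0, h1, neg_zero]
            rfl
          rw [h1, zero_mul, add_zero] at hz
          rcases mul_eq_zero.1 hz with h | h
          · exact absurd h h0
          · refine ⟨0, x, ?_, ?_, ?_⟩
            · rcases hxz with h' | h'
              · exact h'
              · exact absurd h h'
            · change x = x * 1
              ring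
            · change z = x * 0
              rw [h, mul_zero]
        · by_cases hz0 : z = 0
          · refine ⟨0, x, ?_, ?_, ?_⟩
            · rcases hxz with h' | h'
              · exact h'
              · exact absurd hz0 h'
            · change x = x * 1
              ring
            · change z = x * 0
              rw [hz0, mul_zero]
          · refine ⟨1, z / u 1, div_ne_zero hz0 h1, ?_, ?_⟩
            · change x = z / u 1 * (-u 0)
              field_simp
              linear_combination hz
            · change z = z / u 1 * u 1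
              field_simp
  · have hz0 : ∀ x z : K, (x ≠ 0 ∨ z ≠ 0) → qe u x z = 0 → z ≠ 0 := by
      intro x z hxz hq hz
      have h := hq
      unfold qe at h
      rw [hz] at h
      have hx : u 2 * x ^ 2 = 0 := by linear_combination h
      rcases mul_eq_zero.1 hx with h' | h'
      · exact h2 h'
      · rcases hxz with h'' | h''
        · exact h'' (pow_eq_zero_iff two_ne_zero |>.1 h')
        · exact h'' hz
    by_cases hr : ∃ T : K, u 2 * T ^ 2 + u 1 * T + u 0 = 0
    · obtain ⟨T, hT⟩ := hr
      refine ⟨![(T, 1), (-u 1 / u 2 - T, 1)], ?_, ?_⟩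
      · intro i
        fin_cases i
        · exact fun h => one_ne_zero (congrArg Prod.snd h : (1 : K) = 0)
        · exact fun h => one_ne_zero (congrArg Prod.snd h : (1 : K) = 0)
      · intro x z hxz hq
        have hz := hz0 x z hxz hq
        have hq2 : (x - z * T) * (x - z * (-u 1 / u 2 - T)) = 0 := by
          have h3 : u 2 * ((x - z * T) * (x - z * (-u 1 / u 2 - T))) = 0 := by
            have h := hq
            unfold qe at h
            have h4 : u 2 * (-u 1 / u 2) = -u 1 := by field_simp
            linear_combination h - z ^ 2 * hT + (-z * x + z ^ 2 * T) * h4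
          rcases mul_eq_zero.1 h3 with h' | h'
          · exact absurd h' h2
          · exact h'
        rcases mul_eq_zero.1 hq2 with h | h
        · refine ⟨0, z, hz, ?_, ?_⟩
          · change x = z * T
            linear_combination h
          · change z = z * 1
            ring
        · refine ⟨1, z, hz, ?_, ?_⟩
          · change x = z * (-u 1 / u 2 - T)
            linear_combination h
          · change z = z * 1
            ring
    · refine ⟨fun _ => (1, 0), fun _ h => one_ne_zero (congrArg Prod.fst h : (1 : K) = 0), ?_⟩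
      intro x z hxz hq
      exfalso
      have hz := hz0 x z hxz hq
      apply hr
      refine ⟨x / z, ?_⟩
      have h := hq
      unfold qe at h
      field_simp
      linear_combination h

theorem evv_ne {K : Type*} [Field K] (n : ℕ) (c : K × K) (hc : c ≠ 0) : evv n c ≠ 0 := by
  by_cases h2 : c.2 = 0
  · have h1 : c.1 ≠ 0 := fun h1 => hc (Prod.ext h1 h2)
    intro h
    have h3 := congrFun h (Fin.last n)
    have h4 : evv n c (Fin.last n) = c.1 ^ n := by
      unfold evv
      rw [Fin.val_last, Nat.sub_self, pow_zero, mul_one]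
    rw [h4] at h3
    exact pow_ne_zero n h1 h3
  · intro h
    have h3 := congrFun h 0
    have h4 : evv n c 0 = c.2 ^ n := by
      unfold evv
      rw [Fin.val_zero, Nat.sub_zero, pow_zero, one_mul]
    rw [h4] at h3
    exact pow_ne_zero n h2 h3

private theorem SB_one {K : Type*} [Field K] (n : ℕ) (c₁ c₂ : K × K) (h1 : c₁ ≠ 0)
    (hD : c₁.1 * c₂.2 - c₁.2 * c₂.1 ≠ 0) (a b : K)
    (h : a • evv (n + 1) c₁ + b • evv (n + 1) c₂ = 0) : a = 0 := by
  have key : ∀ j : ℕ, j ≤ n → a * (c₁.1 ^ j * c₁.2 ^ (n - j)) = 0 := by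
    intro j hj
    have e1 := congrFun h ⟨j, by omega⟩
    have e2 := congrFun h ⟨j + 1, by omega⟩
    simp only [Pi.add_apply, Pi.smul_apply, smul_eq_mul, evv, Pi.zero_apply] at e1 e2
    rw [show n + 1 - j = (n - j) + 1 by omega] at e1
    rw [show n + 1 - (j + 1) = n - j by omega] at e2
    have e3 : (c₁.1 * c₂.2 - c₁.2 * c₂.1) * (a * (c₁.1 ^ j * c₁.2 ^ (n - j))) = 0 := by
      linear_combination c₂.2 * e2 - c₂.1 * e1
    rcases mul_eq_zero.1 e3 with h' | h'
    · exact absurd h' hD
    · exact h'
  by_cases h2 : c₁.2 = 0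
  · have h3 : c₁.1 ≠ 0 := fun h3 => h1 (Prod.ext h3 h2)
    have h4 := key n le_rfl
    rw [Nat.sub_self, pow_zero, mul_one] at h4
    rcases mul_eq_zero.1 h4 with h' | h'
    · exact h'
    · exact absurd h' (pow_ne_zero n h3)
  · have h4 := key 0 (Nat.zero_le n)
    rw [pow_zero, one_mul, Nat.sub_zero] at h4
    rcases mul_eq_zero.1 h4 with h' | h'
    · exact h'
    · exact absurd h' (pow_ne_zero n h2)

private theorem SB_prop {K : Type*} [Field K] (c₁ c₂ : K × K) (h1 : c₁ ≠ 0) (h2 : c₂ ≠ 0)
    (hD : c₁.1 * c₂.2 - c₁.2 * c₂.1 = 0) : ∃ s : K, s ≠ 0 ∧ c₂.1 = s * c₁.1 ∧ c₂.2 = s * c₁.2 := by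
  have key : ∃ s : K, c₂.1 = s * c₁.1 ∧ c₂.2 = s * c₁.2 := by
    by_cases h3 : c₁.1 = 0
    · have h4 : c₁.2 ≠ 0 := fun h4 => h1 (Prod.ext h3 h4)
      rw [h3, zero_mul, zero_sub, neg_eq_zero] at hD
      rcases mul_eq_zero.1 hD with h | h
      · exact absurd h h4
      · refine ⟨c₂.2 / c₁.2, ?_, ?_⟩
        · rw [h, h3, mul_zero]
        · field_simp
    · refine ⟨c₂.1 / c₁.1, ?_, ?_⟩
      · field_simp
      · field_simp
        linear_combination hD
  obtain ⟨s, hs1, hs2⟩ := key
  refine ⟨s, ?_, hs1, hs2⟩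
  intro hs
  apply h2
  rw [hs, zero_mul] at hs1 hs2
  exact Prod.ext hs1 hs2

theorem evv_dich {K : Type*} [Field K] {n : ℕ} (hn : Even n) (c₁ c₂ : K × K) (h1 : c₁ ≠ 0) (h2 : c₂ ≠ 0) :
    (∃ t : K, t ≠ 0 ∧ evv n c₂ = t ^ 2 • evv n c₁) ∨ LinearIndependent K ![evv n c₁, evv n c₂] := by
  by_cases hD : c₁.1 * c₂.2 - c₁.2 * c₂.1 = 0
  · left
    obtain ⟨s, hs, e1, e2⟩ := SB_prop c₁ c₂ h1 h2 hD
    obtain ⟨m, hm⟩ := hn
    refine ⟨s ^ m, pow_ne_zero m hs, ?_⟩
    funext i
    simp only [Pi.smul_apply, smul_eq_mul, evv]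
    have hi : (i : ℕ) ≤ n := Nat.lt_succ_iff.1 i.2
    have h3 : (s ^ m) ^ 2 = s ^ (i : ℕ) * s ^ (n - (i : ℕ)) := by
      rw [← pow_mul, ← pow_add]
      congr 1
      omega
    rw [e1, e2, mul_pow, mul_pow, h3]
    ring
  · cases n with
    | zero =>
      left
      refine ⟨1, one_ne_zero, ?_⟩
      funext i
      simp only [Pi.smul_apply, smul_eq_mul, evv]
      have hi : (i : ℕ) = 0 := by
        have := i.2
        omega
      rw [hi]
      simp
    | succ n =>
      right
      rw [LinearIndependent.pair_iff]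
      intro a b hab
      refine ⟨SB_one n c₁ c₂ h1 hD a b hab, SB_one n c₂ c₁ h2 ?_ b a ?_⟩
      · intro h
        apply hD
        linear_combination -h
      · exact (add_comm _ _).trans hab

theorem fe_evv {K : Type*} [Field K] {n : ℕ} (Q : Fin (n + 1) → K) (c : K × K) :
    fe Q c.1 c.2 = ∑ i, Q i * evv n c i := by
  unfold fe evv
  refine Finset.sum_congr rfl fun i _ => ?_
  rw [mul_assoc]

end HY
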