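import Pool.Agent.Lib.MP_10e784_agH.PA
import Pool.Agent.Lib.MP_10e784_agH.SA
import Pool.Agent.Lib.MP_10e784_agH.SB

/-!
# LEAF SC: the density of the local condition

PROOF.  `ζ = none`: `Loc` is empty.  `ζ = some (ξ, η)`.  Put `D = d_i d_j ≠ 0`, `u = (ξ + 3 D bq) q_i - 9 D dq(q_i) q_j` (vectors in `(ZMod p)³`).  `u ≠ 0`: otherwise `q_j` is a multiple of `q_i` (`9 D dq(q_i) ≠ 0`, `p ≥ 29`) and `rq = 0`.  For `(x, z)` as in `Loc`: `qe (q i) x z ≠ 0`, so `qe u x z = 0` (multiply the equation of `ζ` by `qe (q i) x z`).  `zeros2`: `c 0`, `c 1`.  `(x, z) = t (c i)`: all the conditions of `Loc` are invariant under scaling (`qe_smul`, `fe_smul`, `n + 6` and `n` even: replace `s` by `s / t`, and the last expression is multiplied by `t ^ (n + 6)`, a square), so they hold for `(x, z) = c i`.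
If for `c = c i` there are `s_k ≠ 0` with `qe (q k) c = d_k s_k²` then `qe₀ qe₁ qe₂ (c) = δ σ²`, `δ = d₀ d₁ d₂`, `σ = s₀ s₁ s₂`, and `δ (fe f c + δ σ² fe Q c) = (δ σ)² (fe Q c + e)`, `e = fe f c / (δ σ²)`, so `fe Q c + e` is a square.  So `Loc` is contained in `{Q | IsSquare (⟨evv n (c 0), Q⟩ + e₀) ∨ IsSquare (⟨evv n (c 1), Q⟩ + e₁)}` with suitable `e₀`, `e₁` (`0` if there are no such `s_k`): `dens2`, `evv_dich`, `evv_ne`, `fe_evv`.
-/

set_option autoImplicit false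

namespace HY

private theorem SC_e {p : ℕ} [Fact p.Prime] {n : ℕ} (hn : Even n) (q : Fin 3 → Fin 3 → ZMod p)
    (f : Fin (n + 6 + 1) → ZMod p) (d : Fin 3 → ZMod p) (hd : ∀ k, d k ≠ 0) (c : ZMod p × ZMod p) :
    ∃ e : ZMod p, ∀ (Q : Fin (n + 1) → ZMod p) (t : ZMod p), t ≠ 0 →
      (∀ k, ∃ s, s ≠ 0 ∧ qe (q k) (t * c.1) (t * c.2) = d k * s ^ 2) →
      IsSquare (d 0 * d 1 * d 2 * (fe f (t * c.1) (t * c.2) + qe (q 0) (t * c.1) (t * c.2) *
        qe (q 1) (t * c.1) (t * c.2) * qe (q 2) (t * c.1) (t * c.2) * fe Q (t * c.1) (t * c.2))) →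
      IsSquare (∑ i, Q i * evv n c i + e) := by
  by_cases hS : ∀ k, ∃ s, s ≠ 0 ∧ qe (q k) c.1 c.2 = d k * s ^ 2
  · choose s hs0 hs using hS
    obtain ⟨m, hm⟩ := hn
    have hδ : d 0 * d 1 * d 2 ≠ 0 := mul_ne_zero (mul_ne_zero (hd 0) (hd 1)) (hd 2)
    have hσ : s 0 * s 1 * s 2 ≠ 0 := mul_ne_zero (mul_ne_zero (hs0 0) (hs0 1)) (hs0 2)
    refine ⟨fe f c.1 c.2 / (d 0 * d 1 * d 2 * (s 0 * s 1 * s 2) ^ 2), ?_⟩
    intro Q t ht _ hsq
    rw [← fe_evv]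
    rw [fe_smul, fe_smul, qe_smul, qe_smul, qe_smul, hs 0, hs 1, hs 2] at hsq
    obtain ⟨r, hr⟩ := hsq
    have hτ : t ^ (m + 3) * (d 0 * d 1 * d 2) * (s 0 * s 1 * s 2) ≠ 0 :=
      mul_ne_zero (mul_ne_zero (pow_ne_zero _ ht) hδ) hσ
    have h6 : t ^ (n + 6) = (t ^ (m + 3)) ^ 2 := by
      rw [← pow_mul]
      congr 1
      omega
    have h7 : t ^ (n + 6) = t ^ 6 * t ^ n := by
      rw [← pow_add]
      congr 1
      omega
    refine ⟨r / (t ^ (m + 3) * (d 0 * d 1 * d 2) * (s 0 * s 1 * s 2)), ?_⟩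
    rw [div_mul_div_comm, ← hr, eq_div_iff (mul_ne_zero hτ hτ)]
    have h8 : fe f c.1 c.2 / (d 0 * d 1 * d 2 * (s 0 * s 1 * s 2) ^ 2) *
        (d 0 * d 1 * d 2 * (s 0 * s 1 * s 2) ^ 2) = fe f c.1 c.2 :=
      div_mul_cancel₀ _ (mul_ne_zero hδ (pow_ne_zero 2 hσ))
    calc (fe Q c.1 c.2 + fe f c.1 c.2 / (d 0 * d 1 * d 2 * (s 0 * s 1 * s 2) ^ 2)) *
        (t ^ (m + 3) * (d 0 * d 1 * d 2) * (s 0 * s 1 * s 2) *
          (t ^ (m + 3) * (d 0 * d 1 * d 2) * (s 0 * s 1 * s 2)))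
        = (t ^ (m + 3)) ^ 2 * (d 0 * d 1 * d 2) * ((d 0 * d 1 * d 2) * (s 0 * s 1 * s 2) ^ 2 *
          fe Q c.1 c.2 + fe f c.1 c.2 / (d 0 * d 1 * d 2 * (s 0 * s 1 * s 2) ^ 2) *
            (d 0 * d 1 * d 2 * (s 0 * s 1 * s 2) ^ 2)) := by ring
      _ = t ^ (n + 6) * (d 0 * d 1 * d 2) * ((d 0 * d 1 * d 2) * (s 0 * s 1 * s 2) ^ 2 *
          fe Q c.1 c.2 + fe f c.1 c.2) := by rw [h8, h6]
      _ = d 0 * d 1 * d 2 * (t ^ (n + 6) * fe f c.1 c.2 + t ^ (n + 6) *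
          ((d 0 * d 1 * d 2) * (s 0 * s 1 * s 2) ^ 2 * fe Q c.1 c.2)) := by ring
      _ = d 0 * d 1 * d 2 * (t ^ (n + 6) * fe f c.1 c.2 + t ^ 6 * t ^ n *
          ((d 0 * d 1 * d 2) * (s 0 * s 1 * s 2) ^ 2 * fe Q c.1 c.2)) := by rw [← h7]
      _ = _ := by ring
  · refine ⟨0, ?_⟩
    intro Q t ht hk _
    exfalso
    apply hS
    intro k
    obtain ⟨s, hs0, hs⟩ := hk k
    refine ⟨s / t, div_ne_zero hs0 ht, ?_⟩
    rw [qe_smul] at hs
    rw [div_pow, ← mul_div_assoc, ← hs, mul_comm, mul_div_assoc, div_self (pow_ne_zero 2 ht), mul_one]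

private theorem SC_nz {p : ℕ} [Fact p.Prime] (hp : 29 ≤ p) : (3 : ZMod p) ≠ 0 := by
  intro h
  have h1 : ((3 : ℕ) : ZMod p) = 0 := by exact_mod_cast h
  rw [ZMod.natCast_eq_zero_iff] at h1
  have := Nat.le_of_dvd (by norm_num) h1
  omega

theorem loc_dens {p : ℕ} [Fact p.Prime] (hp : 29 ≤ p) {n : ℕ} (hn : Even n) (q : Fin 3 → Fin 3 → ZMod p)
    (f : Fin (n + 6 + 1) → ZMod p) (d : Fin 3 → ZMod p) (hd : ∀ k, d k ≠ 0) (i j : Fin 3) (hi : dq (q i) ≠ 0)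
    (hr : rq (q i) (q j) ≠ 0) (ζ : Option (ZMod p × ZMod p)) :
    (Nat.card (Loc p n q f d i j ζ) : ℝ) ≤ 4 / 5 * (p : ℝ) ^ (n + 1) := by
  rcases ζ with _ | ⟨ξ, η⟩
  · have h0 : Loc p n q f d i j none = ∅ := by
      rw [Set.eq_empty_iff_forall_notMem]
      rintro Q ⟨x, z, _, _, ⟨η, hη⟩, _⟩
      exact absurd hη (by simp)
    have h1 : Nat.card (Loc p n q f d i j none) = 0 := by
      rw [h0]
      exact Nat.card_of_isEmpty
    rw [h1, Nat.cast_zero]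
    positivity
  · have h3 := SC_nz (p := p) hp
    have hD : d i * d j ≠ 0 := mul_ne_zero (hd i) (hd j)
    obtain ⟨A, hA⟩ : ∃ A : ZMod p, A = ξ + 3 * (d i * d j) * bq (q i) (q j) := ⟨_, rfl⟩
    obtain ⟨B, hB⟩ : ∃ B : ZMod p, B = 9 * (d i * d j) * dq (q i) := ⟨_, rfl⟩
    have hB0 : B ≠ 0 := by
      rw [hB]
      have h9 : (9 : ZMod p) ≠ 0 := by
        have : (9 : ZMod p) = 3 * 3 := by norm_num
        rw [this]
        exact mul_ne_zero h3 h3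
      exact mul_ne_zero (mul_ne_zero h9 hD) hi
    obtain ⟨u, hu⟩ : ∃ u : Fin 3 → ZMod p, ∀ m, u m = A * q i m - B * q j m := ⟨_, fun _ => rfl⟩
    have hu0 : u ≠ 0 := by
      intro h0
      have e : ∀ m, B * q j m = A * q i m := by
        intro m
        have h1 := hu m
        rw [h0, Pi.zero_apply] at h1
        linear_combination h1
      apply hr
      have m1 : q i 0 * q j 2 - q i 2 * q j 0 = 0 := by
        refine (mul_eq_zero.1 ?_).resolve_left hB0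
        linear_combination (q i 0) * e 2 - (q i 2) * e 0
      have m2 : q i 2 * q j 1 - q i 1 * q j 2 = 0 := by
        refine (mul_eq_zero.1 ?_).resolve_left hB0
        linear_combination (q i 2) * e 1 - (q i 1) * e 2
      unfold rq
      rw [m1, m2]
      ring
    obtain ⟨c, hc0, hc⟩ := zeros2 u hu0
    obtain ⟨e₀, he₀⟩ := SC_e hn q f d hd (c 0)
    obtain ⟨e₁, he₁⟩ := SC_e hn q f d hd (c 1)
    have hsub : Loc p n q f d i j (some (ξ, η)) ⊆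
        {Q : Fin (n + 1) → ZMod p | IsSquare (∑ i, Q i * evv n (c 0) i + e₀) ∨
          IsSquare (∑ i, Q i * evv n (c 1) i + e₁)} := by
      rintro Q ⟨x, z, hxz, hk, ⟨η', hη⟩, hsq⟩
      have hξ : ξ = 9 * (d i * d j) * dq (q i) * qe (q j) x z * (qe (q i) x z)⁻¹ -
          3 * (d i * d j) * bq (q i) (q j) := (Prod.mk.inj (Option.some.inj hη)).1
      have hqi : qe (q i) x z ≠ 0 := by
        obtain ⟨s, hs0, hs⟩ := hk i
        rw [hs]
        exact mul_ne_zero (hd i) (pow_ne_zero 2 hs0)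
      have h1 : A * qe (q i) x z = B * qe (q j) x z := by
        rw [hA, hB, hξ, sub_add_cancel, mul_assoc, inv_mul_cancel₀ hqi, mul_one]
      have h2 : qe u x z = 0 := by
        have h4 : qe u x z = A * qe (q i) x z - B * qe (q j) x z := by
          unfold qe
          rw [hu, hu, hu]
          ring
        rw [h4, h1, sub_self]
      obtain ⟨a, t, ht, hx, hz⟩ := hc x z hxz h2
      rw [hx, hz] at hk hsq
      fin_cases a
      · exact Or.inl (he₀ Q t ht hk hsq)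
      · exact Or.inr (he₁ Q t ht hk hsq)
    have hcard := Nat.card_mono (Set.toFinite _) hsub
    have hd2 := dens2 hp (evv n (c 0)) (evv n (c 1)) (evv_ne n (c 0) (hc0 0))
      (evv_dich hn (c 0) (c 1) (hc0 0) (hc0 1)) e₀ e₁
    rw [Fintype.card_fin] at hd2
    refine le_trans ?_ hd2
    exact_mod_cast hcard

end HY
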