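import Pool.Agent.Lib.MP_10e784_agH.Defs
import Pool.Agent.Lib.MP_10e784_agW.Defs

/-!
# Blocks P, S: definitions
-/

set_option autoImplicit false

namespace HY

open Finset Polynomial MWS

/-- reduction modulo `p` of the quadratic forms -/
def cq (p : ℕ) (q : Fin 3 → Fin 3 → ℤ) : Fin 3 → Fin 3 → ZMod p := fun i j => ((q i j : ℤ) : ZMod p)

/-- reduction modulo `p` of an integral vector -/
def cf (p : ℕ) {ι : Type} (f : ι → ℤ) : ι → ZMod p := fun i => ((f i : ℤ) : ZMod p)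

/-- the local condition: `Q` such that the curve `y² = q₁ q₂ q₃ (f + q₁ q₂ q₃ Q)` has a point `(x, z)` modulo `p` with
`q_k(x, z) = d_k · square`, which gives on `E_ij` twisted by `d_i d_j` a point with reduction `ζ` -/
def Loc (p n : ℕ) (q : Fin 3 → Fin 3 → ZMod p) (f : Fin (n + 6 + 1) → ZMod p) (d : Fin 3 → ZMod p) (i j : Fin 3)
    (ζ : Option (ZMod p × ZMod p)) : Set (Fin (n + 1) → ZMod p) :=
  {Q | ∃ x z : ZMod p, (x ≠ 0 ∨ z ≠ 0) ∧ (∀ k, ∃ s, s ≠ 0 ∧ qe (q k) x z = d k * s ^ 2) ∧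
    (∃ η, ζ = some (9 * (d i * d j) * dq (q i) * qe (q j) x z * (qe (q i) x z)⁻¹ - 3 * (d i * d j) * bq (q i) (q j), η)) ∧
    IsSquare (d 0 * d 1 * d 2 * (fe f x z + qe (q 0) x z * qe (q 1) x z * qe (q 2) x z * fe Q x z))}

/-- the vector of the values of the monomials of degree `n` -/
def evv {K : Type*} [Field K] (n : ℕ) (c : K × K) : Fin (n + 1) → K := fun i => c.1 ^ (i : ℕ) * c.2 ^ (n - (i : ℕ))

end HY
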