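import Pool.Agent.Lib.MP_10e784_agH.PA
import Pool.Agent.Lib.MP_10e784_agBS.S6

/-!
# LEAF SE: a trivial twist

PROOF.  `pair_sq`: `(d₀ d₁)(d₀ d₂)(d₁ d₂)` is a square, and the product of three (or of one) nonsquares is not a square (`quadraticChar` is multiplicative with values `±1` on nonzero elements): one of the three products is a square.
`nz_tw`: `(x, y) ↦ (s² x, s³ y)` is a bijection between the solutions.
`na_dvd`: `D` is a nonzero square modulo `p`, `D = s²`: `na (D² A) (D³ B) p = nz (s⁴ A) (s⁶ B) = nz A B` (`na` unfolds to `nz` of the casts), `Aq_map`, `Bq_map` for the cast, and `Gk_dvd` (`MP_10e784_agBS/S6.lean`, with `k = 1`).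
`good_dsc`: `p ∤ dsc (D² Aq) (D³ Bq)`: `(D² Aq, D³ Bq)` modulo `p` has `4 (D² A)³ + 27 (D³ B)² = D⁶ (4 A³ + 27 B²) ≠ 0` by `Gk`.
-/

set_option autoImplicit false

namespace HY

open MWS

theorem pair_sq {p : ℕ} [Fact p.Prime] (d : Fin 3 → ZMod p) (hd : ∀ i, d i ≠ 0) :
    ∃ i j : Fin 3, i < j ∧ IsSquare (d i * d j) := by
  classical
  have h1 : ∀ i j : Fin 3, quadraticChar (ZMod p) (d i) = quadraticChar (ZMod p) (d j) →
      IsSquare (d i * d j) := by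
    intro i j hij
    refine (quadraticChar_one_iff_isSquare (mul_ne_zero (hd i) (hd j))).1 ?_
    rw [map_mul, hij]
    rcases quadraticChar_dichotomy (hd j) with h | h
    · rw [h, one_mul]
    · rw [h]
      norm_num
  rcases quadraticChar_dichotomy (hd 0) with h0 | h0
  · rcases quadraticChar_dichotomy (hd 1) with h2 | h2
    · exact ⟨0, 1, by decide, h1 0 1 (h0.trans h2.symm)⟩
    · rcases quadraticChar_dichotomy (hd 2) with h3 | h3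
      · exact ⟨0, 2, by decide, h1 0 2 (h0.trans h3.symm)⟩
      · exact ⟨1, 2, by decide, h1 1 2 (h2.trans h3.symm)⟩
  · rcases quadraticChar_dichotomy (hd 1) with h2 | h2
    · rcases quadraticChar_dichotomy (hd 2) with h3 | h3
      · exact ⟨1, 2, by decide, h1 1 2 (h2.trans h3.symm)⟩
      · exact ⟨0, 2, by decide, h1 0 2 (h0.trans h3.symm)⟩
    · exact ⟨0, 1, by decide, h1 0 1 (h0.trans h2.symm)⟩

theorem nz_tw {p : ℕ} [Fact p.Prime] (s A B : ZMod p) (hs : s ≠ 0) : nz (s ^ 4 * A) (s ^ 6 * B) = nz A B := by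
  symm
  refine Nat.card_congr ?_
  refine
    { toFun := fun z => ⟨(s ^ 2 * z.1.1, s ^ 3 * z.1.2), ?_⟩
      invFun := fun z => ⟨((s ^ 2)⁻¹ * z.1.1, (s ^ 3)⁻¹ * z.1.2), ?_⟩
      left_inv := fun z => ?_
      right_inv := fun z => ?_ }
  · have h := z.2
    show (s ^ 3 * z.1.2) ^ 2 = (s ^ 2 * z.1.1) ^ 3 + s ^ 4 * A * (s ^ 2 * z.1.1) + s ^ 6 * B
    rw [mul_pow, h]
    ring
  · have h := z.2
    show ((s ^ 3)⁻¹ * z.1.2) ^ 2 = ((s ^ 2)⁻¹ * z.1.1) ^ 3 + A * ((s ^ 2)⁻¹ * z.1.1) + B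
    rw [mul_pow, h]
    field_simp
  · refine Subtype.ext (Prod.ext ?_ ?_)
    · show (s ^ 2)⁻¹ * (s ^ 2 * z.1.1) = z.1.1
      rw [inv_mul_cancel_left₀ (pow_ne_zero _ hs)]
    · show (s ^ 3)⁻¹ * (s ^ 3 * z.1.2) = z.1.2
      rw [inv_mul_cancel_left₀ (pow_ne_zero _ hs)]
  · refine Subtype.ext (Prod.ext ?_ ?_)
    · show s ^ 2 * ((s ^ 2)⁻¹ * z.1.1) = z.1.1
      rw [mul_inv_cancel_left₀ (pow_ne_zero _ hs)]
    · show s ^ 3 * ((s ^ 3)⁻¹ * z.1.2) = z.1.2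
      rw [mul_inv_cancel_left₀ (pow_ne_zero _ hs)]

private theorem SE_castA (p : ℕ) (q : Fin 3 → Fin 3 → ℤ) (i j : Fin 3) (D : ℤ) :
    ((D ^ 2 * Aq (q i) (q j) : ℤ) : ZMod p) = (D : ZMod p) ^ 2 * Aq (cq p q i) (cq p q j) := by
  have h1 := Aq_map (Int.castRingHom (ZMod p)) (q i) (q j)
  rw [Int.cast_mul, Int.cast_pow]
  exact congrArg (fun t => (D : ZMod p) ^ 2 * t) h1.symm

private theorem SE_castB (p : ℕ) (q : Fin 3 → Fin 3 → ℤ) (i j : Fin 3) (D : ℤ) :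
    ((D ^ 3 * Bq (q i) (q j) : ℤ) : ZMod p) = (D : ZMod p) ^ 3 * Bq (cq p q i) (cq p q j) := by
  have h1 := Bq_map (Int.castRingHom (ZMod p)) (q i) (q j)
  rw [Int.cast_mul, Int.cast_pow]
  exact congrArg (fun t => (D : ZMod p) ^ 3 * t) h1.symm

theorem na_dvd {p X U Y e : ℕ} (hp : p.Prime) (hpX : p ≤ X) (q : Fin 3 → Fin 3 → ℤ) {i j : Fin 3}
    (hg : Gk p U 1 (Aq (cq p q i) (cq p q j), Bq (cq p q i) (cq p q j))) (hU : 1 ≤ U) (h1 : 4 * U ≤ Y)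
    (h2 : 3 * X ≤ Y * U) (h3 : 3 * X ≤ 2 ^ e) (D : ℤ) (hD : ((D : ℤ) : ZMod p) ≠ 0)
    (hs : IsSquare ((D : ℤ) : ZMod p)) :
    na (D ^ 2 * Aq (q i) (q j)) (D ^ 3 * Bq (q i) (q j)) p + 1 ∣ primorial Y ^ e := by
  have hf : Fact p.Prime := ⟨hp⟩
  obtain ⟨s, hs⟩ := hs
  have hs0 : s ≠ 0 := by
    rintro rfl
    rw [mul_zero] at hs
    exact hD hs
  have h4 : na (D ^ 2 * Aq (q i) (q j)) (D ^ 3 * Bq (q i) (q j)) p =
      nz (Aq (cq p q i) (cq p q j)) (Bq (cq p q i) (cq p q j)) := by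
    have h5 : na (D ^ 2 * Aq (q i) (q j)) (D ^ 3 * Bq (q i) (q j)) p =
        nz ((D ^ 2 * Aq (q i) (q j) : ℤ) : ZMod p) ((D ^ 3 * Bq (q i) (q j) : ℤ) : ZMod p) := rfl
    rw [h5, SE_castA, SE_castB, hs]
    have h6 : (s * s) ^ 2 = s ^ 4 := by ring
    have h7 : (s * s) ^ 3 = s ^ 6 := by ring
    rw [h6, h7]
    exact nz_tw s _ _ hs0
  rw [h4]
  exact Gk_dvd hp hpX hg hU h1 (by rw [pow_one]; exact h2) h3

theorem good_dsc {p U : ℕ} (hp : p.Prime) (q : Fin 3 → Fin 3 → ℤ) {i j : Fin 3}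
    (hg : Gk p U 1 (Aq (cq p q i) (cq p q j), Bq (cq p q i) (cq p q j))) (D : ℤ) (hD : ((D : ℤ) : ZMod p) ≠ 0) :
    ¬ (p : ℤ) ∣ dsc (D ^ 2 * Aq (q i) (q j)) (D ^ 3 * Bq (q i) (q j)) := by
  have hf : Fact p.Prime := ⟨hp⟩
  intro hdv
  have h1 := (ZMod.intCast_zmod_eq_zero_iff_dvd _ p).2 hdv
  have h2 : ((dsc (D ^ 2 * Aq (q i) (q j)) (D ^ 3 * Bq (q i) (q j)) : ℤ) : ZMod p) =
      4 * ((D ^ 2 * Aq (q i) (q j) : ℤ) : ZMod p) ^ 3 + 27 * ((D ^ 3 * Bq (q i) (q j) : ℤ) : ZMod p) ^ 2 := by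
    unfold dsc
    rw [Int.cast_add, Int.cast_mul, Int.cast_mul, Int.cast_pow, Int.cast_pow, Int.cast_ofNat, Int.cast_ofNat]
  rw [h2, SE_castA, SE_castB] at h1
  have h3 : 4 * ((D : ZMod p) ^ 2 * Aq (cq p q i) (cq p q j)) ^ 3 +
      27 * ((D : ZMod p) ^ 3 * Bq (cq p q i) (cq p q j)) ^ 2 =
      (D : ZMod p) ^ 6 * (4 * Aq (cq p q i) (cq p q j) ^ 3 + 27 * Bq (cq p q i) (cq p q j) ^ 2) := by
    ring
  rw [h3] at h1
  rcases mul_eq_zero.1 h1 with h4 | h4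
  · exact hD (pow_eq_zero_iff (by norm_num) |>.1 h4)
  · exact hg.1 h4

end HY
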