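import Pool.Agent.Lib.MP_10e784_agH.PG
import Pool.Agent.Lib.MP_10e784_agH.PB
import Pool.Agent.Lib.MP_10e784_agH.SE
import Pool.Agent.Lib.MP_10e784_agW.RC
import Pool.Agent.Lib.MP_10e784_agW.RD

/-!
# LEAF SF: the local condition for a solution

PROOF.  `p ∤ qe (q k) x z` for all `k`: otherwise in `ZMod p` the form `q_k` has the zero `(x, z) ≠ (0, 0)` and its discriminant is a square (`4 v₂ qe = (2 v₂ x + v₁ z)² - dq z²`, and `4 v₀ qe = (2 v₀ z + v₁ x)² - dq x²`), contradiction to `good`.  The reduction of `P` is that of `r₀`: `rd_class` (`MP_10e784_agW/RC.lean`) and the killing of `Pt (ZMod p) A B` by `L` (as the private `S4_kill`, `S4_class` in `MP_10e784_agBS/S4.lean`: `Nat.card = na + 1 ∣ L`).  `hPr` for `p` gives the third condition of `Loc` (casts: `qe_map`, `dq_map`, `bq_map` for `Int.castRingHom`), `hk` the second (`k_i ≠ 0` modulo `p` because `p ∤ qe`), `hsq` the fourth (`fe_add`,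 `fe_mulF`, `fe_map`).
-/

set_option autoImplicit false

namespace HY

open MWS

private theorem SF_ne {p : ℕ} [Fact p.Prime] (v : Fin 3 → ZMod p) (hv : ¬ IsSquare (dq v)) {x z : ZMod p}
    (h : x ≠ 0 ∨ z ≠ 0) : qe v x z ≠ 0 := by
  intro h0
  by_cases hz : z = 0
  · have hx : x ≠ 0 := by
      rcases h with h | h
      · exact h
      · exact absurd hz h
    refine hv ⟨(2 * v 0 * z + v 1 * x) / x, ?_⟩
    rw [div_mul_div_comm, eq_div_iff (mul_ne_zero hx hx)]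
    unfold dq
    unfold qe at h0
    linear_combination (-4 * v 0) * h0
  · refine hv ⟨(2 * v 2 * x + v 1 * z) / z, ?_⟩
    rw [div_mul_div_comm, eq_div_iff (mul_ne_zero hz hz)]
    unfold dq
    unfold qe at h0
    linear_combination (-4 * v 2) * h0

private theorem SF_kill {p : ℕ} [Fact p.Prime] {α β : ℤ} (hp2 : p ≠ 2) (hd : ¬ (p : ℤ) ∣ dsc α β) {L : ℕ}
    (hL : na α β p + 1 ∣ L) (P : Pt (ZMod p) α β) : L • P = 0 := by
  have h1 : Nat.card (Pt (ZMod p) α β) = na α β p + 1 := by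
    rw [Nat.card_congr (RD_equiv hp2 hd), Finite.card_option]
    rfl
  obtain ⟨t, rfl⟩ := hL
  rw [← h1, mul_comm, mul_nsmul', card_nsmul_eq_zero', nsmul_zero]

theorem mem_loc {n : ℕ} (q : Fin 3 → Fin 3 → ℤ) (f : Fin (n + 6 + 1) → ℤ) (Q : Fin (n + 1) → ℤ) {x z : ℤ}
    (hc : IsCoprime x z) (d k : Fin 3 → ℤ) (hk : ∀ i, qe (q i) x z = d i * k i ^ 2)
    (hsq : IsSquare (d 0 * d 1 * d 2 * fe (f + mulF q Q) x z)) {p U : ℕ} (hp : p.Prime) (hp5 : 5 ≤ p)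
    (hg : good p U (cq p q)) {i j : Fin 3} {L : ℕ}
    (hd : ¬ (p : ℤ) ∣ dsc ((d i * d j) ^ 2 * Aq (q i) (q j)) ((d i * d j) ^ 3 * Bq (q i) (q j)))
    (hL : na ((d i * d j) ^ 2 * Aq (q i) (q j)) ((d i * d j) ^ 3 * Bq (q i) (q j)) p + 1 ∣ L)
    (P r₀ Q' : Pt ℚ ((d i * d j) ^ 2 * Aq (q i) (q j)) ((d i * d j) ^ 3 * Bq (q i) (q j)))
    (hP : P = r₀ + L • Q')
    (hPr : ∀ p : ℕ, p.Prime → ¬ (p : ℤ) ∣ qe (q i) x z →
      ∃ η : ZMod p, rd p P = some (((9 * (d i * d j) * dq (q i) * qe (q j) x z : ℤ) : ZMod p) *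
        ((qe (q i) x z : ℤ) : ZMod p)⁻¹ - ((3 * (d i * d j) * bq (q i) (q j) : ℤ) : ZMod p), η)) :
    cf p Q ∈ Loc p n (cq p q) (cf p f) (cf p d) i j (rd p r₀) := by
  have : Fact p.Prime := ⟨hp⟩
  have hp2 : p ≠ 2 := by omega
  have hxz : ((x : ℤ) : ZMod p) ≠ 0 ∨ ((z : ℤ) : ZMod p) ≠ 0 := by
    by_contra hcon
    push Not at hcon
    obtain ⟨h1, h2⟩ := hcon
    obtain ⟨a, b, hab⟩ := hc
    have h3 : ((a * x + b * z : ℤ) : ZMod p) = ((1 : ℤ) : ZMod p) := by rw [hab]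
    push_cast at h3
    rw [h1, h2] at h3
    simp at h3
  have hqe : ∀ t : Fin 3, qe (cq p q t) ((x : ℤ) : ZMod p) ((z : ℤ) : ZMod p) = ((qe (q t) x z : ℤ) : ZMod p) :=
    fun t => qe_map (Int.castRingHom (ZMod p)) (q t) x z
  have hdq : ∀ t : Fin 3, dq (cq p q t) = ((dq (q t) : ℤ) : ZMod p) :=
    fun t => dq_map (Int.castRingHom (ZMod p)) (q t)
  have hbq : bq (cq p q i) (cq p q j) = ((bq (q i) (q j) : ℤ) : ZMod p) :=
    bq_map (Int.castRingHom (ZMod p)) (q i) (q j)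
  have hne : ∀ t : Fin 3, ((qe (q t) x z : ℤ) : ZMod p) ≠ 0 := by
    intro t
    rw [← hqe t]
    exact SF_ne _ (hg.1 t) hxz
  refine ⟨((x : ℤ) : ZMod p), ((z : ℤ) : ZMod p), hxz, fun t => ?_, ?_, ?_⟩
  · refine ⟨((k t : ℤ) : ZMod p), ?_, ?_⟩
    · intro h0
      apply hne t
      rw [hk t]
      push_cast
      rw [h0]
      ring
    · rw [hqe t, hk t]
      unfold cf
      push_cast
      ring
  · have h1 : ¬ (p : ℤ) ∣ qe (q i) x z := fun h => hne i ((ZMod.intCast_zmod_eq_zero_iff_dvd _ _).2 h)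
    obtain ⟨η, hη⟩ := hPr p hp h1
    refine ⟨η, ?_⟩
    have h2 : rd p P = rd p r₀ := by
      rw [hP]
      exact rd_class hp2 hd L (fun R => SF_kill hp2 hd hL R) r₀ Q'
    rw [← h2, hη, hqe i, hqe j, hdq i, hbq]
    unfold cf
    push_cast
    rfl
  · obtain ⟨y, hy⟩ := hsq
    refine ⟨((y : ℤ) : ZMod p), ?_⟩
    have h3 : fe (cf p f) ((x : ℤ) : ZMod p) ((z : ℤ) : ZMod p) = ((fe f x z : ℤ) : ZMod p) :=
      fe_map (Int.castRingHom (ZMod p)) f x z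
    have h4 : fe (cf p Q) ((x : ℤ) : ZMod p) ((z : ℤ) : ZMod p) = ((fe Q x z : ℤ) : ZMod p) :=
      fe_map (Int.castRingHom (ZMod p)) Q x z
    have h5 : ((d 0 * d 1 * d 2 * fe (f + mulF q Q) x z : ℤ) : ZMod p) = ((y * y : ℤ) : ZMod p) := by rw [hy]
    rw [fe_add, fe_mulF] at h5
    rw [h3, h4, hqe 0, hqe 1, hqe 2]
    unfold cf
    push_cast at h5 ⊢
    exact h5

end HY
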