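import Pool.Agent.Lib.MP_10e784_agH.SC
import Pool.Agent.Lib.MP_10e784_agH.SF
import Pool.Agent.Lib.MP_10e784_agH.PC
import Pool.Agent.Lib.MP_10e784_agH.PE
import Pool.Agent.Lib.MP_10e784_agH.PF
import Pool.Agent.Lib.MP_10e784_agBS.S3
import Pool.Agent.Lib.MP_10e784_agBS.S7
import Pool.Agent.Lib.MP_10e784_agV.VM

/-!
# LEAF SG: the sieve for fixed `q`, `f`

MODEL: `fixed_curve` and `one_curve` in `MP_10e784_agBS/S4.lean`, `S8.lean`.
PROOF.  `T = {p ∈ S : good p U (cq p q)}`, `T' = {p ∈ T : p ∤ RR q f}`: `|T'| ≥ |T| - w` (the `p ∈ T` dividing `RR q f ≠ 0` are prime factors).  If `T' = ∅`: `|T| - w = 0` and the left side is at most `(2 h + 1)^(n+1) ≤ (4 h)^(n+1)` (`h ≥ 1`), all other factors are `≥ 1`.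
`T' ≠ ∅`, `p₀ ∈ T'`.  `L = primorial Y ^ e`, `N = L ^ (t + 1)`.  `s` = the set of `dset` for `RR q f`.  For every triple `d` of elements of `s` which are `≠ 0` and whose prime factors divide `RR q f`, and every pair `i < j`: `few_cls` (`MP_10e784_agBS/S7.lean`) with `hF` for `D = d_i d_j` and `p₀` (`p₀ ∤ dsc`: `good_dsc`, `p₀ ∤ D` because `p₀ ∤ RR`; `2 p₀ + 1 ≤ L` as in `S8.lean`): representatives `r d i j : Fin N → Pt ..`.
Let `Q` be in the box with a solution `(x, z, y)` of `f + mulF q Q`: `qe (q i) x z ≠ 0` (`p₀`: `q_i` has no zero modulo `p₀`), `sol_data` (with `RR_add`), `exists_pt` for the three pairs (`D = d_i d_j`, `k = k_i k_j`), classes `c : Fin 3 → Fin 3 → Fin N`.  For `p ∈ T'`: `p ∤ d_k` for all `k`; `pair_sq` gives a pair (depending only on `p` and `d`: choose it); `na_dvd`, `good_dsc`, `mem_loc`: `cf p Q ∈ Loc p n (cq p q) (cf p f) (cf p d) i j (rd p (r d i j (c i j)))`.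
So the set is contained in the union over `d ∈ s³` and `(c₀₁, c₀₂, c₁₂) ∈ (Fin N)³` of `{Q in the box : ∀ p ∈ T', cf p Q ∈ Loc ..}` (for the `d` not as above: the empty set), and each of these has at most `(4 h)^(n+1) (4/5)^|T'|` elements: `box_crt` as in `fixed_curve` and `loc_dens` (`dq ≠ 0` and `rq ≠ 0` modulo `p` from `p ∤ RR`).
-/

set_option autoImplicit false

namespace HY

open Finset MWS

private theorem SG_pairs {α : Type*} {P : Fin 3 → Fin 3 → α → Prop} (h : ∀ i j : Fin 3, i < j → ∃ a, P i j a) :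
    ∃ c : Fin 3 → α, ∀ i j : Fin 3, i < j → P i j (c (-(i + j))) := by
  obtain ⟨a, ha⟩ := h 0 1 (by decide)
  obtain ⟨b, hb⟩ := h 0 2 (by decide)
  obtain ⟨c, hc⟩ := h 1 2 (by decide)
  refine ⟨![c, b, a], fun i j hij => ?_⟩
  fin_cases i <;> fin_cases j <;> first
    | exact absurd hij (by decide)
    | exact ha
    | exact hb
    | exact hc

private theorem SG_nz {K : Type*} [Field K] (v : Fin 3 → K) {x z : K} (h : x ≠ 0 ∨ z ≠ 0) (h0 : qe v x z = 0) :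
    IsSquare (dq v) := by
  rcases h with h | h
  · have e : (2 * v 0 * z + v 1 * x) ^ 2 - dq v * x ^ 2 = 4 * v 0 * qe v x z := by
      simp only [dq, qe]
      ring
    rw [h0, mul_zero, sub_eq_zero] at e
    refine ⟨(2 * v 0 * z + v 1 * x) / x, ?_⟩
    field_simp
    linear_combination -e
  · have e : (2 * v 2 * x + v 1 * z) ^ 2 - dq v * z ^ 2 = 4 * v 2 * qe v x z := by
      simp only [dq, qe]
      ring
    rw [h0, mul_zero, sub_eq_zero] at e
    refine ⟨(2 * v 2 * x + v 1 * z) / z, ?_⟩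
    field_simp
    linear_combination -e

private theorem SG_union {ι I : Type} [Fintype ι] [DecidableEq ι] [Fintype I] {h : ℕ} (Q : (ι → ℤ) → Prop)
    (R : I → (ι → ℤ) → Prop) (hQ : ∀ c, (∀ i, |c i| ≤ (h : ℤ)) → Q c → ∃ a, R a c) (T : ℝ)
    (hR : ∀ a, (Nat.card {c : ι → ℤ // (∀ i, |c i| ≤ (h : ℤ)) ∧ R a c} : ℝ) ≤ T) :
    (Nat.card {c : ι → ℤ // (∀ i, |c i| ≤ (h : ℤ)) ∧ Q c} : ℝ) ≤ (Fintype.card I : ℝ) * T := by
  have h1 := VM_union (ι := ι) (H := h) (N := Fintype.card I) Q (fun k => R ((Fintype.equivFin I).symm k))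
    (by
      intro c hc hQc
      obtain ⟨a, ha⟩ := hQ c hc hQc
      exact ⟨Fintype.equivFin I a, by simpa using ha⟩)
    1 T zero_le_one (fun k => by
      rw [mul_one]
      exact hR _)
  simpa using h1

private theorem SG_count {n h : ℕ} (T : Finset ℕ) (hT : ∀ p ∈ T, p.Prime) (hq : ∏ p ∈ T, p ≤ h)
    (R : (Fin (n + 1) → ℤ) → Prop) (Z : (p : ℕ) → Set (Fin (n + 1) → ZMod p))
    (hZ : ∀ p ∈ T, (Nat.card (Z p) : ℝ) ≤ 4 / 5 * (p : ℝ) ^ (n + 1)) (hR : ∀ Q, R Q → ∀ p ∈ T, cf p Q ∈ Z p) :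
    (Nat.card {Q : Fin (n + 1) → ℤ // (∀ i, |Q i| ≤ (h : ℤ)) ∧ R Q} : ℝ) ≤
      (4 * (h : ℝ)) ^ (n + 1) * (4 / 5) ^ T.card := by
  classical
  rw [VM_card]
  have hb := box_crt (ι := Fin (n + 1)) T hT (fun _ => h) (fun _ => hq)
    (fun p b => if b ∈ Z p then (1 : ℝ) else 0)
    (fun p b => by split_ifs <;> norm_num) (fun _ => 4 / 5)
    (fun p hp hne => by
      have h3 := hZ p hp
      rw [sum_boole]
      refine le_trans (le_of_eq ?_) (h3.trans (le_of_eq ?_))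
      · rw [Nat.card_eq_fintype_card, Fintype.card_subtype]
      · simp)
  rw [prod_const, prod_const, card_univ, Fintype.card_fin] at hb
  refine le_trans ?_ hb
  rw [card_filter]
  push_cast
  refine sum_le_sum fun c _ => ?_
  rw [prod_boole]
  by_cases hc : R c
  · rw [if_pos hc, if_pos]
    exact fun p hp => hR c hc p hp
  · rw [if_neg hc]
    split_ifs <;> norm_num

private theorem SG_box {n h : ℕ} (hh : 1 ≤ h) (Q : (Fin (n + 1) → ℤ) → Prop) :
    (Nat.card {c : Fin (n + 1) → ℤ // (∀ i, |c i| ≤ (h : ℤ)) ∧ Q c} : ℝ) ≤ (4 * (h : ℝ)) ^ (n + 1) := by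
  classical
  rw [VM_card h Q]
  have h1 : ((Fintype.piFinset (fun _ : Fin (n + 1) => Icc (-(h : ℤ)) h)).filter Q).card ≤ (2 * h + 1) ^ (n + 1) := by
    refine (card_filter_le _ _).trans ?_
    rw [Fintype.card_piFinset, Finset.prod_const, Int.card_Icc, card_univ, Fintype.card_fin]
    refine Nat.pow_le_pow_left ?_ _
    omega
  have h2 : (((Fintype.piFinset (fun _ : Fin (n + 1) => Icc (-(h : ℤ)) h)).filter Q).card : ℝ) ≤
      ((2 * h + 1 : ℕ) : ℝ) ^ (n + 1) := by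
    exact_mod_cast h1
  refine h2.trans ?_
  have h3 : (1 : ℝ) ≤ h := by exact_mod_cast hh
  refine pow_le_pow_left₀ (by positivity) ?_ _
  push_cast
  linarith

private theorem SG_primorial {Y : ℕ} (hY : 4 ≤ Y) : 2 ≤ primorial Y := by
  refine Nat.le_of_dvd (primorial_pos Y) ?_
  unfold primorial
  exact Finset.dvd_prod_of_mem (f := fun p => p) (a := 2)
    (Finset.mem_filter.2 ⟨Finset.mem_range.2 (by omega), Nat.prime_two⟩)

private theorem SG_rq {n : ℕ} (q : Fin 3 → Fin 3 → ℤ) (f : Fin (n + 6 + 1) → ℤ) {i j : Fin 3} (hij : i < j) :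
    rq (q i) (q j) ∣ RR q f := by
  unfold RR
  refine Dvd.dvd.mul_right (Dvd.dvd.mul_left ?_ _) _
  fin_cases i <;> fin_cases j <;> first
    | exact absurd hij (by decide)
    | exact ⟨_, mul_assoc _ _ _⟩
    | exact Dvd.dvd.mul_right (Dvd.intro_left _ rfl) _
    | exact Dvd.intro_left _ rfl

open Classical in
theorem one_fibre {n : ℕ} (hn : Even n) (q : Fin 3 → Fin 3 → ℤ) (f : Fin (n + 6 + 1) → ℤ) (hR : RR q f ≠ 0) {w t : ℕ}
    (hw : (RR q f).natAbs.primeFactors.card ≤ w)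
    (hF : ∀ D : ℤ, D ≠ 0 → (∀ p : ℕ, p.Prime → (p : ℤ) ∣ D → (p : ℤ) ∣ RR q f) → ∀ i j : Fin 3, i < j →
      Few (D ^ 2 * Aq (q i) (q j)) (D ^ 3 * Bq (q i) (q j)) t)
    (S : Finset ℕ) {X U Y e h : ℕ} (hS : ∀ p ∈ S, p.Prime ∧ 29 ≤ p ∧ p ≤ X) (hU : 1 ≤ U) (hY : 4 * U ≤ Y)
    (hX : 3 * X ≤ Y * U) (he : 3 * X ≤ 2 ^ e) (hq : ∏ p ∈ S, p ≤ h) :
    (Nat.card {Q : Fin (n + 1) → ℤ // (∀ i, |Q i| ≤ (h : ℤ)) ∧ Sol q (f + mulF q Q)} : ℝ) ≤
      2 ^ (3 * (w + 1)) * (((primorial Y : ℝ) ^ e) ^ (t + 1)) ^ 3 * ((4 * (h : ℝ)) ^ (n + 1) *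
        (4 / 5) ^ ((S.filter fun p => good p U (cq p q)).card - w)) := by
  have hprod : ∀ T : Finset ℕ, T ⊆ S → ∏ p ∈ T, p ≤ ∏ p ∈ S, p := fun T hT =>
    Finset.prod_le_prod_of_subset_of_one_le' hT fun p hp _ => (hS p hp).1.one_lt.le
  have hh : 1 ≤ h := by
    have := (hprod ∅ (Finset.empty_subset S)).trans hq
    simpa using this
  have hP : 2 ≤ primorial Y := SG_primorial (by omega)
  obtain ⟨T, hTdef⟩ : ∃ T : Finset ℕ, T = S.filter fun p => good p U (cq p q) := ⟨_, rfl⟩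
  rw [← hTdef]
  have hTS : T ⊆ S := by
    rw [hTdef]
    exact Finset.filter_subset _ _
  obtain ⟨T', hT'def⟩ : ∃ T' : Finset ℕ, T' = T.filter fun p : ℕ => ¬ (p : ℤ) ∣ RR q f := ⟨_, rfl⟩
  have hT'T : T' ⊆ T := by
    rw [hT'def]
    exact Finset.filter_subset _ _
  have hT'R : ∀ p ∈ T', ¬ (p : ℤ) ∣ RR q f := fun p hp => by
    rw [hT'def] at hp
    exact (Finset.mem_filter.1 hp).2
  have hTg : ∀ p ∈ T, good p U (cq p q) := fun p hp => by
    rw [hTdef] at hp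
    exact (Finset.mem_filter.1 hp).2
  have hcard : T.card - w ≤ T'.card := by
    have h1 : (T.filter fun p : ℕ => (p : ℤ) ∣ RR q f) ⊆ (RR q f).natAbs.primeFactors := by
      intro p hp
      rw [Finset.mem_filter] at hp
      rw [Nat.mem_primeFactors]
      exact ⟨(hS p (hTS hp.1)).1, Int.natCast_dvd.1 hp.2, by simpa using hR⟩
    have h2 := (Finset.card_le_card h1).trans hw
    have h3 := Finset.card_filter_add_card_filter_not (s := T) (fun p : ℕ => (p : ℤ) ∣ RR q f)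
    rw [hT'def]
    omega
  have hL1 : (1 : ℝ) ≤ (primorial Y : ℝ) ^ e := by
    refine one_le_pow₀ ?_
    have : (2 : ℝ) ≤ primorial Y := by exact_mod_cast hP
    linarith
  have hM : (1 : ℝ) ≤ 2 ^ (3 * (w + 1)) * (((primorial Y : ℝ) ^ e) ^ (t + 1)) ^ 3 :=
    one_le_mul_of_one_le_of_one_le (one_le_pow₀ one_le_two) (one_le_pow₀ (one_le_pow₀ hL1))
  have hpow : ((4 : ℝ) / 5) ^ T'.card ≤ (4 / 5) ^ (T.card - w) :=
    pow_le_pow_of_le_one (by norm_num) (by norm_num) hcard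
  have h4h : (0 : ℝ) ≤ (4 * (h : ℝ)) ^ (n + 1) := by positivity
  suffices hmain : (Nat.card {Q : Fin (n + 1) → ℤ // (∀ i, |Q i| ≤ (h : ℤ)) ∧ Sol q (f + mulF q Q)} : ℝ) ≤
      2 ^ (3 * (w + 1)) * (((primorial Y : ℝ) ^ e) ^ (t + 1)) ^ 3 * ((4 * (h : ℝ)) ^ (n + 1) *
        (4 / 5) ^ T'.card) by
    refine hmain.trans ?_
    refine mul_le_mul_of_nonneg_left (mul_le_mul_of_nonneg_left hpow h4h) (by linarith)
  rcases T'.eq_empty_or_nonempty with hT | ⟨p₀, hp₀⟩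
  · rw [hT, Finset.card_empty, pow_zero, mul_one]
    refine (SG_box hh _).trans ?_
    nlinarith
  obtain ⟨s, hs1, hs2⟩ := dset hR hw
  obtain ⟨L, hL⟩ : ∃ L : ℕ, L = primorial Y ^ e := ⟨_, rfl⟩
  obtain ⟨N, hN⟩ : ∃ N : ℕ, N = L ^ (t + 1) := ⟨_, rfl⟩
  -- the nonzero vectors of square classes
  have hV : ∀ d : Fin 3 → ℤ, (∀ k, ∀ p : ℕ, p.Prime → (p : ℤ) ∣ d k → (p : ℤ) ∣ RR q f) → ∀ p ∈ T', ∀ k,
      ((d k : ℤ) : ZMod p) ≠ 0 := by
    intro d hd p hp k h0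
    exact hT'R p hp (hd k p (hS p (hTS (hT'T hp))).1 ((ZMod.intCast_zmod_eq_zero_iff_dvd (d k) p).1 h0))
  have hDne : ∀ d : Fin 3 → ℤ, (∀ k, ∀ p : ℕ, p.Prime → (p : ℤ) ∣ d k → (p : ℤ) ∣ RR q f) → ∀ p ∈ T',
      ∀ i j, ((d i * d j : ℤ) : ZMod p) ≠ 0 := by
    intro d hd p hp i j
    have : Fact p.Prime := ⟨(hS p (hTS (hT'T hp))).1⟩
    push_cast
    exact mul_ne_zero (hV d hd p hp i) (hV d hd p hp j)
  have hcls : ∀ d : Fin 3 → ℤ, ∀ i j : Fin 3, ∃ r : Fin N → Pt ℚ ((d i * d j) ^ 2 * Aq (q i) (q j))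
      ((d i * d j) ^ 3 * Bq (q i) (q j)), (∀ k, d k ≠ 0) →
        (∀ k, ∀ p : ℕ, p.Prime → (p : ℤ) ∣ d k → (p : ℤ) ∣ RR q f) → i < j →
      ∀ P, ∃ a, ∃ Q', P = r a + L • Q' := by
    intro d i j
    by_cases hd : (∀ k, d k ≠ 0) ∧ (∀ k, ∀ p : ℕ, p.Prime → (p : ℤ) ∣ d k → (p : ℤ) ∣ RR q f) ∧ i < j
    · obtain ⟨hd0, hd1, hij⟩ := hd
      obtain ⟨b1, b2, b3⟩ := hS p₀ (hTS (hT'T hp₀))
      have hg := hTg p₀ (hT'T hp₀)
      have hpd := good_dsc b1 q (hg.2 i j hij) (d i * d j) (hDne d hd1 p₀ hp₀ i j)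
      have hd' : dsc ((d i * d j) ^ 2 * Aq (q i) (q j)) ((d i * d j) ^ 3 * Bq (q i) (q j)) ≠ 0 := by
        intro h0
        exact hpd (by rw [h0]; exact dvd_zero _)
      have hL' : 2 * p₀ + 1 ≤ L := by
        have : 2 ^ e ≤ primorial Y ^ e := Nat.pow_le_pow_left hP e
        omega
      have hfew := hF (d i * d j) (mul_ne_zero (hd0 i) (hd0 j)) (fun p hp hpD => by
        have hp' : Prime (p : ℤ) := Nat.prime_iff_prime_int.1 hp
        rcases hp'.dvd_or_dvd hpD with h1 | h1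
        · exact hd1 i p hp h1
        · exact hd1 j p hp h1) i j hij
      obtain ⟨r, hr⟩ := few_cls hd' hfew b1 (by omega) hpd hL'
      rw [hN]
      exact ⟨r, fun _ _ _ => hr⟩
    · refine ⟨fun _ => 0, fun h1 h2 h3 => absurd ⟨h1, h2, h3⟩ hd⟩
  choose r hr using hcls
  -- the conditions
  let Rr : (Fin 3 → {x // x ∈ s}) × (Fin 3 → Fin N) → (Fin (n + 1) → ℤ) → Prop := fun a Q =>
    (∀ k, ((a.1 k : ℤ)) ≠ 0) ∧ (∀ k, ∀ p : ℕ, p.Prime → (p : ℤ) ∣ (a.1 k : ℤ) → (p : ℤ) ∣ RR q f) ∧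
    ∀ p ∈ T', ∀ i j : Fin 3, i < j → IsSquare ((((a.1 i : ℤ) * (a.1 j : ℤ) : ℤ)) : ZMod p) →
      cf p Q ∈ Loc p n (cq p q) (cf p f) (cf p fun k => (a.1 k : ℤ)) i j
        (rd p (r (fun k => (a.1 k : ℤ)) i j (a.2 (-(i + j)))))
  have hun := SG_union (ι := Fin (n + 1)) (I := (Fin 3 → {x // x ∈ s}) × (Fin 3 → Fin N)) (h := h)
    (fun Q => Sol q (f + mulF q Q)) Rr ?_ ((4 * (h : ℝ)) ^ (n + 1) * (4 / 5) ^ T'.card) ?_
  · refine hun.trans ?_
    refine mul_le_mul_of_nonneg_right ?_ (by positivity)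
    rw [Fintype.card_prod, Fintype.card_fun, Fintype.card_fun, Fintype.card_fin, Fintype.card_fin,
      Fintype.card_coe]
    have e1 : ((s.card : ℝ)) ^ 3 ≤ 2 ^ (3 * (w + 1)) := by
      have : (s.card : ℝ) ≤ 2 ^ (w + 1) := by exact_mod_cast hs1
      refine (pow_le_pow_left₀ (by positivity) this 3).trans (le_of_eq ?_)
      rw [← pow_mul]
      congr 1
      ring
    have e2 : ((N : ℝ)) ^ 3 = (((primorial Y : ℝ) ^ e) ^ (t + 1)) ^ 3 := by
      rw [hN, hL]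
      push_cast
      rfl
    push_cast
    rw [e2]
    exact mul_le_mul_of_nonneg_right e1 (by positivity)
  · -- a solution satisfies one of the conditions
    rintro Q - ⟨x, z, y, hc, hy⟩
    have hg0 := hTg p₀ (hT'T hp₀)
    have hp0 := (hS p₀ (hTS (hT'T hp₀))).1
    have hq0 : ∀ i, qe (q i) x z ≠ 0 := by
      intro i h0
      have : Fact p₀.Prime := ⟨hp0⟩
      refine hg0.1 i (SG_nz (cq p₀ q i) (x := ((x : ℤ) : ZMod p₀)) (z := ((z : ℤ) : ZMod p₀)) ?_ ?_)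
      · by_contra hcon
        push Not at hcon
        have hx : (p₀ : ℤ) ∣ x := (ZMod.intCast_zmod_eq_zero_iff_dvd x p₀).1 hcon.1
        have hz : (p₀ : ℤ) ∣ z := (ZMod.intCast_zmod_eq_zero_iff_dvd z p₀).1 hcon.2
        have hu := hc.isUnit_of_dvd' hx hz
        exact (Nat.prime_iff_prime_int.1 hp0).not_isUnit hu
      · have := qe_map (Int.castRingHom (ZMod p₀)) (q i) x z
        rw [h0, map_zero] at this
        exact this
    obtain ⟨d, k, hk, hsf, hdR, hsq⟩ := sol_data (m := n + 6) (by omega) q (f + mulF q Q) hc hy hq0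
    rw [RR_add] at hdR
    have hd0 : ∀ i, d i ≠ 0 := by
      intro i h0
      have := hk i
      rw [h0, zero_mul] at this
      exact hq0 i this
    obtain ⟨c, hc'⟩ := SG_pairs (α := Fin N) (P := fun i j a => ∀ p ∈ T', IsSquare (((d i * d j : ℤ)) : ZMod p) →
        cf p Q ∈ Loc p n (cq p q) (cf p f) (cf p d) i j (rd p (r d i j a))) (by
      intro i j hij
      have hpd0 := good_dsc hp0 q (hg0.2 i j hij) (d i * d j) (hDne d hdR p₀ hp₀ i j)
      have hd' : dsc ((d i * d j) ^ 2 * Aq (q i) (q j)) ((d i * d j) ^ 3 * Bq (q i) (q j)) ≠ 0 := by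
        intro h0
        exact hpd0 (by rw [h0]; exact dvd_zero _)
      obtain ⟨P, hP'⟩ := exists_pt (q i) (q j) (d i * d j) (k i * k j) x z hd' (hq0 i) (by
        rw [hk i, hk j]
        ring)
      obtain ⟨a, Q', hPa⟩ := hr d i j hd0 hdR hij P
      refine ⟨a, fun p hp hsq' => ?_⟩
      obtain ⟨c1, c2, c3⟩ := hS p (hTS (hT'T hp))
      have hg := hTg p (hT'T hp)
      refine mem_loc q f Q hc d k hk hsq c1 (by omega) hg (L := L) ?_ ?_ P _ Q' hPa hP'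
      · exact good_dsc c1 q (hg.2 i j hij) (d i * d j) (hDne d hdR p hp i j)
      · rw [hL]
        exact na_dvd c1 c3 q (hg.2 i j hij) hU hY hX he (d i * d j) (hDne d hdR p hp i j) hsq')
    refine ⟨(fun i => ⟨d i, hs2 (d i) (hsf i) (hdR i)⟩, c), hd0, hdR, fun p hp i j hij hsq' => ?_⟩
    exact hc' i j hij p hp hsq'
  · -- the number for one condition
    rintro ⟨a1, a2⟩
    by_cases hV' : (∀ k, ((a1 k : ℤ)) ≠ 0) ∧ (∀ k, ∀ p : ℕ, p.Prime → (p : ℤ) ∣ (a1 k : ℤ) → (p : ℤ) ∣ RR q f)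
    · obtain ⟨v0, v1⟩ := hV'
      have key : ∀ p : ℕ, ∃ Z : Set (Fin (n + 1) → ZMod p), p ∈ T' →
          ((Nat.card Z : ℝ) ≤ 4 / 5 * (p : ℝ) ^ (n + 1) ∧ ∀ Q, Rr (a1, a2) Q → cf p Q ∈ Z) := by
        intro p
        by_cases hp : p ∈ T'
        · obtain ⟨c1, c2, c3⟩ := hS p (hTS (hT'T hp))
          have : Fact p.Prime := ⟨c1⟩
          have hdn : ∀ k, cf p (fun k => (a1 k : ℤ)) k ≠ 0 := hV (fun k => (a1 k : ℤ)) v1 p hp
          obtain ⟨i, j, hij, hsq⟩ := pair_sq (cf p fun k => (a1 k : ℤ)) hdn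
          refine ⟨Loc p n (cq p q) (cf p f) (cf p fun k => (a1 k : ℤ)) i j
            (rd p (r (fun k => (a1 k : ℤ)) i j (a2 (-(i + j))))), fun _ => ⟨?_, fun Q hQ => ?_⟩⟩
          · refine loc_dens c2 hn _ _ _ hdn i j ?_ ?_ _
            · intro h0
              exact (hTg p (hT'T hp)).1 i (by rw [h0]; exact IsSquare.zero)
            · intro h0
              have h1 := rq_map (Int.castRingHom (ZMod p)) (q i) (q j)
              have h2 : ((rq (q i) (q j) : ℤ) : ZMod p) = 0 := by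
                rw [← h0]
                exact h1.symm
              exact hT'R p hp (((ZMod.intCast_zmod_eq_zero_iff_dvd _ p).1 h2).trans (SG_rq q f hij))
          · refine hQ.2.2 p hp i j hij ?_
            have e3 : ((((a1 i : ℤ) * (a1 j : ℤ) : ℤ)) : ZMod p) =
                cf p (fun k => (a1 k : ℤ)) i * cf p (fun k => (a1 k : ℤ)) j := by
              simp only [cf]
              push_cast
              rfl
            rw [e3]
            exact hsq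
        · exact ⟨∅, fun h' => absurd h' hp⟩
      choose Z hZ using key
      refine SG_count T' (fun p hp => (hS p (hTS (hT'T hp))).1) ((hprod T' (hT'T.trans hTS)).trans hq) _ Z
        (fun p hp => (hZ p hp).1) (fun Q hQ p hp => (hZ p hp).2 Q hQ)
    · have h0 : Nat.card {c : Fin (n + 1) → ℤ // (∀ i, |c i| ≤ (h : ℤ)) ∧ Rr (a1, a2) c} = 0 := by
        have : IsEmpty {c : Fin (n + 1) → ℤ // (∀ i, |c i| ≤ (h : ℤ)) ∧ Rr (a1, a2) c} :=
          ⟨fun z => hV' ⟨z.2.2.1, z.2.2.2.1⟩⟩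
        exact Nat.card_of_isEmpty
      rw [h0]
      push_cast
      positivity

end HY
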