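import Pool.Agent.Lib.MP_10e784_agH.SDefs
import Pool.Agent.Lib.MP_10e784_agBS.S3

/-!
# LEAF SH: the sum over the triples of quadratic forms

MODEL: `sum_curves` in `MP_10e784_agBS/S5.lean`.
PROOF.  `box_crt` with `ι = Fin 3 × Fin 3`, `h = H`, `f p b = 4/5` if `good p U (fun i j => b (i, j))`, else `1`: `∑_b f p b = p⁹ - (1/5) #good ≤ (1 - γ p / 5) p⁹`; `∏ (1 - γ/5) ≤ exp (-(1/5) ∑ γ)`.
-/

set_option autoImplicit false

namespace HY

open Finset MWS

open Classical in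
private theorem SH_sum {α : Type} [Fintype α] (G : α → Prop) :
    ∑ b : α, (if G b then (4 / 5 : ℝ) else 1) = (Fintype.card α : ℝ) - 1 / 5 * (Nat.card {b // G b} : ℝ) := by
  have h2 : ∀ z : α, (if G z then (4 / 5 : ℝ) else 1) = 1 - 1 / 5 * (if G z then 1 else 0) := by
    intro z
    split_ifs <;> norm_num
  rw [Finset.sum_congr rfl fun z _ => h2 z, Finset.sum_sub_distrib, ← Finset.mul_sum, Finset.sum_boole]
  have h3 : Nat.card {b // G b} = (univ.filter fun z : α => G z).card := by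
    rw [Nat.card_eq_fintype_card, Fintype.card_subtype]
  rw [h3]
  simp

open Classical in
theorem sum_q (S : Finset ℕ) (hS : ∀ p ∈ S, p.Prime) {H U : ℕ} (hq : ∏ p ∈ S, p ≤ H) (γ : ℕ → ℝ)
    (hγ : ∀ p ∈ S, γ p * (p : ℝ) ^ 9 ≤
      (Nat.card {v : Fin 3 × Fin 3 → ZMod p // good p U (fun i j => v (i, j))} : ℝ)) :
    ∑ q ∈ Fintype.piFinset (fun _ : Fin 3 × Fin 3 => Icc (-(H : ℤ)) (H : ℤ)),
      (4 / 5 : ℝ) ^ (S.filter fun p => good p U (cq p (fun i j => q (i, j)))).card ≤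
      (4 * (H : ℝ)) ^ 9 * Real.exp (-(1 / 5 * ∑ p ∈ S, γ p)) := by
  let f : (p : ℕ) → (Fin 3 × Fin 3 → ZMod p) → ℝ := fun p b => if good p U (fun i j => b (i, j)) then 4 / 5 else 1
  have hf0 : ∀ p b, 0 ≤ f p b := by
    intro p b
    show 0 ≤ if good p U (fun i j => b (i, j)) then (4 / 5 : ℝ) else 1
    split_ifs <;> norm_num
  have hg : ∀ p ∈ S, ∀ [NeZero p], ∑ b : Fin 3 × Fin 3 → ZMod p, f p b ≤
      (1 - 1 / 5 * γ p) * (p : ℝ) ^ Fintype.card (Fin 3 × Fin 3) := by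
    intro p hp _
    have e1 : ∑ b : Fin 3 × Fin 3 → ZMod p, f p b = (Fintype.card (Fin 3 × Fin 3 → ZMod p) : ℝ) -
        1 / 5 * (Nat.card {v : Fin 3 × Fin 3 → ZMod p // good p U (fun i j => v (i, j))} : ℝ) :=
      SH_sum fun b : Fin 3 × Fin 3 → ZMod p => good p U (fun i j => b (i, j))
    have e2 : (Fintype.card (Fin 3 × Fin 3 → ZMod p) : ℝ) = (p : ℝ) ^ 9 := by
      rw [Fintype.card_fun, ZMod.card, Fintype.card_prod, Fintype.card_fin]
      push_cast
      norm_num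
    have e3 : Fintype.card (Fin 3 × Fin 3) = 9 := by
      rw [Fintype.card_prod, Fintype.card_fin]
    rw [e1, e2, e3]
    have := hγ p hp
    linarith
  have key := box_crt S hS (fun _ : Fin 3 × Fin 3 => H) (fun _ => hq) f hf0 (fun p => 1 - 1 / 5 * γ p) hg
  have e2 : ∏ _i : Fin 3 × Fin 3, (4 * (H : ℝ)) = (4 * (H : ℝ)) ^ 9 := by
    rw [Finset.prod_const, Finset.card_univ, Fintype.card_prod, Fintype.card_fin]
  have hnn : ∀ p ∈ S, 0 ≤ 1 - 1 / 5 * γ p := by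
    intro p hp
    have : NeZero p := ⟨(hS p hp).ne_zero⟩
    have h2 := hg p hp
    have h3 : 0 ≤ ∑ b : Fin 3 × Fin 3 → ZMod p, f p b := Finset.sum_nonneg fun b _ => hf0 p b
    have h4 : (0 : ℝ) < (p : ℝ) ^ Fintype.card (Fin 3 × Fin 3) := by
      have : (0 : ℝ) < p := by exact_mod_cast (hS p hp).pos
      positivity
    by_contra hcon
    push Not at hcon
    have := mul_neg_of_neg_of_pos hcon h4
    linarith
  have e3 : ∏ p ∈ S, (1 - 1 / 5 * γ p) ≤ Real.exp (-(1 / 5 * ∑ p ∈ S, γ p)) := by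
    rw [Finset.mul_sum, ← Finset.sum_neg_distrib, Real.exp_sum]
    refine Finset.prod_le_prod hnn fun p _ => ?_
    have := Real.add_one_le_exp (-(1 / 5 * γ p))
    linarith
  have e4 : ∑ q ∈ Fintype.piFinset (fun _ : Fin 3 × Fin 3 => Icc (-(H : ℤ)) (H : ℤ)),
      (4 / 5 : ℝ) ^ (S.filter fun p => good p U (cq p (fun i j => q (i, j)))).card =
      ∑ c ∈ Fintype.piFinset (fun _ : Fin 3 × Fin 3 => Icc (-(H : ℤ)) (H : ℤ)),
        ∏ p ∈ S, f p (fun i => ((c i : ℤ) : ZMod p)) := by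
    refine Finset.sum_congr rfl fun c _ => ?_
    show _ = ∏ p ∈ S, if good p U (cq p (fun i j => c (i, j))) then (4 / 5 : ℝ) else 1
    rw [Finset.prod_ite, Finset.prod_const_one, mul_one, Finset.prod_const]
  rw [e4]
  refine key.trans ?_
  rw [e2]
  exact mul_le_mul_of_nonneg_left e3 (by positivity)

end HY
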