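import Pool.Agent.Lib.MP_10e784_agH.PB

/-!
# LEAF SI: averaging over the shifts by `q₁ q₂ q₃ Q`

PROOF.  `mulF_bd`: the coefficient number `i` of the product is `∑ q₀ₐ q₁ᵦ q₂ᵧ Q_(i-a-b-c)` over at most `27` triples `(a, b, c)`.
`average`: the map `(F, Q) ↦ (F - mulF q Q, Q)` is injective from the pairs with `|F_i| ≤ H⁴`, `Pr F`, `|Q_i| ≤ H` to the pairs `(F', Q)` with `|F'_i| ≤ 28 H⁴`, `|Q_i| ≤ H`, `Pr (F' + mulF q Q)`; the number of `Q` is `(2 H + 1)^(n+1)`.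
-/

set_option autoImplicit false

namespace HY

open Finset

open Polynomial in
private theorem SI_step {P : ℤ[X]} {v : Fin 3 → ℤ} {H B : ℤ} (hH : 0 ≤ H) (hB : 0 ≤ B) (hv : ∀ j, |v j| ≤ H)
    (hP : ∀ i, |P.coeff i| ≤ B) (i : ℕ) : |(pol v * P).coeff i| ≤ 3 * (H * B) := by
  unfold pol
  rw [Finset.sum_mul, finsetSum_coeff]
  refine (Finset.abs_sum_le_sum_abs _ _).trans ?_
  have h1 : ∀ j ∈ (Finset.univ : Finset (Fin 3)), |(monomial (j : ℕ) (v j) * P).coeff i| ≤ H * B := by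
    intro j _
    rw [← C_mul_X_pow_eq_monomial, mul_assoc, coeff_C_mul, coeff_X_pow_mul', abs_mul]
    refine mul_le_mul (hv j) ?_ (abs_nonneg _) hH
    split_ifs
    · exact hP _
    · rw [abs_zero]
      exact hB
  refine (Finset.sum_le_card_nsmul _ _ _ h1).trans ?_
  rw [Finset.card_univ, Fintype.card_fin, nsmul_eq_mul]
  norm_num

private theorem SI_card {α : Type*} {p : α → Prop} (s : Finset α) (h : ∀ x, x ∈ s ↔ p x) :
    Nat.card {x // p x} = s.card := Nat.subtype_card s h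

theorem mulF_bd {n : ℕ} (q : Fin 3 → Fin 3 → ℤ) (Q : Fin (n + 1) → ℤ) {H : ℕ} (hq : ∀ i j, |q i j| ≤ (H : ℤ))
    (hQ : ∀ i, |Q i| ≤ (H : ℤ)) (i : Fin (n + 6 + 1)) : |mulF q Q i| ≤ 27 * (H : ℤ) ^ 4 := by
  have hH : (0 : ℤ) ≤ H := Int.natCast_nonneg H
  have h0 : ∀ i, |(pol Q).coeff i| ≤ (H : ℤ) := by
    intro i
    rw [pol_coeff]
    split_ifs
    · exact hQ _
    · rw [abs_zero]
      exact hH
  have h1 := SI_step hH hH (hq 2) h0
  have h2 := SI_step hH (by positivity) (hq 1) h1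
  have h3 := SI_step hH (by positivity) (hq 0) h2
  show |(pol (q 0) * pol (q 1) * pol (q 2) * pol Q).coeff i| ≤ 27 * (H : ℤ) ^ 4
  rw [mul_assoc, mul_assoc]
  refine (h3 i).trans (le_of_eq ?_)
  ring

theorem average {n : ℕ} (q : Fin 3 → Fin 3 → ℤ) {H : ℕ} (hq : ∀ i j, |q i j| ≤ (H : ℤ))
    (Pr : (Fin (n + 6 + 1) → ℤ) → Prop) :
    Nat.card {F : Fin (n + 6 + 1) → ℤ // (∀ i, |F i| ≤ (H : ℤ) ^ 4) ∧ Pr F} * (2 * H + 1) ^ (n + 1) ≤
      ∑ F ∈ Fintype.piFinset (fun _ : Fin (n + 6 + 1) => Icc (-(28 * (H : ℤ) ^ 4)) (28 * (H : ℤ) ^ 4)),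
        Nat.card {Q : Fin (n + 1) → ℤ // (∀ i, |Q i| ≤ (H : ℤ)) ∧ Pr (F + mulF q Q)} := by
  classical
  set BQ : Finset (Fin (n + 1) → ℤ) := Fintype.piFinset (fun _ => Icc (-(H : ℤ)) H) with hBQ
  set A : Finset (Fin (n + 6 + 1) → ℤ) :=
    (Fintype.piFinset (fun _ => Icc (-((H : ℤ) ^ 4)) ((H : ℤ) ^ 4))).filter Pr with hA
  set BF : Finset (Fin (n + 6 + 1) → ℤ) :=
    Fintype.piFinset (fun _ => Icc (-(28 * (H : ℤ) ^ 4)) (28 * (H : ℤ) ^ 4)) with hBF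
  have h1 : Nat.card {F : Fin (n + 6 + 1) → ℤ // (∀ i, |F i| ≤ (H : ℤ) ^ 4) ∧ Pr F} = A.card := by
    refine SI_card A fun F => ?_
    rw [hA, mem_filter, Fintype.mem_piFinset]
    simp only [mem_Icc, abs_le]
  have h2 : ∀ F : Fin (n + 6 + 1) → ℤ,
      Nat.card {Q : Fin (n + 1) → ℤ // (∀ i, |Q i| ≤ (H : ℤ)) ∧ Pr (F + mulF q Q)} =
        (BQ.filter fun Q => Pr (F + mulF q Q)).card := by
    intro F
    refine SI_card _ fun Q => ?_
    rw [hBQ, mem_filter, Fintype.mem_piFinset]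
    simp only [mem_Icc, abs_le]
  have h3 : BQ.card = (2 * H + 1) ^ (n + 1) := by
    rw [hBQ, Fintype.card_piFinset, prod_const, card_univ, Fintype.card_fin, Int.card_Icc]
    have h4 : ((H : ℤ) + 1 - -(H : ℤ)).toNat = 2 * H + 1 := by omega
    rw [h4]
  rw [h1, ← h3, ← card_product]
  simp only [h2]
  rw [← card_sigma]
  refine card_le_card_of_injOn
    (fun x => (⟨x.1 - mulF q x.2, x.2⟩ : (_ : Fin (n + 6 + 1) → ℤ) × (Fin (n + 1) → ℤ))) ?_ ?_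
  · rintro ⟨F, Q⟩ hx
    have hx' := mem_product.1 (mem_coe.1 hx)
    have hF := mem_filter.1 hx'.1
    have hF1 := Fintype.mem_piFinset.1 hF.1
    have hQ1 := Fintype.mem_piFinset.1 hx'.2
    refine mem_coe.2 (mem_sigma.2 ⟨?_, mem_filter.2 ⟨hx'.2, ?_⟩⟩)
    · show F - mulF q Q ∈ BF
      rw [hBF, Fintype.mem_piFinset]
      intro i
      have h5 := mulF_bd q Q hq (fun i => abs_le.2 (mem_Icc.1 (hQ1 i))) i
      have h6 := abs_le.1 h5
      have h7 := mem_Icc.1 (hF1 i)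
      rw [mem_Icc, Pi.sub_apply]
      constructor
      · linarith [h6.2, h7.1]
      · linarith [h6.1, h7.2]
    · show Pr (F - mulF q Q + mulF q Q)
      rw [sub_add_cancel]
      exact hF.2
  · rintro ⟨F, Q⟩ _ ⟨F', Q'⟩ _ h
    have h5 : F - mulF q Q = F' - mulF q Q' := congrArg Sigma.fst h
    have h6 : Q = Q' := congrArg (fun x : (_ : Fin (n + 6 + 1) → ℤ) × (Fin (n + 1) → ℤ) => x.2) h
    subst h6
    have h7 : F = F' := by
      have := congrArg (fun G => G + mulF q Q) h5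
      simpa using this
    rw [h7]

end HY
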