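import Mathlib

/-!
# LEAF SJ: the choice of the parameters (Mathlib only)

MODELS: `par_X` in `MP_10e784_agBS/S10.lean`, `par_H` in `MP_10e784_agBS/S11.lean` (`X = ⌊log H / 2⌋₊`).
PROOF.  `η = 1 / (4 (K₁ + 1))`, `c₀ = η / 8`; `X = ⌊log H / 2⌋₊`, `U = ⌊X ^ η⌋₊`, `w = ⌈(log H) ^ (3 c₀)⌉₊ ≤ X ^ (η / 2)`, `t = 2 w + C₀ + 4`, `e = Nat.clog 2 (3 X)` (`3 X ≤ 2 ^ e`, `e ≤ 4 log X`), `Y = 3 X / U + 1`.  For `X` large: `K₁ log X ≤ U`, `U ^ K₁ ≤ X ^ (1/4) ≤ X / K`, `4 U ≤ Y`, `Y ≤ 4 X / U ≤ 8 X ^ (1 - η)`; the left side of the last inequality is at most `C (w + 1) · log X · X ^ (1 - η) + (4 X + 4) ^ c₀ ≤ C' X ^ (1 - η/2) log X`, which is `≤ g X / (log X)⁴` for `X` large.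
-/

set_option autoImplicit false

namespace HY

open Filter

private theorem SJ_log (C δ : ℝ) (n : ℕ) (hδ : 0 < δ) :
    ∀ᶠ x : ℝ in atTop, C * Real.log x ^ n ≤ x ^ δ := by
  have h := (isLittleO_log_rpow_rpow_atTop (n : ℝ) hδ).bound (c := 1 / (|C| + 1)) (by positivity)
  filter_upwards [h, eventually_ge_atTop 1] with x hx h1
  have h0 : 0 ≤ Real.log x := Real.log_nonneg h1
  rw [Real.rpow_natCast, Real.norm_of_nonneg (by positivity),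
    Real.norm_of_nonneg (by positivity)] at hx
  have h2 : C * Real.log x ^ n ≤ (|C| + 1) * Real.log x ^ n :=
    mul_le_mul_of_nonneg_right (by linarith [le_abs_self C]) (by positivity)
  have h3 : (|C| + 1) * Real.log x ^ n ≤ (|C| + 1) * (1 / (|C| + 1) * x ^ δ) :=
    mul_le_mul_of_nonneg_left hx (by positivity)
  have h4 : (|C| + 1) * (1 / (|C| + 1) * x ^ δ) = x ^ δ := by
    field_simp
  linarith

private theorem SJ_ge (C δ : ℝ) (hδ : 0 < δ) : ∀ᶠ x : ℝ in atTop, C ≤ x ^ δ :=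
  (tendsto_rpow_atTop hδ).eventually_ge_atTop C

private theorem SJ_clog {X : ℕ} (hX : 1 ≤ X) (hl : 4 ≤ Real.log X) :
    (Nat.clog 2 (3 * X) : ℝ) ≤ 4 * Real.log X := by
  have hx : (0 : ℝ) < X := by exact_mod_cast hX
  have h1 : 2 ^ (Nat.clog 2 (3 * X)).pred < 3 * X := Nat.pow_pred_clog_lt_self (by norm_num) (by omega)
  have h2 : (2 : ℝ) ^ (Nat.clog 2 (3 * X)).pred < 3 * X := by exact_mod_cast h1
  have h3 := Real.log_lt_log (by positivity) h2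
  rw [Real.log_pow, Real.log_mul (by norm_num) (by positivity)] at h3
  have h4 : (Nat.clog 2 (3 * X) : ℝ) ≤ (Nat.clog 2 (3 * X)).pred + 1 := by
    exact_mod_cast Nat.le_succ_of_pred_le le_rfl
  have h5 := Real.log_two_gt_d9
  have h6 : Real.log 3 ≤ 2 := by
    have h7 := Real.log_le_sub_one_of_pos (show (0 : ℝ) < 3 by norm_num)
    linarith
  have h7 : (0 : ℝ) ≤ ((Nat.clog 2 (3 * X)).pred : ℝ) := Nat.cast_nonneg _
  nlinarith

private theorem SJ_div (X n : ℕ) (hn : 0 < n) : 3 * X ≤ (3 * X / n + 1) * n := by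
  have h1 := Nat.div_add_mod (3 * X) n
  have h2 := Nat.mod_lt (3 * X) hn
  nlinarith

private theorem SJ_loss {x l a g U t e Y w v : ℝ} (hx : 0 < x) (hl : 0 < l) (ha : 1 ≤ a) (hg : 0 < g)
    (hU : a * a / 2 ≤ U) (ht : t + 1 ≤ 2 * a) (_ : 0 ≤ t) (he0 : 0 ≤ e) (he : e ≤ 4 * l)
    (hY0 : 0 ≤ Y) (hY : Y * U ≤ 4 * x) (h1 : 768 / g * l ^ 5 ≤ a) (hw0 : 0 ≤ w) (hw : 2 * w ≤ a + 2) (hv : v ≤ a)
    (h2 : 10 * a * l ^ 4 ≤ g * x / 2) :
    3 * (w + 1) * Real.log 2 + 3 * (t + 1) * e * Y * Real.log 4 + w * Real.log (5 / 4) + v ≤ g * x / l ^ 4 := by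
  have h4 : Real.log 4 ≤ 2 := by
    have h5 : Real.log 4 = 2 * Real.log 2 := by
      rw [show (4 : ℝ) = 2 ^ 2 by norm_num, Real.log_pow]
      norm_num
    have h6 := Real.log_two_lt_d9
    linarith
  have h4' : 0 ≤ Real.log 4 := Real.log_nonneg (by norm_num)
  have hl2 : Real.log 2 ≤ 1 := by
    have h6 := Real.log_two_lt_d9
    linarith
  have hl5 : Real.log (5 / 4) ≤ 1 := by
    have h7 := Real.log_le_sub_one_of_pos (show (0 : ℝ) < 5 / 4 by norm_num)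
    linarith
  have hU0 : 0 < U := lt_of_lt_of_le (by positivity) hU
  have h3 : 768 * l ^ 5 ≤ g * a := by
    have h3 := mul_le_mul_of_nonneg_left h1 hg.le
    have h5 : g * (768 / g * l ^ 5) = 768 * l ^ 5 := by field_simp
    linarith
  have h6 : 3 * (w + 1) * Real.log 2 + w * Real.log (5 / 4) + v ≤ 10 * a := by
    have k1 : 3 * (w + 1) * Real.log 2 ≤ 3 * (w + 1) * 1 := by gcongr
    have k2 : w * Real.log (5 / 4) ≤ w * 1 := by gcongr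
    linarith
  have h7 : 3 * (t + 1) * e * Y * Real.log 4 * l ^ 4 * U ≤ (g * x / 2) * U := by
    calc 3 * (t + 1) * e * Y * Real.log 4 * l ^ 4 * U
        ≤ 3 * (2 * a) * (4 * l) * Y * 2 * l ^ 4 * U := by gcongr
      _ = 48 * a * l ^ 5 * (Y * U) := by ring
      _ ≤ 48 * a * l ^ 5 * (4 * x) := by gcongr
      _ = (768 * l ^ 5) * (a * x / 4) := by ring
      _ ≤ (g * a) * (a * x / 4) := by gcongr
      _ = (g * x / 2) * (a * a / 2) := by ring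
      _ ≤ (g * x / 2) * U := by gcongr
  have h8 : 3 * (t + 1) * e * Y * Real.log 4 * l ^ 4 ≤ g * x / 2 := le_of_mul_le_mul_right h7 hU0
  rw [le_div_iff₀ (by positivity)]
  have h9 : (3 * (w + 1) * Real.log 2 + w * Real.log (5 / 4) + v) * l ^ 4 ≤ 10 * a * l ^ 4 := by gcongr
  nlinarith

private theorem SJ_X (K₁ : ℕ) : ∃ c₀ : ℝ, 0 < c₀ ∧ c₀ < 1 / 4 ∧ ∀ (K g : ℝ) (C₀ : ℕ), 1 ≤ K → 0 < g →
    ∀ᶠ X : ℕ in atTop, ∃ U t e Y w : ℕ,
    1 ≤ U ∧ K₁ ≤ U ∧ (U : ℝ) ^ K₁ ≤ X / K ∧ (K₁ : ℝ) * Real.log X ≤ U ∧ 3 * X ≤ 2 ^ e ∧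
    4 * U ≤ Y ∧ 3 * X ≤ Y * U ∧ (4 * (X : ℝ) + 4) ^ (3 * c₀) ≤ w ∧ 2 * w + C₀ + 4 ≤ t ∧
    3 * ((w : ℝ) + 1) * Real.log 2 + 3 * ((t : ℝ) + 1) * e * Y * Real.log 4 + w * Real.log (5 / 4) +
      (4 * (X : ℝ) + 4) ^ c₀ ≤ g * X / (Real.log X) ^ 4 := by
  obtain ⟨s, hs⟩ : ∃ s : ℝ, s = 1 / (8 * ((K₁ : ℝ) + 1)) := ⟨_, rfl⟩
  have hK1 : (0 : ℝ) ≤ K₁ := Nat.cast_nonneg _
  have hs0 : 0 < s := by
    rw [hs]
    positivity
  have hs1 : s * (8 * ((K₁ : ℝ) + 1)) = 1 := by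
    rw [hs]
    field_simp
  have hs8 : s ≤ 1 / 8 := by nlinarith
  have hsK : 2 * s * K₁ ≤ 1 / 4 := by nlinarith
  refine ⟨s / 8, by positivity, by linarith, fun K g C₀ hK hg => ?_⟩
  have hnat := tendsto_natCast_atTop_atTop (R := ℝ)
  filter_upwards [hnat.eventually (SJ_ge (K₁ + C₀ + 7) s hs0), hnat.eventually (SJ_ge K (3 / 4) (by norm_num)),
    hnat.eventually (SJ_ge 4 (1 / 4) (by norm_num)), hnat.eventually (SJ_log (768 / g) s 5 hs0),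
    hnat.eventually (SJ_log (20 / g) (1 / 4) 4 (by norm_num)), hnat.eventually (SJ_log K₁ s 1 hs0),
    hnat.eventually (SJ_ge 2 (s / 4) (by positivity)), hnat.eventually (eventually_ge_atTop 100),
    hnat.eventually (Real.tendsto_log_atTop.eventually_ge_atTop 4)]
    with X A1 A2 A3 A4 A5 A6 A7 A8 A9
  obtain ⟨x, hx⟩ : ∃ x : ℝ, x = X := ⟨_, rfl⟩
  rw [← hx] at A1 A2 A3 A4 A5 A6 A7 A8
  have hx0 : 0 < x := by linarith
  have hx1 : 1 ≤ x := by linarith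
  have hX1 : 1 ≤ X := by
    have h1 : (1 : ℝ) ≤ X := by rw [← hx]; exact hx1
    exact_mod_cast h1
  obtain ⟨a, ha⟩ : ∃ a : ℝ, a = x ^ s := ⟨_, rfl⟩
  have haa : x ^ (2 * s) = a * a := by
    rw [ha, ← Real.rpow_add hx0]
    congr 1
    ring
  have hC0 : (0 : ℝ) ≤ C₀ := Nat.cast_nonneg _
  have ha4 : (K₁ : ℝ) + C₀ + 7 ≤ a := by rw [ha]; exact A1
  have ha0 : 0 < a := by linarith
  have hUle : ((⌊a * a⌋₊ : ℕ) : ℝ) ≤ a * a := Nat.floor_le (by positivity)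
  have hUlt : a * a - 1 < ((⌊a * a⌋₊ : ℕ) : ℝ) := Nat.sub_one_lt_floor _
  obtain ⟨U, hU⟩ : ∃ U : ℕ, U = ⌊a * a⌋₊ := ⟨_, rfl⟩
  rw [← hU] at hUle hUlt
  have hU2 : a * a / 2 ≤ U := by nlinarith
  have hUa : a ≤ U := by nlinarith
  have hUK : (K₁ : ℝ) ≤ U := by linarith
  have hU1 : (1 : ℝ) ≤ U := by linarith
  have hU1' : 1 ≤ U := by exact_mod_cast hU1
  have hq : x ^ (1 / 4 : ℝ) * x ^ (3 / 4 : ℝ) = x := by
    rw [← Real.rpow_add hx0]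
    norm_num
  have hpw : ∀ n : ℕ, 2 * s * n ≤ 3 / 4 → (U : ℝ) ^ n ≤ x ^ (3 / 4 : ℝ) := by
    intro n hn
    calc (U : ℝ) ^ n ≤ (a * a) ^ n := by gcongr
      _ = x ^ (2 * s * n) := by rw [← haa, ← Real.rpow_natCast, ← Real.rpow_mul hx0.le]
      _ ≤ x ^ (3 / 4 : ℝ) := Real.rpow_le_rpow_of_exponent_le hx1 hn
  have hpK : (U : ℝ) ^ K₁ ≤ x ^ (1 / 4 : ℝ) := by
    calc (U : ℝ) ^ K₁ ≤ (a * a) ^ K₁ := by gcongr
      _ = x ^ (2 * s * K₁) := by rw [← haa, ← Real.rpow_natCast, ← Real.rpow_mul hx0.le]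
      _ ≤ x ^ (1 / 4 : ℝ) := Real.rpow_le_rpow_of_exponent_le hx1 hsK
  have hU22 : 4 * (U : ℝ) ^ 2 ≤ x := by
    have h1 := hpw 2 (by push_cast; linarith)
    have h2 : 0 ≤ x ^ (3 / 4 : ℝ) := by positivity
    nlinarith
  have h44 : 4 * x + 4 ≤ x ^ (2 : ℝ) := by
    rw [Real.rpow_two]
    nlinarith
  have hv : (4 * x + 4) ^ (s / 8) ≤ a := by
    calc (4 * x + 4) ^ (s / 8) ≤ (x ^ (2 : ℝ)) ^ (s / 8) :=
          Real.rpow_le_rpow (by positivity) h44 (by positivity)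
      _ = x ^ (2 * (s / 8)) := by rw [← Real.rpow_mul hx0.le]
      _ ≤ x ^ s := Real.rpow_le_rpow_of_exponent_le hx1 (by linarith)
      _ = a := ha.symm
  have hb : (4 * x + 4) ^ (3 * (s / 8)) ≤ a / 2 := by
    have h1 : (4 * x + 4) ^ (3 * (s / 8)) ≤ x ^ (3 * s / 4) := by
      calc (4 * x + 4) ^ (3 * (s / 8)) ≤ (x ^ (2 : ℝ)) ^ (3 * (s / 8)) :=
            Real.rpow_le_rpow (by positivity) h44 (by positivity)
        _ = x ^ (3 * s / 4) := by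
            rw [← Real.rpow_mul hx0.le]
            congr 1
            ring
    have h2 : x ^ (s / 4) * x ^ (3 * s / 4) = a := by
      rw [ha, ← Real.rpow_add hx0]
      congr 1
      ring
    have h3 : 0 ≤ x ^ (3 * s / 4) := by positivity
    nlinarith
  obtain ⟨w, hw⟩ : ∃ w : ℕ, w = ⌈(4 * x + 4) ^ (3 * (s / 8))⌉₊ := ⟨_, rfl⟩
  have hw1 : (4 * x + 4) ^ (3 * (s / 8)) ≤ w := by
    rw [hw]
    exact Nat.le_ceil _
  have hw2 : (w : ℝ) < (4 * x + 4) ^ (3 * (s / 8)) + 1 := by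
    rw [hw]
    exact Nat.ceil_lt_add_one (by positivity)
  have hl : 0 < Real.log x := by
    rw [hx]
    linarith
  have he : (Nat.clog 2 (3 * X) : ℝ) ≤ 4 * Real.log x := by
    rw [hx]
    exact SJ_clog hX1 A9
  have hwg : 10 * a * Real.log x ^ 4 ≤ g * x / 2 := by
    have h2 : a ≤ x ^ (1 / 4 : ℝ) := by
      rw [ha]
      exact Real.rpow_le_rpow_of_exponent_le hx1 (by linarith)
    have h3 : 10 * Real.log x ^ 4 ≤ g / 2 * x ^ (1 / 4 : ℝ) := by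
      have h4 := mul_le_mul_of_nonneg_left A5 (show 0 ≤ g / 2 by positivity)
      have h5 : g / 2 * (20 / g * Real.log x ^ 4) = 10 * Real.log x ^ 4 := by
        field_simp
        ring
      linarith
    have h4 : x ^ (1 / 4 : ℝ) * x ^ (1 / 4 : ℝ) ≤ x := by
      rw [← Real.rpow_add hx0]
      calc x ^ (1 / 4 + 1 / 4 : ℝ) ≤ x ^ (1 : ℝ) := Real.rpow_le_rpow_of_exponent_le hx1 (by norm_num)
        _ = x := Real.rpow_one x
    calc 10 * a * Real.log x ^ 4 = a * (10 * Real.log x ^ 4) := by ring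
      _ ≤ x ^ (1 / 4 : ℝ) * (g / 2 * x ^ (1 / 4 : ℝ)) := by gcongr
      _ = g / 2 * (x ^ (1 / 4 : ℝ) * x ^ (1 / 4 : ℝ)) := by ring
      _ ≤ g / 2 * x := by gcongr
      _ = g * x / 2 := by ring
  have hYle : ((3 * X / U + 1 : ℕ) : ℝ) * U ≤ 4 * x := by
    have h1 : ((3 * X / U * U : ℕ) : ℝ) ≤ 3 * x := by
      rw [hx]
      exact_mod_cast Nat.div_mul_le_self (3 * X) U
    push_cast at h1 ⊢
    have h2 : (U : ℝ) ≤ x := by nlinarith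
    linarith
  have h4U : 4 * U ≤ 3 * X / U + 1 := by
    have h1 : 4 * U ≤ 3 * X / U := by
      rw [Nat.le_div_iff_mul_le (by omega)]
      have h2 : (4 * (U : ℝ) * U) ≤ 3 * X := by
        rw [← hx]
        nlinarith
      exact_mod_cast h2
    omega
  refine ⟨U, 2 * w + C₀ + 4, Nat.clog 2 (3 * X), 3 * X / U + 1, w, hU1', by exact_mod_cast hUK, ?_, ?_,
    Nat.le_pow_clog (by norm_num) _, h4U, SJ_div X U (by omega), ?_, le_rfl, ?_⟩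
  · rw [← hx, le_div_iff₀ (by linarith)]
    calc (U : ℝ) ^ K₁ * K ≤ x ^ (1 / 4 : ℝ) * x ^ (3 / 4 : ℝ) := by gcongr
      _ = x := hq
  · rw [pow_one] at A6
    rw [← hx]
    refine A6.trans ?_
    rw [← ha]
    exact hUa
  · rw [← hx]
    exact hw1
  · rw [← hx]
    refine SJ_loss hx0 hl (by linarith) hg hU2 ?_ (by positivity) (by positivity) he (by positivity) hYle ?_
      (by positivity) (by linarith) hv hwg
    · push_cast
      linarith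
    · rw [ha]
      exact A4

theorem par_Q (K₁ : ℕ) : ∃ c₀ : ℝ, 0 < c₀ ∧ c₀ < 1 / 4 ∧ ∀ (K g : ℝ) (C₀ : ℕ), 1 ≤ K → 0 < g → ∀ x₀ : ℝ, ∃ H₀ : ℕ,
    ∀ H : ℕ, H₀ ≤ H → ∃ X U t e Y w : ℕ, x₀ ≤ X ∧ 4 ^ X ≤ H ∧ (29 : ℝ) ≤ X / K ∧
    1 ≤ U ∧ K₁ ≤ U ∧ (U : ℝ) ^ K₁ ≤ X / K ∧ (K₁ : ℝ) * Real.log X ≤ U ∧ 3 * X ≤ 2 ^ e ∧
    4 * U ≤ Y ∧ 3 * X ≤ Y * U ∧ (Real.log H) ^ (3 * c₀) ≤ w ∧ 2 * w + C₀ + 4 ≤ t ∧
    3 * ((w : ℝ) + 1) * Real.log 2 + 3 * ((t : ℝ) + 1) * e * Y * Real.log 4 + w * Real.log (5 / 4) +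
      (Real.log H) ^ c₀ ≤ g * X / (Real.log X) ^ 4 := by
  obtain ⟨c₀, hc₀, hc₁, hpar⟩ := SJ_X K₁
  refine ⟨c₀, hc₀, hc₁, fun K g C₀ hK hg x₀ => ?_⟩
  have hlim : Tendsto (fun H : ℕ => ⌊Real.log (H : ℝ) / 2⌋₊) atTop atTop := by
    refine tendsto_nat_floor_atTop.comp ?_
    exact (Real.tendsto_log_atTop.comp tendsto_natCast_atTop_atTop).atTop_div_const (by norm_num)
  have hX1 : ∀ᶠ X : ℕ in atTop, x₀ ≤ (X : ℝ) := tendsto_natCast_atTop_atTop.eventually_ge_atTop x₀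
  have hX2 : ∀ᶠ X : ℕ in atTop, 29 * K ≤ (X : ℝ) := tendsto_natCast_atTop_atTop.eventually_ge_atTop (29 * K)
  have hall := hlim.eventually (((hpar K g C₀ hK hg).and hX1).and hX2)
  obtain ⟨H₀, hH₀⟩ := eventually_atTop.1 hall
  refine ⟨max H₀ 1, fun H hH => ?_⟩
  have hH1 : 1 ≤ H := le_trans (le_max_right _ _) hH
  obtain ⟨⟨⟨U, t, e, Y, w, h1, h2, h3, h4, h5, h6, h7, h8, h9, h10⟩, h12⟩, h13⟩ :=
    hH₀ H (le_trans (le_max_left _ _) hH)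
  have hHpos : (0 : ℝ) < H := by exact_mod_cast hH1
  have hlog0 : 0 ≤ Real.log H := Real.log_nonneg (by exact_mod_cast hH1)
  set X : ℕ := ⌊Real.log (H : ℝ) / 2⌋₊ with hX
  have hXle : (X : ℝ) ≤ Real.log H / 2 := Nat.floor_le (by positivity)
  have hXlt : Real.log H / 2 < (X : ℝ) + 1 := Nat.lt_floor_add_one _
  have hlog4 : Real.log 4 ≤ 2 := by
    have : Real.log 4 = 2 * Real.log 2 := by
      rw [show (4 : ℝ) = 2 ^ 2 by norm_num, Real.log_pow]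
      norm_num
    have h := Real.log_two_lt_d9
    linarith
  have hlog4' : 0 ≤ Real.log 4 := Real.log_nonneg (by norm_num)
  have hX0 : (0 : ℝ) ≤ X := Nat.cast_nonneg _
  have h4X : 4 ^ X ≤ H := by
    have h : ((4 : ℝ)) ^ X ≤ H := by
      rw [← Real.log_le_log_iff (by positivity) hHpos, Real.log_pow]
      nlinarith
    exact_mod_cast h
  have hle : Real.log H ≤ 4 * (X : ℝ) + 4 := by linarith
  have hpow : (Real.log H) ^ c₀ ≤ (4 * (X : ℝ) + 4) ^ c₀ := Real.rpow_le_rpow hlog0 hle hc₀.le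
  have hpow3 : (Real.log H) ^ (3 * c₀) ≤ (4 * (X : ℝ) + 4) ^ (3 * c₀) :=
    Real.rpow_le_rpow hlog0 hle (by positivity)
  refine ⟨X, U, t, e, Y, w, h12, h4X, ?_, h1, h2, h3, h4, h5, h6, h7, hpow3.trans h8, h9, ?_⟩
  · rw [le_div_iff₀ (by linarith)]
    exact h13
  · linarith

end HY
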