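import Pool.Agent.Lib.MP_10e784_agW.SA

/-!
# LEAF SK: primes `3` modulo `4`

PROOF.  `inert` (`MP_10e784_agW/SA.lean`) for `D = -1`: `½ log (x/y) - C ≤ ∑ log p / p` over the primes `p` in `(⌊y⌋, ⌊x⌋]` for which `-1` is not a square (so `p % 4 = 3`: `ZMod.exists_sq_eq_neg_one_iff`; `p = 2`: `-1 = 1` is a square).  `K = exp (2 C + 2)`, `x = X`, `y = X / K`: the sum is `≥ 1`, and each term is `≤ log X / (X / K)`; so the number of terms is `≥ X / (K log X)`.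
-/

set_option autoImplicit false

namespace HY

open Finset

private theorem SK_not_sq : ¬ IsSquare (-1 : ℤ) := by
  rintro ⟨r, hr⟩
  nlinarith [mul_self_nonneg r]

theorem primes34 : ∃ K : ℝ, 1 ≤ K ∧ ∃ x₀ : ℝ, ∀ X : ℕ, x₀ ≤ X →
    (X : ℝ) / (K * Real.log X) ≤
      (((Icc 1 X).filter fun p : ℕ => p.Prime ∧ p % 4 = 3 ∧ (X : ℝ) / K < p).card : ℝ) := by
  classical
  obtain ⟨C, hC, hin⟩ := MWS.inert SK_not_sq
  set K : ℝ := Real.exp (2 * C + 2) with hK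
  have hK1 : 1 ≤ K := Real.one_le_exp (by linarith)
  have hK0 : 0 < K := by linarith
  refine ⟨K, hK1, 2 * K + 3, fun X hX => ?_⟩
  have hX0 : (0 : ℝ) < X := by linarith
  have hX3 : (3 : ℝ) ≤ X := by linarith
  have hlog : 0 < Real.log X := Real.log_pos (by linarith)
  have hy2 : 2 ≤ (X : ℝ) / K := by
    rw [le_div_iff₀ hK0]
    linarith
  have hyx : (X : ℝ) / K ≤ X := div_le_self hX0.le hK1
  have h1 := hin ((X : ℝ) / K) X hy2 hyx
  have h2 : (X : ℝ) / ((X : ℝ) / K) = K := by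
    field_simp
  rw [h2, hK, Real.log_exp, ← hK] at h1
  have h3 : (1 : ℝ) ≤ ∑ p ∈ (Ioc ⌊(X : ℝ) / K⌋₊ ⌊(X : ℝ)⌋₊).filter
      (fun p => p.Prime ∧ ¬ IsSquare (((-1 : ℤ) : ℤ) : ZMod p)), Real.log p / p := by
    linarith
  set S := (Ioc ⌊(X : ℝ) / K⌋₊ ⌊(X : ℝ)⌋₊).filter
      (fun p => p.Prime ∧ ¬ IsSquare (((-1 : ℤ) : ℤ) : ZMod p)) with hS
  set T := (Icc 1 X).filter fun p : ℕ => p.Prime ∧ p % 4 = 3 ∧ (X : ℝ) / K < p with hT
  have hST : S ⊆ T := by
    intro p hp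
    rw [hS, mem_filter, mem_Ioc, Nat.floor_natCast] at hp
    obtain ⟨⟨ha, hb⟩, hpp, hns⟩ := hp
    have : Fact p.Prime := ⟨hpp⟩
    rw [hT, mem_filter, mem_Icc]
    refine ⟨⟨hpp.one_lt.le, hb⟩, hpp, ?_, Nat.lt_of_floor_lt ha⟩
    by_contra h4
    apply hns
    have := (ZMod.exists_sq_eq_neg_one_iff (p := p)).mpr h4
    push_cast
    exact this
  have h4 : ∑ p ∈ S, Real.log p / p ≤ (S.card : ℝ) * (K * Real.log X / X) := by
    rw [← nsmul_eq_mul]
    refine sum_le_card_nsmul _ _ _ fun p hp => ?_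
    have hpT := hST hp
    rw [hT, mem_filter, mem_Icc] at hpT
    obtain ⟨⟨ha, hb⟩, hpp, _, hlt⟩ := hpT
    have hp0 : (0 : ℝ) < p := by exact_mod_cast hpp.pos
    have hpX : (p : ℝ) ≤ X := by exact_mod_cast hb
    have e1 : Real.log p ≤ Real.log X := Real.log_le_log hp0 hpX
    rw [div_le_div_iff₀ hp0 hX0]
    rw [div_lt_iff₀ hK0] at hlt
    have e2 : 0 ≤ Real.log p := Real.log_nonneg (by exact_mod_cast hpp.one_lt.le)
    calc Real.log p * X ≤ Real.log X * ((p : ℝ) * K) := by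
          exact mul_le_mul e1 hlt.le hX0.le hlog.le
      _ = K * Real.log X * p := by ring
  have h5 : (S.card : ℝ) ≤ T.card := by exact_mod_cast card_le_card hST
  have h6 : 0 < K * Real.log X / X := by positivity
  have h7 : (1 : ℝ) ≤ (T.card : ℝ) * (K * Real.log X / X) :=
    le_trans h3 (le_trans h4 (mul_le_mul_of_nonneg_right h5 h6.le))
  rw [div_le_iff₀ (by positivity)]
  have h8 : (T.card : ℝ) * (K * Real.log X / X) = (T.card : ℝ) * (K * Real.log X) / X := by ring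
  rw [h8, le_div_iff₀ hX0] at h7
  linarith

end HY
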