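import Pool.Agent.Lib.MP_10e784_agH.SG
import Pool.Agent.Lib.MP_10e784_agH.SH
import Pool.Agent.Lib.MP_10e784_agH.SI
import Pool.Agent.Lib.MP_10e784_agH.SJ
import Pool.Agent.Lib.MP_10e784_agH.SK

/-!
# Hyperelliptic curves `y² = q₁ q₂ q₃ F`: the assembly of stage 1
-/

set_option autoImplicit false

namespace HY

open Finset Polynomial MWS

/-- `Few` is monotone -/
private theorem SL_few {A B : ℤ} {t t' : ℕ} (h : t ≤ t') (hF : Few A B t) : Few A B t' := by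
  obtain ⟨r, hr⟩ := hF
  refine ⟨fun i => if hi : (i : ℕ) < 2 ^ t then r ⟨i, hi⟩ else 0, fun P => ?_⟩
  obtain ⟨i, Q, hQ⟩ := hr P
  have hi : (i : ℕ) < 2 ^ t' := lt_of_lt_of_le i.2 (Nat.pow_le_pow_right (by norm_num) h)
  refine ⟨⟨i, hi⟩, Q, ?_⟩
  show P = (if hi : (i : ℕ) < 2 ^ t then r ⟨(i : ℕ), hi⟩ else 0) + 2 • Q
  rw [dif_pos i.2]
  exact hQ

private theorem SL_dq {m : ℕ} (q : Fin 3 → Fin 3 → ℤ) (f : Fin (m + 1) → ℤ) (i : Fin 3) : dq (q i) ∣ RR q f := by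
  unfold RR
  refine Dvd.dvd.mul_right (Dvd.dvd.mul_right ?_ _) _
  exact Finset.dvd_prod_of_mem _ (Finset.mem_univ i)

private theorem SL_rq {m : ℕ} (q : Fin 3 → Fin 3 → ℤ) (f : Fin (m + 1) → ℤ) {i j : Fin 3} (hij : i < j) :
    rq (q i) (q j) ∣ RR q f := by
  unfold RR
  refine Dvd.dvd.mul_right (Dvd.dvd.mul_left ?_ _) _
  fin_cases i <;> fin_cases j <;> first
    | exact absurd hij (by decide)
    | exact ⟨_, mul_assoc _ _ _⟩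
    | exact Dvd.dvd.mul_right (Dvd.intro_left _ rfl) _
    | exact Dvd.intro_left _ rfl

/-- block R for the twisted curves -/
private theorem SL_R2 {C0 : ℕ} (hR : ∀ a b : ℤ, b ≠ 0 → a ^ 2 - 4 * b ≠ 0 →
    Few (81 * b - 27 * a ^ 2) (54 * a ^ 3 - 243 * (a * b))
      (b.natAbs.primeFactors.card + (a ^ 2 - 4 * b).natAbs.primeFactors.card + C0))
    {m : ℕ} (q : Fin 3 → Fin 3 → ℤ) (f : Fin (m + 1) → ℤ) (h0 : RR q f ≠ 0) {w t : ℕ}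
    (hw : (RR q f).natAbs.primeFactors.card ≤ w) (ht : 2 * w + C0 + 4 ≤ t) (D : ℤ) (hD : D ≠ 0)
    (hDR : ∀ p : ℕ, p.Prime → (p : ℤ) ∣ D → (p : ℤ) ∣ RR q f) (i j : Fin 3) (hij : i < j) :
    Few (D ^ 2 * Aq (q i) (q j)) (D ^ 3 * Bq (q i) (q j)) t := by
  have hdi : dq (q i) ≠ 0 := fun h => h0 (by
    have := SL_dq q f i
    rw [h, zero_dvd_iff] at this
    exact this)
  have hdj : dq (q j) ≠ 0 := fun h => h0 (by
    have := SL_dq q f j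
    rw [h, zero_dvd_iff] at this
    exact this)
  have hr : rq (q i) (q j) ≠ 0 := fun h => h0 (by
    have := SL_rq q f hij
    rw [h, zero_dvd_iff] at this
    exact this)
  have hb : D ^ 2 * (dq (q i) * dq (q j)) ≠ 0 := mul_ne_zero (pow_ne_zero _ hD) (mul_ne_zero hdi hdj)
  have e1 : (-(D * bq (q i) (q j))) ^ 2 - 4 * (D ^ 2 * (dq (q i) * dq (q j))) =
      16 * (D ^ 2 * rq (q i) (q j)) := by
    have := bq_sq (q i) (q j)
    linear_combination D ^ 2 * this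
  have ha : (-(D * bq (q i) (q j))) ^ 2 - 4 * (D ^ 2 * (dq (q i) * dq (q j))) ≠ 0 := by
    rw [e1]
    exact mul_ne_zero (by norm_num) (mul_ne_zero (pow_ne_zero _ hD) hr)
  have key := hR (-(D * bq (q i) (q j))) (D ^ 2 * (dq (q i) * dq (q j))) hb ha
  have e2 : 81 * (D ^ 2 * (dq (q i) * dq (q j))) - 27 * (-(D * bq (q i) (q j))) ^ 2 =
      D ^ 2 * Aq (q i) (q j) := by
    unfold Aq
    ring
  have e3 : 54 * (-(D * bq (q i) (q j))) ^ 3 - 243 * (-(D * bq (q i) (q j)) * (D ^ 2 * (dq (q i) * dq (q j)))) =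
      D ^ 3 * Bq (q i) (q j) := by
    unfold Bq
    ring
  rw [e2, e3] at key
  refine SL_few ?_ key
  have hp : ∀ p : ℕ, p.Prime → (p : ℤ) ∣ D ^ 2 → (p : ℤ) ∣ RR q f := fun p hp h =>
    hDR p hp (Int.Prime.dvd_pow' hp h)
  have c1 : (D ^ 2 * (dq (q i) * dq (q j))).natAbs.primeFactors.card ≤ w := by
    refine (Finset.card_le_card ?_).trans hw
    intro p hpp
    rw [Nat.mem_primeFactors] at hpp ⊢
    refine ⟨hpp.1, ?_, by simpa using h0⟩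
    have h1 : (p : ℤ) ∣ D ^ 2 * (dq (q i) * dq (q j)) := Int.natCast_dvd.2 hpp.2.1
    have hpr : Prime (p : ℤ) := Nat.prime_iff_prime_int.1 hpp.1
    refine Int.natCast_dvd.1 ?_
    rcases hpr.dvd_or_dvd h1 with h | h
    · exact hp p hpp.1 h
    · rcases hpr.dvd_or_dvd h with h | h
      · exact h.trans (SL_dq q f i)
      · exact h.trans (SL_dq q f j)
  have c2 : ((-(D * bq (q i) (q j))) ^ 2 - 4 * (D ^ 2 * (dq (q i) * dq (q j)))).natAbs.primeFactors.card ≤ w + 1 := by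
    rw [e1]
    have h2 : (16 * (D ^ 2 * rq (q i) (q j))).natAbs.primeFactors ⊆ insert 2 (RR q f).natAbs.primeFactors := by
      intro p hpp
      rw [Nat.mem_primeFactors] at hpp
      rw [Finset.mem_insert, Nat.mem_primeFactors]
      have h1 : (p : ℤ) ∣ 16 * (D ^ 2 * rq (q i) (q j)) := Int.natCast_dvd.2 hpp.2.1
      have hpr : Prime (p : ℤ) := Nat.prime_iff_prime_int.1 hpp.1
      rcases hpr.dvd_or_dvd h1 with h | h
      · left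
        have h3 : (p : ℤ) ∣ 2 := by
          have : (16 : ℤ) = 2 ^ 4 := by norm_num
          rw [this] at h
          exact hpr.dvd_of_dvd_pow h
        have h4 : p ∣ 2 := by exact_mod_cast h3
        exact (Nat.prime_dvd_prime_iff_eq hpp.1 Nat.prime_two).1 h4
      · right
        refine ⟨hpp.1, Int.natCast_dvd.1 ?_, by simpa using h0⟩
        rcases hpr.dvd_or_dvd h with h | h
        · exact hp p hpp.1 h
        · exact h.trans (SL_rq q f hij)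
    refine (Finset.card_le_card h2).trans ((Finset.card_insert_le _ _).trans ?_)
    omega
  omega


/-- division by the number of the `Q` -/
private theorem SL_div {n H : ℕ} (hH : 1 ≤ H) {N M Z : ℝ} (hM : 0 ≤ M)
    (h : N * (2 * (H : ℝ) + 1) ^ (n + 1) ≤ Z * (M * (4 * (H : ℝ)) ^ (n + 1))) (hZ : 0 ≤ Z) :
    N ≤ 2 ^ (n + 1) * Z * M := by
  have hH0 : (1 : ℝ) ≤ H := by exact_mod_cast hH
  have h1 : (4 * (H : ℝ)) ^ (n + 1) ≤ 2 ^ (n + 1) * (2 * (H : ℝ) + 1) ^ (n + 1) := by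
    rw [← mul_pow]
    exact pow_le_pow_left₀ (by positivity) (by linarith) _
  have h2 : 0 < (2 * (H : ℝ) + 1) ^ (n + 1) := by positivity
  refine le_of_mul_le_mul_right ?_ h2
  refine h.trans ?_
  calc Z * (M * (4 * (H : ℝ)) ^ (n + 1)) ≤ Z * (M * (2 ^ (n + 1) * (2 * (H : ℝ) + 1) ^ (n + 1))) := by gcongr
    _ = 2 ^ (n + 1) * Z * M * (2 * (H : ℝ) + 1) ^ (n + 1) := by ring

private theorem SL_45 (T w : ℕ) : (4 / 5 : ℝ) ^ (T - w) ≤ (5 / 4) ^ w * (4 / 5) ^ T := by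
  rcases le_total w T with h | h
  · have e : (4 / 5 : ℝ) ^ T = (4 / 5) ^ w * (4 / 5) ^ (T - w) := by
      rw [← pow_add, Nat.add_sub_cancel' h]
    rw [e, ← mul_assoc, ← mul_pow]
    norm_num
  · rw [Nat.sub_eq_zero_of_le h, pow_zero]
    have e : (5 / 4 : ℝ) ^ w = (5 / 4) ^ T * (5 / 4) ^ (w - T) := by
      rw [← pow_add, Nat.add_sub_cancel' h]
    have h1 : (1 : ℝ) ≤ (5 / 4) ^ (w - T) := one_le_pow₀ (by norm_num)
    have h2 : (5 / 4 : ℝ) ^ T * (4 / 5) ^ T = 1 := by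
      rw [← mul_pow]
      norm_num
    rw [e, mul_right_comm, h2, one_mul]
    exact h1

open Classical in
/-- one triple of quadratic forms -/
private theorem SL_fibre {C0 : ℕ} (hR2 : ∀ a b : ℤ, b ≠ 0 → a ^ 2 - 4 * b ≠ 0 →
    Few (81 * b - 27 * a ^ 2) (54 * a ^ 3 - 243 * (a * b))
      (b.natAbs.primeFactors.card + (a ^ 2 - 4 * b).natAbs.primeFactors.card + C0))
    {n : ℕ} (hn : Even n) (q : Fin 3 → Fin 3 → ℤ) {H : ℕ} (hH : 1 ≤ H) (hqH : ∀ i j, |q i j| ≤ (H : ℤ)) {w t : ℕ}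
    (ht : 2 * w + C0 + 4 ≤ t)
    (S : Finset ℕ) {X U Y e : ℕ} (hS : ∀ p ∈ S, p.Prime ∧ 29 ≤ p ∧ p ≤ X) (hU : 1 ≤ U) (hY : 4 * U ≤ Y)
    (hX : 3 * X ≤ Y * U) (he : 3 * X ≤ 2 ^ e) (hq : ∏ p ∈ S, p ≤ H) :
    (Nat.card {F : Fin (n + 6 + 1) → ℤ // (∀ i, |F i| ≤ (H : ℤ) ^ 4) ∧
      (Sol q F ∧ RR q F ≠ 0 ∧ (RR q F).natAbs.primeFactors.card ≤ w)} : ℝ) ≤
      2 ^ (n + 1) * (57 * (H : ℝ) ^ 4) ^ (n + 7) * (2 ^ (3 * (w + 1)) * (((primorial Y : ℝ) ^ e) ^ (t + 1)) ^ 3 *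
        (5 / 4) ^ w * (4 / 5) ^ (S.filter fun p => good p U (cq p q)).card) := by
  set B : ℝ := 2 ^ (3 * (w + 1)) * (((primorial Y : ℝ) ^ e) ^ (t + 1)) ^ 3 *
        (5 / 4) ^ w * (4 / 5) ^ (S.filter fun p => good p U (cq p q)).card with hB
  have hB0 : 0 ≤ B := by
    rw [hB]
    positivity
  have hH0 : (1 : ℝ) ≤ H := by exact_mod_cast hH
  have h1 : ∀ F : Fin (n + 6 + 1) → ℤ, (Nat.card {Q : Fin (n + 1) → ℤ // (∀ i, |Q i| ≤ (H : ℤ)) ∧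
      (Sol q (F + mulF q Q) ∧ RR q (F + mulF q Q) ≠ 0 ∧
        (RR q (F + mulF q Q)).natAbs.primeFactors.card ≤ w)} : ℝ) ≤ B * (4 * (H : ℝ)) ^ (n + 1) := by
    intro F
    by_cases hF : RR q F ≠ 0 ∧ (RR q F).natAbs.primeFactors.card ≤ w
    · have hk := one_fibre hn q F hF.1 hF.2
        (fun D hD hDR i j hij => SL_R2 hR2 q F hF.1 hF.2 ht D hD hDR i j hij) S hS hU hY hX he hq
      have e1 : Nat.card {Q : Fin (n + 1) → ℤ // (∀ i, |Q i| ≤ (H : ℤ)) ∧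
          (Sol q (F + mulF q Q) ∧ RR q (F + mulF q Q) ≠ 0 ∧
            (RR q (F + mulF q Q)).natAbs.primeFactors.card ≤ w)} =
          Nat.card {Q : Fin (n + 1) → ℤ // (∀ i, |Q i| ≤ (H : ℤ)) ∧ Sol q (F + mulF q Q)} := by
        refine Nat.card_congr (Equiv.subtypeEquivRight fun Q => ?_)
        rw [RR_add]
        exact ⟨fun h => ⟨h.1, h.2.1⟩, fun h => ⟨h.1, h.2, hF⟩⟩
      rw [e1]
      refine hk.trans ?_
      have h45 := SL_45 (S.filter fun p => good p U (cq p q)).card w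
      calc (2 : ℝ) ^ (3 * (w + 1)) * (((primorial Y : ℝ) ^ e) ^ (t + 1)) ^ 3 * ((4 * (H : ℝ)) ^ (n + 1) *
            (4 / 5) ^ ((S.filter fun p => good p U (cq p q)).card - w))
          ≤ (2 : ℝ) ^ (3 * (w + 1)) * (((primorial Y : ℝ) ^ e) ^ (t + 1)) ^ 3 * ((4 * (H : ℝ)) ^ (n + 1) *
            ((5 / 4) ^ w * (4 / 5) ^ (S.filter fun p => good p U (cq p q)).card)) := by gcongr
        _ = B * (4 * (H : ℝ)) ^ (n + 1) := by
            rw [hB]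
            ring
    · have e1 : Nat.card {Q : Fin (n + 1) → ℤ // (∀ i, |Q i| ≤ (H : ℤ)) ∧
          (Sol q (F + mulF q Q) ∧ RR q (F + mulF q Q) ≠ 0 ∧
            (RR q (F + mulF q Q)).natAbs.primeFactors.card ≤ w)} = 0 := by
        have : IsEmpty {Q : Fin (n + 1) → ℤ // (∀ i, |Q i| ≤ (H : ℤ)) ∧
          (Sol q (F + mulF q Q) ∧ RR q (F + mulF q Q) ≠ 0 ∧
            (RR q (F + mulF q Q)).natAbs.primeFactors.card ≤ w)} := by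
          refine ⟨fun Q => hF ?_⟩
          have := Q.2.2.2
          rw [RR_add] at this
          exact this
        exact Nat.card_of_isEmpty
      rw [e1]
      push_cast
      positivity
  have h2 := average (n := n) q hqH (fun F => Sol q F ∧ RR q F ≠ 0 ∧ (RR q F).natAbs.primeFactors.card ≤ w)
  have h3 : ((Fintype.piFinset (fun _ : Fin (n + 6 + 1) => Icc (-(28 * (H : ℤ) ^ 4)) (28 * (H : ℤ) ^ 4))).card : ℝ) ≤
      (57 * (H : ℝ) ^ 4) ^ (n + 7) := by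
    rw [Fintype.card_piFinset, prod_const, card_univ, Fintype.card_fin, Int.card_Icc]
    have h4 : (28 * (H : ℤ) ^ 4 + 1 - -(28 * (H : ℤ) ^ 4)).toNat = 56 * H ^ 4 + 1 := by
      have : 28 * (H : ℤ) ^ 4 + 1 - -(28 * (H : ℤ) ^ 4) = ((56 * H ^ 4 + 1 : ℕ) : ℤ) := by
        push_cast
        ring
      rw [this, Int.toNat_natCast]
    rw [h4]
    push_cast
    refine pow_le_pow_left₀ (by positivity) ?_ _
    have : (1 : ℝ) ≤ (H : ℝ) ^ 4 := one_le_pow₀ hH0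
    linarith
  have h4 : (Nat.card {F : Fin (n + 6 + 1) → ℤ // (∀ i, |F i| ≤ (H : ℤ) ^ 4) ∧
      (Sol q F ∧ RR q F ≠ 0 ∧ (RR q F).natAbs.primeFactors.card ≤ w)} : ℝ) * (2 * (H : ℝ) + 1) ^ (n + 1) ≤
      (57 * (H : ℝ) ^ 4) ^ (n + 7) * (B * (4 * (H : ℝ)) ^ (n + 1)) := by
    have h5 : (Nat.card {F : Fin (n + 6 + 1) → ℤ // (∀ i, |F i| ≤ (H : ℤ) ^ 4) ∧
      (Sol q F ∧ RR q F ≠ 0 ∧ (RR q F).natAbs.primeFactors.card ≤ w)} : ℝ) * (2 * (H : ℝ) + 1) ^ (n + 1) ≤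
      ∑ F ∈ Fintype.piFinset (fun _ : Fin (n + 6 + 1) => Icc (-(28 * (H : ℤ) ^ 4)) (28 * (H : ℤ) ^ 4)),
        (Nat.card {Q : Fin (n + 1) → ℤ // (∀ i, |Q i| ≤ (H : ℤ)) ∧
      (Sol q (F + mulF q Q) ∧ RR q (F + mulF q Q) ≠ 0 ∧
        (RR q (F + mulF q Q)).natAbs.primeFactors.card ≤ w)} : ℝ) := by
      exact_mod_cast h2
    refine h5.trans ((Finset.sum_le_sum fun F _ => h1 F).trans ?_)
    rw [Finset.sum_const, nsmul_eq_mul]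
    gcongr
  exact SL_div hH hB0 h4 (by positivity)

/-- the sum over the triples of quadratic forms for the parameters of `par_Q` -/
private theorem SL_card {α : Type*} {p : α → Prop} (s : Finset α) (h : ∀ x, x ∈ s ↔ p x) :
    Nat.card {x // p x} = s.card := Nat.subtype_card s h

open Classical in
/-- the numbers of pairs as a sum -/
private theorem SL_pairs {ι κ : Type} [Fintype ι] [DecidableEq ι] [Fintype κ] [DecidableEq κ] (H : ℕ) (P : (ι → ℤ) → (κ → ℤ) → Prop) :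
    Nat.card {z : (ι → ℤ) × (κ → ℤ) // (∀ i, |z.1 i| ≤ (H : ℤ)) ∧ (∀ i, |z.2 i| ≤ (H : ℤ) ^ 4) ∧ P z.1 z.2} =
      ∑ q ∈ Fintype.piFinset (fun _ : ι => Icc (-(H : ℤ)) (H : ℤ)),
        Nat.card {F : κ → ℤ // (∀ i, |F i| ≤ (H : ℤ) ^ 4) ∧ P q F} := by
  have h1 : ∀ q : ι → ℤ, Nat.card {F : κ → ℤ // (∀ i, |F i| ≤ (H : ℤ) ^ 4) ∧ P q F} =
      ((Fintype.piFinset (fun _ : κ => Icc (-((H : ℤ) ^ 4)) ((H : ℤ) ^ 4))).filter fun F => P q F).card := by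
    intro q
    refine SL_card _ fun F => ?_
    rw [mem_filter, Fintype.mem_piFinset]
    simp only [mem_Icc, abs_le]
  simp only [h1]
  rw [← card_sigma]
  rw [SL_card (((Fintype.piFinset (fun _ : ι => Icc (-(H : ℤ)) (H : ℤ))) ×ˢ
    (Fintype.piFinset (fun _ : κ => Icc (-((H : ℤ) ^ 4)) ((H : ℤ) ^ 4)))).filter fun z => P z.1 z.2)]
  · refine Finset.card_bij (fun z _ => (⟨z.1, z.2⟩ : (_ : ι → ℤ) × (κ → ℤ))) ?_ ?_ ?_
    · rintro ⟨q, F⟩ hz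
      rw [mem_filter, mem_product] at hz
      rw [mem_sigma, mem_filter]
      exact ⟨hz.1.1, hz.1.2, hz.2⟩
    · rintro ⟨q, F⟩ _ ⟨q', F'⟩ _ h
      have h5 : q = q' := congrArg Sigma.fst h
      have h6 : F = F' := congrArg (fun x : (_ : ι → ℤ) × (κ → ℤ) => x.2) h
      rw [h5, h6]
    · rintro ⟨q, F⟩ hz
      rw [mem_sigma, mem_filter] at hz
      refine ⟨(q, F), ?_, rfl⟩
      rw [mem_filter, mem_product]
      exact ⟨⟨hz.1, hz.2.1⟩, hz.2.2⟩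
  · rintro ⟨q, F⟩
    rw [mem_filter, mem_product, Fintype.mem_piFinset, Fintype.mem_piFinset]
    simp only [mem_Icc, abs_le]
    exact ⟨fun h => ⟨h.1.1, h.1.2, h.2⟩, fun h => ⟨⟨h.1, h.2.1⟩, h.2.2⟩⟩


private theorem SL_exp {w t e Y : ℕ} {A B : ℝ} (hAB : 3 * ((w : ℝ) + 1) * Real.log 2 + 3 * ((t : ℝ) + 1) * e * Y * Real.log 4 +
      w * Real.log (5 / 4) + A ≤ B) :
    2 ^ (3 * (w + 1)) * (((primorial Y : ℝ) ^ e) ^ (t + 1)) ^ 3 * (5 / 4) ^ w * Real.exp (-B) ≤ Real.exp (-A) := by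
  have hP : (0 : ℝ) < primorial Y := by exact_mod_cast primorial_pos Y
  have hP1 : (primorial Y : ℝ) ≤ 4 ^ Y := by exact_mod_cast primorial_le_four_pow Y
  have h1 : (((primorial Y : ℝ) ^ e) ^ (t + 1)) ^ 3 ≤ Real.exp (3 * ((t : ℝ) + 1) * e * Y * Real.log 4) := by
    have h2 : (((primorial Y : ℝ) ^ e) ^ (t + 1)) ^ 3 ≤ ((((4 : ℝ) ^ Y) ^ e) ^ (t + 1)) ^ 3 := by gcongr
    refine h2.trans (le_of_eq ?_)
    rw [← pow_mul, ← pow_mul, ← pow_mul, ← Real.exp_log (show (0 : ℝ) < 4 by norm_num), ← Real.exp_nat_mul]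
    congr 1
    rw [Real.log_exp]
    push_cast
    ring
  have h3 : (2 : ℝ) ^ (3 * (w + 1)) = Real.exp (3 * ((w : ℝ) + 1) * Real.log 2) := by
    rw [← Real.exp_log (show (0 : ℝ) < 2 by norm_num), ← Real.exp_nat_mul, Real.log_exp]
    push_cast
    ring_nf
  have h4 : (5 / 4 : ℝ) ^ w = Real.exp (w * Real.log (5 / 4)) := by
    rw [Real.exp_nat_mul, Real.exp_log (by norm_num)]
  rw [h3, h4]
  calc Real.exp (3 * ((w : ℝ) + 1) * Real.log 2) * (((primorial Y : ℝ) ^ e) ^ (t + 1)) ^ 3 *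
        Real.exp (w * Real.log (5 / 4)) * Real.exp (-B)
      ≤ Real.exp (3 * ((w : ℝ) + 1) * Real.log 2) * Real.exp (3 * ((t : ℝ) + 1) * e * Y * Real.log 4) *
        Real.exp (w * Real.log (5 / 4)) * Real.exp (-B) := by gcongr
    _ = Real.exp (3 * ((w : ℝ) + 1) * Real.log 2 + 3 * ((t : ℝ) + 1) * e * Y * Real.log 4 +
        w * Real.log (5 / 4) + -B) := by
        rw [Real.exp_add, Real.exp_add, Real.exp_add]
    _ ≤ Real.exp (-A) := Real.exp_le_exp.2 (by linarith)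

open Classical in
/-- the sum over the triples of quadratic forms -/
private theorem SL_main {C0 : ℕ} (hR2 : ∀ a b : ℤ, b ≠ 0 → a ^ 2 - 4 * b ≠ 0 →
    Few (81 * b - 27 * a ^ 2) (54 * a ^ 3 - 243 * (a * b))
      (b.natAbs.primeFactors.card + (a ^ 2 - 4 * b).natAbs.primeFactors.card + C0))
    {c : ℝ} (hc : 0 < c) {K₁ : ℕ} (hG : ∀ U : ℕ, K₁ ≤ U → ∀ p : ℕ, p.Prime → p % 4 = 3 → U ^ K₁ ≤ p →
      (K₁ : ℝ) * Real.log p ≤ U → c * (p : ℝ) ^ 9 / Real.log p ^ 3 ≤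
      (Nat.card {v : Fin 3 × Fin 3 → ZMod p // good p U (fun i j => v (i, j))} : ℝ))
    {K : ℝ} (hK : 1 ≤ K) {X : ℕ} (hKX : (X : ℝ) / (K * Real.log X) ≤
      (((Icc 1 X).filter fun p : ℕ => p.Prime ∧ p % 4 = 3 ∧ (X : ℝ) / K < p).card : ℝ))
    {n : ℕ} (hn : Even n) {H U t e Y w : ℕ} (hH : 1 ≤ H) (h4 : 4 ^ X ≤ H) (h29 : (29 : ℝ) ≤ X / K) (hU : 1 ≤ U)
    (hKU : K₁ ≤ U) (hUX : (U : ℝ) ^ K₁ ≤ X / K) (hlU : (K₁ : ℝ) * Real.log X ≤ U) (he : 3 * X ≤ 2 ^ e)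
    (hY : 4 * U ≤ Y) (hXY : 3 * X ≤ Y * U) (ht : 2 * w + C0 + 4 ≤ t) {c₀ : ℝ}
    (hpar : 3 * ((w : ℝ) + 1) * Real.log 2 + 3 * ((t : ℝ) + 1) * e * Y * Real.log 4 + w * Real.log (5 / 4) +
      (Real.log H) ^ c₀ ≤ c / (5 * K) * X / (Real.log X) ^ 4) :
    (Nat.card {z : (Fin 3 × Fin 3 → ℤ) × (Fin (n + 6 + 1) → ℤ) // (∀ i, |z.1 i| ≤ (H : ℤ)) ∧
      (∀ i, |z.2 i| ≤ (H : ℤ) ^ 4) ∧ (Sol (fun i j => z.1 (i, j)) z.2 ∧ RR (fun i j => z.1 (i, j)) z.2 ≠ 0 ∧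
        (RR (fun i j => z.1 (i, j)) z.2).natAbs.primeFactors.card ≤ w)} : ℝ) ≤
      2 ^ (n + 1) * 57 ^ (n + 7) * 4 ^ 9 * (H : ℝ) ^ (9 + 4 * (n + 7)) * Real.exp (-(Real.log H) ^ c₀) := by
  have hK0 : 0 < K := by linarith
  have hX29 : (29 : ℝ) ≤ X := h29.trans (div_le_self (Nat.cast_nonneg _) hK)
  have hlX : 0 < Real.log X := Real.log_pos (by linarith)
  set S : Finset ℕ := (Icc 1 X).filter fun p : ℕ => p.Prime ∧ p % 4 = 3 ∧ (X : ℝ) / K < p with hS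
  have hmem : ∀ p ∈ S, p.Prime ∧ p % 4 = 3 ∧ (X : ℝ) / K < p ∧ p ≤ X := by
    intro p hp
    rw [hS, mem_filter, mem_Icc] at hp
    exact ⟨hp.2.1, hp.2.2.1, hp.2.2.2, hp.1.2⟩
  have hSp : ∀ p ∈ S, p.Prime := fun p hp => (hmem p hp).1
  have hS29 : ∀ p ∈ S, p.Prime ∧ 29 ≤ p ∧ p ≤ X := by
    intro p hp
    refine ⟨hSp p hp, ?_, (hmem p hp).2.2.2⟩
    have : (29 : ℝ) ≤ p := h29.trans (hmem p hp).2.2.1.le
    exact_mod_cast this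
  have hq : ∏ p ∈ S, p ≤ H := by
    refine le_trans ?_ ((primorial_le_four_pow X).trans h4)
    unfold primorial
    refine Finset.prod_le_prod_of_subset_of_one_le' ?_ ?_
    · intro p hp
      rw [mem_filter, mem_range]
      exact ⟨Nat.lt_succ_of_le (hmem p hp).2.2.2, hSp p hp⟩
    · intro p hp _
      rw [mem_filter] at hp
      exact hp.2.one_lt.le
  set γ : ℕ → ℝ := fun _ => c / (Real.log X) ^ 3 with hγ
  have hγ1 : ∀ p ∈ S, γ p * (p : ℝ) ^ 9 ≤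
      (Nat.card {v : Fin 3 × Fin 3 → ZMod p // good p U (fun i j => v (i, j))} : ℝ) := by
    intro p hp
    have hpX : (p : ℝ) ≤ X := by exact_mod_cast (hmem p hp).2.2.2
    have hp29 : (29 : ℝ) ≤ p := by exact_mod_cast (hS29 p hp).2.1
    have hlp : 0 < Real.log p := Real.log_pos (by linarith)
    have hlpX : Real.log p ≤ Real.log X := Real.log_le_log (by linarith) hpX
    have hUp : U ^ K₁ ≤ p := by
      have : (U : ℝ) ^ K₁ ≤ p := hUX.trans (hmem p hp).2.2.1.le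
      exact_mod_cast this
    have hKl : (K₁ : ℝ) * Real.log p ≤ U := le_trans (by gcongr) hlU
    refine le_trans ?_ (hG U hKU p (hSp p hp) (hmem p hp).2.1 hUp hKl)
    show c / (Real.log X) ^ 3 * (p : ℝ) ^ 9 ≤ c * (p : ℝ) ^ 9 / Real.log p ^ 3
    rw [div_mul_eq_mul_div]
    gcongr
  have hsum := sum_q S hSp hq γ hγ1
  have hγs : c / (5 * K) * X / (Real.log X) ^ 4 ≤ 1 / 5 * ∑ p ∈ S, γ p := by
    rw [Finset.sum_const, nsmul_eq_mul]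
    have h5 : c / (5 * K) * X / (Real.log X) ^ 4 = 1 / 5 * ((X : ℝ) / (K * Real.log X) * (c / (Real.log X) ^ 3)) := by
      field_simp
    rw [h5]
    have h6 : 0 ≤ c / (Real.log X) ^ 3 := by positivity
    gcongr
  have hbd : ∀ q ∈ Fintype.piFinset (fun _ : Fin 3 × Fin 3 => Icc (-(H : ℤ)) (H : ℤ)),
      (Nat.card {F : Fin (n + 6 + 1) → ℤ // (∀ i, |F i| ≤ (H : ℤ) ^ 4) ∧
        (Sol (fun i j => q (i, j)) F ∧ RR (fun i j => q (i, j)) F ≠ 0 ∧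
          (RR (fun i j => q (i, j)) F).natAbs.primeFactors.card ≤ w)} : ℝ) ≤
      2 ^ (n + 1) * (57 * (H : ℝ) ^ 4) ^ (n + 7) * (2 ^ (3 * (w + 1)) * (((primorial Y : ℝ) ^ e) ^ (t + 1)) ^ 3 *
        (5 / 4) ^ w) * (4 / 5) ^ (S.filter fun p => good p U (cq p (fun i j => q (i, j)))).card := by
    intro q hq'
    rw [Fintype.mem_piFinset] at hq'
    have hqH : ∀ i j : Fin 3, |q (i, j)| ≤ (H : ℤ) := fun i j => abs_le.2 (mem_Icc.1 (hq' (i, j)))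
    have := SL_fibre hR2 hn (fun i j => q (i, j)) hH hqH ht S hS29 hU hY hXY he hq
    refine this.trans (le_of_eq ?_)
    ring
  rw [SL_pairs H fun q F => Sol (fun i j => q (i, j)) F ∧ RR (fun i j => q (i, j)) F ≠ 0 ∧
          (RR (fun i j => q (i, j)) F).natAbs.primeFactors.card ≤ w]
  push_cast
  refine (Finset.sum_le_sum hbd).trans ?_
  rw [← Finset.mul_sum]
  have hexp := SL_exp hpar
  have hM : 0 ≤ 2 ^ (n + 1) * (57 * (H : ℝ) ^ 4) ^ (n + 7) * (2 ^ (3 * (w + 1)) *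
      (((primorial Y : ℝ) ^ e) ^ (t + 1)) ^ 3 * (5 / 4) ^ w) := by positivity
  have hE : Real.exp (-(1 / 5 * ∑ p ∈ S, γ p)) ≤ Real.exp (-(c / (5 * K) * X / (Real.log X) ^ 4)) :=
    Real.exp_le_exp.2 (by linarith)
  have hH9 : 0 ≤ (4 * (H : ℝ)) ^ 9 := by positivity
  calc 2 ^ (n + 1) * (57 * (H : ℝ) ^ 4) ^ (n + 7) * (2 ^ (3 * (w + 1)) * (((primorial Y : ℝ) ^ e) ^ (t + 1)) ^ 3 *
        (5 / 4) ^ w) * ∑ q ∈ Fintype.piFinset (fun _ : Fin 3 × Fin 3 => Icc (-(H : ℤ)) (H : ℤ)),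
        (4 / 5 : ℝ) ^ (S.filter fun p => good p U (cq p (fun i j => q (i, j)))).card
      ≤ 2 ^ (n + 1) * (57 * (H : ℝ) ^ 4) ^ (n + 7) * (2 ^ (3 * (w + 1)) * (((primorial Y : ℝ) ^ e) ^ (t + 1)) ^ 3 *
        (5 / 4) ^ w) * ((4 * (H : ℝ)) ^ 9 * Real.exp (-(c / (5 * K) * X / (Real.log X) ^ 4))) :=
        mul_le_mul_of_nonneg_left (hsum.trans (mul_le_mul_of_nonneg_left hE hH9)) hM
    _ = 2 ^ (n + 1) * (57 * (H : ℝ) ^ 4) ^ (n + 7) * (4 * (H : ℝ)) ^ 9 * (2 ^ (3 * (w + 1)) *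
        (((primorial Y : ℝ) ^ e) ^ (t + 1)) ^ 3 * (5 / 4) ^ w * Real.exp (-(c / (5 * K) * X / (Real.log X) ^ 4))) := by
        ring
    _ ≤ 2 ^ (n + 1) * (57 * (H : ℝ) ^ 4) ^ (n + 7) * (4 * (H : ℝ)) ^ 9 * Real.exp (-(Real.log H) ^ c₀) :=
        mul_le_mul_of_nonneg_left hexp (by positivity)
    _ = 2 ^ (n + 1) * 57 ^ (n + 7) * 4 ^ 9 * (H : ℝ) ^ (9 + 4 * (n + 7)) * Real.exp (-(Real.log H) ^ c₀) := by
        rw [mul_pow, mul_pow, ← pow_mul, pow_add]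
        ring

open Classical in
/-- small `H` -/
private theorem SL_small {m H : ℕ} (hH : 1 ≤ H) (P : (Fin 3 × Fin 3 → ℤ) → (Fin (m + 1) → ℤ) → Prop) :
    (Nat.card {z : (Fin 3 × Fin 3 → ℤ) × (Fin (m + 1) → ℤ) // (∀ i, |z.1 i| ≤ (H : ℤ)) ∧
      (∀ i, |z.2 i| ≤ (H : ℤ) ^ 4) ∧ P z.1 z.2} : ℝ) ≤ 3 ^ (9 + (m + 1)) * (H : ℝ) ^ (9 + 4 * (m + 1)) := by
  rw [SL_pairs H P]
  have hH0 : (1 : ℝ) ≤ H := by exact_mod_cast hH
  have h1 : ∀ q : Fin 3 × Fin 3 → ℤ, Nat.card {F : Fin (m + 1) → ℤ // (∀ i, |F i| ≤ (H : ℤ) ^ 4) ∧ P q F} ≤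
      (2 * H ^ 4 + 1) ^ (m + 1) := by
    intro q
    rw [SL_card ((Fintype.piFinset (fun _ : Fin (m + 1) => Icc (-((H : ℤ) ^ 4)) ((H : ℤ) ^ 4))).filter fun F => P q F)]
    · refine (Finset.card_filter_le _ _).trans (le_of_eq ?_)
      rw [Fintype.card_piFinset, prod_const, card_univ, Fintype.card_fin, Int.card_Icc]
      congr 1
      have : (H : ℤ) ^ 4 + 1 - -((H : ℤ) ^ 4) = ((2 * H ^ 4 + 1 : ℕ) : ℤ) := by
        push_cast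
        ring
      rw [this, Int.toNat_natCast]
    · intro F
      rw [mem_filter, Fintype.mem_piFinset]
      simp only [mem_Icc, abs_le]
  have h2 : (Fintype.piFinset (fun _ : Fin 3 × Fin 3 => Icc (-(H : ℤ)) (H : ℤ))).card = (2 * H + 1) ^ 9 := by
    rw [Fintype.card_piFinset, prod_const, card_univ, Fintype.card_prod, Fintype.card_fin, Int.card_Icc]
    congr 1
    omega
  have h3 : ∑ q ∈ Fintype.piFinset (fun _ : Fin 3 × Fin 3 => Icc (-(H : ℤ)) (H : ℤ)),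
      Nat.card {F : Fin (m + 1) → ℤ // (∀ i, |F i| ≤ (H : ℤ) ^ 4) ∧ P q F} ≤
      (2 * H + 1) ^ 9 * (2 * H ^ 4 + 1) ^ (m + 1) := by
    refine (Finset.sum_le_card_nsmul _ _ _ fun q _ => h1 q).trans (le_of_eq ?_)
    rw [h2, nsmul_eq_mul]
    push_cast
    ring
  have h4 : ((∑ q ∈ Fintype.piFinset (fun _ : Fin 3 × Fin 3 => Icc (-(H : ℤ)) (H : ℤ)),
      Nat.card {F : Fin (m + 1) → ℤ // (∀ i, |F i| ≤ (H : ℤ) ^ 4) ∧ P q F} : ℕ) : ℝ) ≤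
      (2 * (H : ℝ) + 1) ^ 9 * (2 * (H : ℝ) ^ 4 + 1) ^ (m + 1) := by exact_mod_cast h3
  refine h4.trans ?_
  have h5 : (1 : ℝ) ≤ (H : ℝ) ^ 4 := one_le_pow₀ hH0
  calc (2 * (H : ℝ) + 1) ^ 9 * (2 * (H : ℝ) ^ 4 + 1) ^ (m + 1)
      ≤ (3 * (H : ℝ)) ^ 9 * (3 * (H : ℝ) ^ 4) ^ (m + 1) := by
        gcongr
        · linarith
        · linarith
    _ = 3 ^ (9 + (m + 1)) * (H : ℝ) ^ (9 + 4 * (m + 1)) := by
        rw [mul_pow, mul_pow, ← pow_mul, pow_add, pow_add]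
        ring

open Classical in
private theorem SL_split {ι κ : Type} [Fintype ι] [DecidableEq ι] [Fintype κ] [DecidableEq κ] (H : ℕ)
    (P P₁ P₂ : (ι → ℤ) → (κ → ℤ) → Prop) (h : ∀ q F, P q F → P₁ q F ∨ P₂ q F) :
    Nat.card {z : (ι → ℤ) × (κ → ℤ) // (∀ i, |z.1 i| ≤ (H : ℤ)) ∧ (∀ i, |z.2 i| ≤ (H : ℤ) ^ 4) ∧ P z.1 z.2} ≤
      Nat.card {z : (ι → ℤ) × (κ → ℤ) // (∀ i, |z.1 i| ≤ (H : ℤ)) ∧ (∀ i, |z.2 i| ≤ (H : ℤ) ^ 4) ∧ P₁ z.1 z.2} +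
      Nat.card {z : (ι → ℤ) × (κ → ℤ) // (∀ i, |z.1 i| ≤ (H : ℤ)) ∧ (∀ i, |z.2 i| ≤ (H : ℤ) ^ 4) ∧ P₂ z.1 z.2} := by
  have hBx : ∀ P : (ι → ℤ) → (κ → ℤ) → Prop,
      Nat.card {z : (ι → ℤ) × (κ → ℤ) // (∀ i, |z.1 i| ≤ (H : ℤ)) ∧ (∀ i, |z.2 i| ≤ (H : ℤ) ^ 4) ∧ P z.1 z.2} =
      (((Fintype.piFinset (fun _ : ι => Icc (-(H : ℤ)) (H : ℤ))) ×ˢ
        (Fintype.piFinset (fun _ : κ => Icc (-((H : ℤ) ^ 4)) ((H : ℤ) ^ 4)))).filter
          fun z => P z.1 z.2).card := by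
    intro P
    refine SL_card _ ?_
    rintro ⟨q, F⟩
    rw [mem_filter, mem_product, Fintype.mem_piFinset, Fintype.mem_piFinset]
    simp only [mem_Icc, abs_le]
    exact ⟨fun h => ⟨h.1.1, h.1.2, h.2⟩, fun h => ⟨⟨h.1, h.2.1⟩, h.2.2⟩⟩
  rw [hBx P, hBx P₁, hBx P₂]
  refine (Finset.card_le_card ?_).trans (Finset.card_union_le _ _)
  intro z hz
  rw [mem_filter] at hz
  rw [mem_union, mem_filter, mem_filter]
  rcases h z.1 z.2 hz.2 with h' | h'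
  · exact Or.inl ⟨hz.1, h'⟩
  · exact Or.inr ⟨hz.1, h'⟩

open Classical in
/-- stage 1 -/
theorem all_hyp (hR : FactR2) (hG : FactG) (hO : FactO) : ∃ c : ℝ, 0 < c ∧ ∀ n : ℕ, Even n → ∃ C : ℝ, ∀ H : ℕ, 1 ≤ H →
    (Nat.card {z : (Fin 3 × Fin 3 → ℤ) × (Fin (n + 6 + 1) → ℤ) // (∀ i, |z.1 i| ≤ (H : ℤ)) ∧
      (∀ i, |z.2 i| ≤ (H : ℤ) ^ 4) ∧ Sol (fun i j => z.1 (i, j)) z.2} : ℝ) ≤
      C * (H : ℝ) ^ (9 + 4 * (n + 7)) * Real.exp (-(Real.log H) ^ c) := by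
  obtain ⟨C0, hR2⟩ := hR
  obtain ⟨cG, hcG, K₁, hG⟩ := hG
  obtain ⟨K, hK, x₀, hpr⟩ := primes34
  obtain ⟨c₀, hc₀, hc₁, hpar⟩ := par_Q K₁
  refine ⟨c₀, hc₀, fun n hn => ?_⟩
  obtain ⟨CO, hCO⟩ := hO c₀ hc₀ hc₁ (n + 6)
  have hK0 : 0 < K := by linarith
  obtain ⟨H₀, hH₀⟩ := hpar K (cG / (5 * K)) C0 hK (by positivity) x₀
  have hlog0 : ∀ H : ℕ, 1 ≤ H → 0 ≤ Real.log (H : ℝ) := fun H hH => Real.log_nonneg (by exact_mod_cast hH)
  refine ⟨|CO| + 2 ^ (n + 1) * 57 ^ (n + 7) * 4 ^ 9 + 3 ^ (9 + (n + 7)) * Real.exp ((Real.log H₀) ^ c₀),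
    fun H hH => ?_⟩
  have hE0 : 0 < Real.exp (-(Real.log H) ^ c₀) := Real.exp_pos _
  have hHp : 0 ≤ (H : ℝ) ^ (9 + 4 * (n + 7)) := by positivity
  rcases lt_or_ge H H₀ with hlt | hge
  · have h1 := SL_small hH (fun q (F : Fin (n + 6 + 1) → ℤ) => Sol (fun i j => q (i, j)) F)
    refine h1.trans ?_
    have h2 : (1 : ℝ) ≤ Real.exp ((Real.log H₀) ^ c₀) * Real.exp (-(Real.log H) ^ c₀) := by
      rw [← Real.exp_add]
      refine Real.one_le_exp ?_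
      have : (Real.log H) ^ c₀ ≤ (Real.log H₀) ^ c₀ := by
        refine Real.rpow_le_rpow (hlog0 H hH) ?_ hc₀.le
        exact Real.log_le_log (by exact_mod_cast hH) (by exact_mod_cast hlt.le)
      linarith
    have h3 : (0 : ℝ) ≤ 3 ^ (9 + (n + 7)) * (H : ℝ) ^ (9 + 4 * (n + 7)) := by positivity
    have h4 : (0 : ℝ) ≤ (|CO| + 2 ^ (n + 1) * 57 ^ (n + 7) * 4 ^ 9) * ((H : ℝ) ^ (9 + 4 * (n + 7)) *
        Real.exp (-(Real.log H) ^ c₀)) := by positivity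
    have h5 := mul_le_mul_of_nonneg_left h2 h3
    calc (3 : ℝ) ^ (9 + (n + 6 + 1)) * (H : ℝ) ^ (9 + 4 * (n + 6 + 1))
        = 3 ^ (9 + (n + 7)) * (H : ℝ) ^ (9 + 4 * (n + 7)) * 1 := by ring
      _ ≤ 3 ^ (9 + (n + 7)) * (H : ℝ) ^ (9 + 4 * (n + 7)) *
          (Real.exp ((Real.log H₀) ^ c₀) * Real.exp (-(Real.log H) ^ c₀)) := h5
      _ ≤ (|CO| + 2 ^ (n + 1) * 57 ^ (n + 7) * 4 ^ 9) * ((H : ℝ) ^ (9 + 4 * (n + 7)) *
          Real.exp (-(Real.log H) ^ c₀)) + 3 ^ (9 + (n + 7)) * (H : ℝ) ^ (9 + 4 * (n + 7)) *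
          (Real.exp ((Real.log H₀) ^ c₀) * Real.exp (-(Real.log H) ^ c₀)) := le_add_of_nonneg_left h4
      _ = (|CO| + 2 ^ (n + 1) * 57 ^ (n + 7) * 4 ^ 9 + 3 ^ (9 + (n + 7)) * Real.exp ((Real.log H₀) ^ c₀)) *
          (H : ℝ) ^ (9 + 4 * (n + 7)) * Real.exp (-(Real.log H) ^ c₀) := by ring
  · obtain ⟨X, U, t, e, Y, w, hx₀, h4X, h29, hU, hKU, hUX, hlU, he, hY, hXY, hw, ht, hp⟩ := hH₀ H hge
    have hmain := SL_main hR2 hcG hG hK (hpr X hx₀) hn hH h4X h29 hU hKU hUX hlU he hY hXY ht hp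
    have hfo := hCO H hH
    have hsplit : Nat.card {z : (Fin 3 × Fin 3 → ℤ) × (Fin (n + 6 + 1) → ℤ) // (∀ i, |z.1 i| ≤ (H : ℤ)) ∧
        (∀ i, |z.2 i| ≤ (H : ℤ) ^ 4) ∧ Sol (fun i j => z.1 (i, j)) z.2} ≤
        Nat.card {z : (Fin 3 × Fin 3 → ℤ) × (Fin (n + 6 + 1) → ℤ) // (∀ i, |z.1 i| ≤ (H : ℤ)) ∧
          (∀ i, |z.2 i| ≤ (H : ℤ) ^ 4) ∧ (RR (fun i j => z.1 (i, j)) z.2 = 0 ∨
            Real.log H ^ (3 * c₀) < ((RR (fun i j => z.1 (i, j)) z.2).natAbs.primeFactors.card : ℝ))} +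
        Nat.card {z : (Fin 3 × Fin 3 → ℤ) × (Fin (n + 6 + 1) → ℤ) // (∀ i, |z.1 i| ≤ (H : ℤ)) ∧
          (∀ i, |z.2 i| ≤ (H : ℤ) ^ 4) ∧ (Sol (fun i j => z.1 (i, j)) z.2 ∧ RR (fun i j => z.1 (i, j)) z.2 ≠ 0 ∧
            (RR (fun i j => z.1 (i, j)) z.2).natAbs.primeFactors.card ≤ w)} := by
      refine SL_split H (fun q F => Sol (fun i j => q (i, j)) F)
        (fun q F => RR (fun i j => q (i, j)) F = 0 ∨
            Real.log H ^ (3 * c₀) < ((RR (fun i j => q (i, j)) F).natAbs.primeFactors.card : ℝ))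
        (fun q F => Sol (fun i j => q (i, j)) F ∧ RR (fun i j => q (i, j)) F ≠ 0 ∧
            (RR (fun i j => q (i, j)) F).natAbs.primeFactors.card ≤ w) ?_
      intro q F hz
      by_cases hb : RR (fun i j => q (i, j)) F = 0 ∨
            Real.log H ^ (3 * c₀) < ((RR (fun i j => q (i, j)) F).natAbs.primeFactors.card : ℝ)
      · exact Or.inl hb
      · right
        rw [not_or, not_lt] at hb
        refine ⟨hz, hb.1, ?_⟩
        exact_mod_cast hb.2.trans hw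
    have hsp : (Nat.card {z : (Fin 3 × Fin 3 → ℤ) × (Fin (n + 6 + 1) → ℤ) // (∀ i, |z.1 i| ≤ (H : ℤ)) ∧
        (∀ i, |z.2 i| ≤ (H : ℤ) ^ 4) ∧ Sol (fun i j => z.1 (i, j)) z.2} : ℝ) ≤
        (Nat.card {z : (Fin 3 × Fin 3 → ℤ) × (Fin (n + 6 + 1) → ℤ) // (∀ i, |z.1 i| ≤ (H : ℤ)) ∧
          (∀ i, |z.2 i| ≤ (H : ℤ) ^ 4) ∧ (RR (fun i j => z.1 (i, j)) z.2 = 0 ∨
            Real.log H ^ (3 * c₀) < ((RR (fun i j => z.1 (i, j)) z.2).natAbs.primeFactors.card : ℝ))} : ℝ) +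
        (Nat.card {z : (Fin 3 × Fin 3 → ℤ) × (Fin (n + 6 + 1) → ℤ) // (∀ i, |z.1 i| ≤ (H : ℤ)) ∧
          (∀ i, |z.2 i| ≤ (H : ℤ) ^ 4) ∧ (Sol (fun i j => z.1 (i, j)) z.2 ∧ RR (fun i j => z.1 (i, j)) z.2 ≠ 0 ∧
            (RR (fun i j => z.1 (i, j)) z.2).natAbs.primeFactors.card ≤ w)} : ℝ) := by
      exact_mod_cast hsplit
    refine hsp.trans ((add_le_add hfo hmain).trans ?_)
    have e1 : (H : ℝ) ^ (9 + 4 * (n + 6 + 1)) = (H : ℝ) ^ (9 + 4 * (n + 7)) := by ring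
    rw [e1]
    have h6 : CO * (H : ℝ) ^ (9 + 4 * (n + 7)) * Real.exp (-(Real.log H) ^ c₀) ≤
        |CO| * (H : ℝ) ^ (9 + 4 * (n + 7)) * Real.exp (-(Real.log H) ^ c₀) := by
      gcongr
      exact le_abs_self _
    have h7 : (0 : ℝ) ≤ 3 ^ (9 + (n + 7)) * Real.exp ((Real.log H₀) ^ c₀) * ((H : ℝ) ^ (9 + 4 * (n + 7)) *
        Real.exp (-(Real.log H) ^ c₀)) := by positivity
    calc CO * (H : ℝ) ^ (9 + 4 * (n + 7)) * Real.exp (-(Real.log H) ^ c₀) +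
          2 ^ (n + 1) * 57 ^ (n + 7) * 4 ^ 9 * (H : ℝ) ^ (9 + 4 * (n + 7)) * Real.exp (-(Real.log H) ^ c₀)
        ≤ |CO| * (H : ℝ) ^ (9 + 4 * (n + 7)) * Real.exp (-(Real.log H) ^ c₀) +
          2 ^ (n + 1) * 57 ^ (n + 7) * 4 ^ 9 * (H : ℝ) ^ (9 + 4 * (n + 7)) * Real.exp (-(Real.log H) ^ c₀) +
          3 ^ (9 + (n + 7)) * Real.exp ((Real.log H₀) ^ c₀) * ((H : ℝ) ^ (9 + 4 * (n + 7)) *
            Real.exp (-(Real.log H) ^ c₀)) := by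
          linarith
      _ = (|CO| + 2 ^ (n + 1) * 57 ^ (n + 7) * 4 ^ 9 + 3 ^ (9 + (n + 7)) * Real.exp ((Real.log H₀) ^ c₀)) *
          (H : ℝ) ^ (9 + 4 * (n + 7)) * Real.exp (-(Real.log H) ^ c₀) := by ring

end HY
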